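import Mathlib

set_option autoImplicit false

/-!
# Large fields
-/

namespace Pool.Agent.NIPFields.LG

open scoped Polynomial

/-- Large (ample) fields: every plane curve with a smooth point has infinitely many points. -/
def Large (K : Type*) [Field K] : Prop :=
  ∀ f : K[X][X], (∃ x y : K, f.evalEval x y = 0 ∧ (Polynomial.derivative f).evalEval x y ≠ 0) →
    {v : K × K | f.evalEval v.1 v.2 = 0}.Infinite

end Pool.Agent.NIPFields.LG
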