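import Mathlib
import Pool.Agent.NIPFields.LG.Defs
import Pool.Agent.NIPFields.LG.Large

/-!
# Large fields satisfy `TL`

For a finite set of `a`s consider the curve `b_a ^ q = 1 + a d` and the function
`W = ∑ lam_a b_a` on it, where the `lam_a` are chosen so that at `d = 0` the `q ^ n` values of `W`
are different. `W` is a zero of the characteristic polynomial `G` of the matrix of multiplication
by `W` on the `K[d]`-module with the basis of all monomials in the `b_a` of degree `< q` in each
`b_a`, so that `(0, ∑ lam_a)` is a smooth point of `G = 0`. If `K` is large we get a point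
`(d, W)` with `d ≠ 0` such that `G(d, -)` is separable, and then all `b_a` are in `K`.
-/

set_option autoImplicit false

namespace Pool.Agent.NIPFields.LG

open Pool.Agent.NIPFields.FI
open scoped Polynomial
open Polynomial

section matrix

variable {ι : Type*} [Fintype ι] [DecidableEq ι] {q : ℕ} [NeZero q]

/-- The matrix of multiplication by `∑ lam_a b_a` where `b_a ^ q = e_a`. -/
def ltM {R : Type*} [CommRing R] (q : ℕ) [NeZero q] (lam e : ι → R) :
    Matrix (ι → Fin q) (ι → Fin q) R := fun k l =>
  ∑ a, lam a * (if l = Function.update k a (k a + 1) then (if (k a).val + 1 = q then e a else 1)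
    else 0)

theorem ltM_map {R S : Type*} [CommRing R] [CommRing S] (φ : R →+* S) (lam e : ι → R) :
    (ltM q lam e).map φ = ltM q (fun a => φ (lam a)) (fun a => φ (e a)) := by
  ext k l
  simp only [ltM, Matrix.map_apply, map_sum, map_mul]
  refine Finset.sum_congr rfl fun a _ => ?_
  split_ifs <;> simp

/-- The vector of monomials. -/
def ltV {R : Type*} [CommRing R] (q : ℕ) (b : ι → R) (k : ι → Fin q) : R := ∏ a, b a ^ (k a).val

theorem ltV_update {R : Type*} [CommRing R] {e b : ι → R} (hb : ∀ a, b a ^ q = e a)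
    (k : ι → Fin q) (a : ι) :
    (if (k a).val + 1 = q then e a else 1) * ltV q b (Function.update k a (k a + 1)) =
      b a * ltV q b k := by
  have hq : 0 < q := Nat.pos_of_ne_zero (NeZero.ne q)
  have h1 : ltV q b (Function.update k a (k a + 1)) =
      b a ^ ((k a + 1 : Fin q)).val * ∏ a' ∈ Finset.univ.erase a, b a' ^ (k a').val := by
    unfold ltV
    rw [← Finset.mul_prod_erase Finset.univ _ (Finset.mem_univ a)]
    rw [Function.update_self]
    congr 1
    refine Finset.prod_congr rfl fun a' ha' => ?_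
    rw [Function.update_of_ne (Finset.ne_of_mem_erase ha')]
  have h2 : ltV q b k = b a ^ (k a).val * ∏ a' ∈ Finset.univ.erase a, b a' ^ (k a').val := by
    unfold ltV
    rw [← Finset.mul_prod_erase Finset.univ _ (Finset.mem_univ a)]
  rw [h1, h2]
  by_cases h : (k a).val + 1 = q
  · have h3 : ((k a + 1 : Fin q)).val = 0 := by
      rw [Fin.val_add]
      rcases Nat.lt_or_ge 1 q with hq1 | hq1
      · rw [Fin.val_one', Nat.mod_eq_of_lt hq1, h, Nat.mod_self]
      · have hq2 : q = 1 := by omega
        have : ∀ n : ℕ, n % q = 0 := fun n => by rw [hq2]; exact Nat.mod_one n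
        exact this _
    rw [if_pos h, h3, pow_zero, one_mul, ← hb a, ← mul_assoc, ← pow_succ', h]
  · have h3 : ((k a + 1 : Fin q)).val = (k a).val + 1 := by
      have := (k a).2
      rw [Fin.val_add, Fin.val_one', Nat.mod_eq_of_lt (show 1 < q by omega)]
      exact Nat.mod_eq_of_lt (by omega)
    rw [if_neg h, h3, one_mul, pow_succ']
    ring

theorem ltM_mulVec {R : Type*} [CommRing R] {lam e b : ι → R} (hb : ∀ a, b a ^ q = e a) :
    (ltM q lam e).mulVec (ltV q b) = (∑ a, lam a * b a) • ltV q b := by
  funext k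
  simp only [Matrix.mulVec, dotProduct, ltM, Pi.smul_apply, smul_eq_mul, Finset.sum_mul]
  rw [Finset.sum_comm]
  refine Finset.sum_congr rfl fun a _ => ?_
  rw [Finset.sum_eq_single (Function.update k a (k a + 1))]
  · rw [if_pos rfl, mul_assoc, mul_assoc, ltV_update hb]
  · intro l _ hl
    rw [if_neg hl]
    simp
  · intro h
    exact absurd (Finset.mem_univ _) h

omit [DecidableEq ι] in
theorem ltV_zero {R : Type*} [CommRing R] (b : ι → R) : ltV q b 0 = 1 := by
  unfold ltV
  simp

theorem ltV_single {R : Type*} [CommRing R] (b : ι → R) (a : ι) (h : 1 < q) :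
    ltV q b (Function.update 0 a 1) = b a := by
  unfold ltV
  rw [← Finset.mul_prod_erase Finset.univ _ (Finset.mem_univ a)]
  rw [Function.update_self, Finset.prod_eq_one, mul_one]
  · rw [Fin.val_one', Nat.mod_eq_of_lt h, pow_one]
  · intro a' ha'
    rw [Function.update_of_ne (Finset.ne_of_mem_erase ha')]
    simp

theorem ltM_root {R : Type*} [CommRing R] [IsDomain R] {lam e b : ι → R}
    (hb : ∀ a, b a ^ q = e a) : (ltM q lam e).charpoly.IsRoot (∑ a, lam a * b a) := by
  rw [IsRoot, Matrix.eval_charpoly, ← Matrix.exists_mulVec_eq_zero_iff]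
  refine ⟨ltV q b, ?_, ?_⟩
  · intro h
    have := congrFun h 0
    rw [ltV_zero] at this
    simp at this
  · rw [Matrix.sub_mulVec, ltM_mulVec hb]
    rw [sub_eq_zero]
    have h : ∀ (μ : R) (v : (ι → Fin q) → R),
        (Matrix.scalar (ι → Fin q) μ).mulVec v = μ • v := by
      intro μ v
      funext k
      simp [Matrix.scalar_apply, Matrix.mulVec_diagonal]
    exact h _ _

end matrix

section alg

variable {ι : Type*} [Fintype ι] [DecidableEq ι] {q : ℕ} [NeZero q] {Om : Type*} [Field Om]
  [IsAlgClosed Om]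

/-- All families of `q`-th roots. -/
noncomputable def ltB (q : ℕ) (e : ι → Om) : Finset (ι → Om) :=
  by classical exact Fintype.piFinset fun a => (X ^ q - C (e a) : Om[X]).roots.toFinset

omit [NeZero q] [IsAlgClosed Om] in
theorem mem_ltB (hq : q ≠ 0) {e b : ι → Om} : b ∈ ltB q e ↔ ∀ a, b a ^ q = e a := by
  classical
  unfold ltB
  rw [Fintype.mem_piFinset]
  refine forall_congr' fun a => ?_
  rw [Multiset.mem_toFinset, mem_roots (X_pow_sub_C_ne_zero (Nat.pos_of_ne_zero hq) _)]
  simp [IsRoot, sub_eq_zero]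

omit [NeZero q] in
theorem card_ltB (hq : (q : Om) ≠ 0) {e : ι → Om} (he : ∀ a, e a ≠ 0) :
    (ltB q e).card = q ^ Fintype.card ι := by
  classical
  have hq0 : q ≠ 0 := by rintro rfl; simp at hq
  unfold ltB
  rw [Fintype.card_piFinset]
  rw [Finset.prod_congr rfl (g := fun _ => q)]
  · simp
  · intro a _
    have hs := separable_X_pow_sub_C (e a) hq (he a)
    rw [Multiset.toFinset_card_of_nodup (nodup_roots hs),
      ← (IsAlgClosed.splits (X ^ q - C (e a) : Om[X])).natDegree_eq_card_roots, natDegree_X_pow_sub_C]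

theorem ltM_roots (hq : (q : Om) ≠ 0) {lam e : ι → Om} (he : ∀ a, e a ≠ 0)
    (hinj : Set.InjOn (fun b : ι → Om => ∑ a, lam a * b a) (ltB q e)) :
    (ltM q lam e).charpoly.Separable ∧ ∀ x, (ltM q lam e).charpoly.IsRoot x →
      ∃ b : ι → Om, (∀ a, b a ^ q = e a) ∧ ∑ a, lam a * b a = x := by
  classical
  have hq0 : q ≠ 0 := NeZero.ne q
  set G := (ltM q lam e).charpoly with hG
  have hmon : G.Monic := Matrix.charpoly_monic _
  have hdeg : G.natDegree = q ^ Fintype.card ι := by
    rw [hG, Matrix.charpoly_natDegree_eq_dim]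
    simp
  set T := (ltB q e).image (fun b : ι → Om => ∑ a, lam a * b a) with hT
  have hTcard : T.card = q ^ Fintype.card ι := by
    rw [hT, Finset.card_image_of_injOn hinj, card_ltB hq he]
  have hTsub : T.val ≤ G.roots := by
    rw [Multiset.le_iff_subset T.nodup]
    intro x hx
    rw [Finset.mem_val, hT, Finset.mem_image] at hx
    obtain ⟨b, hb, rfl⟩ := hx
    rw [mem_roots hmon.ne_zero]
    exact ltM_root ((mem_ltB hq0).1 hb)
  have hEq : T.val = G.roots := by
    refine Multiset.eq_of_le_of_card_le hTsub ?_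
    calc Multiset.card G.roots ≤ G.natDegree := G.card_roots'
      _ = T.card := by rw [hdeg, hTcard]
      _ = Multiset.card T.val := rfl
  refine ⟨?_, ?_⟩
  · rw [← nodup_roots_iff_of_splits hmon.ne_zero (IsAlgClosed.splits G), ← hEq]
    exact T.nodup
  · intro x hx
    have hx' : x ∈ G.roots := (mem_roots hmon.ne_zero).2 hx
    rw [← hEq, Finset.mem_val, hT, Finset.mem_image] at hx'
    obtain ⟨b, hb, hbx⟩ := hx'
    exact ⟨b, (mem_ltB hq0).1 hb, hbx⟩

omit [IsAlgClosed Om] in
theorem ltM_inj (h1q : 1 < q) {lam e : ι → Om} (hs : (ltM q lam e).charpoly.Separable) :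
    Set.InjOn (fun b : ι → Om => ∑ a, lam a * b a) (ltB q e) := by
  classical
  have hq0 : q ≠ 0 := NeZero.ne q
  intro b hb b' hb' hbb
  simp only at hbb
  rw [Finset.mem_coe, mem_ltB hq0] at hb hb'
  by_contra hne
  set μ := ∑ a, lam a * b a with hμ
  set φ : Module.End Om ((ι → Fin q) → Om) := Matrix.toLin' (ltM q lam e) with hφ
  have h1 : ltV q b ∈ φ.eigenspace μ := by
    rw [Module.End.mem_eigenspace_iff, hφ, Matrix.toLin'_apply, ltM_mulVec hb]
  have h2 : ltV q b' ∈ φ.eigenspace μ := by
    rw [Module.End.mem_eigenspace_iff, hφ, Matrix.toLin'_apply, ltM_mulVec hb', ← hbb]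
  have h3 : Module.finrank Om (φ.eigenspace μ) ≤ 1 := by
    refine (LinearMap.finrank_eigenspace_le φ μ).trans ?_
    rw [hφ, Matrix.charpoly_toLin']
    exact rootMultiplicity_le_one_of_separable hs μ
  rw [finrank_le_one_iff] at h3
  obtain ⟨v, hv⟩ := h3
  obtain ⟨c, hc⟩ := hv ⟨_, h1⟩
  obtain ⟨c', hc'⟩ := hv ⟨_, h2⟩
  have e1 : ltV q b = c • (v : (ι → Fin q) → Om) := by
    have := congrArg Subtype.val hc
    simpa using this.symm
  have e2 : ltV q b' = c' • (v : (ι → Fin q) → Om) := by
    have := congrArg Subtype.val hc'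
    simpa using this.symm
  have z1 := congrFun e1 0
  have z2 := congrFun e2 0
  rw [ltV_zero, Pi.smul_apply, smul_eq_mul] at z1 z2
  have hcc : c = c' := by
    have hv0 : (v : (ι → Fin q) → Om) 0 ≠ 0 := by
      intro h
      rw [h, mul_zero] at z1
      exact one_ne_zero z1
    exact mul_right_cancel₀ hv0 (z1.symm.trans z2)
  apply hne
  funext a
  rw [← ltV_single b a h1q, ← ltV_single b' a h1q, e1, e2, hcc]

end alg

/-- Choice of the coefficients. -/
theorem exists_lam {K Om : Type*} [Field K] [Infinite K] [Field Om] [Algebra K Om] {ι : Type*}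
    [Fintype ι] (T : Finset (ι → Om)) :
    ∃ lam : ι → K, Set.InjOn (fun b : ι → Om => ∑ a, algebraMap K Om (lam a) * b a) T := by
  classical
  let i : ι ≃ Fin (Fintype.card ι) := Fintype.equivFin ι
  let P : (ι → Om) → Om[X] := fun b => ∑ a, C (b a) * X ^ (i a).val
  have hPc : ∀ b a, (P b).coeff (i a).val = b a := by
    intro b a
    simp only [P, finsetSum_coeff, coeff_C_mul, coeff_X_pow]
    rw [Finset.sum_eq_single a]
    · simp
    · intro a' _ ha'
      rw [if_neg, mul_zero]
      intro h
      exact ha' (i.injective (Fin.ext h.symm))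
    · intro h
      exact absurd (Finset.mem_univ a) h
  have hP : ∀ b, b ≠ 0 → P b ≠ 0 := by
    intro b hb h
    apply hb
    funext a
    rw [← hPc b a, h]
    simp
  let S : Finset Om := (T ×ˢ T).biUnion fun p => (P (p.1 - p.2)).roots.toFinset
  obtain ⟨t, ht⟩ := Infinite.exists_notMem_finset (S.preimage (algebraMap K Om)
    (algebraMap K Om).injective.injOn)
  refine ⟨fun a => t ^ (i a).val, ?_⟩
  intro b hb b' hb' h
  simp only [map_pow] at h
  by_contra hne
  apply ht
  rw [Finset.mem_preimage, Finset.mem_biUnion]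
  refine ⟨(b, b'), Finset.mem_product.2 ⟨hb, hb'⟩, ?_⟩
  rw [Multiset.mem_toFinset, mem_roots (hP _ (sub_ne_zero.2 hne)), IsRoot]
  simp only [P, eval_finsetSum, eval_mul, eval_C, eval_pow, eval_X, Pi.sub_apply]
  rw [← sub_eq_zero, ← Finset.sum_sub_distrib] at h
  rw [← h]
  refine Finset.sum_congr rfl fun a _ => ?_
  ring

/-- Descent of the roots. -/
theorem mem_range_of_fixed {K Om : Type*} [Field K] [Field Om] [Algebra K Om] [Normal K Om]
    {q : ℕ} {x : Om} {c : K} (hq : (q : K) ≠ 0) (hc : c ≠ 0) (hx : x ^ q = algebraMap K Om c)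
    (hfix : ∀ σ : Om ≃ₐ[K] Om, σ x = x) : x ∈ (algebraMap K Om).range := by
  have hs : (X ^ q - C c : K[X]).Separable := separable_X_pow_sub_C c hq hc
  have hd : minpoly K x ∣ (X ^ q - C c : K[X]) := by
    apply minpoly.dvd
    simp [hx]
  have hs' : (minpoly K x).Separable := hs.of_dvd hd
  have hint : IsIntegral K x := Normal.isIntegral inferInstance x
  have hspl : ((minpoly K x).map (algebraMap K Om)).Splits := Normal.splits inferInstance x
  have hmon := minpoly.monic hint
  apply minpoly.mem_range_of_degree_eq_one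
  rw [degree_eq_natDegree hmon.ne_zero]
  have h1 : ((minpoly K x).map (algebraMap K Om)).roots ≤ {x} := by
    rw [Multiset.le_iff_subset (nodup_roots (hs'.map))]
    intro y hy
    rw [mem_roots (map_ne_zero hmon.ne_zero), IsRoot, eval_map_algebraMap] at hy
    obtain ⟨σ, hσ⟩ := minpoly.exists_algEquiv_of_root hint.isAlgebraic hy
    have h2 := hfix σ⁻¹
    have h3 : y = x := by
      have : σ x = y ∨ σ y = x := by
        first
          | exact Or.inl hσ
          | exact Or.inr hσ
      rcases this with h | h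
      · rw [← h, hfix σ]
      · rw [← σ.injective.eq_iff, h, hfix σ]
    rw [h3]
    simp
  have h2 : (minpoly K x).natDegree ≤ 1 := by
    have h3 := Multiset.card_le_card h1
    rw [← hspl.natDegree_eq_card_roots, natDegree_map] at h3
    simpa using h3
  have h3 := minpoly.natDegree_pos hint
  have h4 : (minpoly K x).natDegree = 1 := by omega
  rw [h4]
  rfl

/-- **Large fields satisfy `TL`.** -/
theorem TL_of_large {K : Type*} [Field K] [Infinite K] (h : Large K) {q : ℕ}
    (hq : (q : K) ≠ 0) : TL K q := by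
  classical
  intro A
  have hq0 : q ≠ 0 := by rintro rfl; simp at hq
  have : NeZero q := ⟨hq0⟩
  rcases Nat.lt_or_ge 1 q with h1q | h1q
  swap
  · -- `q = 1`
    have hq1 : q = 1 := by omega
    subst hq1
    obtain ⟨t, ht⟩ := Infinite.exists_notMem_finset (insert 0 (A.image fun a => -a⁻¹))
    rw [Finset.mem_insert, not_or] at ht
    refine ⟨t, ht.1, fun a ha => ⟨1 + a * t, ?_, (pow_one _).symm⟩⟩
    intro h0
    apply ht.2
    rw [Finset.mem_image]
    refine ⟨a, ha, ?_⟩
    have ha0 : a ≠ 0 := by
      rintro rfl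
      simp at h0
    field_simp
    linear_combination -h0
  let Om := AlgebraicClosure K
  have hqO : (q : Om) ≠ 0 := by
    have := (map_ne_zero (algebraMap K Om)).2 hq
    rwa [map_natCast] at this
  obtain ⟨lam, hlam⟩ := exists_lam (K := K) (ltB q (fun _ : A => (1 : Om)))
  -- the curve
  let G : K[X][X] := (ltM q (fun a : A => C (lam a)) (fun a : A => 1 + C (a : K) * X)).charpoly
  have hGmon : G.Monic := Matrix.charpoly_monic _
  have hGK : ∀ d : K, G.map (evalRingHom d) =
      (ltM q lam (fun a : A => 1 + (a : K) * d)).charpoly := by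
    intro d
    rw [← Matrix.charpoly_map, ltM_map]
    simp
  have hGO : ∀ d : K, (G.map (evalRingHom d)).map (algebraMap K Om) =
      (ltM q (fun a => algebraMap K Om (lam a))
        (fun a : A => algebraMap K Om (1 + (a : K) * d))).charpoly := by
    intro d
    rw [hGK, ← Matrix.charpoly_map, ltM_map]
  -- separability at `0`
  have hs0 : (G.map (evalRingHom 0)).Separable := by
    rw [← separable_map (algebraMap K Om), hGO]
    simp only [mul_zero, add_zero, map_one]
    exact (ltM_roots hqO (fun _ => one_ne_zero) hlam).1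
  -- the resultant
  let D : K[X] := G.resultant G.derivative G.natDegree G.derivative.natDegree
  have hD0 : D.eval 0 ≠ 0 := by
    have e1 : D.eval 0 = (G.map (evalRingHom 0)).resultant (G.derivative.map (evalRingHom 0))
        G.natDegree G.derivative.natDegree := by
      rw [resultant_map_map]
      rfl
    have hdeg : G.natDegree = (G.map (evalRingHom 0)).natDegree := (hGmon.natDegree_map _).symm
    obtain ⟨k, hk⟩ := Nat.exists_eq_add_of_le
      (natDegree_map_le (f := evalRingHom (0 : K)) (p := G.derivative))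
    rw [e1, hk, resultant_add_right_deg _ _ _ _ _ le_rfl]
    have hc : (G.map (evalRingHom 0)).coeff G.natDegree = 1 := by
      rw [hdeg]
      exact (hGmon.map _).coeff_natDegree
    rw [hc, one_pow, one_mul, hdeg]
    apply resultant_ne_zero
    rw [← derivative_map]
    exact hs0
  have hDne : D ≠ 0 := by
    intro h0
    rw [h0] at hD0
    simp at hD0
  have hsd : ∀ d : K, D.eval d ≠ 0 → (G.map (evalRingHom d)).Separable := by
    intro d hd
    have hG0 : G.natDegree ≠ 0 := by
      intro h0
      have h1 : G.natDegree = q ^ Fintype.card A := by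
        rw [Matrix.charpoly_natDegree_eq_dim]
        simp
      rw [h1] at h0
      exact absurd h0 (pow_ne_zero _ hq0)
    obtain ⟨P, Q, -, -, hPQ⟩ := exists_mul_add_mul_eq_C_resultant G G.derivative le_rfl le_rfl
      (Or.inl hG0)
    have h2 := congrArg (Polynomial.map (evalRingHom d)) hPQ
    rw [Polynomial.map_add, Polynomial.map_mul, Polynomial.map_mul, map_C] at h2
    rw [separable_def, derivative_map]
    have hu : (evalRingHom d) D ≠ 0 := hd
    refine ⟨C ((evalRingHom d) D)⁻¹ * P.map (evalRingHom d),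
      C ((evalRingHom d) D)⁻¹ * Q.map (evalRingHom d), ?_⟩
    have h3 : C ((evalRingHom d) D)⁻¹ * (G.map (evalRingHom d) * P.map (evalRingHom d) +
        G.derivative.map (evalRingHom d) * Q.map (evalRingHom d)) = 1 := by
      rw [h2, ← C_mul, inv_mul_cancel₀ hu, C_1]
    rw [← h3]
    ring
  -- the smooth point
  have hinf := h G ⟨0, ∑ a, lam a, by
    rw [← map_evalRingHom_eval, hGK]
    have := ltM_root (q := q) (lam := lam) (e := fun a : A => 1 + (a : K) * 0)
      (b := fun _ => (1 : K)) (fun a => by simp)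
    simpa [IsRoot] using this, by
    rw [← map_evalRingHom_eval, ← derivative_map]
    have h1 : (G.map (evalRingHom 0)).eval (∑ a, lam a) = 0 := by
      rw [hGK]
      have := ltM_root (q := q) (lam := lam) (e := fun a : A => 1 + (a : K) * 0)
        (b := fun _ => (1 : K)) (fun a => by simp)
      simpa [IsRoot] using this
    have h2 := hs0.eval₂_derivative_ne_zero (RingHom.id K) (x := ∑ a, lam a)
      (by rw [eval₂_id]; exact h1)
    rwa [eval₂_id] at h2⟩
  -- bad values of `d`
  let Bad : Finset K := insert 0 (D.roots.toFinset ∪ Finset.univ.image fun a : A => -(a : K)⁻¹)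
  have hfin : {v : K × K | G.evalEval v.1 v.2 = 0 ∧ v.1 ∈ Bad}.Finite := by
    refine Set.Finite.subset (Finset.finite_toSet (Bad.biUnion fun d =>
      (G.map (evalRingHom d)).roots.toFinset.image fun y => (d, y))) ?_
    rintro ⟨d, y⟩ ⟨h1, h2⟩
    simp only at h1 h2
    rw [Finset.mem_coe, Finset.mem_biUnion]
    refine ⟨d, h2, Finset.mem_image.2 ⟨y, ?_, rfl⟩⟩
    rw [Multiset.mem_toFinset, mem_roots (hGmon.map _).ne_zero, IsRoot, map_evalRingHom_eval]
    exact h1
  obtain ⟨⟨d, W⟩, hv1, hv2⟩ := (hinf.sdiff hfin).nonempty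
  simp only [Set.mem_ofPred_eq, not_and] at hv1 hv2
  have hdB := hv2 hv1
  simp only [Bad, Finset.mem_insert, Finset.mem_union, not_or, Multiset.mem_toFinset,
    Finset.mem_image, Finset.mem_univ, true_and, not_exists] at hdB
  obtain ⟨hd0, hdD, hda⟩ := hdB
  have hDd : D.eval d ≠ 0 := by
    intro h0
    exact hdD ((mem_roots hDne).2 h0)
  have hne : ∀ a : A, 1 + (a : K) * d ≠ 0 := by
    intro a h0
    apply hda a
    have ha0 : (a : K) ≠ 0 := by
      intro ha
      rw [ha] at h0
      simp at h0
    field_simp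
    linear_combination -h0
  have hsO := (separable_map (algebraMap K Om)).2 (hsd d hDd)
  rw [hGO] at hsO
  have hneO : ∀ a : A, algebraMap K Om (1 + (a : K) * d) ≠ 0 := fun a =>
    (map_ne_zero (algebraMap K Om)).2 (hne a)
  have hinjd := ltM_inj h1q hsO
  have hW : (ltM q (fun a => algebraMap K Om (lam a))
      (fun a : A => algebraMap K Om (1 + (a : K) * d))).charpoly.IsRoot (algebraMap K Om W) := by
    rw [← hGO, IsRoot, eval_map_algebraMap, aeval_algebraMap_apply]
    rw [← map_evalRingHom_eval] at hv1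
    rw [coe_aeval_eq_eval, hv1, map_zero]
  obtain ⟨b, hb, hbW⟩ := (ltM_roots hqO hneO hinjd).2 _ hW
  have hfix : ∀ (σ : Om ≃ₐ[K] Om) (a : A), σ (b a) = b a := by
    intro σ
    have h1 : (fun a => σ (b a)) = b := by
      apply hinjd
      · rw [Finset.mem_coe, mem_ltB hq0]
        intro a
        rw [← map_pow, hb a, σ.commutes]
      · rw [Finset.mem_coe, mem_ltB hq0]
        exact hb
      · simp only
        rw [hbW]
        have h2 := congrArg σ hbW
        rw [σ.commutes, map_sum] at h2
        rw [← h2]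
        refine Finset.sum_congr rfl fun a _ => ?_
        rw [map_mul, σ.commutes]
    intro a
    exact congrFun h1 a
  refine ⟨d, hd0, fun a ha => ?_⟩
  obtain ⟨y, hy⟩ := mem_range_of_fixed hq (hne ⟨a, ha⟩) (hb ⟨a, ha⟩) (fun σ => hfix σ ⟨a, ha⟩)
  have hyq : y ^ q = 1 + a * d := by
    apply (algebraMap K Om).injective
    rw [map_pow, hy, hb]
  refine ⟨y, ?_, hyq.symm⟩
  rintro rfl
  rw [zero_pow hq0] at hyq
  exact hne ⟨a, ha⟩ hyq.symm

end Pool.Agent.NIPFields.LG
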