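import Mathlib
import Pool.Agent.NIPFields.LG.LargeTL

set_option autoImplicit false

/-!
# Large fields: the relative version of `TL` for a finite separable extension

If `K` is large and `L / K` is finite separable, then for every finite `A ⊆ L` there is a non-zero
`δ ∈ K` such that all `1 + a δ` (`a ∈ A`) are `q`-th powers in `L`.
-/

namespace Pool.Agent.NIPFields.LG

open Pool.Agent.NIPFields.FI
open scoped Polynomial
open Polynomial

/-- The relative version of `TL`. -/
def TLR (K L : Type*) [Field K] [Field L] [Algebra K L] (q : ℕ) : Prop :=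
  ∀ A : Finset L, ∃ δ : K, δ ≠ 0 ∧ ∀ a ∈ A, 1 + a * algebraMap K L δ ∈ Pw L q

section matrix

variable {ι : Type*} [Fintype ι] [DecidableEq ι] {q : ℕ} [NeZero q]

/-- Reindexing. -/
theorem ltM_comp {R : Type*} [CommRing R] (lam e : ι → R) (π : ι ≃ ι) :
    ltM q (fun i => lam (π i)) (fun i => e (π i)) =
      (ltM q lam e).submatrix (fun k => k ∘ π.symm) (fun k => k ∘ π.symm) := by
  ext k l
  simp only [ltM, Matrix.submatrix_apply]
  refine Fintype.sum_equiv π _ _ fun a => ?_
  have h1 : Function.update (k ∘ π.symm) (π a) ((k ∘ π.symm) (π a) + 1) =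
      Function.update k a (k a + 1) ∘ π.symm := by
    funext i
    by_cases hi : i = π a
    · subst hi
      simp
    · rw [Function.update_of_ne hi, Function.comp_apply, Function.comp_apply,
        Function.update_of_ne]
      intro h
      apply hi
      rw [← h, Equiv.apply_symm_apply]
  have h2 : l ∘ π.symm = Function.update k a (k a + 1) ∘ π.symm ↔
      l = Function.update k a (k a + 1) := by
    constructor
    · intro h
      funext i
      have := congrFun h (π i)
      simpa using this
    · intro h
      rw [h]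
  rw [h1]
  simp only [h2, Function.comp_apply, Equiv.symm_apply_apply]

theorem ltM_comp_charpoly {R : Type*} [CommRing R] (lam e : ι → R) (π : ι ≃ ι) :
    (ltM q (fun i => lam (π i)) (fun i => e (π i))).charpoly = (ltM q lam e).charpoly := by
  rw [ltM_comp]
  let ε : (ι → Fin q) ≃ (ι → Fin q) :=
    { toFun := fun k => k ∘ π
      invFun := fun k => k ∘ π.symm
      left_inv := fun k => by funext i; simp
      right_inv := fun k => by funext i; simp }
  have h1 : (ltM q lam e).submatrix (fun k => k ∘ π.symm) (fun k => k ∘ π.symm) =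
      Matrix.reindex ε ε (ltM q lam e) := rfl
  rw [h1, Matrix.charpoly_reindex]

/-- The equation of the curve. -/
noncomputable def ltG {R : Type*} [CommRing R] (q : ℕ) [NeZero q] (lam a : ι → R) : R[X][X] :=
  (ltM q (fun i => C (lam i)) (fun i => 1 + C (a i) * X)).charpoly

theorem ltG_map {R S : Type*} [CommRing R] [CommRing S] (φ : R →+* S) (lam a : ι → R) :
    (ltG q lam a).map (mapRingHom φ) = ltG q (fun i => φ (lam i)) (fun i => φ (a i)) := by
  unfold ltG
  rw [← Matrix.charpoly_map, ltM_map]
  simp only [coe_mapRingHom, map_C, Polynomial.map_add, Polynomial.map_one, Polynomial.map_mul,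
    map_X]

theorem ltG_comp {R : Type*} [CommRing R] (lam a : ι → R) (π : ι ≃ ι) :
    ltG q (fun i => lam (π i)) (fun i => a (π i)) = ltG q lam a :=
  ltM_comp_charpoly (fun i : ι => C (lam i)) (fun i : ι => 1 + C (a i) * X) π

theorem ltG_eval {R S : Type*} [CommRing R] [CommRing S] (φ : R →+* S) (lam a : ι → R) (d : S) :
    (ltG q lam a).map (eval₂RingHom φ d) =
      (ltM q (fun i => φ (lam i)) (fun i => 1 + φ (a i) * d)).charpoly := by
  unfold ltG
  rw [← Matrix.charpoly_map, ltM_map]
  simp

theorem ltG_monic {R : Type*} [CommRing R] (lam a : ι → R) : (ltG q lam a).Monic :=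
  Matrix.charpoly_monic _

theorem ltG_natDegree {R : Type*} [CommRing R] [Nontrivial R] (lam a : ι → R) :
    (ltG q lam a).natDegree = q ^ Fintype.card ι := by
  unfold ltG
  rw [Matrix.charpoly_natDegree_eq_dim]
  simp

end matrix

theorem ltG_separable {K Om : Type*} [Field K] [Field Om] [Algebra K Om] {ι : Type*} [Fintype ι]
    [DecidableEq ι] {q : ℕ} [NeZero q] {lam a : ι → Om}
    (h1 : ∀ i, IsSeparable K (lam i)) (h2 : ∀ i, IsSeparable K (a i)) (i j : ℕ) :
    IsSeparable K (((ltG q lam a).coeff i).coeff j) := by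
  let N := separableClosure K Om
  have e := ltG_map (q := q) (algebraMap N Om)
    (fun i => ⟨lam i, (mem_separableClosure_iff).2 (h1 i)⟩)
    (fun i => ⟨a i, (mem_separableClosure_iff).2 (h2 i)⟩)
  have e2 : ltG q lam a = (ltG q (fun i => (⟨lam i, (mem_separableClosure_iff).2 (h1 i)⟩ : N))
    (fun i => ⟨a i, (mem_separableClosure_iff).2 (h2 i)⟩)).map (mapRingHom (algebraMap N Om)) :=
    e.symm
  rw [e2, coeff_map, coe_mapRingHom, coeff_map]
  rw [← mem_separableClosure_iff]
  exact Subtype.mem _

/-- Separable fixed elements. -/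
theorem mem_range_of_fixed' {K Om : Type*} [Field K] [Field Om] [Algebra K Om] [Normal K Om]
    {x : Om} (hs' : (minpoly K x).Separable)
    (hfix : ∀ σ : Om ≃ₐ[K] Om, σ x = x) : x ∈ (algebraMap K Om).range := by
  have hint : IsIntegral K x := Normal.isIntegral inferInstance x
  have hspl : ((minpoly K x).map (algebraMap K Om)).Splits := Normal.splits inferInstance x
  have hmon := minpoly.monic hint
  apply minpoly.mem_range_of_degree_eq_one
  rw [degree_eq_natDegree hmon.ne_zero]
  have h1 : ((minpoly K x).map (algebraMap K Om)).roots ≤ {x} := by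
    rw [Multiset.le_iff_subset (nodup_roots (hs'.map))]
    intro y hy
    rw [mem_roots (map_ne_zero hmon.ne_zero), IsRoot, eval_map_algebraMap] at hy
    obtain ⟨σ, hσ⟩ := minpoly.exists_algEquiv_of_root hint.isAlgebraic hy
    have h2 := hfix σ⁻¹
    have h3 : y = x := by
      have : σ x = y ∨ σ y = x := by
        first
          | exact Or.inl hσ
          | exact Or.inr hσ
      rcases this with h | h
      · rw [← h, hfix σ]
      · rw [← σ.injective.eq_iff, h, hfix σ]
    rw [h3]
    simp
  have h2 : (minpoly K x).natDegree ≤ 1 := by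
    have h3 := Multiset.card_le_card h1
    rw [← hspl.natDegree_eq_card_roots, natDegree_map] at h3
    simpa using h3
  have h3 := minpoly.natDegree_pos hint
  have h4 : (minpoly K x).natDegree = 1 := by omega
  rw [h4]
  rfl

/-- Choice of the coefficients. -/
theorem exists_lamR {K L Om : Type*} [Field K] [Infinite K] [Field L] [Algebra K L]
    [FiniteDimensional K L] [Field Om] [Algebra K Om] {ι : Type*} [Fintype ι]
    [Fintype (L →ₐ[K] Om)] (T : Finset (ι × (L →ₐ[K] Om) → Om)) :
    ∃ lam : ι → L, Set.InjOn (fun b : ι × (L →ₐ[K] Om) → Om =>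
      ∑ i : ι × (L →ₐ[K] Om), i.2 (lam i.1) * b i) T := by
  classical
  -- the subspaces
  let P : (ι × (L →ₐ[K] Om) → Om) → Submodule K (ι → L) := fun c =>
    { carrier := {lam | ∑ i : ι × (L →ₐ[K] Om), i.2 (lam i.1) * c i = 0}
      add_mem' := by
        intro x y hx hy
        simp only [Set.mem_ofPred_eq, Pi.add_apply, map_add, add_mul,
          Finset.sum_add_distrib] at *
        rw [hx, hy, add_zero]
      zero_mem' := by simp
      smul_mem' := by
        intro a x hx
        simp only [Set.mem_ofPred_eq, Pi.smul_apply, map_smul] at *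
        simp only [smul_mul_assoc]
        rw [← Finset.smul_sum, hx, smul_zero] }
  have hP : ∀ c lam, lam ∈ P c ↔ ∑ i : ι × (L →ₐ[K] Om), i.2 (lam i.1) * c i = 0 :=
    fun _ _ => Iff.rfl
  have hPt : ∀ c, c ≠ 0 → P c ≠ ⊤ := by
    intro c hc htop
    apply hc
    funext ⟨i, τ⟩
    have hlin := linearIndependent_monoidHom L Om
    have hinj : Function.Injective (fun σ : L →ₐ[K] Om => ((σ : L →+* Om) : L →* Om)) := by
      intro σ σ' h
      ext x
      exact DFunLike.congr_fun h x
    have hlin2 := hlin.comp _ hinj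
    rw [Fintype.linearIndependent_iff] at hlin2
    refine hlin2 (fun σ => c (i, σ)) ?_ τ
    funext x
    have h1 : (Pi.single i x : ι → L) ∈ P c := by rw [htop]; trivial
    rw [hP] at h1
    rw [Fintype.sum_prod_type, Finset.sum_eq_single i] at h1
    · simp only [Pi.single_eq_same] at h1
      rw [Finset.sum_apply, Pi.zero_apply, ← h1]
      refine Finset.sum_congr rfl fun σ _ => ?_
      simp [mul_comm]
    · intro j _ hj
      refine Finset.sum_eq_zero fun σ _ => ?_
      rw [Pi.single_eq_of_ne hj, map_zero, zero_mul]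
    · intro h
      exact absurd (Finset.mem_univ _) h
  let S : Finset (Submodule K (ι → L)) :=
    ((T ×ˢ T).filter fun q => q.1 ≠ q.2).image fun q => P (q.1 - q.2)
  have hS : (⊤ : Submodule K (ι → L)) ∉ S := by
    intro h
    obtain ⟨q, hq, hqt⟩ := Finset.mem_image.1 h
    exact hPt _ (sub_ne_zero.2 (Finset.mem_filter.1 hq).2) hqt
  obtain ⟨lam, hlam⟩ : ∃ j : ι → L, ∀ Q ∈ S, j ∉ Q := by
    by_contra hcon
    push Not at hcon
    apply Subspace.biUnion_ne_univ_of_top_notMem (s := S) hS
    rw [Set.eq_univ_iff_forall]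
    intro j
    obtain ⟨Q, hQ, hjQ⟩ := hcon j
    exact Set.mem_iUnion₂.2 ⟨Q, hQ, hjQ⟩
  refine ⟨lam, fun b hb b' hb' h => ?_⟩
  by_contra hne
  apply hlam (P (b - b')) (Finset.mem_image.2 ⟨(b, b'), Finset.mem_filter.2
    ⟨Finset.mem_product.2 ⟨hb, hb'⟩, hne⟩, rfl⟩)
  rw [hP]
  simp only at h
  simp only [Pi.sub_apply, mul_sub, Finset.sum_sub_distrib]
  rw [h, sub_self]

/-- **Large fields satisfy `TLR` for finite separable extensions.** -/
theorem TLR_of_large {K : Type*} [Field K] [Infinite K] (h : Large K) {L : Type*} [Field L]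
    [Algebra K L] [FiniteDimensional K L] [Algebra.IsSeparable K L] {q : ℕ}
    (hq : (q : K) ≠ 0) : TLR K L q := by
  classical
  intro A
  have hq0 : q ≠ 0 := by rintro rfl; simp at hq
  have hNZ : NeZero q := ⟨hq0⟩
  have hqL : (q : L) ≠ 0 := by
    have := (map_ne_zero (algebraMap K L)).2 hq
    rwa [map_natCast] at this
  rcases Nat.lt_or_ge 1 q with h1q | h1q
  swap
  · -- `q = 1`
    have hq1 : q = 1 := by omega
    subst hq1
    obtain ⟨t, ht⟩ := Infinite.exists_notMem_finset (insert 0 ((A.image fun a => -a⁻¹).preimage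
      (algebraMap K L) (algebraMap K L).injective.injOn))
    rw [Finset.mem_insert, not_or] at ht
    refine ⟨t, ht.1, fun a ha => ⟨1 + a * algebraMap K L t, ?_, (pow_one _).symm⟩⟩
    intro h0
    apply ht.2
    rw [Finset.mem_preimage, Finset.mem_image]
    refine ⟨a, ha, ?_⟩
    have ha0 : a ≠ 0 := by
      rintro rfl
      simp at h0
    field_simp
    linear_combination -h0
  let Om := AlgebraicClosure K
  have hqO : (q : Om) ≠ 0 := by
    have := (map_ne_zero (algebraMap K Om)).2 hq
    rwa [map_natCast] at this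
  let Em := L →ₐ[K] Om
  let ι := A × Em
  obtain ⟨lam, hlam⟩ := exists_lamR (K := K) (L := L) (Om := Om) (ι := A)
    (ltB q (fun _ : ι => (1 : Om)))
  let lam' : ι → Om := fun i => i.2 (lam i.1)
  let a' : ι → Om := fun i => i.2 (i.1 : L)
  -- the curve over `Om`
  let G' : Om[X][X] := ltG q lam' a'
  have hG'mon : G'.Monic := ltG_monic _ _
  -- Galois invariance
  have hinv : ∀ σ : Om ≃ₐ[K] Om, G'.map (mapRingHom (σ : Om →+* Om)) = G' := by
    intro σ
    let π : ι ≃ ι :=
      { toFun := fun i => (i.1, (σ : Om →ₐ[K] Om).comp i.2)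
        invFun := fun i => (i.1, (σ.symm : Om →ₐ[K] Om).comp i.2)
        left_inv := fun i => by
          refine Prod.ext rfl ?_
          ext x
          simp
        right_inv := fun i => by
          refine Prod.ext rfl ?_
          ext x
          simp }
    have h1 : G'.map (mapRingHom (σ : Om →+* Om)) =
        ltG q (fun i : ι => lam' (π i)) (fun i : ι => a' (π i)) := ltG_map _ _ _
    rw [h1]
    exact ltG_comp lam' a' π
  -- separability of the coefficients
  have hsepτ : ∀ (τ : Em) (x : L), IsSeparable K (τ x) := fun τ x =>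
    (Algebra.IsSeparable.isSeparable K x).map τ τ.injective
  have hsep : ∀ i j, IsSeparable K ((G'.coeff i).coeff j) := fun i j =>
    ltG_separable (fun i => hsepτ _ _) (fun i => hsepτ _ _) i j
  -- descent
  obtain ⟨G, hG⟩ : ∃ G : K[X][X], G.map (mapRingHom (algebraMap K Om)) = G' := by
    have h1 : G' ∈ lifts (mapRingHom (algebraMap K Om)) := by
      rw [lifts_iff_coeff_lifts]
      intro i
      have h2 : G'.coeff i ∈ lifts (algebraMap K Om) := by
        rw [lifts_iff_coeff_lifts]
        intro j
        refine mem_range_of_fixed' (hsep i j) fun σ => ?_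
        have h3 := congrArg (fun P : Om[X][X] => (P.coeff i).coeff j) (hinv σ)
        simpa [coeff_map] using h3
      exact h2
    exact h1
  have hGmon : G.Monic := by
    refine monic_of_injective (f := mapRingHom (algebraMap K Om))
      (map_injective _ (algebraMap K Om).injective) ?_
    rw [hG]
    exact hG'mon
  have hGO : ∀ d : K, (G.map (evalRingHom d)).map (algebraMap K Om) =
      (ltM q lam' (fun i : ι => 1 + a' i * algebraMap K Om d)).charpoly := by
    intro d
    have h1 : (G.map (evalRingHom d)).map (algebraMap K Om) =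
        G'.map (eval₂RingHom (RingHom.id Om) (algebraMap K Om d)) := by
      rw [← hG, map_map, map_map]
      congr 1
      ext x
      · simp
      · simp
    rw [h1, ltG_eval]
    rfl
  -- separability at `0`
  have hs0 : (G.map (evalRingHom 0)).Separable := by
    rw [← separable_map (algebraMap K Om), hGO]
    simp only [map_zero, mul_zero, add_zero]
    exact (ltM_roots hqO (fun _ => one_ne_zero) hlam).1
  -- the resultant
  let D : K[X] := G.resultant G.derivative G.natDegree G.derivative.natDegree
  have hD0 : D.eval 0 ≠ 0 := by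
    have e1 : D.eval 0 = (G.map (evalRingHom 0)).resultant (G.derivative.map (evalRingHom 0))
        G.natDegree G.derivative.natDegree := by
      rw [resultant_map_map]
      rfl
    have hdeg : G.natDegree = (G.map (evalRingHom 0)).natDegree := (hGmon.natDegree_map _).symm
    obtain ⟨k, hk⟩ := Nat.exists_eq_add_of_le
      (natDegree_map_le (f := evalRingHom (0 : K)) (p := G.derivative))
    rw [e1, hk, resultant_add_right_deg _ _ _ _ _ le_rfl]
    have hc : (G.map (evalRingHom 0)).coeff G.natDegree = 1 := by
      rw [hdeg]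
      exact (hGmon.map _).coeff_natDegree
    rw [hc, one_pow, one_mul, hdeg]
    apply resultant_ne_zero
    rw [← derivative_map]
    exact hs0
  have hDne : D ≠ 0 := by
    intro h0
    rw [h0] at hD0
    simp at hD0
  have hGdeg : G.natDegree = q ^ Fintype.card ι := by
    have h1 : G'.natDegree = q ^ Fintype.card ι := ltG_natDegree _ _
    rw [← h1, ← hG, natDegree_map_eq_of_injective]
    exact map_injective _ (algebraMap K Om).injective
  have hsd : ∀ d : K, D.eval d ≠ 0 → (G.map (evalRingHom d)).Separable := by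
    intro d hd
    have hG0 : G.natDegree ≠ 0 := by
      rw [hGdeg]
      exact pow_ne_zero _ hq0
    obtain ⟨P, Q, -, -, hPQ⟩ := exists_mul_add_mul_eq_C_resultant G G.derivative le_rfl le_rfl
      (Or.inl hG0)
    have h2 := congrArg (Polynomial.map (evalRingHom d)) hPQ
    rw [Polynomial.map_add, Polynomial.map_mul, Polynomial.map_mul, map_C] at h2
    rw [separable_def, derivative_map]
    have hu : (evalRingHom d) D ≠ 0 := hd
    refine ⟨C ((evalRingHom d) D)⁻¹ * P.map (evalRingHom d),
      C ((evalRingHom d) D)⁻¹ * Q.map (evalRingHom d), ?_⟩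
    have h3 : C ((evalRingHom d) D)⁻¹ * (G.map (evalRingHom d) * P.map (evalRingHom d) +
        G.derivative.map (evalRingHom d) * Q.map (evalRingHom d)) = 1 := by
      rw [h2, ← C_mul, inv_mul_cancel₀ hu, C_1]
    rw [← h3]
    ring
  -- the smooth point
  let W₀ : K := ∑ a : A, Algebra.trace K L (lam a)
  have hW₀ : algebraMap K Om W₀ = ∑ i : ι, lam' i * 1 := by
    rw [Fintype.sum_prod_type, map_sum]
    refine Finset.sum_congr rfl fun a _ => ?_
    rw [trace_eq_sum_embeddings Om]
    refine Finset.sum_congr rfl fun τ _ => ?_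
    rw [mul_one]
  have hroot0 : (G.map (evalRingHom 0)).eval W₀ = 0 := by
    apply (algebraMap K Om).injective
    rw [map_zero]
    have h1 : ((G.map (evalRingHom 0)).map (algebraMap K Om)).IsRoot (algebraMap K Om W₀) := by
      rw [hGO, hW₀]
      exact ltM_root (q := q) (b := fun _ => (1 : Om)) (fun i => by simp)
    rw [IsRoot, eval_map_algebraMap, aeval_algebraMap_apply, coe_aeval_eq_eval] at h1
    exact h1
  have hinf := h G ⟨0, W₀, by
    rw [← map_evalRingHom_eval]
    exact hroot0, by
    rw [← map_evalRingHom_eval, ← derivative_map]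
    have h2 := hs0.eval₂_derivative_ne_zero (RingHom.id K) (x := W₀)
      (by rw [eval₂_id]; exact hroot0)
    rwa [eval₂_id] at h2⟩
  -- bad values of `d`
  let Bad : Finset K := insert 0 (D.roots.toFinset ∪ (Finset.univ.image
    fun a : A => -(a : L)⁻¹).preimage (algebraMap K L) (algebraMap K L).injective.injOn)
  have hfin : {v : K × K | G.evalEval v.1 v.2 = 0 ∧ v.1 ∈ Bad}.Finite := by
    refine Set.Finite.subset (Finset.finite_toSet (Bad.biUnion fun d =>
      (G.map (evalRingHom d)).roots.toFinset.image fun y => (d, y))) ?_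
    rintro ⟨d, y⟩ ⟨h1, h2⟩
    simp only at h1 h2
    rw [Finset.mem_coe, Finset.mem_biUnion]
    refine ⟨d, h2, Finset.mem_image.2 ⟨y, ?_, rfl⟩⟩
    rw [Multiset.mem_toFinset, mem_roots (hGmon.map _).ne_zero, IsRoot, map_evalRingHom_eval]
    exact h1
  obtain ⟨⟨d, W⟩, hv1, hv2⟩ := (hinf.sdiff hfin).nonempty
  simp only [Set.mem_ofPred_eq, not_and] at hv1 hv2
  have hdB := hv2 hv1
  simp only [Bad, Finset.mem_insert, Finset.mem_union, not_or, Multiset.mem_toFinset,
    Finset.mem_preimage, Finset.mem_image, Finset.mem_univ, true_and, not_exists] at hdB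
  obtain ⟨hd0, hdD, hda⟩ := hdB
  have hDd : D.eval d ≠ 0 := by
    intro h0
    exact hdD ((mem_roots hDne).2 h0)
  have hne : ∀ a : A, 1 + (a : L) * algebraMap K L d ≠ 0 := by
    intro a h0
    apply hda a
    have ha0 : (a : L) ≠ 0 := by
      intro ha
      rw [ha] at h0
      simp at h0
    field_simp
    linear_combination -h0
  have hcomm : ∀ i : ι, 1 + a' i * algebraMap K Om d =
      i.2 (1 + (i.1 : L) * algebraMap K L d) := by
    intro i
    rw [map_add, map_one, map_mul, AlgHom.commutes]
  have hneO : ∀ i : ι, 1 + a' i * algebraMap K Om d ≠ 0 := by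
    intro i
    rw [hcomm]
    exact (_root_.map_ne_zero _).2 (hne i.1)
  have hsO := (separable_map (algebraMap K Om)).2 (hsd d hDd)
  rw [hGO] at hsO
  have hinjd := ltM_inj h1q hsO
  have hW : (ltM q lam' (fun i : ι => 1 + a' i * algebraMap K Om d)).charpoly.IsRoot
      (algebraMap K Om W) := by
    rw [← hGO, IsRoot, eval_map_algebraMap, aeval_algebraMap_apply]
    rw [← map_evalRingHom_eval] at hv1
    rw [coe_aeval_eq_eval, hv1, map_zero]
  obtain ⟨b, hb, hbW⟩ := (ltM_roots hqO hneO hinjd).2 _ hW
  have hfix : ∀ (σ : Om ≃ₐ[K] Om) (i : ι), σ (b i) = b (i.1, (σ : Om →ₐ[K] Om).comp i.2) := by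
    intro σ
    let π : ι ≃ ι :=
      { toFun := fun i => (i.1, (σ : Om →ₐ[K] Om).comp i.2)
        invFun := fun i => (i.1, (σ.symm : Om →ₐ[K] Om).comp i.2)
        left_inv := fun i => by
          refine Prod.ext rfl ?_
          ext x
          simp
        right_inv := fun i => by
          refine Prod.ext rfl ?_
          ext x
          simp }
    have hlamσ : ∀ i, σ (lam' i) = lam' (π i) := fun i => rfl
    have haσ : ∀ i, σ (a' i) = a' (π i) := fun i => rfl
    have h1 : (fun i => σ (b (π.symm i))) = b := by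
      apply hinjd
      · rw [Finset.mem_coe, mem_ltB hq0]
        intro i
        rw [← map_pow, hb, map_add, map_one, map_mul, haσ, Equiv.apply_symm_apply, σ.commutes]
      · rw [Finset.mem_coe, mem_ltB hq0]
        exact hb
      · simp only
        rw [hbW]
        have h2 := congrArg σ hbW
        rw [σ.commutes, map_sum] at h2
        rw [← h2]
        refine (Fintype.sum_equiv π _ _ fun i => ?_).symm
        rw [map_mul, hlamσ, Equiv.symm_apply_apply]
    intro i
    have h2 := congrFun h1 (π i)
    simp only [Equiv.symm_apply_apply] at h2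
    exact h2
  -- an embedding
  let τ₀ : Em := IsAlgClosed.lift
  refine ⟨d, hd0, fun a ha => ?_⟩
  let _ : Algebra L Om := (τ₀ : L →+* Om).toAlgebra
  have htower : IsScalarTower K L Om := IsScalarTower.of_algebraMap_eq fun x =>
    (τ₀.commutes x).symm
  have halgL : ∀ x : L, algebraMap L Om x = τ₀ x := fun _ => rfl
  have hnorm : Normal L Om := Normal.tower_top_of_normal K L Om
  obtain ⟨y, hy⟩ := mem_range_of_fixed (K := L) (Om := Om) (x := b (⟨a, ha⟩, τ₀)) hqL
    (hne ⟨a, ha⟩) (by rw [hb, hcomm]; rfl) (fun σ => by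
      have h1 := hfix (σ.restrictScalars K) (⟨a, ha⟩, τ₀)
      have h2 : ((σ.restrictScalars K : Om ≃ₐ[K] Om) : Om →ₐ[K] Om).comp τ₀ = τ₀ := by
        ext x
        exact σ.commutes x
      simp only at h1
      rw [h2] at h1
      exact h1)
  have hyq : y ^ q = 1 + a * algebraMap K L d := by
    apply (algebraMap L Om).injective
    rw [map_pow, hy, hb, hcomm]
    rfl
  refine ⟨y, ?_, hyq.symm⟩
  rintro rfl
  rw [zero_pow hq0] at hyq
  exact hne ⟨a, ha⟩ hyq.symm

end Pool.Agent.NIPFields.LG
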