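import Mathlib

set_option autoImplicit false

/-!
# Field topologies with the basis `{c B}`
-/

namespace Pool.Agent.NIPFields.LG

open Filter Topology Pointwise

/-- The axioms for `B`. -/
structure FB {K : Type*} [Field K] (B : Set K) : Prop where
  zero : (0 : K) ∈ B
  lin : ∀ A : Finset K, ∃ c : K, c ≠ 0 ∧ ∀ u ∈ B, ∀ a ∈ A, a * (c * u) ∈ B
  add : ∃ c : K, c ≠ 0 ∧ ∀ u ∈ B, ∀ v ∈ B, c * u + c * v ∈ B
  mul : ∃ c : K, c ≠ 0 ∧ ∀ u ∈ B, ∀ v ∈ B, (c * u) * (c * v) ∈ B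
  inv : ∃ c : K, c ≠ 0 ∧ ∀ u ∈ B, 1 + c * u ≠ 0 ∧ (1 + c * u)⁻¹ - 1 ∈ B
  ne_univ : ∃ b : K, b ∉ B
  ne_zero : ∀ c : K, c ≠ 0 → ∃ b : K, b ≠ 0 ∧ c * b ∈ B

variable {K : Type*} [Field K] {B : Set K}

/-- The set `c B`. -/
def sB (B : Set K) (c : K) : Set K := {x | ∃ u ∈ B, x = c * u}

theorem mem_sB {c x : K} (hc : c ≠ 0) : x ∈ sB B c ↔ c⁻¹ * x ∈ B := by
  constructor
  · rintro ⟨u, hu, rfl⟩
    rwa [inv_mul_cancel_left₀ hc]
  · intro h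
    exact ⟨_, h, (mul_inv_cancel_left₀ hc x).symm⟩

namespace FB

variable (h : FB B)

include h

theorem zero_mem {c : K} : (0 : K) ∈ sB B c := ⟨0, h.zero, (mul_zero c).symm⟩

/-- `d B` is contained in `c B` multiplied by finitely many elements. -/
theorem exists_lin {c : K} (hc : c ≠ 0) (A : Finset K) :
    ∃ d : K, d ≠ 0 ∧ ∀ x ∈ sB B d, ∀ a ∈ A, a * x ∈ sB B c := by
  classical
  obtain ⟨d, hd, hA⟩ := h.lin (A.image fun a => c⁻¹ * a)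
  refine ⟨d, hd, ?_⟩
  rintro x ⟨u, hu, rfl⟩ a ha
  rw [mem_sB hc]
  have := hA u hu _ (Finset.mem_image_of_mem _ ha)
  rwa [mul_assoc] at this

theorem exists_inter {c d : K} (hc : c ≠ 0) (hd : d ≠ 0) :
    ∃ e : K, e ≠ 0 ∧ sB B e ⊆ sB B c ∩ sB B d := by
  classical
  obtain ⟨e, he, hA⟩ := h.lin {c⁻¹, d⁻¹}
  refine ⟨e, he, ?_⟩
  rintro x ⟨u, hu, rfl⟩
  refine ⟨(mem_sB hc).2 (hA u hu _ (by simp)), (mem_sB hd).2 (hA u hu _ (by simp))⟩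

theorem exists_add {c : K} (hc : c ≠ 0) :
    ∃ d : K, d ≠ 0 ∧ ∀ x ∈ sB B d, ∀ y ∈ sB B d, x + y ∈ sB B c := by
  obtain ⟨e, he, hA⟩ := h.add
  refine ⟨c * e, mul_ne_zero hc he, ?_⟩
  rintro x ⟨u, hu, rfl⟩ y ⟨v, hv, rfl⟩
  rw [mem_sB hc]
  have h1 : c⁻¹ * (c * e * u + c * e * v) = e * u + e * v := by
    field_simp
  rw [h1]
  exact hA u hu v hv

theorem exists_mul {c : K} (hc : c ≠ 0) :
    ∃ d : K, d ≠ 0 ∧ ∀ x ∈ sB B d, ∀ y ∈ sB B d, x * y ∈ sB B c := by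
  obtain ⟨e, he, hA⟩ := h.mul
  obtain ⟨d, hd, hD⟩ := h.exists_lin he {c⁻¹}
  obtain ⟨d', hd', hD'⟩ := h.exists_inter hd he
  refine ⟨d', hd', fun x hx y hy => ?_⟩
  rw [mem_sB hc]
  obtain ⟨u, hu, hu'⟩ := hD x (hD' hx).1 _ (Finset.mem_singleton_self _)
  obtain ⟨v, hv, hv'⟩ := (hD' hy).2
  rw [← mul_assoc, hu', hv']
  exact hA u hu v hv

theorem exists_inv {c : K} (hc : c ≠ 0) :
    ∃ d : K, d ≠ 0 ∧ ∀ x ∈ sB B d, 1 + x ≠ 0 ∧ (1 + x)⁻¹ - 1 ∈ sB B c := by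
  obtain ⟨e, he, hE⟩ := h.inv
  obtain ⟨m, hm, hM⟩ := h.mul
  obtain ⟨c1, hc1, hC1⟩ := h.exists_add hc
  obtain ⟨c2, hc2, hC2⟩ := h.exists_lin hc1 {-1}
  obtain ⟨d1, hd1, hD1⟩ := h.exists_inter he hc2
  obtain ⟨d, hd, hD⟩ := h.exists_inter hd1 (mul_ne_zero hc2 (pow_ne_zero 2 hm))
  refine ⟨d, hd, fun x hx => ?_⟩
  obtain ⟨hx1, u, hu, hu'⟩ := hD hx
  obtain ⟨⟨v, hv, hv'⟩, hx2⟩ := hD1 hx1
  obtain ⟨h1, h2⟩ := hE v hv
  rw [← hv'] at h1 h2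
  refine ⟨h1, ?_⟩
  have h3 : (1 + x)⁻¹ - 1 = -1 * x + -1 * (x * ((1 + x)⁻¹ - 1)) := by
    field_simp
    ring
  rw [h3]
  refine hC1 _ (hC2 _ hx2 _ (Finset.mem_singleton_self _)) _
    (hC2 _ ?_ _ (Finset.mem_singleton_self _))
  refine ⟨_, hM u hu _ h2, ?_⟩
  linear_combination ((1 + x)⁻¹ - 1) * hu'

/-- The filter basis. -/
@[instance_reducible] def basis : RingFilterBasis K where
  sets := {U | ∃ c : K, c ≠ 0 ∧ U = sB B c}
  nonempty := ⟨_, 1, one_ne_zero, rfl⟩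
  inter_sets := by
    rintro _ _ ⟨c, hc, rfl⟩ ⟨d, hd, rfl⟩
    obtain ⟨e, he, h1⟩ := h.exists_inter hc hd
    exact ⟨_, ⟨e, he, rfl⟩, h1⟩
  zero' := by
    rintro _ ⟨c, hc, rfl⟩
    exact h.zero_mem
  add' := by
    rintro _ ⟨c, hc, rfl⟩
    obtain ⟨e, he, h1⟩ := h.exists_add hc
    refine ⟨_, ⟨e, he, rfl⟩, ?_⟩
    rintro _ ⟨x, hx, y, hy, rfl⟩
    exact h1 x hx y hy
  neg' := by
    rintro _ ⟨c, hc, rfl⟩
    obtain ⟨e, he, h1⟩ := h.exists_lin hc {-1}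
    refine ⟨_, ⟨e, he, rfl⟩, fun x hx => ?_⟩
    have := h1 x hx (-1) (Finset.mem_singleton_self _)
    rwa [neg_one_mul] at this
  conj' := by
    rintro x _ ⟨c, hc, rfl⟩
    refine ⟨_, ⟨c, hc, rfl⟩, fun y hy => ?_⟩
    simpa using hy
  mul' := by
    rintro _ ⟨c, hc, rfl⟩
    obtain ⟨e, he, h1⟩ := h.exists_mul hc
    refine ⟨_, ⟨e, he, rfl⟩, ?_⟩
    rintro _ ⟨x, hx, y, hy, rfl⟩
    exact h1 x hx y hy
  mul_left' := by
    rintro x _ ⟨c, hc, rfl⟩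
    obtain ⟨e, he, h1⟩ := h.exists_lin hc {x}
    exact ⟨_, ⟨e, he, rfl⟩, fun y hy => h1 y hy x (Finset.mem_singleton_self _)⟩
  mul_right' := by
    rintro x _ ⟨c, hc, rfl⟩
    obtain ⟨e, he, h1⟩ := h.exists_lin hc {x}
    refine ⟨_, ⟨e, he, rfl⟩, fun y hy => ?_⟩
    have := h1 y hy x (Finset.mem_singleton_self _)
    rwa [mul_comm] at this

/-- The topology. -/
theorem exists_topology : ∃ τ : TopologicalSpace K, IsTopologicalDivisionRing K ∧ T2Space K ∧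
    ¬ DiscreteTopology K ∧ (𝓝 (0 : K)).HasBasis (fun c : K => c ≠ 0) (fun c => sB B c) := by
  let τ : TopologicalSpace K := h.basis.toAddGroupFilterBasis.topology
  have hring : IsTopologicalRing K := h.basis.isTopologicalRing
  have hb : (𝓝 (0 : K)).HasBasis (fun c : K => c ≠ 0) (fun c => sB B c) := by
    have h1 := h.basis.toAddGroupFilterBasis.nhds_zero_hasBasis
    refine h1.to_hasBasis ?_ ?_
    · rintro _ ⟨c, hc, rfl⟩
      exact ⟨c, hc, subset_rfl⟩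
    · intro c hc
      exact ⟨_, ⟨c, hc, rfl⟩, subset_rfl⟩
  have hne : ∀ x : K, x ≠ 0 → ∃ c : K, c ≠ 0 ∧ x ∉ sB B c := by
    intro x hx
    obtain ⟨b, hb⟩ := h.ne_univ
    have hb0 : b ≠ 0 := by
      rintro rfl
      exact hb h.zero
    refine ⟨x / b, div_ne_zero hx hb0, fun hmem => hb ?_⟩
    rw [mem_sB (div_ne_zero hx hb0)] at hmem
    have : (x / b)⁻¹ * x = b := by field_simp
    rwa [this] at hmem
  have hT2 : T2Space K := by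
    refine IsTopologicalAddGroup.t2Space_of_zero_sep fun x hx => ?_
    obtain ⟨c, hc, h1⟩ := hne x hx
    exact ⟨sB B c, hb.mem_of_mem hc, h1⟩
  refine ⟨τ, ?_, hT2, ?_, hb⟩
  · have hinv : ContinuousInv₀ K := by
      refine ContinuousInv₀.of_nhds_one ?_
      have hbx : (𝓝 (1 : K)).HasBasis (fun c : K => c ≠ 0) (fun c => {z | z - 1 ∈ sB B c}) := by
        rw [← nhds_translation_sub (1 : K)]
        exact hb.comap _
      rw [hbx.tendsto_iff hbx]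
      intro c hc
      obtain ⟨d, hd, hD⟩ := h.exists_inv hc
      refine ⟨d, hd, fun x hx => ?_⟩
      have := (hD _ hx).2
      rwa [add_sub_cancel] at this
    exact { toIsTopologicalRing := hring, toContinuousInv₀ := hinv }
  · intro hd
    have h1 : ({0} : Set K) ∈ 𝓝 (0 : K) := by
      rw [nhds_discrete]
      exact Set.mem_singleton _
    obtain ⟨c, hc, hcs⟩ := hb.mem_iff.1 h1
    obtain ⟨b, hb0, hbB⟩ := h.ne_zero 1 one_ne_zero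
    rw [one_mul] at hbB
    have h2 := hcs ⟨b, hbB, rfl⟩
    exact mul_ne_zero hc hb0 h2

end FB

end Pool.Agent.NIPFields.LG
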