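import Mathlib
import Pool.Agent.NIPFields.FI.Color

set_option autoImplicit false

/-!
# Continuity of addition from a tree argument

`c : K →*₀ Q` is a homomorphism of a field to a group with zero (not necessarily finite). If there
are small elements, and the relation `c (1 + f * x) = 1` has no large patterns, then addition is
jointly continuous at `0`.
-/

namespace Pool.Agent.NIPFields.LG

open Finset
open Pool.Agent.NIPFields.FI

variable {K : Type*} [Field K] {Q : Type*} [GroupWithZero Q] {c : K →*₀ Q}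

/-- Small elements of at least two colours. -/
theorem tree_exists_mem_Nb_ne (hTL : ∀ F : Finset K, ∃ β : K, β ≠ 0 ∧ β ∈ Nb c F)
    (hc : ∃ a : K, a ≠ 0 ∧ c a ≠ 1) (F : Finset K)
    (s : K) : ∃ β : K, β ≠ 0 ∧ β ∈ Nb c F ∧ c β ≠ c s := by
  classical
  obtain ⟨a, ha, hca⟩ := hc
  obtain ⟨β, hβ, hβF⟩ := hTL (F ∪ F.image (fun f => f * a))
  by_contra hcon
  push Not at hcon
  have h1 : c β = c s := hcon β hβ (Nb.anti Finset.subset_union_left hβF)
  have h2 : c (a * β) = c s := by
    refine hcon (a * β) (mul_ne_zero ha hβ) (fun f hf => ?_)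
    have := hβF (f * a) (Finset.mem_union_right _ (Finset.mem_image_of_mem _ hf))
    rwa [mul_assoc] at this
  rw [map_mul, h1] at h2
  apply hca
  have hs : c s ≠ 0 := by rw [← h1]; exact (map_ne_zero c).2 hβ
  exact mul_right_cancel₀ hs (by rw [h2, one_mul])

variable (c)

/-- `y` is non-zero, all `x + y` with `x ∈ X` are non-zero and have the colour of `y`. -/
def TreeSame (y : K) (X : Finset K) : Prop := y ≠ 0 ∧ ∀ x ∈ X, x + y ≠ 0 ∧ c (x + y) = c y

variable {c}

theorem TreeSame.perturb {y : K} {X : Finset K} (h : TreeSame c y X) :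
    ∃ F₁ : Finset K, ∀ η ∈ Nb c F₁, TreeSame c (y + η) X := by
  classical
  refine ⟨{y⁻¹} ∪ X.image (fun x => (x + y)⁻¹), fun η hη => ?_⟩
  have e0 := color_add (c := c) h.1
    (hη _ (Finset.mem_union_left _ (Finset.mem_singleton_self _)))
  refine ⟨e0.1, fun x hx => ?_⟩
  have e1 := color_add (c := c) (h.2 x hx).1
    (hη _ (Finset.mem_union_right _ (Finset.mem_image_of_mem _ hx)))
  rw [← add_assoc]
  exact ⟨e1.1, by rw [e1.2, (h.2 x hx).2, e0.2]⟩

/-- Step A1. -/
theorem tree_exists_bad (hTL : ∀ F : Finset K, ∃ β : K, β ≠ 0 ∧ β ∈ Nb c F)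
    (hc : ∃ a : K, a ≠ 0 ∧ c a ≠ 1)
    (hneg : ∀ F' : Finset K, ∃ α ∈ Nb c F', ∃ β ∈ Nb c F', c (1 + α + β) ≠ 1)
    (X F : Finset K) : ∃ y, TreeSame c y X ∧ Bad c y X F := by
  classical
  suffices h : ∀ X' : Finset K, X' ⊆ X → ∃ y, TreeSame c y X ∧ Bad c y X' F from h X subset_rfl
  intro X'
  induction X' using Finset.induction_on with
  | empty =>
    intro _
    obtain ⟨b, hb, hbX⟩ := hTL X
    refine ⟨b⁻¹, ⟨inv_ne_zero hb, fun x hx => ?_⟩, fun x hx => absurd hx (Finset.notMem_empty x)⟩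
    have h1 : c (1 + x * b) = 1 := hbX x hx
    have h2 : x + b⁻¹ = (1 + x * b) * b⁻¹ := by field_simp; ring
    have h3 : 1 + x * b ≠ 0 := by
      intro h
      rw [h, map_zero] at h1
      exact zero_ne_one h1
    constructor
    · rw [h2]
      exact mul_ne_zero h3 (inv_ne_zero hb)
    · rw [h2, map_mul, h1, one_mul]
  | insert x₀ X' _ ih =>
    intro hsub
    have hx₀ : x₀ ∈ X := hsub (Finset.mem_insert_self _ _)
    obtain ⟨y, hsame, hy⟩ := ih ((Finset.subset_insert _ _).trans hsub)
    have hy0 : x₀ + y ≠ 0 := (hsame.2 x₀ hx₀).1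
    obtain ⟨F₁, hF₁⟩ := hy.perturb
    obtain ⟨F₂, hF₂⟩ := hsame.perturb
    set s := x₀ + y with hs
    obtain ⟨α, hα, β, hβ, hαβ⟩ := hneg ((F₁ ∪ F₂ ∪ F).image (fun f => f * s) ∪ {1})
    have hη₁ : s * α ∈ Nb c F₁ := by
      intro f hf
      have := hα (f * s) (Finset.mem_union_left _ (Finset.mem_image_of_mem _
        (Finset.mem_union_left _ (Finset.mem_union_left _ hf))))
      rwa [mul_assoc] at this
    have hη₂ : s * α ∈ Nb c F₂ := by
      intro f hf
      have := hα (f * s) (Finset.mem_union_left _ (Finset.mem_image_of_mem _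
        (Finset.mem_union_left _ (Finset.mem_union_right _ hf))))
      rwa [mul_assoc] at this
    have hδ : s * β ∈ Nb c F := by
      intro f hf
      have := hβ (f * s) (Finset.mem_union_left _ (Finset.mem_image_of_mem _
        (Finset.mem_union_right _ hf)))
      rwa [mul_assoc] at this
    have hα1 : c (1 + α) = 1 := by
      have := hα 1 (Finset.mem_union_right _ (Finset.mem_singleton_self _))
      rwa [one_mul] at this
    have hsα := color_add (c := c) (δ := s * α) hy0 (by rw [inv_mul_cancel_left₀ hy0, hα1])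
    refine ⟨y + s * α, hF₂ _ hη₂, fun x hx => ?_⟩
    rcases Finset.mem_insert.1 hx with rfl | hx
    · have e1 : x + (y + s * α) = s + s * α := by rw [hs]; ring
      rw [e1]
      refine ⟨hsα.1, ?_⟩
      by_cases h0 : s + s * α + s * β = 0
      · -- move a bit further
        obtain ⟨ε, hε0, hε, hcε⟩ := tree_exists_mem_Nb_ne hTL hc
          (F.image (fun f => f / (1 + f * (s * β)))) s
        refine ⟨s * β + ε, fun f hf => ?_, ?_, ?_⟩
        · have h1 : c (1 + f * (s * β)) = 1 := hδ f hf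
          have h2 : (1 + f * (s * β)) ≠ 0 := by
            intro h; rw [h, map_zero] at h1; exact zero_ne_one h1
          have h3 : c (1 + f / (1 + f * (s * β)) * ε) = 1 :=
            hε _ (Finset.mem_image_of_mem _ hf)
          have h4 : 1 + f * (s * β + ε) =
              (1 + f * (s * β)) * (1 + f / (1 + f * (s * β)) * ε) := by
            rw [mul_add (1 + f * (s * β)) 1, mul_one, ← mul_assoc (1 + f * (s * β)),
              mul_div_cancel₀ _ h2]
            ring
          rw [h4, map_mul, h1, h3, mul_one]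
        · rw [← add_assoc, h0, zero_add]
          exact hε0
        · rw [← add_assoc, h0, zero_add, hsα.2]
          exact hcε
      · refine ⟨s * β, hδ, h0, ?_⟩
        have e2 : s + s * α + s * β = s * (1 + α + β) := by ring
        rw [e2, map_mul, hsα.2]
        intro h
        apply hαβ
        exact mul_left_cancel₀ ((map_ne_zero c).2 hy0) (by rw [h, mul_one])
    · exact hF₁ _ hη₁ x hx

/-- Step A2: patterns of every size. -/
theorem tree_exists_pattern (hTL : ∀ F : Finset K, ∃ β : K, β ≠ 0 ∧ β ∈ Nb c F)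
    (hc : ∃ a : K, a ≠ 0 ∧ c a ≠ 1)
    (hneg : ∀ F' : Finset K, ∃ α ∈ Nb c F', ∃ β ∈ Nb c F', c (1 + α + β) ≠ 1) (m : ℕ) :
    ∃ (f : Fin m → K) (x : Finset (Fin m) → K), ∀ k S, 1 + f k * x S ≠ 0 ∧
      (c (1 + f k * x S) = 1 ↔ k ∉ S) := by
  classical
  induction m with
  | zero => exact ⟨fun _ => 0, fun _ => 0, fun k => k.elim0⟩
  | succ m ih =>
    obtain ⟨f, x, hfx⟩ := ih
    obtain ⟨y, hsame, hbad⟩ := tree_exists_bad hTL hc hneg
      (Finset.univ.image x) ((Finset.univ : Finset (Fin m × Finset (Fin m))).image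
        fun q => f q.1 / (1 + f q.1 * x q.2))
    have hb : ∀ S, ∃ δ, δ ∈ Nb c ((Finset.univ : Finset (Fin m × Finset (Fin m))).image
        fun q => f q.1 / (1 + f q.1 * x q.2)) ∧ x S + y + δ ≠ 0 ∧ c (x S + y + δ) ≠ c (x S + y) := by
      intro S
      obtain ⟨-, δ, h1, h2, h3⟩ := hbad (x S) (Finset.mem_image_of_mem _ (Finset.mem_univ _))
      exact ⟨δ, h1, h2, h3⟩
    choose δ hδ h2 h3 using hb
    have hs : ∀ S, x S + y ≠ 0 ∧ c (x S + y) = c y := fun S =>
      hsame.2 (x S) (Finset.mem_image_of_mem _ (Finset.mem_univ _))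
    have hy : y ≠ 0 := hsame.1
    have hcy : c y ≠ 0 := (map_ne_zero c).2 hy
    have hq : ∀ z : K, 1 + y⁻¹ * z = (z + y) / y := by
      intro z
      field_simp
      ring
    let r : Finset (Fin (m + 1)) → Finset (Fin m) := fun S => Finset.univ.filter fun k => k.succ ∈ S
    have hr : ∀ S k, k ∈ r S ↔ k.succ ∈ S := fun S k => by
      simp only [r, Finset.mem_filter, Finset.mem_univ, true_and]
    refine ⟨Fin.cons y⁻¹ f, fun S => if (0 : Fin (m + 1)) ∈ S then x (r S) + δ (r S) else x (r S),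
      fun k S => ?_⟩
    refine Fin.cases ?_ (fun k => ?_) k
    · simp only [Fin.cons_zero]
      rw [hq]
      by_cases h0 : (0 : Fin (m + 1)) ∈ S
      · rw [if_pos h0]
        have e1 : x (r S) + δ (r S) + y = x (r S) + y + δ (r S) := by ring
        rw [e1]
        refine ⟨div_ne_zero (h2 _) hy, ?_⟩
        rw [map_div₀, div_eq_one_iff_eq hcy]
        constructor
        · intro h
          exact absurd (h.trans (hs (r S)).2.symm) (h3 _)
        · intro h
          exact absurd h0 h
      · rw [if_neg h0]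
        refine ⟨div_ne_zero (hs _).1 hy, ?_⟩
        rw [map_div₀, div_eq_one_iff_eq hcy]
        exact ⟨fun _ => h0, fun _ => (hs _).2⟩
    · simp only [Fin.cons_succ]
      by_cases h0 : (0 : Fin (m + 1)) ∈ S
      · rw [if_pos h0]
        have hne := (hfx k (r S)).1
        have h4 : 1 + f k * (x (r S) + δ (r S)) =
            (1 + f k * x (r S)) * (1 + f k / (1 + f k * x (r S)) * δ (r S)) := by
          rw [mul_add (1 + f k * x (r S)) 1, mul_one, ← mul_assoc (1 + f k * x (r S)),
            mul_div_cancel₀ _ hne]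
          ring
        have h5 : c (1 + f k / (1 + f k * x (r S)) * δ (r S)) = 1 :=
          hδ (r S) _ (Finset.mem_image_of_mem (fun q : Fin m × Finset (Fin m) =>
            f q.1 / (1 + f q.1 * x q.2)) (Finset.mem_univ (k, r S)))
        have h6 : 1 + f k / (1 + f k * x (r S)) * δ (r S) ≠ 0 := by
          intro h
          rw [h, map_zero] at h5
          exact zero_ne_one h5
        rw [h4]
        refine ⟨mul_ne_zero hne h6, ?_⟩
        rw [map_mul, h5, mul_one, (hfx k (r S)).2, hr]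
      · rw [if_neg h0]
        refine ⟨(hfx k (r S)).1, ?_⟩
        rw [(hfx k (r S)).2, hr]

/-- Continuity of addition. -/
theorem exists_add_of_TL {K : Type*} [Field K] {Q : Type*} [GroupWithZero Q] (c : K →*₀ Q)
    (hTL : ∀ F : Finset K, ∃ β : K, β ≠ 0 ∧ β ∈ Nb c F) (hc : ∃ a : K, a ≠ 0 ∧ c a ≠ 1)
    (hVC : ∃ d : ℕ, ∀ f : Fin d → K, ∃ J : Finset (Fin d), ∀ x : K,
      ∃ i, ¬ (c (1 + f i * x) = 1 ↔ i ∈ J)) :
    ∃ F : Finset K, ∀ α ∈ Nb c F, ∀ β ∈ Nb c F, c (1 + α + β) = 1 := by
  classical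
  by_contra hcon
  push Not at hcon
  obtain ⟨d, hd⟩ := hVC
  obtain ⟨f, x, hfx⟩ := tree_exists_pattern hTL hc hcon d
  obtain ⟨J, hJ⟩ := hd f
  obtain ⟨i, hi⟩ := hJ (x Jᶜ)
  apply hi
  rw [(hfx i Jᶜ).2, Finset.mem_compl, not_not]

end Pool.Agent.NIPFields.LG
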