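import Mathlib
import Pool.Agent.NIPFields.LG.Defs
import Pool.Agent.NIPFields.LG.Tree
import Pool.Agent.NIPFields.FI.Main

set_option autoImplicit false

/-!
# The ultrapower has the structure `LD`
-/

namespace Pool.Agent.NIPFields.LG

open FirstOrder FirstOrder.Language FirstOrder.Ring Set Filter
open Pool.Agent.NIPFields.FI

universe u

/-- Membership in the powers of the ultrapower. -/
theorem mem_Pw_germ {K : Type u} [Field K] {ℓ : ℕ} (f : Finset K → K) :
    (↑f : Germ (UF K : Filter (Finset K)) K) ∈ Pw (Germ (UF K : Filter (Finset K)) K) ℓ ↔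
      ∀ᶠ t in (UF K : Filter (Finset K)), f t ∈ Pw K ℓ := by
  classical
  constructor
  · rintro ⟨y, hy, hxy⟩
    induction y using Germ.inductionOn with | _ g
    rw [← Germ.coe_pow, Germ.coe_eq] at hxy
    have h1 : ∀ᶠ t in (UF K : Filter (Finset K)), g t ≠ 0 := by
      have h2 : ¬ ∀ᶠ t in (UF K : Filter (Finset K)), g t = 0 := by
        intro h
        apply hy
        rw [← Germ.coe_zero, Germ.coe_eq]
        exact h
      rw [← Ultrafilter.eventually_not] at h2
      exact h2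
    filter_upwards [hxy, h1] with t h2 h3
    exact ⟨g t, h3, h2⟩
  · intro h
    let g : Finset K → K := fun t => if ht : ∃ y, y ≠ 0 ∧ f t = y ^ ℓ then ht.choose else 1
    refine ⟨(↑g : Germ (UF K : Filter (Finset K)) K), ?_, ?_⟩
    · intro h0
      rw [← Germ.coe_zero, Germ.coe_eq] at h0
      obtain ⟨t, h1, h2⟩ := (h.and h0).exists
      have h3 : ∃ y, y ≠ 0 ∧ f t = y ^ ℓ := h1
      have h4 : g t = h3.choose := dif_pos h3
      rw [h4] at h2
      exact h3.choose_spec.1 h2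
    · rw [← Germ.coe_pow, Germ.coe_eq]
      filter_upwards [h] with t h1
      have h3 : ∃ y, y ≠ 0 ∧ f t = y ^ ℓ := h1
      have h4 : g t = h3.choose := dif_pos h3
      rw [Pi.pow_apply, h4]
      exact h3.choose_spec.2

/-- The VC dimension of the relation `1 + a x` is a power. -/
theorem NIP.vc_lin {L : Type u} [Field L] [CompatibleRing L] (hL : NIP L) (ℓ : ℕ) :
    ∃ d : ℕ, ∀ y : Fin d → L, ∃ J : Finset (Fin d), ∀ x : L,
      ∃ i, ¬ (col ((powMonoidHom ℓ : Lˣ →* Lˣ).range) (1 + y i * x) = 1 ↔ i ∈ J) := by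
  let e : Module.Basis (Fin (Module.finrank L L)) L L := Module.finBasis L L
  have h0 : LDef e {v : (Fin 1 ⊕ Fin 1) ⊕ Fin 1 → L | v (Sum.inr 0) = 0} :=
    LFun.eq (LFun.var _) (LFun.const 0)
  have h1 : LDef e {v : (Fin 1 ⊕ Fin 1) ⊕ Fin 1 → L |
      1 + v (Sum.inl (Sum.inl 0)) * v (Sum.inl (Sum.inr 0)) = v (Sum.inr 0) ^ ℓ} :=
    LFun.eq ((LFun.const 1).add ((LFun.var _).mul (LFun.var _))) ((LFun.var _).pow ℓ)
  obtain ⟨n, hn⟩ := hL.ldef (h0.compl.inter h1).exists
  refine ⟨n, fun y => ?_⟩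
  by_contra hcon
  push Not at hcon
  choose x hx using hcon
  obtain ⟨i, J, hiJ⟩ := hn (fun i _ => y i) (fun J _ => x J)
  apply hiJ
  rw [← hx J i, col_pow]
  constructor
  · rintro ⟨u, hu1, hu2⟩
    exact ⟨u 0, hu1, hu2⟩
  · rintro ⟨z, hz1, hz2⟩
    exact ⟨fun _ => z, hz1, hz2⟩

attribute [local instance] germAlg

theorem ld_germ {K : Type u} [Field K] [CompatibleRing K] (hK : NIP K) {ℓ : ℕ} (hℓ : ℓ ≠ 0)
    (hTL : TL K ℓ) (hne : ∃ a : K, a ≠ 0 ∧ a ∉ Pw K ℓ) :
    @LD K (Germ (UF K : Filter (Finset K)) K) _ _ (germAlg K) ℓ := by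
  classical
  let c := col ((powMonoidHom ℓ : Kˣ →* Kˣ).range)
  have hcP : ∀ x : K, c x = 1 ↔ x ∈ Pw K ℓ := fun x => col_pow
  refine ⟨?_, ?_, ?_, ?_⟩
  · -- not everything is a power
    obtain ⟨a, ha, haP⟩ := hne
    refine ⟨a, ha, fun h => haP ?_⟩
    rw [alg_apply, mem_Pw_germ] at h
    obtain ⟨t, ht⟩ := h.exists
    exact ht
  · -- addition
    obtain ⟨F, hF⟩ := exists_add_of_TL c
      (fun F => by
        obtain ⟨δ, hδ, h⟩ := hTL F
        exact ⟨δ, hδ, fun f hf => (hcP _).2 (h f hf)⟩)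
      (by
        obtain ⟨a, ha, haP⟩ := hne
        exact ⟨a, ha, fun h => haP ((hcP a).1 h)⟩)
      (NIP.vc_lin hK ℓ)
    refine ⟨F, fun α hα β hβ => ?_⟩
    induction α using Germ.inductionOn with | _ f
    induction β using Germ.inductionOn with | _ g
    have h1 : ∀ᶠ t in (UF K : Filter (Finset K)), ∀ a ∈ F, 1 + a * f t ∈ Pw K ℓ := by
      rw [Filter.eventually_all_finset]
      exact fun a ha => (mem_Pw_germ (fun t => 1 + a * f t)).1 (hα a ha)
    have h2 : ∀ᶠ t in (UF K : Filter (Finset K)), ∀ a ∈ F, 1 + a * g t ∈ Pw K ℓ := by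
      rw [Filter.eventually_all_finset]
      exact fun a ha => (mem_Pw_germ (fun t => 1 + a * g t)).1 (hβ a ha)
    rw [← Germ.coe_one, ← Germ.coe_add, ← Germ.coe_add, mem_Pw_germ]
    filter_upwards [h1, h2] with t e1 e2
    exact (hcP _).1 (hF _ (fun a ha => (hcP _).2 (e1 a ha)) _ (fun a ha => (hcP _).2 (e2 a ha)))
  · -- small elements
    intro G
    choose rep hrep using fun g : Germ (UF K : Filter (Finset K)) K =>
      (Quotient.exists_rep g : ∃ f : Finset K → K, (↑f : Germ (UF K : Filter (Finset K)) K) = g)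
    choose δ hδ0 hδ using fun t : Finset K =>
      hTL ((t ×ˢ G).image (fun x => x.1 * rep x.2 t))
    refine ⟨(↑δ : Germ (UF K : Filter (Finset K)) K), ?_, fun g hg a => ?_⟩
    · intro h0
      rw [← Germ.coe_zero, Germ.coe_eq] at h0
      obtain ⟨t, ht⟩ := h0.exists
      exact hδ0 t ht
    · have h1 : (1 + algebraMap K (Germ (UF K : Filter (Finset K)) K) a *
          (g * (↑δ : Germ (UF K : Filter (Finset K)) K))) =
          (↑(fun t => 1 + a * (rep g t * δ t)) : Germ (UF K : Filter (Finset K)) K) := by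
        conv_lhs => rw [← hrep g]
        rfl
      rw [h1, mem_Pw_germ]
      filter_upwards [eventually_mem a] with t ht
      have h2 := hδ t (a * rep g t) (Finset.mem_image.2
        ⟨(a, g), Finset.mem_product.2 ⟨ht, hg⟩, rfl⟩)
      rwa [mul_assoc] at h2
  · -- scaling
    intro A
    obtain ⟨δ, hδ, h⟩ := hTL A
    refine ⟨δ, hδ, fun a ha => ?_⟩
    exact (mem_Pw_germ (fun _ => 1 + a * δ)).2 (Eventually.of_forall fun _ => h a ha)

end Pool.Agent.NIPFields.LG
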