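import Mathlib
import Pool.Agent.NIPFields.LG.FTTop
import Pool.Agent.NIPFields.LG.FTRel
import Pool.Agent.NIPFields.LG.Germ

set_option autoImplicit false

/-!
# The bounded neighbourhood
-/

namespace Pool.Agent.NIPFields.LG

open FirstOrder FirstOrder.Language FirstOrder.Ring Set
open Pool.Agent.NIPFields.FI

universe u

/-- The set `{u : 1 + f u ∈ P for f ∈ F}`. -/
def Wn (L : Type*) [Field L] (q : ℕ) (F : Finset L) : Set L :=
  {u | ∀ f ∈ F, 1 + f * u ∈ Pw L q}

theorem Wn_anti {L : Type*} [Field L] {q : ℕ} {F F' : Finset L} (h : F ⊆ F') :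
    Wn L q F' ⊆ Wn L q F := fun _ hu f hf => hu f (h hf)

theorem zero_mem_Wn {L : Type*} [Field L] {q : ℕ} (F : Finset L) : (0 : L) ∈ Wn L q F := by
  intro f _
  rw [mul_zero, add_zero]
  exact Pw_one

/-- The two properties of a finite set: `F₀` for the addition, `F` for the multiplication. -/
structure GoodF (L : Type*) [Field L] (q : ℕ) (F₀ F : Finset L) : Prop where
  add : ∀ α ∈ Wn L q F₀, ∀ β ∈ Wn L q F₀, 1 + α + β ∈ Pw L q
  mul : ∀ u ∈ Wn L q F, ∀ v ∈ Wn L q F, 1 - u * v ∈ Pw L q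

theorem GoodF.mono {L : Type*} [Field L] {q : ℕ} {F₀ F F' : Finset L} (h : GoodF L q F₀ F)
    (hF : F ⊆ F') : GoodF L q F₀ F' :=
  ⟨h.add, fun u hu v hv => h.mul u (Wn_anti hF hu) v (Wn_anti hF hv)⟩

theorem exists_goodF {L : Type*} [Field L] {q : ℕ}
    (h : ∃ F₀ : Finset L, ∀ α ∈ Wn L q F₀, ∀ β ∈ Wn L q F₀, 1 + α + β ∈ Pw L q) :
    ∃ F₀ F : Finset L, GoodF L q F₀ F := by
  classical
  obtain ⟨F, hF⟩ := h
  refine ⟨F, insert 1 (F.image fun f => 1 - f), hF, fun u hu v hv => ?_⟩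
  have key : ∀ u ∈ Wn L q (insert 1 (F.image fun f => 1 - f)), 1 + u ∈ Pw L q ∧
      -(u / (1 + u)) ∈ Wn L q F := by
    intro u hu
    have h1 := hu 1 (Finset.mem_insert_self _ _)
    rw [one_mul] at h1
    refine ⟨h1, fun f hf => ?_⟩
    have h2 := hu (1 - f) (Finset.mem_insert_of_mem (Finset.mem_image_of_mem _ hf))
    have h3 : 1 + f * -(u / (1 + u)) = (1 + (1 - f) * u) * (1 + u)⁻¹ := by
      have := Pw_ne h1
      field_simp
      ring
    rw [h3]
    exact Pw_mul h2 (Pw_inv h1)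
  obtain ⟨u1, u2⟩ := key u hu
  obtain ⟨v1, v2⟩ := key v hv
  have h := hF _ u2 _ v2
  have e1 := Pw_ne u1
  have e2 := Pw_ne v1
  have h3 : 1 - u * v = (1 + -(u / (1 + u)) + -(v / (1 + v))) * ((1 + u) * (1 + v)) := by
    field_simp
    ring
  rw [h3]
  exact Pw_mul h (Pw_mul u1 v1)

/-- NIP and `TL` give the finite sets. -/
theorem NIP.exists_goodF {L : Type u} [Field L] [CompatibleRing L] (hL : NIP L) {q : ℕ}
    (hTL : TL L q) (hne : ∃ a : L, a ≠ 0 ∧ a ∉ Pw L q) : ∃ F₀ F : Finset L, GoodF L q F₀ F := by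
  classical
  apply LG.exists_goodF
  let c := col ((powMonoidHom q : Lˣ →* Lˣ).range)
  have hcP : ∀ x : L, c x = 1 ↔ x ∈ Pw L q := fun x => col_pow
  obtain ⟨F, hF⟩ := exists_add_of_TL c
    (fun F => by
      obtain ⟨δ, hδ, h⟩ := hTL F
      exact ⟨δ, hδ, fun f hf => (hcP _).2 (h f hf)⟩)
    (by
      obtain ⟨a, ha, haP⟩ := hne
      exact ⟨a, ha, fun h => haP ((hcP a).1 h)⟩)
    (NIP.vc_lin hL q)
  exact ⟨F, fun α hα β hβ => (hcP _).1 (hF _ (fun f hf => (hcP _).2 (hα f hf)) _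
    (fun f hf => (hcP _).2 (hβ f hf)))⟩

section

variable {K L : Type*} [Field K] [Field L] [Algebra K L] {q : ℕ} {F₀ F : Finset L}

theorem TLR.tl (h : TLR K L q) : TL L q := fun A => by
  obtain ⟨δ, hδ, h1⟩ := h A
  exact ⟨algebraMap K L δ, (_root_.map_ne_zero _).2 hδ, h1⟩

/-- Scaling. -/
theorem GoodF.scale (hF : GoodF L q F₀ F) (hR : TLR K L q) (A : Finset L) :
    ∃ c : K, c ≠ 0 ∧ ∀ u ∈ Wn L q F, ∀ a ∈ A, 1 + a * (algebraMap K L c * u) ∈ Pw L q := by
  classical
  obtain ⟨c, hc, hA⟩ := hR ((F ×ˢ A).image fun x => x.1 * -x.2)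
  refine ⟨c, hc, fun u hu a ha => ?_⟩
  have h1 : -a * algebraMap K L c ∈ Wn L q F := by
    intro f hf
    have := hA (f * -a) (Finset.mem_image.2 ⟨(f, a), Finset.mem_product.2 ⟨hf, ha⟩, rfl⟩)
    rwa [mul_assoc] at this
  have h2 := hF.mul _ h1 u hu
  have h3 : 1 - -a * algebraMap K L c * u = 1 + a * (algebraMap K L c * u) := by ring
  rwa [h3] at h2

theorem GoodF.scale_mem (hF : GoodF L q F₀ F) (hR : TLR K L q) (A G : Finset L) :
    ∃ c : K, c ≠ 0 ∧ ∀ u ∈ Wn L q F, ∀ a ∈ A, a * (algebraMap K L c * u) ∈ Wn L q G := by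
  classical
  obtain ⟨c, hc, h⟩ := hF.scale hR ((G ×ˢ A).image fun x => x.1 * x.2)
  refine ⟨c, hc, fun u hu a ha f hf => ?_⟩
  have := h u hu (f * a) (Finset.mem_image.2 ⟨(f, a), Finset.mem_product.2 ⟨hf, ha⟩, rfl⟩)
  rwa [mul_assoc] at this

/-- The set `B`. -/
def Bs (K : Type*) {L : Type*} [Field K] [Field L] [Algebra K L] (q : ℕ) (F : Finset L) : Set K :=
  {x | algebraMap K L x ∈ Wn L q F}

theorem mem_Bs {x : K} : x ∈ Bs K q F ↔ algebraMap K L x ∈ Wn L q F := Iff.rfl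

theorem GoodF.fb (hF : GoodF L q F₀ F) (hR : TLR K L q) : FB (Bs K q F) where
  zero := by
    rw [mem_Bs, map_zero]
    exact zero_mem_Wn F
  lin := by
    classical
    intro A
    obtain ⟨c, hc, h⟩ := hF.scale_mem hR (A.image (algebraMap K L)) F
    refine ⟨c, hc, fun u hu a ha => ?_⟩
    rw [mem_Bs, map_mul, map_mul]
    exact h _ hu _ (Finset.mem_image_of_mem _ ha)
  add := by
    classical
    obtain ⟨c, hc, h⟩ := hF.scale_mem hR F F₀
    refine ⟨c, hc, fun u hu v hv => ?_⟩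
    rw [mem_Bs, map_add, map_mul, map_mul]
    intro f hf
    have := hF.add _ (h _ hu f hf) _ (h _ hv f hf)
    rwa [add_assoc, ← mul_add] at this
  mul := by
    classical
    obtain ⟨c, hc, h⟩ := hF.scale_mem hR (insert 1 (F.image fun f => -f)) F
    refine ⟨c, hc, fun u hu v hv => ?_⟩
    rw [mem_Bs, map_mul, map_mul, map_mul]
    intro f hf
    have h1 := h _ hu 1 (Finset.mem_insert_self _ _)
    rw [one_mul] at h1
    have h2 := h _ hv (-f) (Finset.mem_insert_of_mem (Finset.mem_image_of_mem _ hf))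
    have h3 := hF.mul _ h1 _ h2
    have h4 : 1 - algebraMap K L c * algebraMap K L u * (-f * (algebraMap K L c * algebraMap K L v)) =
      1 + f * (algebraMap K L c * algebraMap K L u * (algebraMap K L c * algebraMap K L v)) := by
      ring
    rwa [h4] at h3
  inv := by
    classical
    obtain ⟨c, hc, h⟩ := hF.scale hR (insert 1 (F.image fun f => 1 - f))
    refine ⟨c, hc, fun u hu => ?_⟩
    have h1 := h _ hu 1 (Finset.mem_insert_self _ _)
    rw [one_mul, ← map_mul, ← map_one (algebraMap K L), ← map_add] at h1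
    have h2 : 1 + c * u ≠ 0 := by
      intro h0
      rw [h0, map_zero] at h1
      exact Pw_ne h1 rfl
    refine ⟨h2, ?_⟩
    have h2' : algebraMap K L (1 + c * u) ≠ 0 := Pw_ne h1
    rw [mem_Bs]
    intro f hf
    have h3 := h _ hu (1 - f) (Finset.mem_insert_of_mem (Finset.mem_image_of_mem _ hf))
    have h4 : 1 + f * algebraMap K L ((1 + c * u)⁻¹ - 1) =
        (1 + (1 - f) * (algebraMap K L c * algebraMap K L u)) * (algebraMap K L (1 + c * u))⁻¹ := by
      rw [map_sub, map_inv₀, map_one]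
      have h5 : algebraMap K L (1 + c * u) = 1 + algebraMap K L c * algebraMap K L u := by
        rw [map_add, map_one, map_mul]
      rw [h5] at h2' ⊢
      field_simp
      ring
    rw [h4]
    exact Pw_mul h3 (Pw_inv h1)
  ne_univ := by
    by_contra hcon
    push Not at hcon
    have h1 : (1 : L) ∈ Wn L q F := by
      have := hcon 1
      rwa [mem_Bs, map_one] at this
    have h2 := hF.mul _ h1 _ h1
    rw [mul_one, sub_self] at h2
    exact Pw_ne h2 rfl
  ne_zero := by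
    classical
    intro c hc
    obtain ⟨δ, hδ, h⟩ := hR (F.image fun f => f * algebraMap K L c)
    refine ⟨δ, hδ, ?_⟩
    rw [mem_Bs, map_mul]
    intro f hf
    have := h _ (Finset.mem_image_of_mem _ hf)
    rwa [mul_assoc] at this

end

/-- The set `B` is definable. -/
theorem def_Bs {K : Type u} [Field K] [CompatibleRing K] {L : Type*} [Field L] [Algebra K L]
    {d : ℕ} (e : Module.Basis (Fin d) K L) (q : ℕ) (F : Finset L) :
    (univ : Set K).Definable₁ Language.ring (Bs K q F) := by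
  have h1 : ∀ f : L, LDef e {v : Unit → L | 1 + f * v () ∈ Pw L q} := by
    intro f
    have e0 : LDef e {v : Unit ⊕ Unit → L | v (Sum.inr ()) = 0} :=
      LFun.eq (LFun.var _) (LFun.const 0)
    have e1 : LDef e {v : Unit ⊕ Unit → L |
        1 + f * v (Sum.inl ()) = v (Sum.inr ()) ^ q} :=
      LFun.eq ((LFun.const 1).add ((LFun.const f).mul (LFun.var _))) ((LFun.var _).pow q)
    have e2 := (e0.compl.inter e1).exists
    convert e2 using 1
    ext v
    constructor
    · rintro ⟨b, hb, hbe⟩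
      exact ⟨fun _ => b, hb, hbe⟩
    · rintro ⟨u, hu1, hu2⟩
      exact ⟨u (), hu1, hu2⟩
  have h2 : LDef₁ e (Wn L q F) := by
    have := LDef.iInter (fun f : F => h1 f)
    unfold LDef₁
    convert this using 1
    ext v
    simp [Wn]
  exact h2.restrict

end Pool.Agent.NIPFields.LG
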