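import Mathlib
import Pool.Agent.NIPFields.LDef

set_option autoImplicit false

/-!
# Quotients of definable subrings of NIP fields
-/

namespace Pool.Agent.NIPFields.LG

open FirstOrder FirstOrder.Language FirstOrder.Ring Set

universe u

section

variable {k : Type u} [Field k] [CompatibleRing k] {E : Subring k}
  {F : Type u} [Field F] [CompatibleRing F] {α β : Type*}

open Classical in
/-- A homomorphism defined on a subring, extended by zero. -/
noncomputable def prF (π : E →+* F) (x : k) : F := if h : x ∈ E then π ⟨x, h⟩ else 0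

omit [CompatibleRing k] [CompatibleRing F] in
theorem prF_of_mem (π : E →+* F) {x : k} (h : x ∈ E) : prF π x = π ⟨x, h⟩ := dif_pos h

/-- A relation on the quotient that is definable over the field. -/
def QDef (π : E →+* F) (S : Set (α → F)) : Prop :=
  (univ : Set k).Definable Language.ring {v : α → k | (∀ i, v i ∈ E) ∧ (fun i => prF π (v i)) ∈ S}

theorem def_allmem [Finite α] (hE : (univ : Set k).Definable₁ Language.ring {x | x ∈ E}) :
    (univ : Set k).Definable Language.ring {v : α → k | ∀ i, v i ∈ E} := by
  have := definable_iInter_of_finite (fun i : α => def_mem hE (dfun_var i))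
  convert this using 1
  ext v
  simp

theorem dfun_term (t : Language.ring.Term α) :
    (univ : Set k).DefinableFun Language.ring (fun v : α → k => t.realize v) := by
  induction t with
  | var i => exact dfun_var i
  | func f ts ih =>
    cases f with
    | add =>
      have := dfun_add (ih 0) (ih 1)
      simp only [Term.realize, CompatibleRing.funMap_add]
      exact this
    | mul =>
      have := dfun_mul (ih 0) (ih 1)
      simp only [Term.realize, CompatibleRing.funMap_mul]
      exact this
    | neg =>
      have := dfun_neg (ih 0)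
      simp only [Term.realize, CompatibleRing.funMap_neg]
      exact this
    | zero =>
      simp only [Term.realize, CompatibleRing.funMap_zero]
      exact dfun_zero
    | one =>
      simp only [Term.realize, CompatibleRing.funMap_one]
      exact dfun_one

theorem term_mem (π : E →+* F) {v : α → k} (hv : ∀ i, v i ∈ E) (t : Language.ring.Term α) :
    ∃ h : t.realize v ∈ E, π ⟨t.realize v, h⟩ = t.realize (fun i => prF π (v i)) := by
  induction t with
  | var i => exact ⟨hv i, (prF_of_mem π (hv i)).symm⟩
  | func f ts ih =>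
    cases f with
    | add =>
      obtain ⟨h0, e0⟩ := ih 0
      obtain ⟨h1, e1⟩ := ih 1
      simp only [Term.realize, CompatibleRing.funMap_add]
      refine ⟨E.add_mem h0 h1, ?_⟩
      rw [← e0, ← e1, ← map_add]
      rfl
    | mul =>
      obtain ⟨h0, e0⟩ := ih 0
      obtain ⟨h1, e1⟩ := ih 1
      simp only [Term.realize, CompatibleRing.funMap_mul]
      refine ⟨E.mul_mem h0 h1, ?_⟩
      rw [← e0, ← e1, ← map_mul]
      rfl
    | neg =>
      obtain ⟨h0, e0⟩ := ih 0
      simp only [Term.realize, CompatibleRing.funMap_neg]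
      refine ⟨E.neg_mem h0, ?_⟩
      rw [← e0, ← map_neg]
      rfl
    | zero =>
      simp only [Term.realize, CompatibleRing.funMap_zero]
      exact ⟨E.zero_mem, map_zero π⟩
    | one =>
      simp only [Term.realize, CompatibleRing.funMap_one]
      exact ⟨E.one_mem, map_one π⟩

omit [CompatibleRing F] in
theorem QDef.preimage_comp [Finite β] (hE : (univ : Set k).Definable₁ Language.ring {x | x ∈ E})
    {π : E →+* F} {S : Set (α → F)} (hS : QDef π S) (f : α → β) :
    QDef π {v : β → F | v ∘ f ∈ S} := by
  have h1 := (def_allmem (α := β) hE).inter (Set.Definable.preimage_comp f hS)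
  unfold QDef
  convert h1 using 1
  ext v
  constructor
  · rintro ⟨h2, h3⟩
    exact ⟨h2, fun i => h2 (f i), h3⟩
  · rintro ⟨h2, h3, h4⟩
    exact ⟨h2, h4⟩

omit [CompatibleRing F] in
theorem QDef.imp [Finite α] (hE : (univ : Set k).Definable₁ Language.ring {x | x ∈ E})
    {π : E →+* F} {S T : Set (α → F)} (hS : QDef π S) (hT : QDef π T) :
    QDef π {v | v ∈ S → v ∈ T} := by
  have h1 := (def_allmem (α := α) hE).inter (hS.compl.union hT)
  unfold QDef
  convert h1 using 1
  ext v
  simp only [mem_ofPred_eq, mem_inter_iff, mem_union, mem_compl_iff]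
  tauto

omit [CompatibleRing F] in
theorem QDef.forall [Finite α] (hE : (univ : Set k).Definable₁ Language.ring {x | x ∈ E})
    {π : E →+* F} (hπ : Function.Surjective π) {S : Set (α ⊕ Unit → F)} (hS : QDef π S) :
    QDef π {v : α → F | ∀ u : F, Sum.elim v (fun _ => u) ∈ S} := by
  have h0 : (univ : Set k).Definable Language.ring {v : α ⊕ Unit → k | v (Sum.inr ()) ∈ E} :=
    def_mem hE (dfun_var _)
  have h1 := (def_allmem (α := α) hE).inter (h0.compl.union hS).forall_of_finite
  unfold QDef
  convert h1 using 1
  ext v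
  simp only [mem_ofPred_eq, mem_inter_iff, mem_union, mem_compl_iff, Sum.elim_inr]
  refine and_congr_right fun hv => ?_
  constructor
  · intro h u
    by_cases hu : u () ∈ E
    · right
      refine ⟨?_, ?_⟩
      · rintro (i | i)
        · exact hv i
        · exact hu
      · have := h (prF π (u ()))
        convert this using 1
        funext i
        rcases i with i | i <;> rfl
    · left; exact hu
  · intro h u
    obtain ⟨x, hx⟩ := hπ u
    rcases h (fun _ => (x : k)) with h | ⟨-, h⟩
    · exact absurd x.2 h
    · convert h using 1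
      funext i
      rcases i with i | i
      · rfl
      · simp only [Sum.elim_inr]
        rw [prF_of_mem π x.2, ← hx]

theorem qdef_boundedFormula [Finite α]
    (hE : (univ : Set k).Definable₁ Language.ring {x | x ∈ E}) {π : E →+* F}
    (hπ : Function.Surjective π)
    (hI : (univ : Set k).Definable₁ Language.ring {x | ∃ h : x ∈ E, π ⟨x, h⟩ = 0}) {n : ℕ}
    (φ : Language.ring.BoundedFormula α n) :
    QDef π {v : α ⊕ Fin n → F | φ.Realize (v ∘ Sum.inl) (v ∘ Sum.inr)} := by
  induction φ with
  | falsum =>
    unfold QDef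
    convert definable_empty using 1
    ext v
    simp [BoundedFormula.Realize]
  | @equal n t₁ t₂ =>
    have h1 := (def_allmem (α := α ⊕ Fin n) hE).inter
      (def_mem hI (dfun_sub (dfun_term t₁) (dfun_term t₂)))
    unfold QDef
    convert h1 using 1
    ext v
    simp only [mem_ofPred_eq, mem_inter_iff, BoundedFormula.Realize]
    refine and_congr_right fun hv => ?_
    obtain ⟨g1, e1⟩ := term_mem π hv t₁
    obtain ⟨g2, e2⟩ := term_mem π hv t₂
    have h : ∀ v : α ⊕ Fin n → F, Sum.elim (v ∘ Sum.inl) (v ∘ Sum.inr) = v :=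
      fun v => Sum.elim_comp_inl_inr v
    rw [h, ← e1, ← e2]
    constructor
    · intro h3
      refine ⟨E.sub_mem g1 g2, ?_⟩
      have : (⟨t₁.realize v - t₂.realize v, E.sub_mem g1 g2⟩ : E) =
        ⟨t₁.realize v, g1⟩ - ⟨t₂.realize v, g2⟩ := rfl
      rw [this, map_sub, h3, sub_self]
    · rintro ⟨h3, h4⟩
      have : (⟨t₁.realize v - t₂.realize v, h3⟩ : E) =
        ⟨t₁.realize v, g1⟩ - ⟨t₂.realize v, g2⟩ := rfl
      rw [this, map_sub, sub_eq_zero] at h4
      exact h4
  | rel R ts => exact (IsEmpty.false R).elim
  | imp φ ψ ih1 ih2 => exact QDef.imp hE ih1 ih2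
  | @all n φ ih =>
    have h1 := QDef.preimage_comp (β := (α ⊕ Fin n) ⊕ Unit) hE ih
      (Sum.elim (fun i => Sum.inl (Sum.inl i))
        (fun j : Fin (n + 1) => Fin.lastCases (Sum.inr ()) (fun j => Sum.inl (Sum.inr j)) j))
    have h2 := QDef.forall hE hπ h1
    unfold QDef at h2 ⊢
    convert h2 using 1
    ext v
    simp only [mem_ofPred_eq, BoundedFormula.Realize]
    refine and_congr_right fun hv => ?_
    have key : ∀ (v : α ⊕ Fin n → F) (u : F),
        ((Sum.elim v (fun _ : Unit => u)) ∘ (Sum.elim (fun i => Sum.inl (Sum.inl i))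
        (fun j : Fin (n + 1) => (Fin.lastCases (Sum.inr ()) (fun j => Sum.inl (Sum.inr j)) j :
          (α ⊕ Fin n) ⊕ Unit)))) ∘ Sum.inr = Fin.snoc (v ∘ Sum.inr) u := by
      intro v u
      funext j
      refine Fin.lastCases ?_ (fun j => ?_) j
      · simp
      · simp
    constructor
    · intro h u
      have := h u
      rw [← key _ u] at this
      exact this
    · intro h a
      have := h a
      rw [key _ a] at this
      exact this

theorem qdef_formula [Finite α]
    (hE : (univ : Set k).Definable₁ Language.ring {x | x ∈ E}) {π : E →+* F}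
    (hπ : Function.Surjective π)
    (hI : (univ : Set k).Definable₁ Language.ring {x | ∃ h : x ∈ E, π ⟨x, h⟩ = 0})
    (φ : Language.ring.Formula α) : QDef π {v : α → F | φ.Realize v} := by
  have h1 := QDef.preimage_comp (β := α) hE (qdef_boundedFormula hE hπ hI φ)
    (Sum.elim id (fun j : Fin 0 => j.elim0))
  convert h1 using 1
  ext v
  simp only [mem_ofPred_eq, Formula.Realize]
  have : (v ∘ Sum.elim id (fun j : Fin 0 => j.elim0)) ∘ Sum.inr = (default : Fin 0 → F) :=
    Subsingleton.elim _ _
  rw [this]
  rfl

end

theorem NIP.quotient {k : Type u} [Field k] [CompatibleRing k] (hk : NIP k) (E : Subring k)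
    (hE : (univ : Set k).Definable₁ Language.ring {x | x ∈ E}) {F : Type u} [Field F]
    [CompatibleRing F] (π : E →+* F) (hπ : Function.Surjective π)
    (hI : (univ : Set k).Definable₁ Language.ring {x | ∃ h : x ∈ E, π ⟨x, h⟩ = 0}) : NIP F := by
  classical
  intro m r φ
  have hR := qdef_formula hE hπ hI φ
  obtain ⟨A, hA, hAR⟩ := definable_iff_finitely_definable.1 hR
  obtain ⟨n, hn⟩ := Pool.Agent.NIPFields.NIP.definable hk (A : Set k) A.finite_toSet _ hAR
  refine ⟨n, fun a b => ?_⟩
  choose a' ha' using fun i j => hπ (a i j)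
  choose b' hb' using fun J j => hπ (b J j)
  obtain ⟨i, J, hiJ⟩ := hn (fun i j => (a' i j : k)) (fun J j => (b' J j : k))
  refine ⟨i, J, fun h => hiJ ?_⟩
  rw [← h]
  simp only [mem_ofPred_eq]
  have h1 : ∀ s : Fin m ⊕ Fin r, Sum.elim (fun j => (a' i j : k)) (fun j => (b' J j : k)) s ∈ E := by
    rintro (j | j)
    · exact (a' i j).2
    · exact (b' J j).2
  have h2 : (fun s : Fin m ⊕ Fin r =>
      prF π (Sum.elim (fun j => (a' i j : k)) (fun j => (b' J j : k)) s)) =
      Sum.elim (a i) (b J) := by
    funext s
    rcases s with j | j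
    · simp only [Sum.elim_inl]
      rw [prF_of_mem π (a' i j).2, ← ha']
    · simp only [Sum.elim_inr]
      rw [prF_of_mem π (b' J j).2, ← hb']
  rw [h2]
  exact ⟨fun h3 => h3.2, fun h3 => ⟨h1, h3⟩⟩

end Pool.Agent.NIPFields.LG
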