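import Mathlib
import Pool.Agent.NIPFields.KSW

set_option autoImplicit false

/-!
# The Kaplan-Scanlon-Wagner argument relative to a subspace
-/

namespace Pool.Agent.NIPFields.LG

section

variable {p : ℕ} [hp : Fact p.Prime] {K : Type*} [Field K] [CharP K p]
  {Q : Type*} [Field Q] [CharP Q p] {ι : Type*} [Fintype ι] [DecidableEq ι]

theorem map_hh (φ : K →+* Q) (a u : K) : φ (hh p a u) = hh p (φ a) (φ u) := by
  rw [hh_apply, hh_apply, map_sub, map_pow, map_mul, map_pow]

/-- The additive polynomials with coefficients in `K` preserve `J`. -/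
theorem q_mem (φ : K →+* Q) (J : AddSubgroup Q) (hsmul : ∀ a : K, ∀ x ∈ J, φ a * x ∈ J)
    (hpow : ∀ x ∈ J, x ^ p ∈ J) {l : ι → K} (S : Finset ι) (h : Ind p l S) {u : Q}
    (hu : u ∈ J) : q p (fun i => φ (l i)) S u ∈ J := by
  classical
  revert h
  refine Finset.induction_on S ?_ ?_
  · intro _
    rw [q_empty]
    exact hu
  · intro i S hi ih h
    have hS : Ind p l S := h.mono (Finset.subset_insert _ _)
    rw [q_insert hi (h.map φ)]
    refine J.sub_mem (hpow _ (ih hS)) ?_
    have h1 : q p (fun i => φ (l i)) S (φ (l i)) = φ (q p l S (l i)) := (map_q φ l S _).symm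
    rw [h1, ← map_pow]
    exact hsmul _ _ (ih hS)

end

theorem as_surj_rel {p : ℕ} [hp : Fact p.Prime] {K : Type*} [Field K] [CharP K p] [Infinite K]
    {Q : Type*} [Field Q] [Algebra K Q] (J : AddSubgroup Q)
    (hsmul : ∀ a : K, ∀ x ∈ J, algebraMap K Q a * x ∈ J) (hpow : ∀ x ∈ J, x ^ p ∈ J) (N : ℕ)
    (hN : ∀ a : Fin N → K, (∀ i, a i ≠ 0) → ∃ i, ∀ y ∈ J,
      (∀ j, j ≠ i → ∃ x ∈ J, y = algebraMap K Q (a j) * (x ^ p - x)) →
      ∃ x ∈ J, y = algebraMap K Q (a i) * (x ^ p - x))
    (w : Q) (hw : w ∈ J) : ∃ u ∈ J, u ^ p - u = w := by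
  classical
  have hchar : CharP Q p := charP_of_injective_algebraMap (algebraMap K Q).injective p
  set φ : K →+* Q := algebraMap K Q with hφ
  obtain ⟨l, hl⟩ := exists_ind (p := p) (K := K) N
  let μ : Fin N → K := fun i => q p l (Finset.univ.erase i) (l i)
  have hμ : ∀ i, μ i ≠ 0 := fun i =>
    q_ne_zero (Finset.notMem_erase i _) (by rwa [Finset.insert_erase (Finset.mem_univ i)])
  have hφμ : ∀ i, φ (μ i) ≠ 0 := fun i => by rw [_root_.map_ne_zero]; exact hμ i
  obtain ⟨i, hi⟩ := hN (fun i => μ i ^ p) (fun i => pow_ne_zero _ (hμ i))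
  have hne : Nonempty (Fin N) := ⟨i⟩
  have hli : l i ≠ 0 := hl.ne_zero (Finset.mem_univ i)
  have hφli : φ (l i) ≠ 0 := by rw [_root_.map_ne_zero]; exact hli
  let L : Fin N → Q := fun j => φ (l j)
  have hL : Ind p L Finset.univ := hl.map φ
  have hμL : ∀ j, q p L (Finset.univ.erase j) (L j) = φ (μ j) := fun j => (map_q φ l _ _).symm
  let S' : Finset (Fin N) := Finset.univ.erase i
  have hiS : i ∉ S' := Finset.notMem_erase i _
  have hinsS : insert i S' = Finset.univ := Finset.insert_erase (Finset.mem_univ i)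
  let ν : Fin N → K := fun j => hh p (l i) (l j)
  have hν : Ind p ν S' := ind_hh hiS (by rwa [hinsS])
  let V : Fin N → Q := fun j => φ (ν j)
  have hV : Ind p V S' := hν.map φ
  have hVhh : V = fun j => hh p (L i) (L j) := funext fun j => map_hh φ _ _
  let W : Q := L i ^ p * w
  have hWJ : W ∈ J := by
    have h1 := hsmul (l i ^ p) w hw
    rwa [map_pow] at h1
  by_cases hS' : S'.Nonempty
  swap
  · -- the trivial case
    rw [Finset.not_nonempty_iff_eq_empty] at hS'
    obtain ⟨x, hxJ, hx⟩ := hi (φ (μ i ^ p) * w) (hsmul _ _ hw) (fun j hj => by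
      have : j ∈ S' := Finset.mem_erase.2 ⟨hj, Finset.mem_univ _⟩
      rw [hS'] at this
      exact absurd this (Finset.notMem_empty _))
    refine ⟨x, hxJ, (mul_left_cancel₀ ?_ hx).symm⟩
    rw [map_pow]
    exact pow_ne_zero _ (hφμ i)
  -- the coordinates
  have hins : ∀ j ∈ S', insert i (S'.erase j) = Finset.univ.erase j := by
    intro j hj
    have hji : j ≠ i := Finset.ne_of_mem_erase hj
    ext k
    simp only [S', Finset.mem_insert, Finset.mem_erase, Finset.mem_univ, and_true]
    constructor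
    · rintro (rfl | ⟨h, _⟩)
      exacts [hji.symm, h]
    · intro h
      by_cases hki : k = i
      · exact Or.inl hki
      · exact Or.inr ⟨h, hki⟩
  have hμV : ∀ j ∈ S', q p V (S'.erase j) (V j) = φ (μ j) := by
    intro j hj
    have h2 := q_hh (l := L) (S := S'.erase j) (i := i)
      (fun h => hiS (Finset.mem_of_mem_erase h)) (hL.mono (Finset.subset_univ _)) (L j)
    rw [hins j hj, hμL j] at h2
    rw [hVhh]
    exact h2.symm
  let xx : Fin N → Q := fun j => φ ((μ j)⁻¹) * q p V (S'.erase j) W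
  let t : Q := q p V S' W
  have htJ : t ∈ J := q_mem φ J hsmul hpow S' hν hWJ
  have hxxJ : ∀ j, xx j ∈ J := fun j =>
    hsmul _ _ (q_mem φ J hsmul hpow (S'.erase j) (hν.mono (Finset.erase_subset _ _)) hWJ)
  have hxxμ : ∀ j, φ (μ j) * xx j = q p V (S'.erase j) W := by
    intro j
    simp only [xx]
    rw [← mul_assoc, ← map_mul, mul_inv_cancel₀ (hμ j), map_one, one_mul]
  have hxx : ∀ j ∈ S', t = φ (μ j) ^ p * (xx j ^ p - xx j) := by
    intro j hj
    have h1 := q_insert (l := V) (S := S'.erase j) (i := j) (Finset.notMem_erase _ _)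
      (by rwa [Finset.insert_erase hj]) W
    rw [Finset.insert_erase hj, hμV j hj] at h1
    have h2 : φ (μ j) ^ p = φ (μ j) ^ (p - 1) * φ (μ j) := by
      rw [← pow_succ, Nat.sub_add_cancel hp.out.one_lt.le]
    change q p V S' W = _
    rw [h1, ← hxxμ j, mul_pow, h2]
    ring
  obtain ⟨x₀, hx₀J, hx₀⟩ := hi t htJ (fun j hj => ⟨xx j, hxxJ j, by
    rw [map_pow]
    exact hxx j (Finset.mem_erase.2 ⟨hj, Finset.mem_univ _⟩)⟩)
  rw [map_pow] at hx₀
  let x : Fin N → Q := Function.update xx i x₀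
  have hxJ : ∀ j, x j ∈ J := by
    intro j
    by_cases hj : j = i
    · subst hj
      simp only [x, Function.update_self]
      exact hx₀J
    · simp only [x, Function.update_of_ne hj]
      exact hxxJ j
  have hx : ∀ j, q p L (Finset.univ.erase j) (L j) ^ p * (x j ^ p - x j) = t := by
    intro j
    rw [hμL j]
    by_cases hj : j = i
    · subst hj
      simp only [x, Function.update_self]
      exact hx₀.symm
    · simp only [x, Function.update_of_ne hj]
      exact (hxx j (Finset.mem_erase.2 ⟨hj, Finset.mem_univ _⟩)).symm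
  have h1 := exists_common hL x t hx
  set u : Q := ∑ j, L j * x j with hu
  have huJ : u ∈ J := J.sum_mem fun j _ => hsmul (l j) (x j) (hxJ j)
  have h2 : ∀ j ∈ S', q p V (S'.erase j) (hh p (L i) u) = q p V (S'.erase j) W := by
    intro j hj
    have hji : j ≠ i := Finset.ne_of_mem_erase hj
    have h4 := q_hh (l := L) (S := S'.erase j) (i := i)
      (fun h => hiS (Finset.mem_of_mem_erase h)) (hL.mono (Finset.subset_univ _)) u
    rw [hins j hj, h1 j, hμL j, ← hVhh] at h4
    rw [← h4]
    simp only [x, Function.update_of_ne hji]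
    exact hxxμ j
  have h3 : hh p (L i) u = W := by
    rw [← sum_q hV hS' (hh p (L i) u), ← sum_q hV hS' W]
    exact Finset.sum_congr rfl (fun j hj => by rw [h2 j hj])
  refine ⟨φ ((l i)⁻¹) * u, hsmul _ _ huJ, ?_⟩
  rw [hh_apply] at h3
  have hφi : φ ((l i)⁻¹) * u = u / L i := by
    rw [map_inv₀, div_eq_mul_inv, mul_comm]
  rw [hφi]
  have h4 : L i ^ p = L i ^ (p - 1) * L i := by
    rw [← pow_succ, Nat.sub_add_cancel hp.out.one_lt.le]
  have h5 : L i ^ p * ((u / L i) ^ p - u / L i) = L i ^ p * w := by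
    have h6 : u / L i * L i = u := div_mul_cancel₀ _ hφli
    rw [mul_sub, div_pow, mul_div_cancel₀ _ (pow_ne_zero _ hφli)]
    change _ = W
    rw [← h3]
    have h7 : L i ^ p * (u / L i) = L i ^ (p - 1) * u := by
      rw [h4]; linear_combination (L i ^ (p - 1)) * h6
    rw [h7]
  exact mul_left_cancel₀ (pow_ne_zero _ hφli) h5

end Pool.Agent.NIPFields.LG
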