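import Mathlib
import Pool.Agent.NIPFields.LG.Defs
import Pool.Agent.NIPFields.KSW
import Pool.Agent.NIPFields.LG.ASRel

set_option autoImplicit false

/-!
# Artin-Schreier surjectivity for the groups `∑ M b_m` (Step D2)
-/

namespace Pool.Agent.NIPFields.LG

open FirstOrder FirstOrder.Language FirstOrder.Ring Set
open Pool.Agent.NIPFields.FI
open scoped Polynomial

universe u v w

section definability

variable {k : Type u} [Field k] [CompatibleRing k]

/-- The set of non-zero `ℓ`-th powers is definable. -/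
theorem def_Pw (ℓ : ℕ) : (univ : Set k).Definable₁ Language.ring (Pw k ℓ) := by
  have e1 : (univ : Set k).Definable Language.ring
      {w : Fin 1 ⊕ Fin 1 → k | w (Sum.inr 0) = 0} :=
    Set.DefinableFun.ofPred_eq (dfun_var _) dfun_zero
  have e2 : (univ : Set k).Definable Language.ring
      {w : Fin 1 ⊕ Fin 1 → k | w (Sum.inl 0) = w (Sum.inr 0) ^ ℓ} :=
    Set.DefinableFun.ofPred_eq (dfun_var _) (dfun_pow (dfun_var _) ℓ)
  have h := (e1.compl.inter e2).exists_of_finite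
  unfold Definable₁
  convert h using 1
  ext v
  constructor
  · rintro ⟨b, hb, hv⟩
    exact ⟨fun _ => b, hb, hv⟩
  · rintro ⟨u, hu1, hu2⟩
    exact ⟨u 0, hu1, hu2⟩

/-- The sets `US` are definable. -/
theorem def_US {K : Type v} [Field K] [Algebra K k] (ℓ : ℕ) (F : Finset K) :
    (univ : Set k).Definable₁ Language.ring (US K ℓ k F) := by
  have h := definable_iInter_of_finite (fun f : F =>
    def_mem (def_Pw (k := k) ℓ) (f := fun v : Fin 1 → k => 1 + algebraMap K k f * v 0)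
      (dfun_add dfun_one (dfun_mul (dfun_const (mem_univ _)) (dfun_var 0))))
  unfold Definable₁
  convert h using 1
  ext v
  simp only [mem_ofPred_eq, mem_iInter, US, Subtype.forall]

end definability

section

variable {K : Type v} {k : Type u} [Field K] [Field k] [Algebra K k] {ℓ : ℕ}

/-- The relation used in the Baldwin-Saxl argument. -/
def RelS {Q : Type w} [Field Q] [Algebra k Q] {d : ℕ} (b : Module.Basis (Fin d) k Q) (p : ℕ)
    (U : Set k) (G : Finset k) (m₀ : Fin d) : Set ((Fin 1 ⊕ Fin 2) ⊕ Fin 2 → Q) :=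
  {v | v (Sum.inl (Sum.inl 0)) * (v (Sum.inr 0) ^ p - v (Sum.inr 0)) =
      v (Sum.inl (Sum.inr 0)) ∧ v (Sum.inr 1) * (1 - v (Sum.inr 0) ^ (p - 1)) = 1 ∧
    ∀ m : Fin d, ∀ g ∈ G, b.repr (v (Sum.inr 1)) m * b.repr (v (Sum.inl (Sum.inr 1))) m₀ * g⁻¹ ∈ U}

theorem ldef_RelS [CompatibleRing k] {Q : Type w} [Field Q] [Algebra k Q] {d : ℕ}
    (b : Module.Basis (Fin d) k Q) (p : ℕ) {U : Set k}
    (hU : (univ : Set k).Definable₁ Language.ring U) (G : Finset k) (m₀ : Fin d) :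
    LDef b (RelS b p U G m₀) := by
  have e1 : LDef b {v : (Fin 1 ⊕ Fin 2) ⊕ Fin 2 → Q |
      v (Sum.inl (Sum.inl 0)) * (v (Sum.inr 0) ^ p - v (Sum.inr 0)) =
      v (Sum.inl (Sum.inr 0))} :=
    LFun.eq (LFun.mul (LFun.var _) (LFun.sub (LFun.pow (LFun.var _) p) (LFun.var _)))
      (LFun.var _)
  have e2 : LDef b {v : (Fin 1 ⊕ Fin 2) ⊕ Fin 2 → Q |
      v (Sum.inr 1) * (1 - v (Sum.inr 0) ^ (p - 1)) = 1} :=
    LFun.eq (LFun.mul (LFun.var _) (LFun.sub (LFun.const 1) (LFun.pow (LFun.var _) (p - 1))))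
      (LFun.const 1)
  have e3 : LDef b (⋂ q : Fin d × G, {v : (Fin 1 ⊕ Fin 2) ⊕ Fin 2 → Q |
      b.repr (v (Sum.inr 1)) q.1 * b.repr (v (Sum.inl (Sum.inr 1))) m₀ * (q.2 : k)⁻¹ ∈ U}) := by
    refine LDef.iInter (fun q => ?_)
    exact def_mem hU (dfun_mul (dfun_mul (LFun.var (e := b) (Sum.inr 1) q.1)
      (LFun.var (e := b) (Sum.inl (Sum.inr 1)) m₀)) (dfun_const (mem_univ _)))
  have h := (e1.inter e2).inter e3
  have h2 : RelS b p U G m₀ = {v : (Fin 1 ⊕ Fin 2) ⊕ Fin 2 → Q |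
      v (Sum.inl (Sum.inl 0)) * (v (Sum.inr 0) ^ p - v (Sum.inr 0)) =
      v (Sum.inl (Sum.inr 0))} ∩ {v : (Fin 1 ⊕ Fin 2) ⊕ Fin 2 → Q |
      v (Sum.inr 1) * (1 - v (Sum.inr 0) ^ (p - 1)) = 1} ∩
      (⋂ q : Fin d × G, {v : (Fin 1 ⊕ Fin 2) ⊕ Fin 2 → Q |
      b.repr (v (Sum.inr 1)) q.1 * b.repr (v (Sum.inl (Sum.inr 1))) m₀ * (q.2 : k)⁻¹ ∈ U}) := by
    ext v
    simp only [RelS, mem_ofPred_eq, mem_inter_iff, mem_iInter, Prod.forall, Subtype.forall,
      and_assoc]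
  rw [h2]
  exact h

end

theorem LD.as_surj {p : ℕ} [hp : Fact p.Prime] {K : Type v} {k : Type u} [Field K] [CharP K p]
    [Infinite K] [Field k] [Algebra K k] [CompatibleRing k] (hk : NIP k) {ℓ : ℕ} (D : LD K k ℓ)
    {G : Finset k} (h1 : (1 : k) ∈ G) (h0 : ∀ g ∈ G, g ≠ 0) {Q : Type w} [Field Q] [Algebra k Q]
    {d : ℕ} (b : Module.Basis (Fin d) k Q) (M : Ideal (D.E G))
    (B : Subring Q) (hB : ∀ x, x ∈ B ↔ ∀ m, b.repr x m ∈ D.E G)
    (J : AddSubgroup Q)
    (hJ : ∀ x, x ∈ J ↔ ∀ m, ∃ h : b.repr x m ∈ D.E G, (⟨_, h⟩ : D.E G) ∈ M)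
    (hJB : ∀ x ∈ J, ∀ y ∈ B, y * x ∈ J) (hunit : ∀ x ∈ J, ∃ v ∈ B, v * (1 + x) = 1)
    (x : Q) (hx : x ∈ J) : ∃ u ∈ J, u ^ p - u = x := by
  classical
  -- `Q` as a `K`-algebra
  let _ : Algebra K Q := ((algebraMap k Q).comp (algebraMap K k)).toAlgebra
  have halg : ∀ a : K, algebraMap K Q a = algebraMap k Q (algebraMap K k a) := fun _ => rfl
  have hchar : CharP Q p := charP_of_injective_algebraMap (algebraMap K Q).injective p
  have hp2 : p = (p - 2) + 2 := (Nat.sub_add_cancel hp.out.two_le).symm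
  have hJsubB : ∀ x ∈ J, x ∈ B := fun x hx => (hB x).2 fun m => ((hJ x).1 hx m).choose
  have halgB : ∀ a : K, algebraMap K Q a ∈ B := by
    intro a
    rw [hB]
    intro m
    rw [halg, Algebra.algebraMap_eq_smul_one, map_smul, Finsupp.smul_apply, smul_eq_mul]
    exact (D.E G).mul_mem (D.algebraMap_mem G a) ((hB 1).1 B.one_mem m)
  have hsmul : ∀ a : K, ∀ x ∈ J, algebraMap K Q a * x ∈ J := fun a x hx => hJB x hx _ (halgB a)
  have hpow1 : ∀ x ∈ J, x ^ (p - 1) ∈ J := by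
    intro x hx
    have e : p - 1 = (p - 2) + 1 := by omega
    rw [e, pow_succ]
    exact hJB x hx _ (B.pow_mem (hJsubB x hx) _)
  have hpow : ∀ x ∈ J, x ^ p ∈ J := by
    intro x hx
    rw [hp2, pow_succ]
    exact hJB x hx _ (B.pow_mem (hJsubB x hx) _)
  -- a coordinate
  have hd : Nonempty (Fin d) := by
    by_contra hcon
    rw [not_nonempty_iff] at hcon
    have h2 : (1 : Q) = 0 := by
      rw [← b.sum_repr 1]
      exact Finset.sum_of_isEmpty _
    exact one_ne_zero h2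
  obtain ⟨m₀⟩ := hd
  obtain ⟨F, hF⟩ := D.exists_UGood
  have hR : LDef b {v : Fin 1 ⊕ Fin 2 → Q | ∃ u : Fin 2 → Q,
      Sum.elim v u ∈ RelS b p (US K ℓ k F) G m₀} := (ldef_RelS b p (def_US ℓ F) G m₀).exists
  obtain ⟨N, hN⟩ := hk.ldef hR
  refine as_surj_rel J hsmul hpow N (fun a ha => ?_) x hx
  by_contra hcon
  push Not at hcon
  choose y hyJ hy1 hy2 using hcon
  -- the groups
  let H : Fin N → AddSubgroup Q := fun i =>
    J.map ((AddMonoidHom.mulLeft (algebraMap K Q (a i))).comp (hh p (1 : Q)))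
  have hH : ∀ i z, z ∈ H i ↔ ∃ x ∈ J, z = algebraMap K Q (a i) * (x ^ p - x) := by
    intro i z
    simp only [H, AddSubgroup.mem_map, AddMonoidHom.comp_apply, AddMonoidHom.coe_mulLeft,
      hh_apply, one_pow, one_mul]
    exact ⟨fun ⟨x, hx, h⟩ => ⟨x, hx, h.symm⟩, fun ⟨x, hx, h⟩ => ⟨x, hx, h.symm⟩⟩
  let yS : Finset (Fin N) → Q := fun S => ∑ i ∈ Sᶜ, y i
  have hySJ : ∀ S, yS S ∈ J := fun S => AddSubgroup.sum_mem _ fun i _ => hyJ i
  have hyS : ∀ i S, yS S ∈ H i ↔ i ∈ S := by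
    intro i S
    constructor
    · intro h
      by_contra hi
      have hi' : i ∈ Sᶜ := Finset.mem_compl.2 hi
      have h' : ∑ j ∈ Sᶜ, y j ∈ H i := h
      rw [← Finset.add_sum_erase _ _ hi'] at h'
      have h1 : ∑ j ∈ Sᶜ.erase i, y j ∈ H i := by
        refine AddSubgroup.sum_mem _ (fun j hj => (hH i _).2 (hy1 j i ?_))
        exact (Finset.ne_of_mem_erase hj).symm
      obtain ⟨x, hxJ, hx⟩ := (hH i _).1 ((AddSubgroup.add_mem_cancel_right _ h1).1 h')
      exact hy2 i x hxJ hx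
    · intro hi
      refine AddSubgroup.sum_mem _ (fun j hj => (hH i _).2 (hy1 j i ?_))
      rintro rfl
      exact (Finset.mem_compl.1 hj) hi
  -- the polynomials
  let P : Fin N → Finset (Fin N) → Q[X] := fun i S =>
    Polynomial.C (algebraMap K Q (a i)) * (Polynomial.X ^ p - Polynomial.X) -
      Polynomial.C (yS S)
  have ha' : ∀ i, algebraMap K Q (a i) ≠ 0 := fun i => (map_ne_zero _).2 (ha i)
  have hP : ∀ i S, P i S ≠ 0 := by
    intro i S h
    have h2 : (P i S).coeff p = algebraMap K Q (a i) := by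
      have hp1 : p ≠ 1 := hp.out.one_lt.ne'
      have hp0 : p ≠ 0 := hp.out.ne_zero
      simp only [P, Polynomial.coeff_sub, Polynomial.coeff_C_mul, Polynomial.coeff_X_pow,
        Polynomial.coeff_X, Polynomial.coeff_C, if_true, if_neg hp0, if_neg hp1.symm]
      ring
    rw [h, Polynomial.coeff_zero] at h2
    exact ha' i h2.symm
  have hroot : ∀ i S x, algebraMap K Q (a i) * (x ^ p - x) = yS S → x ∈ (P i S).roots := by
    intro i S x h
    rw [Polynomial.mem_roots (hP i S), Polynomial.IsRoot.def]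
    simp only [P, Polynomial.eval_sub, Polynomial.eval_mul, Polynomial.eval_C,
      Polynomial.eval_pow, Polynomial.eval_X]
    rw [h, sub_self]
  let W : Finset k := Finset.univ.biUnion fun q : Fin N × Finset (Fin N) × Fin d =>
    (P q.1 q.2.1).roots.toFinset.image fun x => b.repr (1 - x ^ (p - 1))⁻¹ q.2.2
  have hW : ∀ i S x v, algebraMap K Q (a i) * (x ^ p - x) = yS S → v * (1 - x ^ (p - 1)) = 1 →
      ∀ m, b.repr v m ∈ W := by
    intro i S x v h h' m
    have hv : v = (1 - x ^ (p - 1))⁻¹ := eq_inv_of_mul_eq_one_left h'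
    rw [hv]
    refine Finset.mem_biUnion.2 ⟨(i, S, m), Finset.mem_univ _, ?_⟩
    exact Finset.mem_image.2 ⟨x, Multiset.mem_toFinset.2 (hroot i S x h), rfl⟩
  obtain ⟨j, hj, hjW⟩ := D.exists_witness G W
  obtain ⟨c, hc, hcZ⟩ := UGood.exists_scale D hF ((W ×ˢ G).image fun q => q.1 * j / q.2)
  have key : ∀ w ∈ W, w ∈ D.E G ↔ ∀ g ∈ G, w * (j / algebraMap K k c) * g⁻¹ ∈ US K ℓ k F := by
    intro w hw
    rw [hjW w hw, D.mem_I]
    refine forall₂_congr fun g hg => ?_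
    rw [hcZ _ (Finset.mem_image.2 ⟨(w, g), Finset.mem_product.2 ⟨hw, hg⟩, rfl⟩)]
    have e : w * j / g / algebraMap K k c = w * (j / algebraMap K k c) * g⁻¹ := by
      rw [div_eq_mul_inv, div_eq_mul_inv, div_eq_mul_inv]
      ring
    rw [e]
  obtain ⟨i, S, hiS⟩ := hN (fun i _ => algebraMap K Q (a i))
    (fun S => ![yS S, (j / algebraMap K k c) • b m₀])
  apply hiS
  have hrep : b.repr ((j / algebraMap K k c) • b m₀) m₀ = j / algebraMap K k c := by
    rw [map_smul, Finsupp.smul_apply, b.repr_self, Finsupp.single_eq_same, smul_eq_mul, mul_one]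
  rw [mem_ofPred_eq, ← hyS i S, hH]
  constructor
  · rintro ⟨u, hu1, hu2, hu3⟩
    simp only [Sum.elim_inl, Sum.elim_inr, Matrix.cons_val_zero, Matrix.cons_val_one] at hu1 hu2 hu3
    have hvB : u 1 ∈ B := by
      rw [hB]
      intro m
      rw [key _ (hW i S _ _ hu1 hu2 m)]
      intro g hg
      have := hu3 m g hg
      rwa [hrep] at this
    have hz : (u 0) ^ p - u 0 ∈ J := by
      have h2 := hsmul (a i)⁻¹ _ (hySJ S)
      rw [← hu1, map_inv₀, inv_mul_cancel_left₀ (ha' i)] at h2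
      exact h2
    have hx0 : u 0 ∈ J := by
      have h2 := hJB _ hz _ hvB
      have e : p = (p - 1) + 1 := by omega
      have h3 : u 1 * (u 0 ^ p - u 0) = - u 0 := by
        have h4 : u 0 ^ p = u 0 ^ (p - 1) * u 0 := by rw [← pow_succ, ← e]
        rw [h4]
        linear_combination (- u 0) * hu2
      rw [h3] at h2
      exact neg_mem_iff.1 h2
    exact ⟨u 0, hx0, hu1.symm⟩
  · rintro ⟨x, hxJ, hx⟩
    obtain ⟨v, hvB, hv⟩ := hunit _ (J.neg_mem (hpow1 x hxJ))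
    rw [← sub_eq_add_neg] at hv
    refine ⟨![x, v], ?_, ?_, ?_⟩
    · simp only [Sum.elim_inl, Sum.elim_inr, Matrix.cons_val_zero]
      exact hx.symm
    · simp only [Sum.elim_inr, Matrix.cons_val_zero, Matrix.cons_val_one]
      exact hv
    · intro m g hg
      change b.repr v m * b.repr ((j / algebraMap K k c) • b m₀) m₀ * g⁻¹ ∈ US K ℓ k F
      rw [hrep]
      exact (key _ (hW i S x v hx.symm hv m)).1 ((hB v).1 hvB m) g hg

end Pool.Agent.NIPFields.LG
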