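import Mathlib
import Pool.Agent.NIPFields.LG.ASNip

/-!
# Elements `1 + z`, `z` in the maximal ideal, are `ℓ`-th powers
-/

set_option autoImplicit false

namespace Pool.Agent.NIPFields.LG

open FirstOrder FirstOrder.Language FirstOrder.Ring Set Filter IsLocalRing
open Pool.Agent.NIPFields.FI
open scoped Polynomial

universe u v w

/-- The Kummer extension and the free `E`-algebra generated by the root. -/
theorem exists_kummer_data {k : Type u} [Field k] (E : Subring k) [IsLocalRing E] {ℓ : ℕ}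
    (hℓ : ℓ.Prime) (z : E) (hno : ∀ b : k, b ^ ℓ ≠ 1 + (z : k)) :
    ∃ (Q : Type u) (_ : Field Q) (_ : Algebra k Q) (b : Module.Basis (Fin ℓ) k Q) (α : Q)
      (B : Subring Q) (J : AddSubgroup Q),
      (∀ m : Fin ℓ, b m = α ^ (m : ℕ)) ∧ α ^ ℓ = algebraMap k Q (1 + (z : k)) ∧
      (∀ x, x ∈ B ↔ ∀ m, b.repr x m ∈ E) ∧
      (∀ x, x ∈ J ↔ ∀ m, ∃ h : b.repr x m ∈ E, (⟨_, h⟩ : E) ∈ maximalIdeal E) ∧
      (∀ x ∈ J, ∀ y ∈ B, y * x ∈ J) ∧ (∀ x ∈ J, ∃ v ∈ B, v * (1 + x) = 1) := by
  classical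
  set f : k[X] := Polynomial.X ^ ℓ - Polynomial.C (1 + (z : k)) with hf
  set g : E[X] := Polynomial.X ^ ℓ - Polynomial.C (1 + z) with hg
  have hirr : Irreducible f := X_pow_sub_C_irreducible_of_prime hℓ hno
  have : Fact (Irreducible f) := ⟨hirr⟩
  have hgm : g.Monic := Polynomial.monic_X_pow_sub_C _ hℓ.pos.ne'
  have hfdeg : f.natDegree = ℓ := Polynomial.natDegree_X_pow_sub_C
  have hgdeg : g.natDegree = ℓ := Polynomial.natDegree_X_pow_sub_C
  let Q := AdjoinRoot f
  let S := AdjoinRoot g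
  set α : Q := AdjoinRoot.root f with hα
  have hαℓ : α ^ ℓ = algebraMap k Q (1 + (z : k)) := by
    have h1 := AdjoinRoot.eval₂_root f
    rw [hf, Polynomial.eval₂_sub, Polynomial.eval₂_X_pow, Polynomial.eval₂_C] at h1
    exact sub_eq_zero.1 h1
  -- the basis
  let pb := AdjoinRoot.powerBasis hirr.ne_zero
  have hdim : pb.dim = ℓ := hfdeg
  let b : Module.Basis (Fin ℓ) k Q := pb.basis.reindex (finCongr hdim)
  have hb : ∀ m : Fin ℓ, b m = α ^ (m : ℕ) := by
    intro m
    show (pb.basis.reindex (finCongr hdim)) m = _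
    rw [Module.Basis.reindex_apply, PowerBasis.coe_basis]
    rfl
  -- the algebra over `E`
  let pb' := AdjoinRoot.powerBasis' hgm
  have hdim' : pb'.dim = ℓ := hgdeg
  let c : Module.Basis (Fin ℓ) E S := pb'.basis.reindex (finCongr hdim')
  have hc : ∀ m : Fin ℓ, c m = (AdjoinRoot.root g) ^ (m : ℕ) := by
    intro m
    show (pb'.basis.reindex (finCongr hdim')) m = _
    rw [Module.Basis.reindex_apply, PowerBasis.coe_basis]
    rfl
  have hroot : g.eval₂ ((algebraMap k Q).comp E.subtype) α = 0 := by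
    rw [hg, Polynomial.eval₂_sub, Polynomial.eval₂_X_pow, Polynomial.eval₂_C, hαℓ]
    simp
  let φ : S →+* Q := AdjoinRoot.lift ((algebraMap k Q).comp E.subtype) α hroot
  have hφof : ∀ e : E, φ (algebraMap E S e) = algebraMap k Q (e : k) := by
    intro e
    exact AdjoinRoot.lift_of _
  have hφroot : φ (AdjoinRoot.root g) = α := AdjoinRoot.lift_root _
  -- coordinates
  have hrepr : ∀ (s : S) (m : Fin ℓ), b.repr (φ s) m = ((c.repr s m : E) : k) := by
    intro s m
    have h1 : φ s = ∑ i, ((c.repr s i : E) : k) • b i := by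
      conv_lhs => rw [← c.sum_repr s]
      rw [map_sum]
      refine Finset.sum_congr rfl fun i _ => ?_
      rw [hc i, Algebra.smul_def, map_mul, hφof, map_pow, hφroot, hb i, Algebra.smul_def]
    rw [h1, Module.Basis.repr_sum_self]
  have hsurj : ∀ x : Q, (∀ m, b.repr x m ∈ E) → ∃ s : S, φ s = x ∧
      ∀ m, ((c.repr s m : E) : k) = b.repr x m := by
    intro x hx
    refine ⟨∑ i, (⟨b.repr x i, hx i⟩ : E) • c i, ?_, fun m => by
      rw [Module.Basis.repr_sum_self]⟩
    rw [map_sum]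
    conv_rhs => rw [← b.sum_repr x]
    refine Finset.sum_congr rfl fun i _ => ?_
    rw [hc i, Algebra.smul_def, map_mul, hφof, map_pow, hφroot, hb i, Algebra.smul_def]
  -- the ideal
  have hideal : ∀ s : S, s ∈ Ideal.map (algebraMap E S) (maximalIdeal E) ↔
      ∀ m, c.repr s m ∈ maximalIdeal E := by
    intro s
    constructor
    · intro hs m
      have h1 : s ∈ (maximalIdeal E • (⊤ : Submodule E S)) := by
        rw [Ideal.smul_top_eq_map]
        exact hs
      have h2 : ∀ m, c.repr s m ∈ maximalIdeal E := by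
        refine Submodule.smul_induction_on (p := fun s => ∀ m, c.repr s m ∈ maximalIdeal E) h1
          ?_ ?_
        · intro r hr n _ m
          rw [map_smul, Finsupp.smul_apply, smul_eq_mul]
          exact Ideal.mul_mem_right _ _ hr
        · intro x y hx hy m
          rw [map_add, Finsupp.add_apply]
          exact Ideal.add_mem _ (hx m) (hy m)
      exact h2 m
    · intro h
      rw [← c.sum_repr s]
      refine Ideal.sum_mem _ fun i _ => ?_
      rw [Algebra.smul_def]
      exact Ideal.mul_mem_right _ _ (Ideal.mem_map_of_mem _ (h i))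
  let B : Subring Q := φ.range
  let J : AddSubgroup Q :=
    (Ideal.map (algebraMap E S) (maximalIdeal E)).toAddSubgroup.map φ.toAddMonoidHom
  have hB : ∀ x, x ∈ B ↔ ∀ m, b.repr x m ∈ E := by
    intro x
    constructor
    · rintro ⟨s, rfl⟩ m
      rw [hrepr]
      exact (c.repr s m).2
    · intro hx
      obtain ⟨s, hs, _⟩ := hsurj x hx
      exact ⟨s, hs⟩
  have hJ : ∀ x, x ∈ J ↔ ∀ m, ∃ h : b.repr x m ∈ E, (⟨_, h⟩ : E) ∈ maximalIdeal E := by
    intro x
    constructor
    · rintro ⟨s, hs, rfl⟩ m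
      have h1 := (hideal s).1 hs m
      have h2 := hrepr s m
      refine ⟨by
        show b.repr (φ s) m ∈ E
        rw [h2]; exact (c.repr s m).2, ?_⟩
      convert h1
      exact h2
    · intro hx
      obtain ⟨s, hs, hs2⟩ := hsurj x fun m => (hx m).1
      refine ⟨s, (hideal s).2 fun m => ?_, hs⟩
      obtain ⟨h, hm⟩ := hx m
      convert hm
      exact hs2 m
  refine ⟨Q, inferInstance, inferInstance, b, α, B, J, hb, hαℓ, hB, hJ, ?_, ?_⟩
  · rintro _ ⟨s, hs, rfl⟩ _ ⟨t, rfl⟩
    refine ⟨t * s, Ideal.mul_mem_left _ _ hs, ?_⟩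
    exact map_mul φ t s
  · rintro _ ⟨s, hs, rfl⟩
    -- `1 + s` is a unit of `S`
    have : Module.Finite E S := pb'.finite
    have : Algebra.IsIntegral E S := Algebra.IsIntegral.of_finite E S
    have hu : IsUnit (1 + s) := by
      by_contra hcon
      obtain ⟨P, hP, hsP⟩ := exists_max_ideal_of_mem_nonunits hcon
      have := hP
      have hmax := Ideal.isMaximal_comap_of_isIntegral_of_isMaximal (R := E) P
      have h1 : Ideal.comap (algebraMap E S) P = maximalIdeal E :=
        IsLocalRing.eq_maximalIdeal hmax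
      have h2 : Ideal.map (algebraMap E S) (maximalIdeal E) ≤ P := by
        rw [Ideal.map_le_iff_le_comap, h1]
      have h3 : (1 : S) ∈ P := by
        have := P.sub_mem hsP (h2 hs)
        simpa using this
      exact hP.ne_top ((Ideal.eq_top_iff_one P).2 h3)
    obtain ⟨v, hv⟩ := hu.exists_left_inv
    refine ⟨φ v, ⟨v, rfl⟩, ?_⟩
    have := congrArg φ hv
    rw [map_mul, map_add, map_one] at this
    exact this

/-- **Step E2.** Elements `1 + z`, `z` in the maximal ideal, are `ℓ`-th powers. -/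
theorem LD.one_add_mem_Pw {p : ℕ} [hp : Fact p.Prime] {K : Type v} {k : Type u} [Field K]
    [CharP K p] [Infinite K] [Field k] [Algebra K k] [CompatibleRing k] (hk : NIP k) {ℓ : ℕ}
    (hℓ : ℓ.Prime) (hℓp : ℓ ≠ p) (D : LD K k ℓ) {G : Finset k} (h1 : (1 : k) ∈ G)
    (h0 : ∀ g ∈ G, g ≠ 0) [IsLocalRing (D.E G)] {z : D.E G} (hz : z ∈ maximalIdeal (D.E G)) :
    1 + (z : k) ∈ Pw k ℓ := by
  classical
  by_contra hcon
  -- `1 + z` is not an `ℓ`-th power
  have hunit : ∀ w : D.E G, w ∈ maximalIdeal (D.E G) → (w : k) ≠ 1 ∧ 1 + (w : k) ≠ 0 := by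
    intro w hw
    constructor
    · intro h
      have h2 : w = 1 := Subtype.ext h
      rw [h2] at hw
      exact (IsLocalRing.maximalIdeal.isMaximal (D.E G)).ne_top
        ((Ideal.eq_top_iff_one _).2 hw)
    · intro h
      have h2 : w = -1 := Subtype.ext (by push_cast; linear_combination h)
      rw [h2] at hw
      have h3 := neg_mem hw
      rw [neg_neg] at h3
      exact (IsLocalRing.maximalIdeal.isMaximal (D.E G)).ne_top
        ((Ideal.eq_top_iff_one _).2 h3)
  have hno : ∀ b : k, b ^ ℓ ≠ 1 + (z : k) := by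
    intro b hb
    apply hcon
    refine ⟨b, ?_, hb.symm⟩
    rintro rfl
    rw [zero_pow hℓ.pos.ne'] at hb
    exact (hunit z hz).2 hb.symm
  obtain ⟨Q, _, _, b, α, B, J, hb, hα, hB, hJ, hJB, hunitJ⟩ :=
    exists_kummer_data (D.E G) hℓ z hno
  have hAS := D.as_surj hk h1 h0 b (maximalIdeal (D.E G)) B hB J hJ hJB hunitJ
  have hℓ2 : 2 ≤ ℓ := hℓ.two_le
  -- the inverse of `ℓ`
  have : CharP k p := charP_of_injective_algebraMap (algebraMap K k).injective p
  have : CharP Q p := charP_of_injective_algebraMap (algebraMap k Q).injective p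
  have hℓk : (ℓ : k) ≠ 0 := by
    intro h
    rw [CharP.cast_eq_zero_iff k p] at h
    exact hℓp ((Nat.prime_dvd_prime_iff_eq hp.out hℓ).1 h).symm
  have hinvE : (ℓ : k)⁻¹ ∈ D.E G := by
    have := D.algebraMap_mem G (ℓ : K)⁻¹
    rwa [map_inv₀, map_natCast] at this
  -- coordinates of constants
  have hconst : ∀ w : k, ∀ m : Fin ℓ, b.repr (algebraMap k Q w) m = if (m : ℕ) = 0 then w else 0 := by
    intro w m
    have h2 : algebraMap k Q w = w • b ⟨0, hℓ.pos⟩ := by
      rw [hb, pow_zero, Algebra.smul_def, mul_one]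
    rw [h2, map_smul, Module.Basis.repr_self, Finsupp.smul_apply, Finsupp.single_apply, smul_eq_mul]
    by_cases hm : (m : ℕ) = 0
    · rw [if_pos hm, if_pos (Fin.ext hm.symm), mul_one]
    · rw [if_neg hm, if_neg (fun h => hm (by rw [← h])), mul_zero]
  have hconstB : ∀ w ∈ D.E G, algebraMap k Q w ∈ B := by
    intro w hw
    rw [hB]
    intro m
    rw [hconst]
    split_ifs
    · exact hw
    · exact zero_mem _
  have hconstJ : ∀ w : D.E G, w ∈ maximalIdeal (D.E G) → algebraMap k Q (w : k) ∈ J := by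
    intro w hw
    rw [hJ]
    intro m
    have h2 := hconst (w : k) m
    by_cases hm : (m : ℕ) = 0
    · rw [if_pos hm] at h2
      refine ⟨by rw [h2]; exact w.2, ?_⟩
      convert hw
    · rw [if_neg hm] at h2
      refine ⟨by rw [h2]; exact zero_mem _, ?_⟩
      convert (maximalIdeal (D.E G)).zero_mem
      rw [h2]
      rfl
  have hαB : α ∈ B := by
    rw [hB]
    intro m
    have h2 : α = b ⟨1, hℓ2⟩ := by rw [hb, pow_one]
    rw [h2, Module.Basis.repr_self, Finsupp.single_apply]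
    split_ifs
    · exact one_mem _
    · exact zero_mem _
  -- the element `e`
  set c : Q := algebraMap k Q (ℓ : k)⁻¹ with hc
  have hcB : c ∈ B := hconstB _ hinvE
  have hcℓ : (ℓ : Q) * c = 1 := by
    rw [hc, ← map_natCast (algebraMap k Q), ← map_mul, mul_inv_cancel₀ hℓk, map_one]
  set e : Q := c * ∑ i ∈ Finset.range ℓ, α ^ i with he
  have heB : e ∈ B := B.mul_mem hcB (B.sum_mem fun i _ => B.pow_mem hαB i)
  have hrepr_e : ∀ m, b.repr e m = (ℓ : k)⁻¹ := by
    intro m
    have h2 : e = ∑ i, (ℓ : k)⁻¹ • b i := by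
      rw [he, Finset.mul_sum, ← Fin.sum_univ_eq_sum_range (fun i => c * α ^ i) ℓ]
      refine Finset.sum_congr rfl fun i _ => ?_
      rw [hb, Algebra.smul_def]
    rw [h2, Module.Basis.repr_sum_self]
  have hαe : α * e - e ∈ J := by
    have h2 : α * e - e = algebraMap k Q (((⟨_, hinvE⟩ : D.E G) * z : D.E G) : k) := by
      have h3 : (α - 1) * ∑ i ∈ Finset.range ℓ, α ^ i = α ^ ℓ - 1 := mul_geom_sum α ℓ
      have h4 : α * e - e = c * ((α - 1) * ∑ i ∈ Finset.range ℓ, α ^ i) := by
        rw [he]; ring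
      have h5 : (((⟨_, hinvE⟩ : D.E G) * z : D.E G) : k) = (ℓ : k)⁻¹ * (z : k) := rfl
      rw [h4, h3, hα, h5, map_add, map_one, map_mul, ← hc]
      ring
    rw [h2]
    exact hconstJ _ (Ideal.mul_mem_left _ _ hz)
  have hαme : ∀ m : ℕ, α ^ m * e - e ∈ J := by
    intro m
    induction m with
    | zero =>
      rw [pow_zero, one_mul, sub_self]
      exact J.zero_mem
    | succ m ih =>
      have h2 : α ^ (m + 1) * e - e = α * (α ^ m * e - e) + (α * e - e) := by ring
      rw [h2]
      exact J.add_mem (hJB _ ih _ hαB) hαe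
  have hee : e * e - e ∈ J := by
    have h2 : e * e - e = ∑ i ∈ Finset.range ℓ, c * (α ^ i * e - e) := by
      have h3 : ∑ i ∈ Finset.range ℓ, c * (α ^ i * e - e) =
          (c * ∑ i ∈ Finset.range ℓ, α ^ i) * e - ((ℓ : Q) * c) * e := by
        rw [← Finset.mul_sum, Finset.sum_sub_distrib, ← Finset.sum_mul, Finset.sum_const,
          Finset.card_range, nsmul_eq_mul]
        ring
      rw [h3, hcℓ, one_mul, ← he]
    rw [h2]
    exact J.sum_mem fun i _ => hJB _ (hαme i) _ hcB
  have hepow : ∀ n : ℕ, e ^ (n + 1) - e ∈ J := by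
    intro n
    induction n with
    | zero =>
      rw [zero_add, pow_one, sub_self]
      exact J.zero_mem
    | succ n ih =>
      have h2 : e ^ (n + 1 + 1) - e = e * (e ^ (n + 1) - e) + (e * e - e) := by ring
      rw [h2]
      exact J.add_mem (hJB _ ih _ heB) hee
  have hep : e ^ p - e ∈ J := by
    have := hepow (p - 1)
    rwa [Nat.sub_add_cancel hp.out.one_le] at this
  obtain ⟨u, huJ, hu⟩ := hAS _ hep
  -- `e - u` is in the prime field
  have hfix : (e - u) ^ p = e - u := by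
    rw [sub_pow_char]
    linear_combination -hu
  have hbot : e - u ∈ (⊥ : Subfield Q) := (Subfield.mem_bot_iff_pow_eq_self Q p).2 hfix
  have hrange : e - u ∈ (algebraMap k Q).fieldRange :=
    (bot_le : (⊥ : Subfield Q) ≤ (algebraMap k Q).fieldRange) hbot
  obtain ⟨w, hw⟩ := hrange
  have hu1 : b.repr u ⟨1, hℓ2⟩ = (ℓ : k)⁻¹ := by
    have h2 : u = e - algebraMap k Q w := by rw [hw]; ring
    rw [h2, map_sub, Finsupp.sub_apply, hrepr_e, hconst, if_neg (by simp), sub_zero]
  obtain ⟨h2, h3⟩ := (hJ u).1 huJ ⟨1, hℓ2⟩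
  have hnat : (ℓ : k) ∈ D.E G := natCast_mem _ ℓ
  have h4 := Ideal.mul_mem_left (maximalIdeal (D.E G)) (⟨_, hnat⟩ : D.E G) h3
  refine (hunit _ h4).1 ?_
  show (ℓ : k) * b.repr u ⟨1, hℓ2⟩ = 1
  rw [hu1, mul_inv_cancel₀ hℓk]

end Pool.Agent.NIPFields.LG
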