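import Mathlib
import Pool.Agent.NIPFields.LG.In
import Pool.Agent.NIPFields.LG.ASNip
import Pool.Agent.NIPFields.Frob

set_option autoImplicit false

/-!
# The rings `E G` are local
-/

namespace Pool.Agent.NIPFields.LG

open FirstOrder FirstOrder.Language FirstOrder.Ring Set IsLocalRing
open Pool.Agent.NIPFields.FI

universe u v w

theorem LD.isLocalRing {p : ℕ} [hp : Fact p.Prime] {K : Type v} {k : Type u} [Field K] [CharP K p]
    [Infinite K] [Field k] [Algebra K k] [CompatibleRing k] (hk : NIP k) {ℓ : ℕ} (D : LD K k ℓ)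
    {G : Finset k} (h1 : (1 : k) ∈ G) (h0 : ∀ g ∈ G, g ≠ 0) : IsLocalRing (D.E G) := by
  classical
  have hchk : CharP k p := charP_of_injective_algebraMap (algebraMap K k).injective p
  have hchE : CharP (D.E G) p := RingHom.charP (D.E G).subtype Subtype.val_injective p
  obtain ⟨n, hn, hIn⟩ := D.exists_InC hk
  have hfin := D.finite_maximal hn hIn h0
  have _ := Fintype.ofFinite (MaximalSpectrum (D.E G))
  let Jc : Ideal (D.E G) := ⨅ M : MaximalSpectrum (D.E G), M.asIdeal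
  have hJc : ∀ x, x ∈ Jc ↔ ∀ M : MaximalSpectrum (D.E G), x ∈ M.asIdeal := fun x =>
    Ideal.mem_iInf
  have hunit : ∀ x ∈ Jc, IsUnit (1 + x) := by
    intro x hx
    by_contra hnu
    obtain ⟨M, hM, hxM⟩ := exists_max_ideal_of_mem_nonunits hnu
    have h2 := (hJc x).1 hx ⟨M, hM⟩
    exact hM.ne_top ((Ideal.eq_top_iff_one _).2 (by
      have := M.sub_mem hxM h2
      rwa [add_sub_cancel_right] at this))
  let J : AddSubgroup k := Jc.toAddSubgroup.map (D.E G).subtype.toAddMonoidHom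
  have hJ : ∀ x, x ∈ J ↔ ∃ h : x ∈ D.E G, (⟨x, h⟩ : D.E G) ∈ Jc := by
    intro x
    constructor
    · rintro ⟨y, hy, rfl⟩
      exact ⟨y.2, hy⟩
    · rintro ⟨h, hy⟩
      exact ⟨⟨x, h⟩, hy, rfl⟩
  let b : Module.Basis (Fin 1) k k := Module.Basis.singleton (Fin 1) k
  have hb : ∀ (x : k) (m : Fin 1), b.repr x m = x := fun x m =>
    Module.Basis.singleton_repr (Fin 1) k x m
  have hsurj : ∀ x ∈ J, ∃ u ∈ J, u ^ p - u = x := by
    refine D.as_surj hk h1 h0 b Jc (D.E G) (fun x => ?_) J (fun x => ?_) ?_ ?_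
    · simp only [hb]
      exact ⟨fun h _ => h, fun h => h 0⟩
    · simp only [hb]
      rw [hJ]
      exact ⟨fun h _ => h, fun h => h 0⟩
    · intro x hx y hy
      obtain ⟨hxE, hxJ⟩ := (hJ x).1 hx
      exact (hJ _).2 ⟨(D.E G).mul_mem hy hxE, Jc.mul_mem_left ⟨y, hy⟩ hxJ⟩
    · intro x hx
      obtain ⟨hxE, hxJ⟩ := (hJ x).1 hx
      obtain ⟨v, hv⟩ := (hunit _ hxJ).exists_left_inv
      exact ⟨v, v.2, congrArg Subtype.val hv⟩
  -- a maximal ideal
  obtain ⟨M₁, hM₁⟩ := Ideal.exists_maximal (D.E G)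
  refine IsLocalRing.of_unique_max_ideal ⟨M₁, hM₁, fun M₂ hM₂ => ?_⟩
  by_contra hne
  have hco : Pairwise fun x x' : MaximalSpectrum (D.E G) => IsCoprime x.asIdeal x'.asIdeal := by
    intro x x' hxx'
    have h2 : x.asIdeal ≠ x'.asIdeal := fun h => hxx' (MaximalSpectrum.ext h)
    exact Ideal.isCoprime_iff_sup_eq.2 (x.isMaximal.coprime_of_ne x'.isMaximal h2)
  obtain ⟨e, he⟩ := Ideal.exists_forall_sub_mem_ideal (I := fun M : MaximalSpectrum (D.E G) =>
    M.asIdeal) hco (fun M => if M = ⟨M₁, hM₁⟩ then 0 else 1)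
  have he1 : e ∈ M₁ := by
    have := he ⟨M₁, hM₁⟩
    rwa [if_pos rfl, sub_zero] at this
  have he2 : ∀ M : MaximalSpectrum (D.E G), M.asIdeal ≠ M₁ → e - 1 ∈ M.asIdeal := by
    intro M hM
    have := he M
    rwa [if_neg (fun h => hM (congrArg MaximalSpectrum.asIdeal h))] at this
  have hePJ : e ^ p - e ∈ Jc := by
    rw [hJc]
    intro M
    by_cases hM : M.asIdeal = M₁
    · rw [hM]
      exact M₁.sub_mem (M₁.pow_mem_of_mem he1 p hp.out.pos) he1
    · have h2 := he2 M hM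
      have h3 : e ^ p - e = ((e - 1) ^ p - (e - 1)) := by
        rw [sub_pow_char, one_pow]
        ring
      rw [h3]
      exact M.asIdeal.sub_mem (M.asIdeal.pow_mem_of_mem h2 p hp.out.pos) h2
  obtain ⟨u, hu, hue⟩ := hsurj ((e ^ p - e : D.E G) : k) ((hJ _).2 ⟨_, hePJ⟩)
  obtain ⟨huE, huJ⟩ := (hJ u).1 hu
  have h2 : ((e : k) - u) ^ p = (e : k) - u := by
    rw [sub_pow_char]
    push_cast at hue
    linear_combination -hue
  obtain ⟨ν, hν⟩ := exists_nat_of_pow h2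
  have h3 : e - ⟨u, huE⟩ = (ν : D.E G) := by
    apply Subtype.ext
    push_cast
    exact hν
  have h4 : (ν : D.E G) ∈ M₁ := by
    rw [← h3]
    exact M₁.sub_mem he1 ((hJc _).1 huJ ⟨M₁, hM₁⟩)
  have h5 : (ν : D.E G) = 0 := by
    by_contra h0'
    apply hM₁.ne_top
    apply Ideal.eq_top_of_isUnit_mem _ h4
    have hpν : ¬ p ∣ ν := fun h => h0' ((CharP.cast_eq_zero_iff (D.E G) p ν).2 h)
    exact (CharP.isUnit_natCast_iff hp.out).2 hpν
  have h6 : e = ⟨u, huE⟩ := by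
    rw [h5] at h3
    exact sub_eq_zero.1 h3
  have h7 : e ∈ M₂ := by
    rw [h6]
    exact (hJc _).1 huJ ⟨M₂, hM₂⟩
  have h8 := he2 ⟨M₂, hM₂⟩ hne
  exact hM₂.ne_top ((Ideal.eq_top_iff_one _).2 (by
    have := M₂.sub_mem h7 h8
    rwa [sub_sub_cancel] at this))

end Pool.Agent.NIPFields.LG
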