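import Mathlib
import Pool.Agent.NIPFields.LG.Local
import Pool.Agent.NIPFields.LG.Kummer
import Pool.Agent.NIPFields.LG.Interp
import Pool.Agent.NIPFields.RankOne

set_option autoImplicit false

/-!
# If `O` is not a valuation ring, then a residue field of some `E G` violates `TL`
-/

namespace Pool.Agent.NIPFields.LG

open FirstOrder FirstOrder.Language FirstOrder.Ring Set IsLocalRing
open Pool.Agent.NIPFields.FI

universe u v w

section

variable {p : ℕ} [hp : Fact p.Prime] {K : Type v} {k : Type u} [Field K]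
  [CharP K p] [Infinite K] [Field k] [Algebra K k] [CompatibleRing k]

/-- The maximal ideal of `E G` consists of infinitesimals. -/
theorem LD.maximal_le (hk : NIP k) {ℓ : ℕ} (hℓ : ℓ.Prime) (hℓp : ℓ ≠ p) (D : LD K k ℓ)
    {G : Finset k} (h1 : (1 : k) ∈ G) (h0 : ∀ g ∈ G, g ≠ 0) [IsLocalRing (D.E G)] {z : D.E G}
    (hz : z ∈ maximalIdeal (D.E G)) : (z : k) ∈ Inf K (Pw k ℓ) := by
  intro a
  have h : (⟨algebraMap K k a, D.algebraMap_mem G a⟩ : D.E G) * z ∈ maximalIdeal (D.E G) :=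
    Ideal.mul_mem_left _ _ hz
  exact D.one_add_mem_Pw hk hℓ hℓp h1 h0 h

theorem LD.add_algebraMap_ne {ℓ : ℕ} (D : LD K k ℓ) {y : k} (hy : y ∉ D.E {1}) (x : K) :
    y + algebraMap K k x ≠ 0 := by
  intro h
  apply hy
  rw [eq_neg_of_add_eq_zero_left h, ← map_neg]
  exact D.algebraMap_mem_O _

theorem LD.add_algebraMap_notMem {ℓ : ℕ} (D : LD K k ℓ) {y : k} (hy : y ∉ D.E {1}) (x : K) :
    y + algebraMap K k x ∉ D.E {1} := by
  intro h
  apply hy
  have h2 := (D.E {1}).sub_mem h (D.algebraMap_mem_O x)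
  rwa [add_sub_cancel_right] at h2

/-- Step F1, F2: a finite set `G` such that `y ∈ E G` and `G` consists of units. -/
theorem LD.exists_tower_card (hk : NIP k) {ℓ : ℕ} (hℓ : ℓ.Prime) (hℓp : ℓ ≠ p) (D : LD K k ℓ)
    {n : ℕ} (hn : 2 ≤ n) (hIn : InC (k := k) K ℓ n) {y : k}
    (hy : y ∉ D.E {1}) (hy' : y⁻¹ ∉ D.E {1}) :
    ∃ G : Finset k, G.card ≤ n ∧ (∀ g ∈ G, g = 1 ∨ ∃ x : K, g = y + algebraMap K k x) ∧
      (1 : k) ∈ G ∧ (∀ g ∈ G, g ≠ 0) ∧ IsLocalRing (D.E G) ∧ y ∈ D.E G ∧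
      ∀ g ∈ G, ∃ h : g ∈ D.E G, IsUnit (⟨g, h⟩ : D.E G) := by
  classical
  obtain ⟨m, rfl⟩ : ∃ m, n = m + 2 := ⟨n - 2, by omega⟩
  let xs : ℕ → K := Infinite.natEmbedding K
  have hxs : Function.Injective xs := (Infinite.natEmbedding K).injective
  let g : Fin (m + 2) → k := fun i => if i = 0 then 1 else y + algebraMap K k (xs i)
  have hg0 : g 0 = 1 := if_pos rfl
  have hg1 : ∀ i, i ≠ 0 → g i = y + algebraMap K k (xs i) := fun i hi => if_neg hi
  have hgne : ∀ i, g i ≠ 0 := by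
    intro i
    by_cases hi : i = 0
    · rw [hi, hg0]; exact one_ne_zero
    · rw [hg1 i hi]; exact D.add_algebraMap_ne hy _
  -- the index
  obtain ⟨i₀, hi₀, hcase⟩ : ∃ i₀ : Fin (m + 2), i₀ ≠ 0 ∧
      ((∀ d : k, (∀ j, j ≠ i₀ → d / g j ∈ Inf K (Pw k ℓ)) → d / g i₀ ∈ Inf K (Pw k ℓ)) ∨
      (∀ d : k, (∀ j, j ≠ 0 → d / g j ∈ Inf K (Pw k ℓ)) → d / g 0 ∈ Inf K (Pw k ℓ))) := by
    obtain ⟨i, hi⟩ := hIn g hgne
    by_cases h0 : i = 0
    · subst h0
      exact ⟨1, by simp, Or.inr hi⟩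
    · exact ⟨i, h0, Or.inl hi⟩
  let G : Finset k := (Finset.univ.erase i₀).image g
  have hG : ∀ j, j ≠ i₀ → g j ∈ G := fun j hj =>
    Finset.mem_image_of_mem _ (Finset.mem_erase.2 ⟨hj, Finset.mem_univ j⟩)
  have hG' : ∀ x ∈ G, ∃ j, j ≠ i₀ ∧ x = g j := by
    intro x hx
    obtain ⟨j, hj, rfl⟩ := Finset.mem_image.1 hx
    exact ⟨j, Finset.ne_of_mem_erase hj, rfl⟩
  have h1G : (1 : k) ∈ G := by
    rw [← hg0]
    exact hG 0 hi₀.symm
  have h0G : ∀ x ∈ G, x ≠ 0 := by
    intro x hx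
    obtain ⟨j, _, rfl⟩ := hG' x hx
    exact hgne j
  have hI : ∀ d, d ∈ D.I G ↔ ∀ j, j ≠ i₀ → d / g j ∈ Inf K (Pw k ℓ) := by
    intro d
    constructor
    · intro h j hj
      exact h _ (hG j hj)
    · intro h x hx
      obtain ⟨j, hj, rfl⟩ := hG' x hx
      exact h j hj
  have hloc : IsLocalRing (D.E G) := D.isLocalRing hk h1G h0G
  -- `g i₀ ∈ E`
  have hgE : g i₀ ∈ D.E G := by
    rcases hcase with ha | hb
    · have hu : (g i₀)⁻¹ ∈ D.E G := by
        intro d hd
        have hd' := (hI d).1 hd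
        rw [hI]
        intro j hj
        by_cases hj0 : j = 0
        · rw [hj0, hg0, div_one, inv_mul_eq_div]
          exact ha d hd'
        · have hne : xs j - xs i₀ ≠ 0 := by
            intro h
            apply hj
            exact Fin.ext (hxs (sub_eq_zero.1 h))
          have h2 := smul_mem (xs j - xs i₀)⁻¹ (D.sub_mem (ha d hd') (hd' j hj))
          have h3 : (g i₀)⁻¹ * d / g j =
              algebraMap K k (xs j - xs i₀)⁻¹ * (d / g i₀ - d / g j) := by
            have h4 : algebraMap K k (xs j - xs i₀) = g j - g i₀ := by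
              rw [hg1 j hj0, hg1 i₀ hi₀, map_sub]
              ring
            have h5 : g j - g i₀ ≠ 0 := by
              rw [← h4]
              exact (map_ne_zero _).2 hne
            rw [map_inv₀, h4]
            have := hgne j
            have := hgne i₀
            field_simp
          rw [h3]
          exact h2
      have hunit : IsUnit (⟨_, hu⟩ : D.E G) := by
        by_contra hnu
        have h2 : (g i₀)⁻¹ ∈ Inf K (Pw k ℓ) :=
          D.maximal_le hk hℓ hℓp h1G h0G ((mem_maximalIdeal _).2 hnu)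
        apply hy'
        by_cases hx : xs i₀ = 0
        · rw [hg1 i₀ hi₀, hx, map_zero, add_zero] at h2
          exact D.inf_mem_O h2
        · have h3 := smul_mem (-(xs i₀)⁻¹) (div_mem (smul_mem (-xs i₀) h2))
          have h4 : algebraMap K k (-(xs i₀)⁻¹) * (algebraMap K k (-xs i₀) * (g i₀)⁻¹ /
              (1 + algebraMap K k (-xs i₀) * (g i₀)⁻¹)) = y⁻¹ := by
            have h5 : y = g i₀ - algebraMap K k (xs i₀) := by
              rw [hg1 i₀ hi₀]; ring
            have h6 : algebraMap K k (xs i₀) ≠ 0 := (map_ne_zero _).2 hx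
            have h7 := hgne i₀
            have h8 : y ≠ 0 := by
              have := D.add_algebraMap_ne hy 0
              rwa [map_zero, add_zero] at this
            have h9 : 1 + algebraMap K k (-xs i₀) * (g i₀)⁻¹ = y * (g i₀)⁻¹ := by
              rw [h5, map_neg, sub_mul, mul_inv_cancel₀ h7]
              ring
            rw [h9, map_neg, map_neg, map_inv₀]
            field_simp
          rw [h4] at h3
          exact D.inf_mem_O h3
      obtain ⟨v, hv⟩ := hunit.exists_right_inv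
      have h2 : (g i₀)⁻¹ * (v : k) = 1 := congrArg Subtype.val hv
      have h3 : g i₀ = v := by
        have := hgne i₀
        field_simp at h2
        exact h2.symm
      rw [h3]
      exact v.2
    · intro d hd
      have hd' := (hI d).1 hd
      have hd0 : d ∈ Inf K (Pw k ℓ) := by
        have := hd' 0 hi₀.symm
        rwa [hg0, div_one] at this
      have h2 : ∀ j, j ≠ 0 → g i₀ * d / g j ∈ Inf K (Pw k ℓ) := by
        intro j hj
        by_cases hji : j = i₀
        · rw [hji, mul_div_cancel_left₀ _ (hgne i₀)]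
          exact hd0
        · have h3 : g i₀ * d / g j = d + algebraMap K k (xs i₀ - xs j) * (d / g j) := by
            have h4 : g i₀ = g j + algebraMap K k (xs i₀ - xs j) := by
              rw [hg1 j hj, hg1 i₀ hi₀, map_sub]
              ring
            have := hgne j
            rw [h4]
            field_simp
          rw [h3]
          exact D.add_mem hd0 (smul_mem _ (hd' j hji))
      rw [hI]
      intro j _
      by_cases hj : j = 0
      · rw [hj]
        exact hb _ h2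
      · exact h2 j hj
  have hyE : y ∈ D.E G := by
    have h2 := (D.E G).sub_mem hgE (D.algebraMap_mem G (xs i₀))
    rwa [hg1 i₀ hi₀, add_sub_cancel_right] at h2
  have hcard : G.card ≤ m + 2 :=
    Finset.card_image_le.trans ((Finset.card_le_univ _).trans (Fintype.card_fin _).le)
  refine ⟨G, hcard, fun x hx => ?_, h1G, h0G, hloc, hyE, fun x hx => ?_⟩
  · obtain ⟨j, hj, rfl⟩ := hG' x hx
    by_cases hj0 : j = 0
    · exact Or.inl (by rw [hj0, hg0])
    · exact Or.inr ⟨xs j, hg1 j hj0⟩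
  obtain ⟨j, hj, rfl⟩ := hG' x hx
  by_cases hj0 : j = 0
  · subst hj0
    refine ⟨by rw [hg0]; exact (D.E G).one_mem, ?_⟩
    have : (⟨g 0, by rw [hg0]; exact (D.E G).one_mem⟩ : D.E G) = 1 := Subtype.ext hg0
    rw [this]
    exact isUnit_one
  · have h2 : g j ∈ D.E G := by
      rw [hg1 j hj0]
      exact (D.E G).add_mem hyE (D.algebraMap_mem G _)
    refine ⟨h2, ?_⟩
    by_contra hnu
    have h3 : g j ∈ Inf K (Pw k ℓ) :=
      D.maximal_le hk hℓ hℓp h1G h0G ((mem_maximalIdeal _).2 hnu)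
    apply D.add_algebraMap_notMem hy (xs j)
    rw [← hg1 j hj0]
    exact D.inf_mem_O h3

/-- Step F1, F2 without the cardinality. -/
theorem LD.exists_tower (hk : NIP k) {ℓ : ℕ} (hℓ : ℓ.Prime) (hℓp : ℓ ≠ p) (D : LD K k ℓ) {y : k}
    (hy : y ∉ D.E {1}) (hy' : y⁻¹ ∉ D.E {1}) :
    ∃ G : Finset k, (1 : k) ∈ G ∧ (∀ g ∈ G, g ≠ 0) ∧ IsLocalRing (D.E G) ∧ y ∈ D.E G ∧
      ∀ g ∈ G, ∃ h : g ∈ D.E G, IsUnit (⟨g, h⟩ : D.E G) := by
  obtain ⟨n, hn, hIn⟩ := D.exists_InC hk
  obtain ⟨G, _, _, h⟩ := D.exists_tower_card hk hℓ hℓp hn hIn hy hy'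
  exact ⟨G, h⟩

/-- Step F: a ring of the tower whose residue field violates `TL`. -/
theorem LD.exists_tower_ring (hk : NIP k) {ℓ : ℕ} (hℓ : ℓ.Prime) (hℓp : ℓ ≠ p) (D : LD K k ℓ)
    {y : k} (hy : y ∉ D.E {1}) (hy' : y⁻¹ ∉ D.E {1}) :
    ∃ (G : Finset k) (_ : IsLocalRing (D.E G)), (1 : k) ∈ G ∧ (∀ g ∈ G, g ≠ 0) ∧
      (∀ g ∈ G, ∃ h : g ∈ D.E G, IsUnit (⟨g, h⟩ : D.E G)) ∧
      (univ : Set k).Definable₁ Language.ring {d | d ∈ D.I G} ∧
      (∀ _ : CompatibleRing (ResidueField (D.E G)), NIP (ResidueField (D.E G))) ∧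
      ¬ TL (ResidueField (D.E G)) ℓ := by
  classical
  obtain ⟨G, h1G, h0G, hloc, hyE, hGu⟩ := D.exists_tower hk hℓ hℓp hy hy'
  obtain ⟨F', hF'⟩ := D.exists_UGood
  have h1I : (1 : k) ∉ D.I G := fun h => one_notMem (D.I_le_J h1G h)
  -- `I` is the maximal ideal
  have hMI : ∀ z : D.E G, z ∈ maximalIdeal (D.E G) → (z : k) ∈ D.I G := by
    intro z hz g hg
    obtain ⟨hgE, hgu⟩ := hGu g hg
    obtain ⟨v, hv⟩ := hgu.exists_right_inv
    have h2 : g * (v : k) = 1 := congrArg Subtype.val hv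
    have h3 : (z : k) / g = ((v * z : D.E G) : k) := by
      have := h0G g hg
      rw [Subring.coe_mul, div_eq_iff this, mul_comm (v : k), mul_assoc, mul_comm (v : k), h2,
        mul_one]
    rw [h3]
    exact D.maximal_le hk hℓ hℓp h1G h0G (Ideal.mul_mem_left _ _ hz)
  have hIM : ∀ d, d ∈ D.I G → ∃ h : d ∈ D.E G, (⟨d, h⟩ : D.E G) ∈ maximalIdeal (D.E G) := by
    intro d hd
    refine ⟨D.I_le_E h1G hd, ?_⟩
    rw [mem_maximalIdeal]
    intro hu
    obtain ⟨v, hv⟩ := hu.exists_left_inv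
    apply h1I
    have h2 : (v : k) * d = 1 := congrArg Subtype.val hv
    rw [← h2]
    exact v.2 d hd
  have hIU : ∀ d, d ∈ D.I G ↔ ∀ g ∈ G, d / g ∈ US K ℓ k F' := by
    intro d
    refine ⟨fun hd g hg => Inf_subset_US F' (hd g hg), fun hd => ?_⟩
    have hdJ : ∀ j ∈ Inf K (Pw k ℓ), d * j ∈ D.I G := by
      intro j hj g hg
      have h2 := D.mem_O.1 (hF'.mem_O D (hd g hg)) j hj
      have h3 : d * j / g = d / g * j := by ring
      rw [h3]
      exact h2
    have hdE : d ∈ D.E G := fun x hx => hdJ x (D.I_le_J h1G hx)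
    apply hMI ⟨d, hdE⟩
    rw [mem_maximalIdeal]
    intro hu
    obtain ⟨v, hv⟩ := hu.exists_left_inv
    have h2 : (v : k) * d = 1 := congrArg Subtype.val hv
    apply hy
    rw [D.mem_O]
    intro j hj
    have h3 := v.2 _ (hdJ j hj)
    rw [← mul_assoc, h2, one_mul] at h3
    exact D.I_le_J h1G (hyE j h3)
  -- definability
  have hIdef : (univ : Set k).Definable₁ Language.ring {d | d ∈ D.I G} := by
    unfold Definable₁
    have h2 : {x : Fin 1 → k | x 0 ∈ {d | d ∈ D.I G}} =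
        ⋂ g ∈ G, {x : Fin 1 → k | x 0 * g⁻¹ ∈ US K ℓ k F'} := by
      ext x
      simp only [mem_iInter, mem_ofPred_eq]
      rw [hIU]
      simp only [div_eq_mul_inv]
    rw [h2]
    refine definable_biInter_finset (fun g => ?_) G
    exact def_mem (def_US ℓ F') (dfun_mul (dfun_var 0) (dfun_const (mem_univ _)))
  have hEdef : (univ : Set k).Definable₁ Language.ring {z | z ∈ D.E G} := def_stab hIdef
  refine ⟨G, hloc, h1G, h0G, hGu, hIdef, fun comp => ?_, ?_⟩
  · refine NIP.quotient hk (D.E G) hEdef (residue (D.E G)) residue_surjective ?_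
    convert hIdef using 1
    ext x
    constructor
    · rintro ⟨h, hx⟩
      exact hMI ⟨x, h⟩ ((residue_eq_zero_iff _).1 hx)
    · intro hx
      obtain ⟨h, hx'⟩ := hIM x hx
      exact ⟨h, (residue_eq_zero_iff _).2 hx'⟩
  · intro hTL
    have hinv : ∀ g ∈ G, g⁻¹ ∈ D.E G := by
      intro g hg
      obtain ⟨hgE, hgu⟩ := hGu g hg
      obtain ⟨v, hv⟩ := hgu.exists_right_inv
      have h2 : g * (v : k) = 1 := congrArg Subtype.val hv
      rw [← eq_inv_of_mul_eq_one_right h2]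
      exact v.2
    let r : K × k → ResidueField (D.E G) := fun x =>
      if h : algebraMap K k x.1 * x.2⁻¹ ∈ D.E G then residue (D.E G) ⟨_, h⟩ else 0
    obtain ⟨δ, hδ, hδA⟩ := hTL ((F' ×ˢ G).image r)
    obtain ⟨d, rfl⟩ := residue_surjective δ
    have hdM : d ∉ maximalIdeal (D.E G) := fun h => hδ ((residue_eq_zero_iff _).2 h)
    apply hdM
    obtain ⟨h, h'⟩ := hIM d ((hIU d).2 fun g hg f hf => by
      have h2 : algebraMap K k f * g⁻¹ ∈ D.E G :=
        (D.E G).mul_mem (D.algebraMap_mem G f) (hinv g hg)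
      obtain ⟨β, hβ, hβe⟩ := hδA (r (f, g)) (Finset.mem_image_of_mem _
        (Finset.mem_product.2 ⟨hf, hg⟩))
      obtain ⟨b, rfl⟩ := residue_surjective β
      have hb : IsUnit b := by
        by_contra hnu
        exact hβ ((residue_eq_zero_iff _).2 ((mem_maximalIdeal _).2 hnu))
      have h3 : r (f, g) = residue (D.E G) ⟨_, h2⟩ := dif_pos h2
      rw [h3, ← map_one (residue (D.E G)), ← map_mul, ← map_add, ← map_pow, ← sub_eq_zero,
        ← map_sub, residue_eq_zero_iff] at hβe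
      obtain ⟨c, hc⟩ := hb.exists_right_inv
      have hc' : (b : k) * c = 1 := congrArg Subtype.val hc
      have hb0 : (b : k) ≠ 0 := left_ne_zero_of_mul_eq_one hc'
      have h4 := D.one_add_mem_Pw hk hℓ hℓp h1G h0G (Ideal.mul_mem_left _ (c ^ ℓ) hβe)
      have h5 : 1 + algebraMap K k f * ((d : k) / g) = (b : k) ^ ℓ * (1 + ((c ^ ℓ *
          (1 + ⟨_, h2⟩ * d - b ^ ℓ) : D.E G) : k)) := by
        have h6 : (b : k) ^ ℓ * (c : k) ^ ℓ = 1 := by rw [← mul_pow, hc', one_pow]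
        push_cast
        linear_combination (-(1 + algebraMap K k f * g⁻¹ * (d : k) - (b : k) ^ ℓ)) * h6
      rw [h5]
      exact Pw_mul ⟨b, hb0, rfl⟩ h4)
    exact h'

/-- Step F. -/
theorem LD.exists_not_TL (hk : NIP k) {ℓ : ℕ} (hℓ : ℓ.Prime) (hℓp : ℓ ≠ p) (D : LD K k ℓ) {y : k}
    (hy : y ∉ D.E {1}) (hy' : y⁻¹ ∉ D.E {1}) :
    ∃ (F : Type u) (_ : Field F) (_ : CompatibleRing F) (_ : K →+* F), NIP F ∧ ¬ TL F ℓ := by
  obtain ⟨G, hloc, _, _, _, _, hN, hT⟩ := D.exists_tower_ring hk hℓ hℓp hy hy'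
  let comp : CompatibleRing (ResidueField (D.E G)) := compatibleRingOfRing _
  exact ⟨ResidueField (D.E G), inferInstance, comp,
    (residue (D.E G)).comp ((algebraMap K k).codRestrict (D.E G) (D.algebraMap_mem G)),
    hN comp, hT⟩

end

end Pool.Agent.NIPFields.LG
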