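import Mathlib
import Pool.Agent.NIPFields.LG.Tower

set_option autoImplicit false

/-!
# The top of the tower over `O`

If `y` and `y⁻¹` are not in `O`, then `y` is a unit of some `E G` with maximal ideal `I G`, and
`y` is not a quotient of elements of `O` modulo `I G`.
-/

namespace Pool.Agent.NIPFields.LG

open FirstOrder FirstOrder.Language FirstOrder.Ring Set IsLocalRing
open Pool.Agent.NIPFields.FI

universe u v w

section

variable {p : ℕ} [hp : Fact p.Prime] {K : Type v} {k : Type u} [Field K]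
  [CharP K p] [Infinite K] [Field k] [Algebra K k] [CompatibleRing k]

/-- If `G` consists of units, then the maximal ideal is contained in `I G`. -/
theorem LD.max_le_I (hk : NIP k) {ℓ : ℕ} (hℓ : ℓ.Prime) (hℓp : ℓ ≠ p) (D : LD K k ℓ)
    {G : Finset k} (h1G : (1 : k) ∈ G) (h0G : ∀ g ∈ G, g ≠ 0) [IsLocalRing (D.E G)]
    (hGu : ∀ g ∈ G, ∃ h : g ∈ D.E G, IsUnit (⟨g, h⟩ : D.E G)) {z : D.E G}
    (hz : ¬ IsUnit z) : (z : k) ∈ D.I G := by
  intro g hg
  obtain ⟨hgE, hgu⟩ := hGu g hg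
  obtain ⟨v, hv⟩ := hgu.exists_right_inv
  have h2 : g * (v : k) = 1 := congrArg Subtype.val hv
  have h3 : (z : k) / g = ((v * z : D.E G) : k) := by
    have := h0G g hg
    rw [Subring.coe_mul, div_eq_iff this, mul_comm (v : k), mul_assoc, mul_comm (v : k), h2,
      mul_one]
  rw [h3]
  exact D.maximal_le hk hℓ hℓp h1G h0G
    (Ideal.mul_mem_left _ _ ((mem_maximalIdeal _).2 hz))

omit [hp : Fact p.Prime] [CharP K p] [Infinite K] [CompatibleRing k] in
theorem LD.not_isUnit_of_mem_I {ℓ : ℕ} (D : LD K k ℓ) {G : Finset k} (h1G : (1 : k) ∈ G)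
    {z : D.E G} (hz : (z : k) ∈ D.I G) : ¬ IsUnit z := by
  intro hu
  obtain ⟨v, hv⟩ := hu.exists_left_inv
  apply one_notMem (K := K) (k := k) (ℓ := ℓ)
  have h2 : (v : k) * z = 1 := congrArg Subtype.val hv
  rw [← h2]
  exact D.I_le_J h1G (v.2 _ hz)

/-- `I G` is definable. -/
theorem LD.mem_I_iff_US (hk : NIP k) {ℓ : ℕ} (hℓ : ℓ.Prime) (hℓp : ℓ ≠ p) (D : LD K k ℓ)
    {y : k} (hy : y ∉ D.E {1}) {G : Finset k} (h1G : (1 : k) ∈ G) (h0G : ∀ g ∈ G, g ≠ 0)
    [IsLocalRing (D.E G)] (hyE : y ∈ D.E G)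
    (hGu : ∀ g ∈ G, ∃ h : g ∈ D.E G, IsUnit (⟨g, h⟩ : D.E G)) {F : Finset K}
    (hF : UGood K k ℓ F) (d : k) : d ∈ D.I G ↔ ∀ g ∈ G, d / g ∈ US K ℓ k F := by
  refine ⟨fun hd g hg => Inf_subset_US F (hd g hg), fun hd => ?_⟩
  have hdJ : ∀ j ∈ Inf K (Pw k ℓ), d * j ∈ D.I G := by
    intro j hj g hg
    have h2 := D.mem_O.1 (hF.mem_O D (hd g hg)) j hj
    have h3 : d * j / g = d / g * j := by ring
    rw [h3]
    exact h2
  have hdE : d ∈ D.E G := fun x hx => hdJ x (D.I_le_J h1G hx)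
  apply D.max_le_I hk hℓ hℓp h1G h0G hGu (z := ⟨d, hdE⟩)
  intro hu
  obtain ⟨v, hv⟩ := hu.exists_left_inv
  have h2 : (v : k) * d = 1 := congrArg Subtype.val hv
  apply hy
  rw [D.mem_O]
  intro j hj
  have h3 := v.2 _ (hdJ j hj)
  rw [← mul_assoc, h2, one_mul] at h3
  exact D.I_le_J h1G (hyE j h3)

/-- `y` is not a quotient of elements of `O` modulo `I G`. -/
theorem LD.link (hk : NIP k) {ℓ : ℕ} (hℓ : ℓ.Prime) (hℓp : ℓ ≠ p) (D : LD K k ℓ)
    {y : k} (hy : y ∉ D.E {1}) {G : Finset k} (h1G : (1 : k) ∈ G) (h0G : ∀ g ∈ G, g ≠ 0)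
    (hGy : ∀ g ∈ G, g = 1 ∨ ∃ x : K, g = y + algebraMap K k x)
    [IsLocalRing (D.E G)] (hyE : y ∈ D.E G)
    (hGu : ∀ g ∈ G, ∃ h : g ∈ D.E G, IsUnit (⟨g, h⟩ : D.E G)) {a b : k}
    (ha : a ∈ D.E {1}) (hb : b ∈ D.E {1}) (hab : a + y * b ∈ D.I G) :
    a ∈ D.I G ∧ b ∈ D.I G := by
  classical
  have hbE : b ∈ D.E G := D.O_le_E hb
  have hbI : b ∈ D.I G := by
    by_contra hbI
    have hbu : IsUnit (⟨b, hbE⟩ : D.E G) := by
      by_contra hnu
      exact hbI (D.max_le_I hk hℓ hℓp h1G h0G hGu hnu)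
    -- an infinitesimal that is a unit
    obtain ⟨j, hj, hjI⟩ : ∃ j ∈ Inf K (Pw k ℓ), j ∉ D.I G := by
      by_contra hcon
      push Not at hcon
      apply hy
      rw [D.mem_O]
      intro j hj
      exact D.I_le_J h1G (hyE j (hcon j hj))
    have hjE : j ∈ D.E G := D.O_le_E (D.inf_mem_O hj)
    have hju : IsUnit (⟨j, hjE⟩ : D.E G) := by
      by_contra hnu
      exact hjI (D.max_le_I hk hℓ hℓp h1G h0G hGu hnu)
    -- the elements of `O`
    have hP : ∀ g ∈ G, ∃ P ∈ D.E {1}, g * b - P ∈ D.I G := by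
      intro g hg
      rcases hGy g hg with rfl | ⟨x, rfl⟩
      · refine ⟨b, hb, ?_⟩
        rw [one_mul, sub_self]
        exact (D.I G).zero_mem
      · refine ⟨algebraMap K k x * b - a, (D.E {1}).sub_mem
          ((D.E {1}).mul_mem (D.algebraMap_mem_O x) hb) ha, ?_⟩
        have : (y + algebraMap K k x) * b - (algebraMap K k x * b - a) = a + y * b := by ring
        rw [this]
        exact hab
    choose! P hPO hPI using hP
    have hPE : ∀ g ∈ G, P g ∈ D.E G := fun g hg => D.O_le_E (hPO g hg)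
    have hPu : ∀ g (hg : g ∈ G), IsUnit (⟨P g, hPE g hg⟩ : D.E G) := by
      intro g hg
      obtain ⟨hgE, hgu⟩ := hGu g hg
      by_contra hnu
      have h1 : P g ∈ D.I G := D.max_le_I hk hℓ hℓp h1G h0G hGu hnu
      have h2 : g * b ∈ D.I G := by
        have := (D.I G).add_mem (hPI g hg) h1
        rwa [sub_add_cancel] at this
      exact D.not_isUnit_of_mem_I h1G
        (z := (⟨g, hgE⟩ : D.E G) * (⟨b, hbE⟩ : D.E G)) h2 (hgu.mul hbu)
    -- the element
    have hdI : j * ∏ g ∈ G, P g ∈ D.I G := by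
      intro g hg
      rw [← Finset.mul_prod_erase G P hg]
      have hR : ∏ x ∈ G.erase g, P x ∈ D.E {1} :=
        (D.E {1}).prod_mem fun x hx => hPO x (Finset.mem_of_mem_erase hx)
      have h0 := h0G g hg
      have h1 : j * (P g * ∏ x ∈ G.erase g, P x) / g =
          ((∏ x ∈ G.erase g, P x) * b) * j - (∏ x ∈ G.erase g, P x) *
            (j * ((g * b - P g) / g)) := by
        field_simp
        ring
      rw [h1]
      exact D.sub_mem (D.mem_O.1 ((D.E {1}).mul_mem hR hb) j hj)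
        (D.mem_O.1 hR _ (D.mul_mem hj (hPI g hg g hg)))
    have hprod : IsUnit (⟨∏ g ∈ G, P g, (D.E G).prod_mem hPE⟩ : D.E G) := by
      have h2 : (⟨∏ g ∈ G, P g, (D.E G).prod_mem hPE⟩ : D.E G) =
          ∏ g ∈ G.attach, (⟨P g, hPE g g.2⟩ : D.E G) := by
        apply Subtype.ext
        rw [← Subring.coe_subtype, map_prod]
        simp only [Subring.coe_subtype]
        exact (Finset.prod_attach G P).symm
      rw [h2]
      exact Finset.prod_induction (fun g : G => (⟨P g, hPE g g.2⟩ : D.E G)) (fun x => IsUnit x)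
        (fun _ _ => IsUnit.mul) isUnit_one (fun g _ => hPu g g.2)
    exact D.not_isUnit_of_mem_I h1G
      (z := (⟨j, hjE⟩ : D.E G) * (⟨∏ g ∈ G, P g, (D.E G).prod_mem hPE⟩ : D.E G)) hdI
      (hju.mul hprod)
  refine ⟨?_, hbI⟩
  have h1 := (D.I G).sub_mem hab (hyE b hbI)
  rwa [add_sub_cancel_right] at h1

end

end Pool.Agent.NIPFields.LG
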