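import Mathlib
import Pool.Agent.NIPFields.LG.Large

set_option autoImplicit false

/-!
# Henselian valued fields are large
-/

namespace Pool.Agent.NIPFields.LG

open Polynomial IsLocalRing
open scoped Polynomial

/-- Hensel's lemma for polynomials that are not monic. -/
theorem exists_root_of_coeff {R : Type*} [CommRing R] [hR : HenselianLocalRing R] (h : R[X])
    (h0 : h.coeff 0 ∈ maximalIdeal R) (h1 : IsUnit (h.coeff 1)) : ∃ z : R, h.eval z = 0 := by
  obtain ⟨u, hu⟩ := h1.exists_right_inv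
  obtain ⟨N, hN⟩ : ∃ N, h.natDegree < N + 2 := ⟨h.natDegree, by omega⟩
  set c0 := h.coeff 0 with hc0
  have hev : ∀ z : R, h.eval z = ∑ i ∈ Finset.range N, h.coeff (i + 2) * z ^ (i + 2) +
      h.coeff 1 * z + c0 := by
    intro z
    rw [eval_eq_sum_range' hN, Finset.sum_range_succ', Finset.sum_range_succ']
    simp [hc0]
  let T : R[X] := ∑ i ∈ Finset.range N,
    C (h.coeff (i + 2) * (-1) ^ (i + 2) * c0 ^ (i + 1) * u ^ (i + 2)) * X ^ (N - i)
  let G : R[X] := X ^ (N + 2) + (T - X ^ (N + 1))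
  have hTdeg : T.degree < ((N + 2 : ℕ) : WithBot ℕ) := by
    refine lt_of_le_of_lt (degree_sum_le _ _) ?_
    rw [Finset.sup_lt_iff (WithBot.bot_lt_coe _)]
    intro i _
    refine lt_of_le_of_lt (degree_C_mul_X_pow_le _ _) ?_
    exact_mod_cast (by omega : N - i < N + 2)
  have hGm : G.Monic := by
    refine monic_X_pow_add (lt_of_le_of_lt (degree_sub_le _ _) (max_lt hTdeg ?_))
    refine lt_of_le_of_lt (degree_X_pow_le _) ?_
    exact_mod_cast (by omega : N + 1 < N + 2)
  have hTe : ∀ w : R, T.eval w = ∑ i ∈ Finset.range N,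
      (h.coeff (i + 2) * (-1) ^ (i + 2) * c0 ^ (i + 1) * u ^ (i + 2)) * w ^ (N - i) := by
    intro w
    simp only [T, eval_finsetSum, eval_mul, eval_C, eval_pow, eval_X]
  have hT1 : T.eval 1 ∈ maximalIdeal R := by
    rw [hTe]
    refine Ideal.sum_mem _ fun i _ => ?_
    have : (h.coeff (i + 2) * (-1) ^ (i + 2) * c0 ^ (i + 1) * u ^ (i + 2)) * 1 ^ (N - i) =
      (h.coeff (i + 2) * (-1) ^ (i + 2) * c0 ^ i * u ^ (i + 2)) * c0 := by
      rw [one_pow]; ring
    rw [this]
    exact Ideal.mul_mem_left _ _ h0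
  have hT1' : T.derivative.eval 1 ∈ maximalIdeal R := by
    simp only [T, derivative_sum, eval_finsetSum, derivative_C_mul, derivative_X_pow, eval_mul,
      eval_C, eval_pow, eval_X]
    refine Ideal.sum_mem _ fun i _ => ?_
    have : h.coeff (i + 2) * (-1) ^ (i + 2) * c0 ^ (i + 1) * u ^ (i + 2) =
      (h.coeff (i + 2) * (-1) ^ (i + 2) * c0 ^ i * u ^ (i + 2)) * c0 := by
      ring
    rw [this]
    exact Ideal.mul_mem_right _ _ (Ideal.mul_mem_left _ _ h0)
  have hG1 : G.eval 1 ∈ maximalIdeal R := by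
    have : G.eval 1 = T.eval 1 := by
      simp only [G, eval_add, eval_sub, eval_pow, eval_X, one_pow]
      ring
    rwa [this]
  have hG1' : IsUnit (G.derivative.eval 1) := by
    have h2 : G.derivative.eval 1 = 1 + T.derivative.eval 1 := by
      simp only [G, derivative_add, derivative_sub, derivative_X_pow, eval_add, eval_sub,
        eval_mul, eval_C, eval_pow, eval_X, one_pow]
      push_cast
      ring
    rw [h2]
    by_contra hcon
    have h3 : 1 + T.derivative.eval 1 ∈ maximalIdeal R := (mem_maximalIdeal _).2 hcon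
    have h4 : (1 : R) ∈ maximalIdeal R := by
      have := Ideal.sub_mem _ h3 hT1'
      rwa [add_sub_cancel_right] at this
    exact (Ideal.ne_top_iff_one _).1 (maximalIdeal.isMaximal R).ne_top h4
  obtain ⟨w, hw, hw1⟩ := hR.is_henselian G hGm 1 hG1 hG1'
  have hwu : IsUnit w := by
    by_contra hcon
    have h3 : w ∈ maximalIdeal R := (mem_maximalIdeal _).2 hcon
    have h4 : (1 : R) ∈ maximalIdeal R := by
      have := Ideal.sub_mem _ h3 hw1
      rwa [sub_sub_cancel] at this
    exact (Ideal.ne_top_iff_one _).1 (maximalIdeal.isMaximal R).ne_top h4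
  obtain ⟨y, hy⟩ := hwu.exists_right_inv
  refine ⟨-(c0 * u * y), ?_⟩
  have h5 : w ^ (N + 2) * h.eval (-(c0 * u * y)) = c0 * G.eval w := by
    rw [hev]
    simp only [G, eval_add, eval_sub, eval_pow, eval_X, hTe]
    have h6 : ∀ i ∈ Finset.range N, w ^ (N + 2) * (h.coeff (i + 2) * (-(c0 * u * y)) ^ (i + 2)) =
        c0 * ((h.coeff (i + 2) * (-1) ^ (i + 2) * c0 ^ (i + 1) * u ^ (i + 2)) * w ^ (N - i)) := by
      intro i hi
      have hi' := Finset.mem_range.1 hi
      have h7 : w ^ (N + 2) * y ^ (i + 2) = w ^ (N - i) := by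
        have : N + 2 = (N - i) + (i + 2) := by omega
        rw [this, pow_add, mul_assoc, ← mul_pow, hy, one_pow, mul_one]
      have h8 : (-(c0 * u * y)) ^ (i + 2) =
          (-1) ^ (i + 2) * c0 ^ (i + 2) * u ^ (i + 2) * y ^ (i + 2) := by
        rw [neg_eq_neg_one_mul, mul_pow, mul_pow, mul_pow]
        ring
      rw [h8, ← h7]
      ring
    have h9 : w ^ (N + 2) * (h.coeff 1 * -(c0 * u * y)) = -(c0 * w ^ (N + 1)) := by
      have : w ^ (N + 2) * (h.coeff 1 * -(c0 * u * y)) =
          -(c0 * w ^ (N + 1) * (h.coeff 1 * u) * (w * y)) := by ring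
      rw [this, hu, hy, mul_one, mul_one]
    rw [mul_add, mul_add, Finset.mul_sum, Finset.sum_congr rfl h6, h9, ← Finset.mul_sum]
    ring
  rw [show G.eval w = 0 from hw, mul_zero] at h5
  exact (hwu.pow (N + 2)).mul_right_eq_zero.1 h5

variable {K : Type*} [Field K] (O : ValuationSubring K)

/-- Finitely many elements of `K` have a common denominator. -/
theorem exists_denom (S : Finset K) : ∃ δ ∈ O, δ ≠ 0 ∧ ∀ s ∈ S, δ * s ∈ O := by
  classical
  induction S using Finset.induction_on with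
  | empty => exact ⟨1, O.one_mem, one_ne_zero, fun s hs => absurd hs (Finset.notMem_empty s)⟩
  | insert x S hx ih =>
    obtain ⟨δ, hδ, hδ0, h⟩ := ih
    rcases O.mem_or_inv_mem x with hxO | hxO
    · refine ⟨δ, hδ, hδ0, fun s hs => ?_⟩
      rcases Finset.mem_insert.1 hs with rfl | hs
      · exact O.mul_mem _ _ hδ hxO
      · exact h s hs
    · by_cases hx0 : x = 0
      · refine ⟨δ, hδ, hδ0, fun s hs => ?_⟩
        rcases Finset.mem_insert.1 hs with rfl | hs
        · rw [hx0, mul_zero]; exact O.zero_mem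
        · exact h s hs
      · refine ⟨δ * x⁻¹, O.mul_mem _ _ hδ hxO, mul_ne_zero hδ0 (inv_ne_zero hx0), fun s hs => ?_⟩
        rcases Finset.mem_insert.1 hs with rfl | hs
        · rw [mul_assoc, inv_mul_cancel₀ hx0, mul_one]; exact hδ
        · rw [mul_right_comm]; exact O.mul_mem _ _ (h s hs) hxO

/-- Polynomials are locally Lipschitz. -/
theorem exists_lip (P : K[X]) (a : K) : ∃ δ ∈ O, δ ≠ 0 ∧ ∀ e ∈ O, ∀ s ∈ O,
    ∃ r ∈ O, P.eval (a + δ * e * s) - P.eval a = s * r := by
  classical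
  set Q : K[X] := taylor a P with hQ
  obtain ⟨δ, hδ, hδ0, h⟩ := exists_denom O (Q.support.image fun i => Q.coeff i)
  have hc : ∀ i, δ * Q.coeff i ∈ O := by
    intro i
    by_cases hi : Q.coeff i = 0
    · rw [hi, mul_zero]; exact O.zero_mem
    · exact h _ (Finset.mem_image_of_mem _ (mem_support_iff.2 hi))
  refine ⟨δ, hδ, hδ0, fun e he s hs => ?_⟩
  obtain ⟨N, hN⟩ : ∃ N, Q.natDegree < N + 1 := ⟨Q.natDegree, by omega⟩
  refine ⟨∑ i ∈ Finset.range N, (δ * Q.coeff (i + 1)) * (e * (δ * e * s) ^ i), ?_, ?_⟩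
  · refine sum_mem fun i _ => O.mul_mem _ _ (hc _) (O.mul_mem _ _ he ?_)
    exact pow_mem (O.mul_mem _ _ (O.mul_mem _ _ hδ he) hs) i
  · have h1 : P.eval (a + δ * e * s) = Q.eval (δ * e * s) := by
      rw [hQ, taylor_eval, add_comm]
    have h2 : P.eval a = Q.coeff 0 := by
      rw [hQ, taylor_coeff_zero]
    rw [h1, h2, eval_eq_sum_range' hN, Finset.sum_range_succ', pow_zero, mul_one,
      add_sub_cancel_right, Finset.mul_sum]
    refine Finset.sum_congr rfl fun i _ => ?_
    ring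

theorem large_of_henselian {K : Type*} [Field K] (O : ValuationSubring K) (hO : O ≠ ⊤)
    (hens : HenselianLocalRing O) : Large K := by
  classical
  rintro f ⟨a, b, hf, hf'⟩
  -- a nonzero element of the maximal ideal
  obtain ⟨t, ht, ht0⟩ : ∃ t : O, t ∈ maximalIdeal O ∧ (t : K) ≠ 0 := by
    obtain ⟨x, hx⟩ : ∃ x : K, x ∉ O := by
      by_contra hcon
      push Not at hcon
      exact hO (SetLike.ext fun x => ⟨fun _ => trivial, fun _ => hcon x⟩)
    have hx0 : x ≠ 0 := by
      rintro rfl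
      exact hx O.zero_mem
    refine ⟨⟨x⁻¹, (O.mem_or_inv_mem x).resolve_left hx⟩, ?_, inv_ne_zero hx0⟩
    rw [mem_maximalIdeal, mem_nonunits_iff]
    intro hu
    obtain ⟨y, hy⟩ := hu.exists_right_inv
    have h1 : x⁻¹ * (y : K) = 1 := congrArg Subtype.val hy
    have h2 : (y : K) = x := by
      have := congrArg (fun z => x * z) h1
      simpa [← mul_assoc, mul_inv_cancel₀ hx0] using this
    exact hx (h2 ▸ y.2)
  -- the Taylor expansion
  set F : K[X][X] := taylor (C b) f with hF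
  have hFe : ∀ x z : K, f.evalEval x (z + b) = F.evalEval x z := by
    intro x z
    rw [evalEval, evalEval, hF, taylor_eval, C_add]
  have hP0 : (F.coeff 0).eval a = 0 := by
    rw [hF, taylor_coeff_zero]; exact hf
  set u : K := (F.coeff 1).eval a with hu
  have hu0 : u ≠ 0 := by
    rw [hu, hF, taylor_coeff_one]; exact hf'
  obtain ⟨n, hn, hn2⟩ : ∃ n, F.natDegree < n ∧ 1 < n := ⟨F.natDegree + 2, by omega, by omega⟩
  -- the constants
  obtain ⟨δ, hδ, hδ0, hδP⟩ : ∃ δ ∈ O, δ ≠ 0 ∧ ∀ i < n, ∀ e ∈ O, ∀ s ∈ O,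
      ∃ r ∈ O, (F.coeff i).eval (a + δ * e * s) - (F.coeff i).eval a = s * r := by
    clear hn hn2
    induction n with
    | zero => exact ⟨1, O.one_mem, one_ne_zero, fun i hi => absurd hi (Nat.not_lt_zero i)⟩
    | succ n ih =>
      obtain ⟨δ, hδ, hδ0, h⟩ := ih
      obtain ⟨δ', hδ', hδ0', h'⟩ := exists_lip O (F.coeff n) a
      refine ⟨δ * δ', O.mul_mem _ _ hδ hδ', mul_ne_zero hδ0 hδ0', fun i hi e he s hs => ?_⟩
      rcases Nat.lt_succ_iff_lt_or_eq.1 hi with hi | rfl
      · obtain ⟨r, hr, hr'⟩ := h i hi (δ' * e) (O.mul_mem _ _ hδ' he) s hs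
        refine ⟨r, hr, ?_⟩
        rw [← hr']
        ring_nf
      · obtain ⟨r, hr, hr'⟩ := h' (δ * e) (O.mul_mem _ _ hδ he) s hs
        refine ⟨r, hr, ?_⟩
        rw [← hr']
        ring_nf
  obtain ⟨D, hD, hD0, hDS⟩ := exists_denom O
    (insert u⁻¹ ((Finset.range n).image fun i => (F.coeff i).eval a / u))
  have hDu : D * u⁻¹ ∈ O := hDS _ (Finset.mem_insert_self _ _)
  have hDP : ∀ i < n, D * ((F.coeff i).eval a / u) ∈ O := fun i hi =>
    hDS _ (Finset.mem_insert_of_mem (Finset.mem_image_of_mem _ (Finset.mem_range.2 hi)))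
  set d : K := t * D with hd
  have hdO : d ∈ O := O.mul_mem _ _ t.2 hD
  have hd0 : d ≠ 0 := mul_ne_zero ht0 hD0
  -- the zeros
  have key : ∀ s' : O, ∃ z : K, f.evalEval (a + δ * 1 * (d * d * s')) (d * z + b) = 0 := by
    intro s'
    set s : K := d * d * s' with hs
    have hsO : s ∈ O := O.mul_mem _ _ (O.mul_mem _ _ hdO hdO) s'.2
    -- coefficients
    let c : ℕ → K := fun i => (F.coeff i).eval (a + δ * 1 * s) * d ^ i / (d * u)
    have hc0 : ∃ r ∈ O, c 0 = t * r := by
      obtain ⟨r, hr, hr'⟩ := hδP 0 (by omega) 1 O.one_mem s hsO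
      rw [hP0, sub_zero] at hr'
      refine ⟨D * u⁻¹ * s' * r, O.mul_mem _ _ (O.mul_mem _ _ hDu s'.2) hr, ?_⟩
      simp only [c]
      rw [hr', hs, pow_zero, mul_one]
      field_simp
      rw [hd]
      ring
    have hc1 : ∃ r ∈ O, c 1 = 1 + t * r := by
      obtain ⟨r, hr, hr'⟩ := hδP 1 hn2 1 O.one_mem s hsO
      refine ⟨D * u⁻¹ * (d * s' * r), O.mul_mem _ _ hDu
        (O.mul_mem _ _ (O.mul_mem _ _ hdO s'.2) hr), ?_⟩
      simp only [c]
      rw [sub_eq_iff_eq_add.1 hr', ← hu, hs]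
      field_simp
      rw [hd]
      ring
    have hc2 : ∀ i, c (i + 2) ∈ O := by
      intro i
      by_cases hi : i + 2 < n
      · obtain ⟨r, hr, hr'⟩ := hδP (i + 2) hi 1 O.one_mem s hsO
        have h1 : c (i + 2) = (t * (D * ((F.coeff (i + 2)).eval a / u)) +
            t * (D * u⁻¹) * (s * r)) * d ^ i := by
          simp only [c]
          rw [sub_eq_iff_eq_add.1 hr']
          rw [pow_add]
          field_simp
          rw [hd]
          ring
        rw [h1]
        refine O.mul_mem _ _ (O.add_mem _ _ (O.mul_mem _ _ t.2 (hDP _ hi)) ?_) (pow_mem hdO i)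
        exact O.mul_mem _ _ (O.mul_mem _ _ t.2 hDu) (O.mul_mem _ _ hsO hr)
      · have : c (i + 2) = 0 := by
          simp only [c]
          rw [coeff_eq_zero_of_natDegree_lt (by omega)]
          simp
        rw [this]
        exact O.zero_mem
    obtain ⟨r0, hr0, hr0'⟩ := hc0
    obtain ⟨r1, hr1, hr1'⟩ := hc1
    have hcO : ∀ i, c i ∈ O := by
      intro i
      rcases i with _ | _ | i
      · rw [hr0']; exact O.mul_mem _ _ t.2 hr0
      · rw [hr1']; exact O.add_mem _ _ O.one_mem (O.mul_mem _ _ t.2 hr1)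
      · exact hc2 i
    let h : O[X] := ∑ i ∈ Finset.range n, C (⟨c i, hcO i⟩ : O) * X ^ i
    have hh : ∀ i < n, h.coeff i = ⟨c i, hcO i⟩ := by
      intro i hi
      simp only [h, finsetSum_coeff, coeff_C_mul_X_pow]
      rw [Finset.sum_ite_eq, if_pos (Finset.mem_range.2 hi)]
    have e0 : h.coeff 0 ∈ maximalIdeal O := by
      have h1 : h.coeff 0 = t * ⟨r0, hr0⟩ := by
        rw [hh 0 (by omega)]
        exact Subtype.ext hr0'
      rw [h1]
      exact Ideal.mul_mem_right _ _ ht
    have e1 : IsUnit (h.coeff 1) := by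
      have h1 : h.coeff 1 = 1 + t * ⟨r1, hr1⟩ := by
        rw [hh 1 hn2]
        exact Subtype.ext hr1'
      rw [h1]
      by_contra hcon
      have h3 : 1 + t * ⟨r1, hr1⟩ ∈ maximalIdeal O := (mem_maximalIdeal _).2 hcon
      have h4 : (1 : O) ∈ maximalIdeal O := by
        have := Ideal.sub_mem _ h3 (Ideal.mul_mem_right (⟨r1, hr1⟩ : O) _ ht)
        rwa [add_sub_cancel_right] at this
      exact (Ideal.ne_top_iff_one _).1 (maximalIdeal.isMaximal O).ne_top h4
    obtain ⟨z, hz⟩ := exists_root_of_coeff h e0 e1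
    refine ⟨z, ?_⟩
    have h1 : ∑ i ∈ Finset.range n, c i * (z : K) ^ i = 0 := by
      have h2 : O.subtype (h.eval z) = ∑ i ∈ Finset.range n, c i * (z : K) ^ i := by
        simp only [h, eval_finsetSum, eval_mul, eval_C, eval_pow, eval_X, map_sum, map_mul,
          map_pow]
        rfl
      rw [← h2, hz, map_zero]
    have h2 : F.evalEval (a + δ * 1 * s) (d * z) =
        (d * u) * ∑ i ∈ Finset.range n, c i * (z : K) ^ i := by
      rw [evalEval, eval_eq_sum_range' hn, eval_finsetSum, Finset.mul_sum]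
      refine Finset.sum_congr rfl fun i _ => ?_
      simp only [c, eval_mul, eval_pow, eval_C]
      rw [mul_pow]
      field_simp
    rw [hFe, h2, h1, mul_zero]
  choose z hz using key
  have hinf : Infinite O := by
    refine Infinite.of_injective (fun k : ℕ => t ^ k) ?_
    have ht1 : ∀ j k : ℕ, j < k → t ^ j ≠ t ^ k := by
      intro j k hjk h
      have ht0' : t ≠ 0 := fun h => ht0 (by rw [h]; rfl)
      obtain ⟨m, rfl⟩ := Nat.exists_eq_add_of_lt hjk
      have h1 : t ^ j * (t ^ (m + 1)) = t ^ j * 1 := by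
        rw [mul_one, ← pow_add]
        exact h.symm
      have h2 := mul_left_cancel₀ (pow_ne_zero j ht0') h1
      have h4 : (1 : O) ∈ maximalIdeal O := by
        rw [← h2]
        exact Ideal.pow_mem_of_mem _ ht _ (Nat.succ_pos m)
      exact (Ideal.ne_top_iff_one _).1 (maximalIdeal.isMaximal O).ne_top h4
    intro j k h
    rcases lt_trichotomy j k with h' | h' | h'
    · exact absurd h (ht1 _ _ h')
    · exact h'
    · exact absurd h.symm (ht1 _ _ h')
  refine Set.infinite_of_injective_forall_mem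
    (f := fun s' : O => (a + δ * 1 * (d * d * s'), d * z s' + b)) ?_ hz
  intro s1 s2 h
  have h1 : a + δ * 1 * (d * d * (s1 : K)) = a + δ * 1 * (d * d * s2) := congrArg Prod.fst h
  have h2 : (δ * 1 * (d * d)) * (s1 : K) = (δ * 1 * (d * d)) * s2 := by
    linear_combination h1
  have h3 := mul_left_cancel₀
    (mul_ne_zero (mul_ne_zero hδ0 one_ne_zero) (mul_ne_zero hd0 hd0)) h2
  exact Subtype.ext h3

end Pool.Agent.NIPFields.LG
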