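import Mathlib
import Pool.Agent.NIPFields.LG.Large

set_option autoImplicit false

/-!
# Separably closed fields are large; fields of codimension two in their algebraic closure
-/

namespace Pool.Agent.NIPFields.LG

open scoped Polynomial

theorem sep_infinite (K : Type*) [Field K] [IsSepClosed K] : Infinite K := by
  by_contra hfin
  rw [not_infinite_iff_finite] at hfin
  have := Fintype.ofFinite K
  classical
  set q := Fintype.card K with hq
  have hq1 : 1 < q := Fintype.one_lt_card
  have hqK : (q : K) = 0 := FiniteField.cast_card_eq_zero K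
  set f : K[X] := Polynomial.X ^ q - Polynomial.X + 1 with hf
  have hder : Polynomial.derivative f = -1 := by
    rw [hf]
    simp only [Polynomial.derivative_add, Polynomial.derivative_sub, Polynomial.derivative_X_pow,
      Polynomial.derivative_X, Polynomial.derivative_one, hqK, Polynomial.C_0]
    ring
  have hsep : f.Separable := by
    rw [Polynomial.separable_def, hder]
    exact (isCoprime_one_right (x := f)).neg_right
  have hdeg : f.degree ≠ 0 := by
    intro h0
    have h1 : f.coeff q = 0 := Polynomial.coeff_eq_zero_of_degree_lt (by rw [h0]; exact_mod_cast (by omega : 0 < q))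
    rw [hf] at h1
    simp only [Polynomial.coeff_add, Polynomial.coeff_sub, Polynomial.coeff_X_pow_self,
      Polynomial.coeff_X, Polynomial.coeff_one] at h1
    rw [if_neg (by omega), if_neg (by omega)] at h1
    simp at h1
  obtain ⟨x, hx⟩ := IsSepClosed.exists_root f hdeg hsep
  rw [Polynomial.IsRoot, hf] at hx
  simp only [Polynomial.eval_add, Polynomial.eval_sub, Polynomial.eval_pow, Polynomial.eval_X,
    Polynomial.eval_one] at hx
  rw [hq, FiniteField.pow_card] at hx
  simp at hx

/-- An irreducible factor vanishing at a given point. -/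
theorem sep_factor {K : Type*} [Field K] (f : K[X][X]) (x y : K) (h0 : f.evalEval x y = 0)
    (h1 : (Polynomial.derivative f).evalEval x y ≠ 0) :
    ∃ g : K[X][X], Irreducible g ∧ g ∣ f ∧ (Polynomial.derivative g).evalEval x y ≠ 0 := by
  have hf0 : f ≠ 0 := by
    rintro rfl
    simp at h1
  obtain ⟨s, hs, hsf⟩ := WfDvdMonoid.exists_factors f hf0
  obtain ⟨w, hw⟩ := hsf
  have h2 : (Polynomial.evalEvalRingHom x y s.prod) * (Polynomial.evalEvalRingHom x y w) = 0 := by
    rw [← map_mul, hw]
    simpa using h0
  have h3 : Polynomial.evalEvalRingHom x y s.prod = 0 := by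
    rcases mul_eq_zero.1 h2 with h | h
    · exact h
    · exact absurd h (w.isUnit.map (Polynomial.evalEvalRingHom x y)).ne_zero
  rw [map_multiset_prod, Multiset.prod_eq_zero_iff, Multiset.mem_map] at h3
  obtain ⟨g, hg, hg0⟩ := h3
  have hgf : g ∣ f := (Multiset.dvd_prod hg).trans ⟨w, hw.symm⟩
  refine ⟨g, hs g hg, hgf, ?_⟩
  intro hcon
  obtain ⟨k, rfl⟩ := hgf
  apply h1
  rw [Polynomial.derivative_mul]
  have hg0' : g.evalEval x y = 0 := hg0
  simp [hcon, hg0']

theorem large_of_isSepClosed {K : Type*} [Field K] [IsSepClosed K] : Large K := by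
  classical
  have hinf := sep_infinite K
  rintro f ⟨x, y, h0, h1⟩
  obtain ⟨g, hg, hgf, hgd⟩ := sep_factor f x y h0 h1
  have hgd0 : Polynomial.derivative g ≠ 0 := by
    intro h
    rw [h] at hgd
    simp at hgd
  have hgdeg : g.natDegree ≠ 0 := by
    intro h
    apply hgd0
    exact Polynomial.derivative_of_natDegree_zero h
  have hprim := hg.isPrimitive hgdeg
  set F := FractionRing K[X] with hF
  set G : F[X] := g.map (algebraMap K[X] F) with hG
  have hinj : Function.Injective (algebraMap K[X] F) := IsFractionRing.injective _ _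
  have hGirr : Irreducible G := (hprim.irreducible_iff_irreducible_map_fraction_map).1 hg
  have hGd : Polynomial.derivative G ≠ 0 := by
    rw [hG, Polynomial.derivative_map]
    rw [Ne, Polynomial.map_eq_zero_iff hinj]
    exact hgd0
  have hGsep : G.Separable := (Polynomial.separable_iff_derivative_ne_zero hGirr).2 hGd
  obtain ⟨a, b, hab⟩ := hGsep
  obtain ⟨s, hsM, hs⟩ := IsLocalization.integerNormalization_spec (nonZeroDivisors K[X]) a
  obtain ⟨t, htM, ht⟩ := IsLocalization.integerNormalization_spec (nonZeroDivisors K[X]) b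
  set a' := IsLocalization.integerNormalization (nonZeroDivisors K[X]) a with ha'
  set b' := IsLocalization.integerNormalization (nonZeroDivisors K[X]) b with hb'
  have hs0 : s ≠ 0 := nonZeroDivisors.ne_zero hsM
  have ht0 : t ≠ 0 := nonZeroDivisors.ne_zero htM
  have e1 : (s • a : F[X]) = Polynomial.C (algebraMap K[X] F s) * a := by
    rw [← Polynomial.smul_eq_C_mul, algebraMap_smul]
  have e2 : (t • b : F[X]) = Polynomial.C (algebraMap K[X] F t) * b := by
    rw [← Polynomial.smul_eq_C_mul, algebraMap_smul]
  have hkey : Polynomial.C t * a' * g + Polynomial.C s * b' * Polynomial.derivative g =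
      Polynomial.C (s * t) := by
    apply Polynomial.map_injective _ hinj
    simp only [Polynomial.map_add, Polynomial.map_mul, Polynomial.map_C, hs, ht, e1, e2,
      ← Polynomial.derivative_map, map_mul]
    rw [← hG]
    calc Polynomial.C (algebraMap K[X] F t) * (Polynomial.C (algebraMap K[X] F s) * a) * G +
        Polynomial.C (algebraMap K[X] F s) * (Polynomial.C (algebraMap K[X] F t) * b) *
          Polynomial.derivative G = Polynomial.C (algebraMap K[X] F s) *
            Polynomial.C (algebraMap K[X] F t) * (a * G + b * Polynomial.derivative G) := by ring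
      _ = _ := by rw [hab, mul_one]
  -- the good values of the first coordinate
  set r : K[X] := s * t * g.leadingCoeff with hr
  have hr0 : r ≠ 0 := mul_ne_zero (mul_ne_zero hs0 ht0)
    (Polynomial.leadingCoeff_ne_zero.2 hg.ne_zero)
  have hgood : {c : K | r.eval c ≠ 0}.Infinite := by
    have : {c : K | r.eval c ≠ 0} = (r.roots.toFinset : Set K)ᶜ := by
      ext c
      simp [Polynomial.mem_roots hr0]
    rw [this]
    exact (Finset.finite_toSet _).infinite_compl
  have hpt : ∀ c : K, r.eval c ≠ 0 → ∃ d : K, f.evalEval c d = 0 := by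
    intro c hc
    rw [hr, Polynomial.eval_mul, Polynomial.eval_mul] at hc
    set gc : K[X] := g.map (Polynomial.evalRingHom c) with hgc
    have hk := congrArg (Polynomial.map (Polynomial.evalRingHom c)) hkey
    simp only [Polynomial.map_add, Polynomial.map_mul, Polynomial.map_C,
      ← Polynomial.derivative_map, ← hgc, Polynomial.coe_evalRingHom, Polynomial.eval_mul] at hk
    have hsepc : gc.Separable := by
      have hne : s.eval c * t.eval c ≠ 0 := left_ne_zero_of_mul hc
      refine ⟨Polynomial.C ((s.eval c * t.eval c)⁻¹) * (Polynomial.C (t.eval c) *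
          a'.map (Polynomial.evalRingHom c)),
        Polynomial.C ((s.eval c * t.eval c)⁻¹) * (Polynomial.C (s.eval c) *
          b'.map (Polynomial.evalRingHom c)), ?_⟩
      calc _ = Polynomial.C ((s.eval c * t.eval c)⁻¹) * (Polynomial.C (t.eval c) *
          a'.map (Polynomial.evalRingHom c) * gc + Polynomial.C (s.eval c) *
          b'.map (Polynomial.evalRingHom c) * Polynomial.derivative gc) := by ring
        _ = 1 := by rw [hk, ← Polynomial.C_mul, inv_mul_cancel₀ hne, Polynomial.C_1]
    have hdegc : gc.natDegree = g.natDegree := by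
      rw [hgc]
      apply Polynomial.natDegree_map_of_leadingCoeff_ne_zero
      exact right_ne_zero_of_mul hc
    obtain ⟨d, hd⟩ := IsSepClosed.exists_root gc (fun h => by
      apply hgdeg
      rw [← hdegc]
      exact Polynomial.natDegree_eq_of_degree_eq_some (by simpa using h)) hsepc
    refine ⟨d, ?_⟩
    have hgd : g.evalEval c d = 0 := by
      rw [← Polynomial.map_evalRingHom_eval]
      exact hd
    obtain ⟨k, rfl⟩ := hgf
    simp [hgd]
  intro hfin
  apply hgood
  refine (hfin.image Prod.fst).subset fun c hc => ?_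
  obtain ⟨d, hd⟩ := hpt c hc
  exact ⟨(c, d), hd, rfl⟩

theorem sep_pair {K : Type*} [Field K] {Ω : Type*} [Field Ω] [Algebra K Ω]
    (h : Module.finrank K Ω = 2) (α : Ω) (hα : α ∉ Set.range (algebraMap K Ω)) :
    (∀ x y : K, algebraMap K Ω x + algebraMap K Ω y * α = 0 → x = 0 ∧ y = 0) ∧
    ∀ z : Ω, ∃ x y : K, z = algebraMap K Ω x + algebraMap K Ω y * α := by
  have h1 : ∀ x y : K, algebraMap K Ω x + algebraMap K Ω y * α = 0 → x = 0 ∧ y = 0 := by
    intro x y hxy
    have hy : y = 0 := by
      by_contra hy
      apply hα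
      refine ⟨-x / y, ?_⟩
      have hy' : algebraMap K Ω y ≠ 0 := by simpa using hy
      rw [map_div₀, map_neg, div_eq_iff hy']
      linear_combination -hxy
    subst hy
    simp at hxy
    exact ⟨hxy, rfl⟩
  refine ⟨h1, ?_⟩
  have hli : LinearIndependent K ![(1 : Ω), α] := by
    rw [LinearIndependent.pair_iff]
    intro s t hst
    apply h1
    rw [Algebra.smul_def, Algebra.smul_def, mul_one] at hst
    exact hst
  have hspan := hli.span_eq_top_of_card_eq_finrank (by simp [h])
  intro z
  have hz : z ∈ Submodule.span K (Set.range ![(1 : Ω), α]) := by rw [hspan]; trivial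
  rw [Matrix.range_cons, Matrix.range_cons, Matrix.range_empty, Set.union_empty,
    Set.singleton_union, Submodule.mem_span_pair] at hz
  obtain ⟨x, y, hxy⟩ := hz
  refine ⟨x, y, ?_⟩
  rw [← hxy, Algebra.smul_def, Algebra.smul_def, mul_one]

theorem isSepClosed_of_finrank {K : Type*} [Field K] {p : ℕ} [Fact p.Prime] [CharP K p]
    (hAS : ∀ w : K, ∃ u : K, u ^ p - u = w)
    (h : Module.finrank K (AlgebraicClosure K) = 2) : IsSepClosed K := by
  set Ω := AlgebraicClosure K with hΩ
  refine IsSepClosed.of_exists_root K fun q hqm hqi hqs => ?_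
  by_contra hno
  push Not at hno
  obtain ⟨β, hβ⟩ := IsAlgClosed.exists_aeval_eq_zero Ω q (by
    exact (Polynomial.degree_pos_of_irreducible hqi).ne')
  have hmin : q = minpoly K β := minpoly.eq_of_irreducible_of_monic hqi hβ hqm
  have : Module.Finite K Ω := Module.finite_of_finrank_pos (by rw [h]; norm_num)
  have hdeg : q.natDegree ≤ 2 := by
    rw [hmin, ← h]
    exact minpoly.natDegree_le β
  have hβK : β ∉ Set.range (algebraMap K Ω) := by
    rintro ⟨b, rfl⟩
    apply hno b
    rw [Polynomial.aeval_algebraMap_apply, map_eq_zero] at hβ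
    exact hβ
  have hdeg2 : q.natDegree = 2 := by
    have h1 : 0 < q.natDegree :=
      Polynomial.natDegree_pos_iff_degree_pos.2 (Polynomial.degree_pos_of_irreducible hqi)
    by_contra hne
    have h2 : q.natDegree = 1 := by omega
    have h3 : q.degree = 1 := by
      rw [Polynomial.degree_eq_natDegree hqi.ne_zero, h2]; rfl
    obtain ⟨x, hx⟩ := Polynomial.exists_root_of_degree_eq_one h3
    exact hno x hx
  set b := q.coeff 1 with hb
  set c := q.coeff 0 with hc
  have hlead : q.coeff 2 = 1 := by rw [← hdeg2]; exact hqm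
  have heval : ∀ x : K, q.eval x = x ^ 2 + b * x + c := by
    intro x
    rw [Polynomial.eval_eq_sum_range, hdeg2, Finset.sum_range_succ, Finset.sum_range_succ,
      Finset.sum_range_succ, Finset.sum_range_zero, hlead, ← hb, ← hc]
    ring
  have haeval : β ^ 2 + algebraMap K Ω b * β + algebraMap K Ω c = 0 := by
    have h1 := hβ
    rw [Polynomial.aeval_eq_sum_range, hdeg2, Finset.sum_range_succ, Finset.sum_range_succ,
      Finset.sum_range_succ, Finset.sum_range_zero, hlead, ← hb, ← hc, Algebra.smul_def,
      Algebra.smul_def, Algebra.smul_def, map_one] at h1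
    rw [← h1]; ring
  by_cases hp2 : p = 2
  · subst hp2
    have h2K : (2 : K) = 0 := by exact_mod_cast CharP.cast_eq_zero K 2
    have hb0 : b ≠ 0 := by
      intro hb0
      have hder : Polynomial.derivative q = 0 := by
        ext n
        rw [Polynomial.coeff_derivative, Polynomial.coeff_zero]
        rcases n with _ | _ | n
        · rw [zero_add, ← hb, hb0, zero_mul]
        · have : ((((0 + 1 : ℕ) : K)) + 1) = 2 := by norm_num
          rw [this, h2K, mul_zero]
        · rw [Polynomial.coeff_eq_zero_of_natDegree_lt (by rw [hdeg2]; omega), zero_mul]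
      rw [Polynomial.separable_def, hder, isCoprime_zero_right] at hqs
      exact hqi.not_isUnit hqs
    obtain ⟨u, hu⟩ := hAS (-(c / b ^ 2))
    apply hno (b * u)
    rw [heval]
    have h3 : u ^ 2 = u - c / b ^ 2 := by linear_combination hu
    have h4 : (b * u) ^ 2 + b * (b * u) + c = 2 * (b ^ 2 * u) := by
      rw [mul_pow, h3]
      field_simp
      ring
    rw [h4, h2K, zero_mul]
  · have h2K : (2 : K) ≠ 0 := by
      intro h2
      have h3 : ((2 : ℕ) : K) = 0 := by exact_mod_cast h2
      rw [CharP.cast_eq_zero_iff K p] at h3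
      have h4 := (Nat.prime_dvd_prime_iff_eq (Fact.out : p.Prime) Nat.prime_two).1 h3
      exact hp2 h4
    set a : K := b ^ 2 / 4 - c with ha
    set α : Ω := β + algebraMap K Ω (b / 2) with hα
    have h4K : (4 : K) ≠ 0 := by
      have : (4 : K) = 2 * 2 := by norm_num
      rw [this]; exact mul_ne_zero h2K h2K
    have hα2 : α ^ 2 = algebraMap K Ω a := by
      have e1 : algebraMap K Ω a = algebraMap K Ω (b / 2) ^ 2 - algebraMap K Ω c := by
        rw [← map_pow, ← map_sub, ha]
        congr 2
        field_simp
        norm_num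
      have e2 : algebraMap K Ω b = 2 * algebraMap K Ω (b / 2) := by
        have : (2 : Ω) = algebraMap K Ω 2 := (map_ofNat (algebraMap K Ω) 2).symm
        rw [this, ← map_mul]
        congr 1
        field_simp
      rw [e1, hα]
      rw [e2] at haeval
      linear_combination haeval
    have hαK : α ∉ Set.range (algebraMap K Ω) := by
      rintro ⟨t, ht⟩
      apply hβK
      refine ⟨t - b / 2, ?_⟩
      rw [map_sub, ht, hα]; ring
    obtain ⟨hli, hspan⟩ := sep_pair h α hαK
    -- norms
    have hnorm : ∀ x y : K, ∃ s : K, x ^ 2 - a * y ^ 2 = s ^ 2 := by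
      intro x y
      obtain ⟨γ, hγ⟩ := IsAlgClosed.exists_pow_nat_eq (algebraMap K Ω x + algebraMap K Ω y * α)
        (n := 2) (by norm_num)
      obtain ⟨u, v, rfl⟩ := hspan γ
      have h5 : algebraMap K Ω (u ^ 2 + v ^ 2 * a - x) + algebraMap K Ω (2 * u * v - y) * α = 0 := by
        simp only [map_sub, map_add, map_mul, map_pow, map_ofNat]
        linear_combination hγ - (algebraMap K Ω v) ^ 2 * hα2
      obtain ⟨h6, h7⟩ := hli _ _ h5
      refine ⟨u ^ 2 - a * v ^ 2, ?_⟩
      have h8 : x = u ^ 2 + v ^ 2 * a := by linear_combination -h6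
      have h9 : y = 2 * u * v := by linear_combination -h7
      rw [h8, h9]; ring
    obtain ⟨s, hs⟩ := hnorm 0 1
    have hs' : a = -s ^ 2 := by linear_combination -hs
    have ha0 : a ≠ 0 := by
      intro ha0
      rw [ha0, map_zero] at hα2
      have : α = 0 := by simpa using hα2
      exact hαK ⟨0, by rw [this, map_zero]⟩
    have hs0 : s ≠ 0 := by
      rintro rfl
      apply ha0
      rw [hs']; ring
    have hsum : ∀ x z : K, ∃ t : K, x ^ 2 + z ^ 2 = t ^ 2 := by
      intro x z
      obtain ⟨t, ht⟩ := hnorm x (z / s)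
      refine ⟨t, ?_⟩
      rw [← ht, hs']
      field_simp
      ring
    have hnat : ∀ n : ℕ, ∃ t : K, (n : K) = t ^ 2 := by
      intro n
      induction n with
      | zero => exact ⟨0, by simp⟩
      | succ n ih =>
        obtain ⟨t, ht⟩ := ih
        obtain ⟨t', ht'⟩ := hsum t 1
        refine ⟨t', ?_⟩
        rw [← ht', ← ht]
        push_cast
        ring
    obtain ⟨j, hj⟩ := hnat (p - 1)
    have hj' : j ^ 2 = -1 := by
      rw [← hj, Nat.cast_sub (Fact.out : p.Prime).one_le, CharP.cast_eq_zero]
      simp
    have hasq : a = (j * s) ^ 2 := by rw [mul_pow, hj', hs']; ring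
    apply hno (j * s - b / 2)
    rw [heval]
    have h5 : c = b ^ 2 / 4 - a := by rw [ha]; ring
    rw [h5, hasq]
    field_simp
    ring

end Pool.Agent.NIPFields.LG
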