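import Mathlib
import Pool.Agent.NIPFields.LG.Tower
import Pool.Agent.NIPFields.LG.Germ
import Pool.Agent.NIPFields.LG.LargeTL
import Pool.Agent.NIPFields.LG.LargeHens
import Pool.Agent.NIPFields.LG.LargeSep
import Pool.Agent.NIPFields.LC.Final
import Pool.Agent.NIPFields.FI.Global

set_option autoImplicit false

/-!
# Shelah's conjecture in characteristic `p` and large fields
-/

namespace Pool.Agent.NIPFields.LG

open FirstOrder FirstOrder.Language FirstOrder.Ring Set Filter IsLocalRing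
open Pool.Agent.NIPFields.FI

universe u v w

/-- Step G: the ring of bounded elements is a valuation ring. -/
theorem LD.exists_definable_of_val {p : ℕ} [hp : Fact p.Prime] {K : Type v} {k : Type u} [Field K]
    [CharP K p] [Infinite K] [Field k] [Algebra K k] [CompatibleRing k] (hk : NIP k) {ℓ : ℕ}
    (hℓ : ℓ.Prime) (hℓp : ℓ ≠ p) (D : LD K k ℓ) (hval : ∀ y, y ∈ D.E {1} ∨ y⁻¹ ∈ D.E {1}) :
    ∃ O : ValuationSubring k, O ≠ ⊤ ∧ (univ : Set k).Definable₁ Language.ring {x | x ∈ O} := by
  have hchk : CharP k p := charP_of_injective_algebraMap (algebraMap K k).injective p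
  have hloc : IsLocalRing (D.E {1}) := D.isLocalRing hk (Finset.mem_singleton_self 1)
    (by simp)
  let O : ValuationSubring k :=
    { D.E {1} with
      mem_or_inv_mem' := hval }
  have hmem : ∀ x, x ∈ O ↔ x ∈ D.E {1} := fun _ => Iff.rfl
  have hO : O ≠ ⊤ := by
    intro htop
    obtain ⟨ε, hε, h⟩ := D.small {1}
    have h1 := h 1 (Finset.mem_singleton_self 1)
    rw [one_mul] at h1
    have h2 : ε⁻¹ ∈ O := by rw [htop]; trivial
    have h3 := D.mem_O.1 ((hmem _).1 h2) ε h1
    rw [inv_mul_cancel₀ hε] at h3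
    exact one_notMem h3
  have hcomp : Compat ℓ O := by
    refine ⟨hO, fun m hm => ?_⟩
    have hmO : m ∈ O := (O.valuation_le_one_iff m).1 hm.le
    have h1 : (⟨m, (hmem m).1 hmO⟩ : D.E {1}) ∈ maximalIdeal (D.E {1}) := by
      rw [mem_maximalIdeal]
      intro hu
      obtain ⟨v, hv⟩ := hu.exists_right_inv
      have h2 : m * (v : k) = 1 := congrArg Subtype.val hv
      have h3 : (v : k) ∈ O := (hmem _).2 v.2
      have h4 : O.valuation (v : k) ≤ 1 := (O.valuation_le_one_iff _).2 h3
      have h5 : O.valuation m * O.valuation (v : k) = 1 := by rw [← map_mul, h2, map_one]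
      have h6 : O.valuation m * O.valuation (v : k) < 1 :=
        lt_of_le_of_lt (mul_le_of_le_one_right' h4) hm
      exact absurd h5 h6.ne
    obtain ⟨b, _, hb⟩ := D.one_add_mem_Pw hk hℓ hℓp (Finset.mem_singleton_self 1) (by simp) h1
    exact ⟨b, hb⟩
  have hℓk : (ℓ : k) ≠ 0 := by
    intro h
    exact hℓp ((Nat.prime_dvd_prime_iff_eq hp.out hℓ).1 ((CharP.cast_eq_zero_iff k p ℓ).1 h)).symm
  refine exists_definable_valuationSubring (p := p) hℓk ⟨O, hcomp⟩ ?_
  obtain ⟨a, ha, haP⟩ := D.ne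
  have ha' : algebraMap K k a ≠ 0 := (map_ne_zero _).2 ha
  refine ⟨algebraMap K k a, ha', fun y hy => haP ⟨y, ?_, hy⟩⟩
  rintro rfl
  rw [zero_pow hℓ.ne_zero] at hy
  exact ha' hy

/-- Step G. -/
theorem LD.exists_definable {p : ℕ} [hp : Fact p.Prime] {K : Type v} {k : Type u} [Field K]
    [CharP K p] [Infinite K] [Field k] [Algebra K k] [CompatibleRing k] (hk : NIP k) {ℓ : ℕ}
    (hℓ : ℓ.Prime) (hℓp : ℓ ≠ p) (D : LD K k ℓ)
    (hTL : ∀ (F : Type u) [Field F] [CompatibleRing F] (_ : K →+* F), NIP F → TL F ℓ) :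
    ∃ O : ValuationSubring k, O ≠ ⊤ ∧ (univ : Set k).Definable₁ Language.ring {x | x ∈ O} := by
  refine D.exists_definable_of_val hk hℓ hℓp fun y => ?_
  by_contra hcon
  rw [not_or] at hcon
  obtain ⟨F, _, _, φ, hF, hn⟩ := D.exists_not_TL hk hℓ hℓp hcon.1 hcon.2
  exact hn (hTL F φ hF)

/-- The local form, for the field itself. -/
theorem exists_definable_of_TL {p : ℕ} [hp : Fact p.Prime] {L : Type u} [Field L]
    [CompatibleRing L] (hL : NIP L) [CharP L p] [Infinite L] {ℓ : ℕ} (hℓ : ℓ.Prime) (hℓp : ℓ ≠ p)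
    (hTL : ∀ (F : Type u) [Field F] [CompatibleRing F] (_ : L →+* F), NIP F → TL F ℓ)
    (hnp : ∃ a : L, ∀ y, a ≠ y ^ ℓ) :
    ∃ O : ValuationSubring L, O ≠ ⊤ ∧ (univ : Set L).Definable₁ Language.ring {x | x ∈ O} := by
  let E := Germ (UF L : Filter (Finset L)) L
  let _ : Algebra L E := germAlg L
  let _ : CompatibleRing E := germCompat (UF L) L
  have hE : NIP E := NIP.germ hL
  have D : LD L E ℓ := ld_germ hL hℓ.ne_zero (hTL L (RingHom.id L) hL) (by
    obtain ⟨a, ha⟩ := hnp
    refine ⟨a, ?_, ?_⟩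
    · rintro rfl
      exact ha 0 (zero_pow hℓ.ne_zero).symm
    · rintro ⟨b, _, hb⟩
      exact ha b hb)
  obtain ⟨O, hO, hOdef⟩ := D.exists_definable hE hℓ hℓp hTL
  exact exists_definable_of_germ O hO hOdef

/-- Shelah's conjecture for one field. -/
theorem shelah_of_TL {p : ℕ} [hp : Fact p.Prime] {K : Type u} [Field K] [CompatibleRing K]
    (hK : NIP K) [CharP K p]
    (hTL : ∀ (F : Type u) [Field F] [CompatibleRing F] (_ : K →+* F), NIP F →
      ∀ ℓ : ℕ, ℓ.Prime → ℓ ≠ p → TL F ℓ) :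
    Finite K ∨ IsSepClosed K ∨ ∃ O : ValuationSubring K, O ≠ ⊤ ∧ HenselianLocalRing O ∧
      (univ : Set K).Definable₁ Language.ring {x | x ∈ O} := by
  by_cases hKf : Finite K
  · exact Or.inl hKf
  right
  have _ : Infinite K := not_finite_iff_infinite.1 hKf
  rcases NIP.isSepClosed_or hK p with h | ⟨L, fL, aL, q, hfd, _, hq, hqp, ha⟩
  · exact Or.inl h
  right
  let _ : CompatibleRing L := compatibleRingOfRing L
  have hchL : CharP L p := charP_of_injective_algebraMap (algebraMap K L).injective p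
  have hinf : Infinite L := Infinite.of_injective _ (algebraMap K L).injective
  have hL : NIP L := hK.finite (Module.finBasis K L)
  obtain ⟨O', hO'1, hO'2⟩ := exists_definable_of_TL hL hq hqp
    (fun F _ _ φ hF => hTL F (φ.comp (algebraMap K L)) hF q hq hqp) ha
  obtain ⟨O, hO1, hO2⟩ := LC.exists_definable_restrict (K := K) hO'1 hO'2
  exact ⟨O, hO1, hK.henselian_of_definable p hO1 hO2, hO2⟩

/-- The field is large if it satisfies the conclusion of Shelah's conjecture. -/
theorem large_of_shelah {p : ℕ} [hp : Fact p.Prime] {K : Type u} [Field K] [CompatibleRing K]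
    (hK : NIP K) [CharP K p] [Infinite K]
    (h : Finite K ∨ IsSepClosed K ∨ Module.finrank K (AlgebraicClosure K) = 2 ∨
      ∃ O : ValuationSubring K, O ≠ ⊤ ∧ HenselianLocalRing O) : Large K := by
  rcases h with h | h | h | ⟨O, hO, h⟩
  · exact absurd h (not_finite_iff_infinite.2 inferInstance)
  · exact large_of_isSepClosed
  · have := isSepClosed_of_finrank (p := p) (K := K)
      (fun w => hK.artinSchreier (Module.finBasis K K) w) h
    exact large_of_isSepClosed
  · exact large_of_henselian O hO h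

end Pool.Agent.NIPFields.LG
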