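import Mathlib
import Pool.Agent.NIPFields.LG.ChainTop
import Pool.Agent.NIPFields.LG.Final

set_option autoImplicit false

/-!
# Chains of definable rings

If a field `L` of characteristic `p` with `TL L ℓ` has no non-trivial definable valuation ring,
then there are arbitrarily long chains of definable rings in `L`, each of which is far from
generating the next one.
-/

namespace Pool.Agent.NIPFields.LG

open FirstOrder FirstOrder.Language FirstOrder.Ring Set Filter IsLocalRing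
open Pool.Agent.NIPFields.FI

universe u v w

/-- `{d : d / g i ∈ U for all i}`. -/
def BS (K : Type*) {M : Type*} [Field K] [Field M] [Algebra K M] (ℓ : ℕ) (F : Finset K) {n : ℕ}
    (g : Fin n → M) : Set M := {d | ∀ i, d / g i ∈ US K ℓ M F}

/-- The stabiliser of a set. -/
def AA {M : Type*} [Mul M] (B : Set M) : Set M := {z | ∀ d ∈ B, z * d ∈ B}

/-- A level of the chain. -/
structure Good {L : Type*} [Field L] (ℓ : ℕ) (F : Finset L) (N : ℕ) {n : ℕ} (g : Fin n → L) :
    Prop where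
  ne : ∀ i, g i ≠ 0
  sub : ∀ d ∈ BS L ℓ F g, ∀ d' ∈ BS L ℓ F g, d - d' ∈ BS L ℓ F g
  BA : BS L ℓ F g ⊆ AA (BS L ℓ F g)
  res : ∃ r : Fin N → L, (∀ i, r i ∈ AA (BS L ℓ F g)) ∧
    ∀ i j, i ≠ j → r i - r j ∉ BS L ℓ F g

/-- Two consecutive levels of the chain. -/
structure Link {L : Type*} [Field L] (ℓ : ℕ) (F : Finset L) {n : ℕ} (g g' : Fin n → L) (y : L) :
    Prop where
  AA : AA (BS L ℓ F g) ⊆ AA (BS L ℓ F g')
  BB : BS L ℓ F g' ⊆ BS L ℓ F g
  mem : y ∈ LG.AA (BS L ℓ F g')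
  inj : ∀ a ∈ LG.AA (BS L ℓ F g), ∀ b ∈ LG.AA (BS L ℓ F g), a + y * b ∈ BS L ℓ F g' →
    a ∈ BS L ℓ F g' ∧ b ∈ BS L ℓ F g'

section

variable {L : Type u} [Field L]

/-- `X` is the internal set given by the sets `S t`. -/
def Intl (X : Set (Germ (UF L : Filter (Finset L)) L)) (S : Finset L → Set L) : Prop :=
  ∀ f : Finset L → L, (↑f : Germ (UF L : Filter (Finset L)) L) ∈ X ↔
    ∀ᶠ t in (UF L : Filter (Finset L)), f t ∈ S t

theorem Intl.AA {X : Set (Germ (UF L : Filter (Finset L)) L)} {S : Finset L → Set L}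
    (h : Intl X S) : Intl (LG.AA X) (fun t => LG.AA (S t)) := by
  intro f
  constructor
  · intro hf
    refine eventually_forall_of fun g => ?_
    rw [Ultrafilter.eventually_imp]
    intro hg
    have h1 := hf _ ((h g).2 hg)
    rw [← Germ.coe_mul, h] at h1
    exact h1
  · intro hf x hx
    induction x using Germ.inductionOn with | _ g
    rw [h] at hx
    rw [← Germ.coe_mul, h]
    filter_upwards [hf, hx] with t h1 h2
    exact h1 _ h2

attribute [local instance] germAlg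

theorem mem_US_germ {ℓ : ℕ} (F : Finset L) (f : Finset L → L) :
    (↑f : Germ (UF L : Filter (Finset L)) L) ∈
      US L ℓ (Germ (UF L : Filter (Finset L)) L) F ↔
      ∀ᶠ t in (UF L : Filter (Finset L)), f t ∈ US L ℓ L F := by
  unfold US
  simp only [mem_ofPred_eq]
  rw [Filter.eventually_all_finset]
  refine forall₂_congr fun a _ => ?_
  exact mem_Pw_germ (fun t => 1 + a * f t)

theorem intl_BS {ℓ n : ℕ} (F : Finset L) (g : Fin n → Finset L → L) :
    Intl (BS L ℓ F (fun i => (↑(g i) : Germ (UF L : Filter (Finset L)) L)))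
      (fun t => BS L ℓ F (fun i => g i t)) := by
  intro f
  unfold BS
  simp only [mem_ofPred_eq]
  rw [Filter.eventually_all]
  refine forall_congr' fun i => ?_
  rw [← Germ.coe_div, mem_US_germ]
  rfl

end

/-- One step of the chain. -/
theorem exists_level {p : ℕ} [hp : Fact p.Prime] {L : Type u} [Field L]
    [CompatibleRing L] (hL : NIP L) [CharP L p] [Infinite L] {ℓ : ℕ} (hℓ : ℓ.Prime) (hℓp : ℓ ≠ p)
    (hTL : TL L ℓ) (hnp : ∃ a : L, ∀ y, a ≠ y ^ ℓ)
    (hno : ¬ ∃ O : ValuationSubring L, O ≠ ⊤ ∧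
      (univ : Set L).Definable₁ Language.ring {x | x ∈ O}) :
    ∃ (n : ℕ) (F : Finset L), ∀ (N : ℕ) (g : Fin n → L), (∀ i, g i ≠ 0) →
      ∃ (g' : Fin n → L) (y : L), Good ℓ F N g' ∧ Link ℓ F g g' y := by
  classical
  let E := Germ (UF L : Filter (Finset L)) L
  let _ : Algebra L E := germAlg L
  let _ : CompatibleRing E := germCompat (UF L) L
  have hE : NIP E := NIP.germ hL
  have D : LD L E ℓ := ld_germ hL hℓ.ne_zero hTL (by
    obtain ⟨a, ha⟩ := hnp
    refine ⟨a, ?_, ?_⟩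
    · rintro rfl
      exact ha 0 (zero_pow hℓ.ne_zero).symm
    · rintro ⟨b, _, hb⟩
      exact ha b hb)
  obtain ⟨n, hn, hIn⟩ := D.exists_InC hE
  obtain ⟨F, hF⟩ := D.exists_UGood
  refine ⟨n, F, fun N g hg => ?_⟩
  obtain ⟨y, hy, hy'⟩ : ∃ y : E, y ∉ D.E {1} ∧ y⁻¹ ∉ D.E {1} := by
    by_contra hcon
    push Not at hcon
    obtain ⟨O, hO, hOdef⟩ := D.exists_definable_of_val hE hℓ hℓp fun y => by
      by_cases h : y ∈ D.E {1}
      · exact Or.inl h
      · exact Or.inr (hcon y h)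
    exact hno (exists_definable_of_germ O hO hOdef)
  obtain ⟨G, hcard, hGy, h1G, h0G, hloc, hyE, hGu⟩ :=
    D.exists_tower_card hE hℓ hℓp hn hIn hy hy'
  -- enumeration of `G`
  obtain ⟨gk, hgk1, hgk2⟩ : ∃ gk : Fin n → E, (∀ i, gk i ∈ G) ∧ ∀ x ∈ G, ∃ i, gk i = x := by
    let e := G.equivFin
    refine ⟨fun i => if h : (i : ℕ) < G.card then (e.symm ⟨i, h⟩ : E) else 1, fun i => ?_,
      fun x hx => ?_⟩
    · dsimp only
      split_ifs with h
      · exact (e.symm ⟨i, h⟩).2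
      · exact h1G
    · refine ⟨⟨e ⟨x, hx⟩, (e ⟨x, hx⟩).2.trans_le hcard⟩, ?_⟩
      dsimp only
      rw [dif_pos (e ⟨x, hx⟩).2]
      simp
  have hB : ∀ d, d ∈ BS L ℓ F gk ↔ d ∈ D.I G := by
    intro d
    rw [D.mem_I_iff_US hE hℓ hℓp hy h1G h0G hyE hGu hF]
    constructor
    · intro h x hx
      obtain ⟨i, rfl⟩ := hgk2 x hx
      exact h i
    · intro h i
      exact h _ (hgk1 i)
  have hA : ∀ z, z ∈ AA (BS L ℓ F gk) ↔ z ∈ D.E G := by
    intro z
    constructor
    · intro h d hd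
      exact (hB _).1 (h d ((hB _).2 hd))
    · intro h d hd
      exact (hB _).2 (h d ((hB _).1 hd))
  -- the lower level
  let XB : Set E := BS L ℓ F (fun i => algebraMap L E (g i))
  have hXB : Intl XB (fun _ => BS L ℓ F g) := intl_BS F (fun i _ => g i)
  have hXA := hXB.AA
  have hJB : ∀ j ∈ Inf L (Pw E ℓ), j ∈ XB := by
    intro j hj i
    have h2 := smul_mem (g i)⁻¹ hj
    rw [map_inv₀, inv_mul_eq_div] at h2
    exact Inf_subset_US F h2
  have hXO : ∀ z ∈ AA XB, z ∈ D.E {1} := by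
    intro z hz
    rw [D.mem_O]
    intro j hj
    obtain ⟨c, hc, hcz⟩ := hF.exists_scale D {z * j}
    rw [hcz _ (Finset.mem_singleton_self _)]
    let i₀ : Fin n := ⟨0, by omega⟩
    have hg0 : algebraMap L E (g i₀) ≠ 0 := (map_ne_zero _).2 (hg i₀)
    have h2 := smul_mem (g i₀ / c) hj
    have h3 := hz _ (hJB _ h2) i₀
    have h4 : z * (algebraMap L E (g i₀ / c) * j) / algebraMap L E (g i₀) =
        z * j / algebraMap L E c := by
      rw [map_div₀, div_eq_iff hg0]
      ring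
    rwa [h4] at h3
  -- residues
  let rs : Fin N → L := fun i => Infinite.natEmbedding L i
  have hrs : ∀ i j, i ≠ j → algebraMap L E (rs i) - algebraMap L E (rs j) ∉ BS L ℓ F gk := by
    intro i j hij h
    rw [hB, ← map_sub] at h
    have h2 := inf_const (D.I_le_J h1G h)
    exact hij (Fin.ext ((Infinite.natEmbedding L).injective (sub_eq_zero.1 h2)))
  -- representatives
  obtain ⟨gt, hgt⟩ := exists_rep gk
  subst hgt
  induction y using Germ.inductionOn with | _ yt
  have hBI : Intl (BS L ℓ F (fun i => (↑(gt i) : E))) (fun t => BS L ℓ F (fun i => gt i t)) :=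
    intl_BS F gt
  have hAI := hBI.AA
  -- transfer
  have t1 : ∀ᶠ t in (UF L : Filter (Finset L)), ∀ i, gt i t ≠ 0 := by
    rw [Filter.eventually_all]
    intro i
    rw [Ultrafilter.eventually_not]
    intro h
    apply h0G _ (hgk1 i)
    rw [← Germ.coe_zero, Germ.coe_eq]
    exact h
  have t2 : ∀ᶠ t in (UF L : Filter (Finset L)), ∀ d d', d ∈ BS L ℓ F (fun i => gt i t) →
      d' ∈ BS L ℓ F (fun i => gt i t) → d - d' ∈ BS L ℓ F (fun i => gt i t) := by
    refine eventually_forall_of fun d => eventually_forall_of fun d' => ?_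
    rw [Ultrafilter.eventually_imp, Ultrafilter.eventually_imp]
    intro h h'
    have h3 := (hB _).2 ((D.I G).sub_mem ((hB _).1 ((hBI d).2 h)) ((hB _).1 ((hBI d').2 h')))
    rw [← Germ.coe_sub, hBI] at h3
    exact h3
  have t3 : ∀ᶠ t in (UF L : Filter (Finset L)), ∀ d, d ∈ BS L ℓ F (fun i => gt i t) →
      d ∈ AA (BS L ℓ F (fun i => gt i t)) := by
    refine eventually_forall_of fun d => ?_
    rw [Ultrafilter.eventually_imp]
    intro h
    exact (hAI d).1 ((hA _).2 (D.I_le_E h1G ((hB _).1 ((hBI d).2 h))))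
  have t4 : ∀ᶠ t in (UF L : Filter (Finset L)), ∀ i, rs i ∈ AA (BS L ℓ F (fun i => gt i t)) := by
    rw [Filter.eventually_all]
    intro i
    exact (hAI (fun _ => rs i)).1 ((hA _).2 (D.algebraMap_mem G (rs i)))
  have t5 : ∀ᶠ t in (UF L : Filter (Finset L)), ∀ i j, i ≠ j →
      rs i - rs j ∉ BS L ℓ F (fun i => gt i t) := by
    rw [Filter.eventually_all]
    intro i
    rw [Filter.eventually_all]
    intro j
    rw [Ultrafilter.eventually_imp]
    intro hij
    rw [Ultrafilter.eventually_not]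
    intro h
    obtain ⟨t, ht⟩ := hij.exists
    exact hrs i j ht ((hBI (fun _ => rs i - rs j)).2 h)
  have t6 : ∀ᶠ t in (UF L : Filter (Finset L)), ∀ a, a ∈ AA (BS L ℓ F g) →
      a ∈ AA (BS L ℓ F (fun i => gt i t)) := by
    refine eventually_forall_of fun a => ?_
    rw [Ultrafilter.eventually_imp]
    intro h
    exact (hAI a).1 ((hA _).2 (D.O_le_E (hXO _ ((hXA a).2 h))))
  have t7 : ∀ᶠ t in (UF L : Filter (Finset L)), ∀ d, d ∈ BS L ℓ F (fun i => gt i t) →
      d ∈ BS L ℓ F g := by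
    refine eventually_forall_of fun d => ?_
    rw [Ultrafilter.eventually_imp]
    intro h
    exact (hXB d).1 (hJB _ (D.I_le_J h1G ((hB _).1 ((hBI d).2 h))))
  have t8 : ∀ᶠ t in (UF L : Filter (Finset L)), yt t ∈ AA (BS L ℓ F (fun i => gt i t)) :=
    (hAI yt).1 ((hA _).2 hyE)
  have t9 : ∀ᶠ t in (UF L : Filter (Finset L)), ∀ a b, a ∈ AA (BS L ℓ F g) →
      b ∈ AA (BS L ℓ F g) → a + yt t * b ∈ BS L ℓ F (fun i => gt i t) →
      a ∈ BS L ℓ F (fun i => gt i t) ∧ b ∈ BS L ℓ F (fun i => gt i t) := by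
    refine eventually_forall_of fun a => eventually_forall_of fun b => ?_
    rw [Ultrafilter.eventually_imp, Ultrafilter.eventually_imp, Ultrafilter.eventually_imp,
      Filter.eventually_and]
    intro h h' h''
    have h3 : (↑a : E) + ↑yt * ↑b ∈ BS L ℓ F (fun i => (↑(gt i) : E)) := by
      rw [← Germ.coe_mul, ← Germ.coe_add]
      exact (hBI _).2 h''
    have h4 := D.link hE hℓ hℓp hy h1G h0G hGy hyE hGu (hXO _ ((hXA a).2 h))
      (hXO _ ((hXA b).2 h')) ((hB _).1 h3)
    exact ⟨(hBI a).1 ((hB _).2 h4.1), (hBI b).1 ((hB _).2 h4.2)⟩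
  obtain ⟨t, e1, e2, e3, e4, e5, e6, e7, e8, e9⟩ := (t1.and (t2.and (t3.and (t4.and (t5.and
    (t6.and (t7.and (t8.and t9)))))))).exists
  exact ⟨fun i => gt i t, yt t, ⟨e1, fun d hd d' hd' => e2 d d' hd hd', e3, rs, e4, e5⟩,
    ⟨e6, e7, e8, fun a ha b hb => e9 a b ha hb⟩⟩

end Pool.Agent.NIPFields.LG
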