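import Mathlib
import Pool.Agent.NIPFields.LC.Galois0

set_option autoImplicit false

/-!
# Non-powers in finite (Galois) extensions of fields that are not separably closed
-/

namespace Pool.Agent.NIPFields.LG

open Module Polynomial

universe u

/-- Roots of unity. -/
theorem exists_pow_root_of_unity {K E : Type u} [Field K] [Field E] [Algebra K E]
    [FiniteDimensional K E] {q : ℕ}
    (hsurj : ∀ (N : Type u) [Field N] [Algebra K N] [FiniteDimensional K N] [IsGalois K N],
      ∀ a : N, ∃ y, y ^ q = a) {ω : E} {m : ℕ} (hm : 0 < m) (hω : ω ^ m = 1) :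
    ∃ z : E, z ^ q = ω := by
  have h0 : 0 < orderOf ω := orderOf_pos_iff.2 (isOfFinOrder_iff_pow_eq_one.2 ⟨m, hm, hω⟩)
  have : NeZero (orderOf ω) := ⟨h0.ne'⟩
  have hp : IsPrimitiveRoot ω (orderOf ω) := IsPrimitiveRoot.orderOf ω
  have hc := hp.intermediateField_adjoin_isCyclotomicExtension K
  have hgal : IsGalois K (IntermediateField.adjoin K {ω}) :=
    IsCyclotomicExtension.isGalois {orderOf ω} K _
  obtain ⟨y, hy⟩ := hsurj (IntermediateField.adjoin K {ω})
    ⟨ω, IntermediateField.mem_adjoin_simple_self K ω⟩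
  exact ⟨y, congrArg Subtype.val hy⟩

theorem exists_pow_of_galois {K E : Type u} [Field K] [Field E] [Algebra K E]
    [FiniteDimensional K E] [Algebra.IsSeparable K E] {q : ℕ} (hq : q.Prime)
    (hsurj : ∀ (N : Type u) [Field N] [Algebra K N] [FiniteDimensional K N] [IsGalois K N],
      ∀ a : N, ∃ y, y ^ q = a) (a : E) : ∃ y, y ^ q = a := by
  by_cases ha : a = 0
  · exact ⟨0, by rw [ha, zero_pow hq.ne_zero]⟩
  let F := SeparableClosure K
  let τ : E →ₐ[K] F := IsSepClosed.lift
  let N := IntermediateField.normalClosure K E F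
  let τ' : E →ₐ[K] N := τ.codRestrict N.toSubalgebra fun x =>
    τ.fieldRange_le_normalClosure ⟨x, rfl⟩
  have hfd : FiniteDimensional K N := normalClosure.is_finiteDimensional K E F
  let _ : Algebra E N := (τ' : E →+* N).toAlgebra
  have htower : IsScalarTower K E N := IsScalarTower.of_algebraMap_eq fun x =>
    (τ'.commutes x).symm
  have hfdE : FiniteDimensional E N := FiniteDimensional.right K E N
  have hpos : 0 < finrank E N := finrank_pos
  obtain ⟨s, d', hd', hd⟩ := Nat.exists_eq_pow_mul_and_not_dvd hpos.ne' q hq.ne_one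
  have hiter : ∀ n : ℕ, ∀ x : N, ∃ y : N, y ^ (q ^ n) = x := by
    intro n
    induction n with
    | zero => exact fun x => ⟨x, by rw [pow_zero, pow_one]⟩
    | succ n ih =>
      intro x
      obtain ⟨y, hy⟩ := ih x
      obtain ⟨z, hz⟩ := hsurj N y
      exact ⟨z, by rw [pow_succ', pow_mul, hz, hy]⟩
  obtain ⟨y, hy⟩ := hiter (s + 1) (algebraMap E N a)
  set n := Algebra.norm E y with hn
  have h1 : n ^ (q ^ (s + 1)) = a ^ finrank E N := by
    rw [hn, ← map_pow, hy, Algebra.norm_algebraMap]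
  have hn0 : n ≠ 0 := by
    intro h
    rw [h, zero_pow (pow_ne_zero _ hq.ne_zero)] at h1
    exact pow_ne_zero _ ha h1.symm
  have h2 : (a ^ d' / n ^ q) ^ (q ^ s) = 1 := by
    rw [div_pow, ← pow_mul, ← pow_mul, ← pow_succ', h1, hd, mul_comm (q ^ s) d']
    exact div_self (pow_ne_zero _ ha)
  obtain ⟨z, hz⟩ := exists_pow_root_of_unity hsurj (pow_pos hq.pos s) h2
  have h3 : a ^ d' = (z * n) ^ q := by
    rw [mul_pow, hz, div_mul_cancel₀ _ (pow_ne_zero _ hn0)]
  have hcop : Nat.Coprime d' q := ((Nat.Prime.coprime_iff_not_dvd hq).2 hd').symm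
  have hbez : (1 : ℤ) = d' * Nat.gcdA d' q + q * Nat.gcdB d' q := by
    have := Nat.gcd_eq_gcd_ab d' q
    rw [hcop] at this
    exact_mod_cast this
  refine ⟨(z * n) ^ (Nat.gcdA d' q) * a ^ (Nat.gcdB d' q), ?_⟩
  have h4 : ((z * n) ^ (Nat.gcdA d' q) * a ^ (Nat.gcdB d' q)) ^ q =
      ((z * n) ^ q) ^ (Nat.gcdA d' q) * (a ^ q) ^ (Nat.gcdB d' q) := by
    rw [mul_pow]
    simp only [← zpow_natCast, ← zpow_mul]
    rw [mul_comm (q : ℤ), mul_comm (q : ℤ)]
  rw [h4, ← h3]
  simp only [← zpow_natCast, ← zpow_mul]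
  rw [← zpow_add₀ ha, ← hbez, zpow_one]

/-- Characteristic `p`: a Galois extension with a non-power. -/
theorem exists_galois_not_power {p : ℕ} [hp : Fact p.Prime] {K : Type u} [Field K] [CharP K p]
    (hAS : ∀ (E : Type u) [Field E] [Algebra K E] [FiniteDimensional K E]
      [Algebra.IsSeparable K E] (w : E), ∃ v : E, v ^ p - v = w) (hns : ¬ IsSepClosed K) :
    ∃ (N : Type u) (_ : Field N) (_ : Algebra K N) (q : ℕ), FiniteDimensional K N ∧
      IsGalois K N ∧ q.Prime ∧ q ≠ p ∧ ∃ a : N, ∀ y, a ≠ y ^ q := by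
  by_contra hcon
  push Not at hcon
  apply hns
  have hgood : FI.Good p K := by
    intro E _ _ _ _
    refine ⟨hAS E, fun q hq hqp _ a => ?_⟩
    refine exists_pow_of_galois (K := K) hq (fun N _ _ hf hg b => ?_) a
    obtain ⟨y, hy⟩ := hcon N inferInstance inferInstance q hf hg hq hqp b
    exact ⟨y, hy.symm⟩
  exact hgood.isSepClosed

/-- Characteristic zero. -/
theorem exists_galois_not_power0 {K : Type u} [Field K] [CharZero K] (hns : ¬ IsSepClosed K) :
    ∃ (N : Type u) (_ : Field N) (_ : Algebra K N) (q : ℕ), FiniteDimensional K N ∧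
      IsGalois K N ∧ q.Prime ∧ ∃ a : N, ∀ y, a ≠ y ^ q := by
  by_contra hcon
  push Not at hcon
  apply hns
  have hgood : LC.Good0 K := by
    intro E _ _ _ q hq a
    refine exists_pow_of_galois (K := K) hq (fun N _ _ hf hg b => ?_) a
    obtain ⟨y, hy⟩ := hcon N inferInstance inferInstance q hf hg hq b
    exact ⟨y, hy.symm⟩
  have := hgood.isAlgClosed
  infer_instance

end Pool.Agent.NIPFields.LG
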