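import Mathlib
import Pool.Agent.NIPFields.LG.FTNb
import Pool.Agent.NIPFields.LG.FTGal

set_option autoImplicit false

/-!
# Large NIP fields that are not separably closed have a definable field topology
-/

namespace Pool.Agent.NIPFields.LG

open FirstOrder FirstOrder.Language FirstOrder.Ring Set Topology
open Pool.Agent.NIPFields.FI

universe u

theorem Large.infinite {K : Type*} [Field K] (h : Large K) : Infinite K := by
  by_contra hcon
  rw [not_infinite_iff_finite] at hcon
  have h1 := h Polynomial.X ⟨0, 0, by simp, by simp⟩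
  exact h1 (Set.toFinite _)

/-- Not being separably closed is visible in the powers of a finite Galois extension. -/
theorem exists_galois {K : Type u} [Field K] [CompatibleRing K] (hK : NIP K) [Infinite K]
    (hns : ¬ IsSepClosed K) :
    ∃ (N : Type u) (_ : Field N) (_ : Algebra K N) (q : ℕ), FiniteDimensional K N ∧
      IsGalois K N ∧ q.Prime ∧ (q : K) ≠ 0 ∧ ∃ a : N, ∀ y, a ≠ y ^ q := by
  rcases CharP.exists' K with h0 | ⟨p, hp, hch⟩
  · obtain ⟨N, _, _, q, h1, h2, h3, h4⟩ := exists_galois_not_power0 hns
    exact ⟨N, inferInstance, inferInstance, q, h1, h2, h3,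
      Nat.cast_ne_zero.2 h3.ne_zero, h4⟩
  · obtain ⟨N, _, _, q, h1, h2, h3, h4, h5⟩ := exists_galois_not_power (p := p) (K := K)
      (fun E _ _ _ _ w => by
        have : CharP E p := charP_of_injective_algebraMap (algebraMap K E).injective p
        have : Infinite E := Infinite.of_injective _ (algebraMap K E).injective
        exact hK.artinSchreier (Module.finBasis K E) w) hns
    refine ⟨N, inferInstance, inferInstance, q, h1, h2, h3, fun h => ?_, h5⟩
    rw [CharP.cast_eq_zero_iff K p] at h
    exact h4 ((Nat.prime_dvd_prime_iff_eq hp.out h3).1 h).symm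

/-- The field topology. -/
theorem exists_topology_of_large {K : Type u} [Field K] [CompatibleRing K] (hK : NIP K)
    (hl : Large K) (hns : ¬ IsSepClosed K) :
    ∃ B : Set K, (univ : Set K).Definable₁ Language.ring B ∧ ∃ τ : TopologicalSpace K,
      IsTopologicalDivisionRing K ∧ T2Space K ∧ ¬ DiscreteTopology K ∧
      (𝓝 (0 : K)).HasBasis (fun a : K => a ≠ 0) (fun a => sB B a) := by
  have _ : Infinite K := hl.infinite
  obtain ⟨N, _, _, q, hfd, hgal, hq, hqK, a, ha⟩ := exists_galois hK hns
  let _ : CompatibleRing N := compatibleRingOfRing N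
  have hN : NIP N := hK.finite (Module.finBasis K N)
  have hR : TLR K N q := TLR_of_large hl hqK
  obtain ⟨F₀, F, hF⟩ := LG.NIP.exists_goodF hN hR.tl ⟨a, by
    rintro rfl
    exact ha 0 (zero_pow hq.ne_zero).symm, by
    rintro ⟨b, _, hb⟩
    exact ha b hb⟩
  exact ⟨Bs K q F, def_Bs (Module.finBasis K N) q F, (hF.fb hR).exists_topology⟩

end Pool.Agent.NIPFields.LG
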