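import Mathlib

set_option autoImplicit false

/-!
# Henselian local domains of characteristic `p` from Artin-Schreier surjectivity
-/

namespace Pool.Agent.NIPFields.LG

open Polynomial IsLocalRing

theorem henselian_of_as {p : ℕ} [hp : Fact p.Prime] {O : Type*} [CommRing O] [IsDomain O]
    [CharP O p] [IsLocalRing O]
    (hAS : ∀ f : O[X], f.Monic → 0 < f.natDegree →
      ∀ x ∈ (maximalIdeal O).map (algebraMap O (AdjoinRoot f)),
      ∃ u ∈ (maximalIdeal O).map (algebraMap O (AdjoinRoot f)), u ^ p - u = x) :
    HenselianLocalRing O := by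
  refine ⟨fun f hf a₀ hfa hfu => ?_⟩
  have hdeg : 0 < f.natDegree := by
    rw [Nat.pos_iff_ne_zero]
    intro h0
    have h1 : f = 1 := hf.natDegree_eq_zero.1 h0
    rw [h1, eval_one] at hfa
    exact (maximalIdeal.isMaximal O).ne_top ((Ideal.eq_top_iff_one _).2 hfa)
  let B := AdjoinRoot f
  let bas := AdjoinRoot.powerBasis' hf
  have hfree : Module.Free O B := Module.Free.of_basis bas.basis
  have hfinB : Module.Finite O B := Module.Finite.of_basis bas.basis
  have hinj : Function.Injective (algebraMap O B) := by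
    have := AdjoinRoot.of.injective_of_degree_ne_zero (f := f) (by
      rw [degree_eq_natDegree hf.ne_zero]
      exact_mod_cast hdeg.ne')
    exact this
  have hnt : Nontrivial B := hinj.nontrivial
  have hchB : CharP B p := charP_of_injective_algebraMap hinj p
  let x : B := AdjoinRoot.root f
  let I : Ideal B := (maximalIdeal O).map (algebraMap O B)
  have haev : ∀ g : O[X], AdjoinRoot.mk f g = aeval x g := fun g =>
    (AdjoinRoot.aeval_eq g).symm
  have hxf : aeval x f = 0 := by
    rw [← haev]
    exact AdjoinRoot.mk_self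
  have hsurj : ∀ b : B, ∃ g : O[X], aeval x g = b := by
    intro b
    obtain ⟨g, hg⟩ := AdjoinRoot.mk_surjective b
    exact ⟨g, by rw [← haev, hg]⟩
  -- dividing by `X - a₀`
  have hdiv : ∀ g : O[X], ∃ h : O[X], g = C (g.eval a₀) + (X - C a₀) * h := by
    intro g
    refine ⟨g /ₘ (X - C a₀), ?_⟩
    conv_lhs => rw [← modByMonic_add_div g (X - C a₀)]
    rw [modByMonic_X_sub_C_eq_C_eval]
  obtain ⟨g, hg⟩ := hdiv f
  have hga : g.eval a₀ = f.derivative.eval a₀ := by
    conv_rhs => rw [hg]
    simp
  obtain ⟨c, hc⟩ := hfu.exists_right_inv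
  let E : O[X] := C c * g
  have hEa : E.eval a₀ = 1 := by
    simp only [E, eval_mul, eval_C]
    rw [hga, mul_comm, hc]
  let e : B := aeval x E
  have hmI : ∀ {m : O}, m ∈ maximalIdeal O → ∀ b : B, algebraMap O B m * b ∈ I := fun hm b =>
    I.mul_mem_right _ (Ideal.mem_map_of_mem _ hm)
  have hex : e * (x - algebraMap O B a₀) ∈ I := by
    have h1 : aeval x f = algebraMap O B (f.eval a₀) +
        (x - algebraMap O B a₀) * aeval x g := by
      have h0 := congrArg (fun P : O[X] => aeval x P) hg
      simp only [map_add, map_mul, map_sub, aeval_C, aeval_X] at h0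
      exact h0
    rw [hxf] at h1
    have h2 : e * (x - algebraMap O B a₀) =
        algebraMap O B (f.eval a₀) * (- algebraMap O B c) := by
      simp only [e, E, map_mul, aeval_C]
      linear_combination (-algebraMap O B c) * h1
    rw [h2]
    exact hmI hfa _
  obtain ⟨h, hh⟩ := hdiv E
  rw [hEa, C_1] at hh
  have hee : e * (e - 1) ∈ I := by
    have h1 : e - 1 = (x - algebraMap O B a₀) * aeval x h := by
      change aeval x E - 1 = _
      rw [hh]
      simp
    rw [h1, ← mul_assoc]
    exact I.mul_mem_right _ hex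
  have hpow : ∀ n : ℕ, e ^ (n + 1) - e ∈ I := by
    intro n
    obtain ⟨s, hs⟩ := sub_dvd_pow_sub_pow e 1 n
    have h1 : e ^ (n + 1) - e = e * (e - 1) * s := by
      rw [one_pow] at hs
      rw [mul_assoc, ← hs]
      ring
    rw [h1]
    exact I.mul_mem_right _ hee
  have hp1 : p = (p - 1) + 1 := (Nat.sub_add_cancel hp.out.one_lt.le).symm
  obtain ⟨u, huI, hu⟩ := hAS f hf hdeg (e ^ p - e) (by rw [hp1]; exact hpow _)
  set w : B := e - u with hw
  have hwp : w ^ p = w := by
    rw [hw, sub_pow_char]
    linear_combination -hu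
  set ε : B := w ^ (p - 1) with hε
  have hεε : ε * ε = ε := by
    have e1 : p - 1 + (p - 1) = p + (p - 2) := by
      have := hp.out.two_le
      omega
    have e2 : 1 + (p - 2) = p - 1 := by
      have := hp.out.two_le
      omega
    rw [hε, ← pow_add, e1, pow_add, hwp]
    conv_lhs => rw [← pow_one w, ← pow_mul, one_mul, ← pow_add, e2]
  have hεe : ε - e ∈ I := by
    have h1 : ε - e ^ (p - 1) ∈ I := by
      obtain ⟨s, hs⟩ := sub_dvd_pow_sub_pow w e (p - 1)
      rw [hε, hs, hw, sub_sub_cancel_left]
      exact I.mul_mem_right _ (I.neg_mem huI)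
    have h2 : e ^ (p - 1) - e ∈ I := by
      have e3 : p - 1 = (p - 2) + 1 := by
        have := hp.out.two_le
        omega
      rw [e3]
      exact hpow _
    have h3 := I.add_mem h1 h2
    rwa [sub_add_sub_cancel] at h3
  have hεx : ε * (x - algebraMap O B a₀) ∈ I := by
    have h1 := I.add_mem (I.mul_mem_right (x - algebraMap O B a₀) hεe) hex
    rwa [← add_mul, sub_add_cancel] at h1
  -- the point of the special fibre
  let φ : B →+* ResidueField O := AdjoinRoot.lift (residue O) (residue O a₀) (by
    rw [eval₂_at_apply]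
    exact (residue_eq_zero_iff _).2 hfa)
  have hφx : φ x = residue O a₀ := AdjoinRoot.lift_root _
  have hφO : ∀ a : O, φ (algebraMap O B a) = residue O a := fun a => AdjoinRoot.lift_of _
  have hφI : ∀ b ∈ I, φ b = 0 := by
    intro b hb
    have h1 : I ≤ RingHom.ker φ := by
      rw [Ideal.map_le_iff_le_comap]
      intro m hm
      rw [Ideal.mem_comap, RingHom.mem_ker, hφO]
      exact (residue_eq_zero_iff _).2 hm
    exact h1 hb
  have hφe : φ e = 1 := by
    have h1 : ∀ P : O[X], φ (aeval x P) = residue O (P.eval a₀) := by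
      intro P
      rw [← haev]
      change AdjoinRoot.lift _ _ _ (AdjoinRoot.mk f P) = _
      rw [AdjoinRoot.lift_mk, eval₂_at_apply]
    change φ (aeval x E) = 1
    rw [h1, hEa, map_one]
  have hφε : φ ε = 1 := by
    have h1 := hφI _ hεe
    rw [map_sub, hφe, sub_eq_zero] at h1
    exact h1
  have hε0 : ε ≠ 0 := by
    intro h0
    rw [h0, map_zero] at hφε
    exact zero_ne_one hφε
  -- Nakayama
  let T : Submodule O B := LinearMap.range (LinearMap.mulLeft O ε)
  have hT : ∀ b, ε * b ∈ T := fun b => ⟨b, rfl⟩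
  have hTfg : T.FG := by
    have : Module.Finite O T := inferInstance
    exact (Module.Finite.iff_fg).1 this
  have hITT : ∀ b ∈ I, ε * b ∈ (maximalIdeal O) • T := by
    intro b hb
    have h1 : b ∈ (maximalIdeal O) • (⊤ : Submodule O B) := by
      rw [Ideal.smul_top_eq_map]
      exact hb
    have h2 : (LinearMap.mulLeft O ε) b ∈
        ((maximalIdeal O) • (⊤ : Submodule O B)).map (LinearMap.mulLeft O ε) := ⟨b, h1, rfl⟩
    rw [Submodule.map_smul''] at h2
    rwa [Submodule.map_top] at h2
  have hle : T ≤ Submodule.span O {ε} ⊔ (maximalIdeal O) • T := by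
    rintro _ ⟨b, rfl⟩
    obtain ⟨P, rfl⟩ := hsurj b
    obtain ⟨P', hP'⟩ := hdiv P
    have h1 : (LinearMap.mulLeft O ε) (aeval x P) = (P.eval a₀) • ε +
        ε * (ε * (x - algebraMap O B a₀) * aeval x P') := by
      rw [LinearMap.mulLeft_apply]
      conv_lhs => rw [hP']
      simp only [map_add, map_mul, map_sub, aeval_C, aeval_X, Algebra.smul_def]
      linear_combination (-(x - algebraMap O B a₀) * aeval x P') * hεε
    rw [h1]
    exact Submodule.add_mem_sup (Submodule.smul_mem _ _ (Submodule.mem_span_singleton_self _))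
      (hITT _ (I.mul_mem_right _ hεx))
  have hTle : T ≤ Submodule.span O {ε} := by
    refine Submodule.le_of_le_smul_of_le_jacobson_bot hTfg ?_ hle
    rw [jacobson_eq_maximalIdeal _ bot_ne_top]
  obtain ⟨r, hr⟩ := Submodule.mem_span_singleton.1 (hTle (hT x))
  have hrpow : ∀ P : O[X], ε * aeval x P = (P.eval r) • ε := by
    intro P
    induction P using Polynomial.induction_on' with
    | add P Q hP hQ => rw [map_add, mul_add, hP, hQ, eval_add, add_smul]
    | monomial n a =>
      rw [aeval_monomial, eval_monomial]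
      have h1 : ∀ n : ℕ, ε * x ^ n = r ^ n • ε := by
        intro n
        induction n with
        | zero => simp
        | succ n ih =>
          rw [pow_succ, ← mul_assoc, ih, smul_mul_assoc, ← hr, smul_smul, pow_succ]
      rw [mul_left_comm, h1, Algebra.smul_def, Algebra.smul_def, map_mul]
      ring
  refine ⟨r, ?_, ?_⟩
  · have h1 := hrpow f
    rw [hxf, mul_zero] at h1
    exact ((smul_eq_zero.1 h1.symm).resolve_right hε0)
  · have h1 : algebraMap O B (r - a₀) * ε = ε * (x - algebraMap O B a₀) := by
      rw [map_sub, mul_sub, ← hr, Algebra.smul_def]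
      ring
    have h2 := hφI _ hεx
    rw [← h1, map_mul, hφO, hφε, mul_one] at h2
    exact (residue_eq_zero_iff _).1 h2

end Pool.Agent.NIPFields.LG
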