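import Mathlib
import Pool.Agent.NIPFields.LG.ASRel

set_option autoImplicit false

/-!
# The Kaplan-Scanlon-Wagner argument in a commutative algebra

As `as_surj_rel`, but `Q` is any commutative algebra over the infinite field `K`.
-/

namespace Pool.Agent.NIPFields.LG

open Polynomial

section poly

variable {p : ℕ} [hp : Fact p.Prime] {K : Type*} [Field K] [CharP K p] [Infinite K]
  {ι : Type*} [Fintype ι] [DecidableEq ι]

theorem Q_empty (l : ι → K) : Q p l ∅ = X :=
  Polynomial.funext fun u => by rw [eval_Q, q_empty, eval_X]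

theorem Q_insert {l : ι → K} {S : Finset ι} {i : ι} (hi : i ∉ S) (h : Ind p l (insert i S)) :
    Q p l (insert i S) = Q p l S ^ p - C (q p l S (l i) ^ (p - 1)) * Q p l S :=
  Polynomial.funext fun u => by
    rw [eval_Q, q_insert hi h, eval_sub, eval_pow, eval_mul, eval_C, eval_Q]

theorem Q_hh {l : ι → K} {S : Finset ι} {i : ι} (hi : i ∉ S) (h : Ind p l (insert i S)) :
    Q p l (insert i S) =
      (Q p (fun j => hh p (l i) (l j)) S).comp (X ^ p - C (l i ^ (p - 1)) * X) :=
  Polynomial.funext fun u => by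
    rw [eval_Q, q_hh hi h, eval_comp, eval_Q, eval_sub, eval_pow, eval_mul, eval_C, eval_X,
      hh_apply]

theorem sum_Q {l : ι → K} {S : Finset ι} (h : Ind p l S) (hS : S.Nonempty) :
    ∑ i ∈ S, C (l i * (q p l (S.erase i) (l i))⁻¹) * Q p l (S.erase i) = X :=
  Polynomial.funext fun u => by
    rw [eval_finsetSum, eval_X]
    conv_rhs => rw [← sum_q h hS u]
    refine Finset.sum_congr rfl fun i _ => ?_
    rw [eval_mul, eval_C, eval_Q]
    ring

/-- Linearisation. -/
theorem exists_lin_poly {l : ι → K} (S : Finset ι) (h : Ind p l S) (lam : K) :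
    ∃ R : K[X], (Q p l S).comp (C lam * X) = C (q p l S lam) * X + R.comp (X ^ p - X) := by
  classical
  revert h
  refine Finset.induction_on S ?_ ?_
  · intro _
    refine ⟨0, ?_⟩
    rw [Q_empty, q_empty, X_comp, zero_comp, add_zero]
  · intro i S hi ih h
    obtain ⟨R, hR⟩ := ih (h.mono (Finset.subset_insert _ _))
    set μ := q p l S lam with hμ
    set c := q p l S (l i) ^ (p - 1) with hc
    refine ⟨C (μ ^ p) * X + R ^ p - C c * R, ?_⟩
    rw [Q_insert hi h, q_insert hi h, sub_comp, pow_comp, mul_comp, C_comp, hR,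
      add_pow_char]
    simp only [add_comp, sub_comp, mul_comp, pow_comp, C_comp, X_comp, map_sub, map_mul, map_pow]
    rw [hc, map_pow, mul_pow]
    ring

end poly

section alg

variable {p : ℕ} [hp : Fact p.Prime] {K : Type*} [Field K] [CharP K p] [Infinite K]
  {ι : Type*} [Fintype ι] [DecidableEq ι] {R : Type*} [CommRing R] [Algebra K R] [CharP R p]

theorem aQ_add {l : ι → K} (S : Finset ι) (h : Ind p l S) (u v : R) :
    aeval (u + v) (Q p l S) = aeval u (Q p l S) + aeval v (Q p l S) := by
  classical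
  revert h
  refine Finset.induction_on S ?_ ?_
  · intro _
    simp only [Q_empty, aeval_X]
  · intro i S hi ih h
    have hS : Ind p l S := h.mono (Finset.subset_insert _ _)
    simp only [Q_insert hi h, map_sub, map_mul, map_pow, aeval_C, ih hS]
    rw [add_pow_char]
    ring

/-- `Q` as an additive map. -/
noncomputable def aQHom {l : ι → K} {S : Finset ι} (h : Ind p l S) : R →+ R :=
  AddMonoidHom.mk' (fun u => aeval u (Q p l S)) (aQ_add S h)

theorem aQHom_apply {l : ι → K} {S : Finset ι} (h : Ind p l S) (u : R) :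
    aQHom h u = aeval u (Q p l S) := rfl

omit [Infinite K] [CharP R p] in
theorem aeval_lin {l : ι → K} {S : Finset ι} {lam : K} {T : K[X]}
    (hT : (Q p l S).comp (C lam * X) = C (q p l S lam) * X + T.comp (X ^ p - X)) (x : R) :
    aeval (algebraMap K R lam * x) (Q p l S) =
      algebraMap K R (q p l S lam) * x + aeval (x ^ p - x) T := by
  have h1 := congrArg (aeval x) hT
  rw [aeval_comp, map_mul, aeval_C, aeval_X, map_add, map_mul, aeval_C, aeval_X, aeval_comp,
    map_sub, map_pow, aeval_X] at h1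
  exact h1

/-- The generic identity. -/
theorem aeval_common_gen {l : ι → K} (h : Ind p l Finset.univ) (i : ι) (T : ι → K[X])
    (hT : ∀ j, (Q p l (Finset.univ.erase i)).comp (C (l j) * X) =
      C (q p l (Finset.univ.erase i) (l j)) * X + (T j).comp (X ^ p - X)) (x : ι → R) (t : R)
    (hx : ∀ i, algebraMap K R (q p l (Finset.univ.erase i) (l i)) ^ p * (x i ^ p - x i) = t) :
    aeval (∑ j, algebraMap K R (l j) * x j) (Q p l (Finset.univ.erase i)) =
      algebraMap K R (q p l (Finset.univ.erase i) (l i)) * x i +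
        aeval t (∑ j, (T j).comp (C ((q p l (Finset.univ.erase j) (l j) ^ p)⁻¹) * X)) := by
  have hind : Ind p l (Finset.univ.erase i) := h.mono (Finset.erase_subset _ _)
  have hμ : ∀ j, q p l (Finset.univ.erase j) (l j) ≠ 0 := fun j =>
    q_ne_zero (Finset.notMem_erase j _) (by rwa [Finset.insert_erase (Finset.mem_univ j)])
  rw [← aQHom_apply hind, map_sum]
  simp only [aQHom_apply, aeval_lin (hT _)]
  rw [Finset.sum_add_distrib]
  congr 1
  · rw [Finset.sum_eq_single i]
    · intro j _ hj
      have h1 : q p l (Finset.univ.erase i) (l j) = 0 := by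
        have h2 : comb p l (Pi.single j (1 : ZMod p)) = l j := by
          unfold comb
          rw [Finset.sum_eq_single j]
          · rw [Pi.single_eq_same, map_one, one_mul]
          · intro k _ hk
            rw [Pi.single_eq_of_ne hk, map_zero, zero_mul]
          · intro h; exact absurd (Finset.mem_univ j) h
        rw [← h2]
        refine q_comb l _ ?_
        rw [mem_DS]
        intro k hk
        have hki : k = i := by simpa using hk
        rw [hki, Pi.single_eq_of_ne hj.symm]
      rw [h1, map_zero, zero_mul]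
    · intro h; exact absurd (Finset.mem_univ i) h
  · rw [map_sum]
    refine Finset.sum_congr rfl fun j _ => ?_
    rw [aeval_comp, map_mul, aeval_C, aeval_X]
    congr 1
    rw [← hx j, ← mul_assoc, ← map_pow, ← map_mul, inv_mul_cancel₀ (pow_ne_zero _ (hμ j)),
      map_one, one_mul]

omit [Infinite K] in
theorem map_Q {K' : Type*} [Field K'] [CharP K' p] (φ : K →+* K') (l : ι → K) (S : Finset ι) :
    (Q p l S).map φ = Q p (fun i => φ (l i)) S := by
  unfold Q
  rw [Polynomial.map_prod]
  refine Finset.prod_congr rfl fun c _ => ?_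
  rw [Polynomial.map_sub, map_X, map_C, map_comb]

/-- The common solution in a commutative algebra. -/
theorem exists_common_alg {l : ι → K} (h : Ind p l Finset.univ) (x : ι → R) (t : R)
    (hx : ∀ i, algebraMap K R (q p l (Finset.univ.erase i) (l i)) ^ p * (x i ^ p - x i) = t)
    (i : ι) :
    aeval (∑ j, algebraMap K R (l j) * x j) (Q p l (Finset.univ.erase i)) =
      algebraMap K R (q p l (Finset.univ.erase i) (l i)) * x i := by
  have hind : Ind p l (Finset.univ.erase i) := h.mono (Finset.erase_subset _ _)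
  have hμ : ∀ j, q p l (Finset.univ.erase j) (l j) ≠ 0 := fun j =>
    q_ne_zero (Finset.notMem_erase j _) (by rwa [Finset.insert_erase (Finset.mem_univ j)])
  choose T hT using fun j => exists_lin_poly (Finset.univ.erase i) hind (l j)
  have hne : Nonempty ι := ⟨i⟩
  -- the polynomial `T` is zero
  have hT0 : (∑ j, (T j).comp (C ((q p l (Finset.univ.erase j) (l j) ^ p)⁻¹) * X)) = 0 := by
    let Kc := AlgebraicClosure K
    have hchar : CharP Kc p := charP_of_injective_algebraMap (algebraMap K Kc).injective p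
    apply Polynomial.map_injective (algebraMap K Kc) (algebraMap K Kc).injective
    rw [Polynomial.map_zero]
    refine Polynomial.funext fun s => ?_
    rw [eval_zero, eval_map_algebraMap]
    have hroot : ∀ j, ∃ y : Kc, algebraMap K Kc (q p l (Finset.univ.erase j) (l j)) ^ p *
        (y ^ p - y) = s := by
      intro j
      set m := algebraMap K Kc (q p l (Finset.univ.erase j) (l j)) ^ p with hm
      have hm0 : m ≠ 0 := pow_ne_zero _ ((_root_.map_ne_zero _).2 (hμ j))
      have hdeg : (X ^ p - X - C (m⁻¹ * s) : Kc[X]).degree ≠ 0 := by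
        have h1 : (X ^ p - X - C (m⁻¹ * s) : Kc[X]).degree = p := by
          have h2 : (X ^ p - X - C (m⁻¹ * s) : Kc[X]) = X ^ p + (- X - C (m⁻¹ * s)) := by ring
          rw [h2, degree_add_eq_left_of_degree_lt, degree_X_pow]
          rw [degree_X_pow]
          refine lt_of_le_of_lt (degree_sub_le _ _) (max_lt ?_ ?_)
          · rw [degree_neg, degree_X]
            exact_mod_cast hp.out.one_lt
          · refine lt_of_le_of_lt degree_C_le ?_
            exact_mod_cast hp.out.pos
        rw [h1]
        exact_mod_cast hp.out.ne_zero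
      obtain ⟨y, hy⟩ := IsAlgClosed.exists_root _ hdeg
      rw [IsRoot.def, eval_sub, eval_sub, eval_pow, eval_X, eval_C, sub_eq_zero] at hy
      exact ⟨y, by rw [hy, mul_inv_cancel_left₀ hm0]⟩
    choose y hy using hroot
    have h1 := aeval_common_gen h i T hT y s hy
    have h2 := exists_common (K := Kc) (l := fun j => algebraMap K Kc (l j)) (h.map _) y s
      (fun j => by rw [← map_q]; exact hy j) i
    rw [← map_q, ← eval_Q, ← map_Q (algebraMap K Kc) l, eval_map_algebraMap] at h2
    rw [h2] at h1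
    exact (add_eq_left.1 h1.symm)
  rw [aeval_common_gen h i T hT x t hx, hT0, map_zero, add_zero]

omit [CharP R p] in
/-- The additive polynomials with coefficients in `K` preserve `J`. -/
theorem aQ_mem (J : AddSubgroup R) (hsmul : ∀ a : K, ∀ x ∈ J, algebraMap K R a * x ∈ J)
    (hpow : ∀ x ∈ J, x ^ p ∈ J) {l : ι → K} (S : Finset ι) (h : Ind p l S) {u : R}
    (hu : u ∈ J) : aeval u (Q p l S) ∈ J := by
  classical
  revert h
  refine Finset.induction_on S ?_ ?_
  · intro _
    rwa [Q_empty, aeval_X]
  · intro i S hi ih h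
    have hS : Ind p l S := h.mono (Finset.subset_insert _ _)
    rw [Q_insert hi h, map_sub, map_mul, map_pow, aeval_C]
    exact J.sub_mem (hpow _ (ih hS)) (hsmul _ _ (ih hS))

end alg

/-- **The Kaplan-Scanlon-Wagner argument** in a commutative algebra `R` over `K`. -/
theorem as_surj_alg {p : ℕ} [hp : Fact p.Prime] {K : Type*} [Field K] [CharP K p] [Infinite K]
    {R : Type*} [CommRing R] [Algebra K R] [CharP R p] (J : AddSubgroup R)
    (hsmul : ∀ a : K, ∀ x ∈ J, algebraMap K R a * x ∈ J) (hpow : ∀ x ∈ J, x ^ p ∈ J) (N : ℕ)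
    (hN : ∀ a : Fin N → K, (∀ i, a i ≠ 0) → ∃ i, ∀ y ∈ J,
      (∀ j, j ≠ i → ∃ x ∈ J, y = algebraMap K R (a j) * (x ^ p - x)) →
      ∃ x ∈ J, y = algebraMap K R (a i) * (x ^ p - x))
    (w : R) (hw : w ∈ J) : ∃ u ∈ J, u ^ p - u = w := by
  classical
  set φ : K →+* R := algebraMap K R with hφ
  obtain ⟨l, hl⟩ := exists_ind (p := p) (K := K) N
  let μ : Fin N → K := fun i => q p l (Finset.univ.erase i) (l i)
  have hμ : ∀ i, μ i ≠ 0 := fun i =>
    q_ne_zero (Finset.notMem_erase i _) (by rwa [Finset.insert_erase (Finset.mem_univ i)])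
  have hcancel : ∀ {a : K}, a ≠ 0 → ∀ {x y : R}, φ a * x = φ a * y → x = y := by
    intro a ha x y hxy
    have h1 := congrArg (fun z => φ a⁻¹ * z) hxy
    simp only [← mul_assoc, ← map_mul, inv_mul_cancel₀ ha, map_one, one_mul] at h1
    exact h1
  obtain ⟨i, hi⟩ := hN (fun i => μ i ^ p) (fun i => pow_ne_zero _ (hμ i))
  have hne : Nonempty (Fin N) := ⟨i⟩
  have hli : l i ≠ 0 := hl.ne_zero (Finset.mem_univ i)
  let S' : Finset (Fin N) := Finset.univ.erase i
  have hiS : i ∉ S' := Finset.notMem_erase i _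
  have hinsS : insert i S' = Finset.univ := Finset.insert_erase (Finset.mem_univ i)
  let ν : Fin N → K := fun j => hh p (l i) (l j)
  have hν : Ind p ν S' := ind_hh hiS (by rwa [hinsS])
  let W : R := φ (l i) ^ p * w
  have hWJ : W ∈ J := by
    have h1 := hsmul (l i ^ p) w hw
    rwa [map_pow] at h1
  by_cases hS' : S'.Nonempty
  swap
  · -- the trivial case
    rw [Finset.not_nonempty_iff_eq_empty] at hS'
    obtain ⟨x, hxJ, hx⟩ := hi (φ (μ i ^ p) * w) (hsmul _ _ hw) (fun j hj => by
      have : j ∈ S' := Finset.mem_erase.2 ⟨hj, Finset.mem_univ _⟩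
      rw [hS'] at this
      exact absurd this (Finset.notMem_empty _))
    exact ⟨x, hxJ, (hcancel (pow_ne_zero _ (hμ i)) hx).symm⟩
  -- the coordinates
  have hins : ∀ j ∈ S', insert i (S'.erase j) = Finset.univ.erase j := by
    intro j hj
    have hji : j ≠ i := Finset.ne_of_mem_erase hj
    ext k
    simp only [S', Finset.mem_insert, Finset.mem_erase, Finset.mem_univ, and_true]
    constructor
    · rintro (rfl | ⟨h, _⟩)
      exacts [hji.symm, h]
    · intro h
      by_cases hki : k = i
      · exact Or.inl hki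
      · exact Or.inr ⟨h, hki⟩
  have hμν : ∀ j ∈ S', q p ν (S'.erase j) (ν j) = μ j := by
    intro j hj
    have h2 := q_hh (l := l) (S := S'.erase j) (i := i)
      (fun h => hiS (Finset.mem_of_mem_erase h)) (hl.mono (Finset.subset_univ _)) (l j)
    rw [hins j hj] at h2
    exact h2.symm
  -- `Q` in terms of `ν`
  have hQν : ∀ j ∈ S', Q p l (Finset.univ.erase j) =
      (Q p ν (S'.erase j)).comp (X ^ p - C (l i ^ (p - 1)) * X) := by
    intro j hj
    have h2 := Q_hh (l := l) (S := S'.erase j) (i := i)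
      (fun h => hiS (Finset.mem_of_mem_erase h)) (hl.mono (Finset.subset_univ _))
    rwa [hins j hj] at h2
  let xx : Fin N → R := fun j => φ ((μ j)⁻¹) * aeval W (Q p ν (S'.erase j))
  let t : R := aeval W (Q p ν S')
  have htJ : t ∈ J := aQ_mem J hsmul hpow S' hν hWJ
  have hxxJ : ∀ j, xx j ∈ J := fun j =>
    hsmul _ _ (aQ_mem J hsmul hpow (S'.erase j) (hν.mono (Finset.erase_subset _ _)) hWJ)
  have hxxμ : ∀ j, φ (μ j) * xx j = aeval W (Q p ν (S'.erase j)) := by
    intro j
    simp only [xx]
    rw [← mul_assoc, ← map_mul, mul_inv_cancel₀ (hμ j), map_one, one_mul]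
  have hxx : ∀ j ∈ S', t = φ (μ j) ^ p * (xx j ^ p - xx j) := by
    intro j hj
    have h1 := Q_insert (l := ν) (S := S'.erase j) (i := j) (Finset.notMem_erase _ _)
      (by rwa [Finset.insert_erase hj])
    rw [Finset.insert_erase hj, hμν j hj] at h1
    have h2 : φ (μ j) ^ p = φ (μ j) ^ (p - 1) * φ (μ j) := by
      rw [← pow_succ, Nat.sub_add_cancel hp.out.one_lt.le]
    change aeval W (Q p ν S') = _
    rw [h1, map_sub, map_mul, map_pow, aeval_C, ← hxxμ j, mul_pow, h2, map_pow]
    ring
  obtain ⟨x₀, hx₀J, hx₀⟩ := hi t htJ (fun j hj => ⟨xx j, hxxJ j, by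
    rw [map_pow]
    exact hxx j (Finset.mem_erase.2 ⟨hj, Finset.mem_univ _⟩)⟩)
  rw [map_pow] at hx₀
  let x : Fin N → R := Function.update xx i x₀
  have hxJ : ∀ j, x j ∈ J := by
    intro j
    by_cases hj : j = i
    · subst hj
      simp only [x, Function.update_self]
      exact hx₀J
    · simp only [x, Function.update_of_ne hj]
      exact hxxJ j
  have hx : ∀ j, φ (q p l (Finset.univ.erase j) (l j)) ^ p * (x j ^ p - x j) = t := by
    intro j
    change φ (μ j) ^ p * _ = t
    by_cases hj : j = i
    · subst hj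
      simp only [x, Function.update_self]
      exact hx₀.symm
    · simp only [x, Function.update_of_ne hj]
      exact (hxx j (Finset.mem_erase.2 ⟨hj, Finset.mem_univ _⟩)).symm
  have h1 := exists_common_alg hl x t hx
  set u : R := ∑ j, φ (l j) * x j with hu
  have huJ : u ∈ J := J.sum_mem fun j _ => hsmul (l j) (x j) (hxJ j)
  set H : R := u ^ p - φ (l i) ^ (p - 1) * u with hH
  have h2 : ∀ j ∈ S', aeval H (Q p ν (S'.erase j)) = aeval W (Q p ν (S'.erase j)) := by
    intro j hj
    have hji : j ≠ i := Finset.ne_of_mem_erase hj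
    have h4 := h1 j
    rw [hQν j hj, aeval_comp, map_sub, map_pow, map_mul, aeval_X, aeval_C, map_pow] at h4
    rw [hH]
    refine h4.trans ?_
    simp only [x, Function.update_of_ne hji]
    exact hxxμ j
  have h3 : H = W := by
    have h4 := congrArg (aeval H) (sum_Q hν hS')
    have h5 := congrArg (aeval W) (sum_Q hν hS')
    rw [map_sum, aeval_X] at h4 h5
    rw [← h4, ← h5]
    refine Finset.sum_congr rfl fun j hj => ?_
    rw [map_mul (aeval H), map_mul (aeval W), aeval_C, aeval_C, h2 j hj]
  refine ⟨φ ((l i)⁻¹) * u, hsmul _ _ huJ, ?_⟩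
  apply hcancel (pow_ne_zero p hli)
  have h4 : φ (l i) * φ ((l i)⁻¹) = 1 := by
    rw [← map_mul, mul_inv_cancel₀ hli, map_one]
  have h5 : φ (l i) ^ p = φ (l i) ^ (p - 1) * φ (l i) := by
    rw [← pow_succ, Nat.sub_add_cancel hp.out.one_lt.le]
  have h6 : φ (l i ^ p) * ((φ ((l i)⁻¹) * u) ^ p - φ ((l i)⁻¹) * u) = H := by
    rw [map_pow, mul_sub, ← mul_pow, ← mul_assoc, h4, one_mul, h5, hH]
    congr 1
    linear_combination (φ (l i) ^ (p - 1) * u) * h4
  rw [h6, h3, map_pow]

end Pool.Agent.NIPFields.LG
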