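import Mathlib
import Pool.Agent.NIPFields.LG.FTCA
import Pool.Agent.NIPFields.LG.FTAS

set_option autoImplicit false

/-!
# Artin-Schreier surjectivity for the groups `∑ M b_m` in a finite commutative algebra
-/

namespace Pool.Agent.NIPFields.LG.CA

open FirstOrder FirstOrder.Language FirstOrder.Ring Set
open Pool.Agent.NIPFields.FI
open scoped Polynomial

universe u v w

/-- The elements with `ν ^ p = ν` in a finite-dimensional commutative algebra. -/
theorem finite_frob {p : ℕ} [hp : Fact p.Prime] {k Q : Type*} [Field k] [CommRing Q]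
    [Algebra k Q] [FiniteDimensional k Q] [CharP Q p] : {ν : Q | ν ^ p = ν}.Finite := by
  classical
  have hart : IsArtinianRing Q := IsArtinianRing.of_finite k Q
  have hfin : Finite (MaximalSpectrum Q) := inferInstance
  let T : ∀ m : MaximalSpectrum Q, Set (Q ⧸ m.asIdeal) := fun m => {z | z ^ p = z}
  have hT : ∀ m, (T m).Finite := by
    intro m
    have := m.isMaximal
    let _ : Field (Q ⧸ m.asIdeal) := Ideal.Quotient.field m.asIdeal
    have h1 : (Polynomial.X ^ p - Polynomial.X : (Q ⧸ m.asIdeal)[X]) ≠ 0 := by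
      have h2 : (Polynomial.X ^ p - Polynomial.X : (Q ⧸ m.asIdeal)[X]).coeff p = 1 := by
        rw [Polynomial.coeff_sub, Polynomial.coeff_X_pow_self, Polynomial.coeff_X,
          if_neg hp.out.one_lt.ne, sub_zero]
      intro h0
      rw [h0, Polynomial.coeff_zero] at h2
      exact zero_ne_one h2
    refine (Polynomial.X ^ p - Polynomial.X : (Q ⧸ m.asIdeal)[X]).roots.toFinset.finite_toSet.subset
      fun z hz => ?_
    rw [Finset.mem_coe, Multiset.mem_toFinset, Polynomial.mem_roots h1, Polynomial.IsRoot.def,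
      Polynomial.eval_sub, Polynomial.eval_pow, Polynomial.eval_X, sub_eq_zero]
    exact hz
  have hpi : (Set.univ.pi T).Finite := Set.Finite.pi fun m => hT m
  refine Set.Finite.of_injOn (f := fun (ν : Q) (m : MaximalSpectrum Q) => Ideal.Quotient.mk m.asIdeal ν) (t := Set.univ.pi T)
    ?_ ?_ hpi
  · intro ν hν m _
    change _ ^ p = _
    rw [← map_pow]
    exact congrArg _ hν
  · intro ν hν ν' hν' h
    have h1 : (ν - ν') ^ p = ν - ν' := by
      rw [sub_pow_char]
      rw [show ν ^ p = ν from hν, show ν' ^ p = ν' from hν']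
    have h2 : ∀ m : MaximalSpectrum Q, ν - ν' ∈ m.asIdeal := fun m => by
      rw [← Ideal.Quotient.eq_zero_iff_mem, map_sub, sub_eq_zero]
      exact congrFun h m
    have h3 : IsUnit (1 - (ν - ν') ^ (p - 1)) := by
      by_contra hnu
      obtain ⟨M, hM, hxM⟩ := exists_max_ideal_of_mem_nonunits hnu
      have h4 : (ν - ν') ^ (p - 1) ∈ M := by
        have h5 : ν - ν' ∈ M := h2 ⟨M, hM⟩
        have e : p - 1 = (p - 2) + 1 := by
          have := hp.out.two_le
          omega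
        rw [e, pow_succ]
        exact M.mul_mem_left _ h5
      exact hM.ne_top ((Ideal.eq_top_iff_one _).2 (by
        have := M.add_mem hxM h4
        rwa [sub_add_cancel] at this))
    have h4 : (ν - ν') * (1 - (ν - ν') ^ (p - 1)) = 0 := by
      have e : (ν - ν') * (ν - ν') ^ (p - 1) = (ν - ν') ^ p := by
        rw [← pow_succ', Nat.sub_add_cancel hp.out.one_lt.le]
      rw [mul_sub, mul_one, e, h1, sub_self]
    exact sub_eq_zero.1 ((h3.mul_left_eq_zero).1 h4)

section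

variable {K : Type v} {k : Type u} [Field K] [Field k] [Algebra K k] {ℓ : ℕ}

/-- The relation used in the Baldwin-Saxl argument. -/
def RelS {Q : Type w} [CommRing Q] [Algebra k Q] {d : ℕ} (b : Module.Basis (Fin d) k Q) (p : ℕ)
    (U : Set k) (G : Finset k) (m₀ : Fin d) : Set ((Fin 1 ⊕ Fin 2) ⊕ Fin 2 → Q) :=
  {v | v (Sum.inl (Sum.inl 0)) * (v (Sum.inr 0) ^ p - v (Sum.inr 0)) =
      v (Sum.inl (Sum.inr 0)) ∧ v (Sum.inr 1) * (1 - v (Sum.inr 0) ^ (p - 1)) = 1 ∧
    ∀ m : Fin d, ∀ g ∈ G, b.repr (v (Sum.inr 1)) m * b.repr (v (Sum.inl (Sum.inr 1))) m₀ * g⁻¹ ∈ U}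

theorem ldef_RelS [CompatibleRing k] {Q : Type w} [CommRing Q] [Algebra k Q] {d : ℕ}
    (b : Module.Basis (Fin d) k Q) (p : ℕ) {U : Set k}
    (hU : (univ : Set k).Definable₁ Language.ring U) (G : Finset k) (m₀ : Fin d) :
    LDef b (RelS b p U G m₀) := by
  have e1 : LDef b {v : (Fin 1 ⊕ Fin 2) ⊕ Fin 2 → Q |
      v (Sum.inl (Sum.inl 0)) * (v (Sum.inr 0) ^ p - v (Sum.inr 0)) =
      v (Sum.inl (Sum.inr 0))} :=
    LFun.eq (LFun.mul (LFun.var _) (LFun.sub (LFun.pow (LFun.var _) p) (LFun.var _)))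
      (LFun.var _)
  have e2 : LDef b {v : (Fin 1 ⊕ Fin 2) ⊕ Fin 2 → Q |
      v (Sum.inr 1) * (1 - v (Sum.inr 0) ^ (p - 1)) = 1} :=
    LFun.eq (LFun.mul (LFun.var _) (LFun.sub (LFun.const 1) (LFun.pow (LFun.var _) (p - 1))))
      (LFun.const 1)
  have e3 : LDef b (⋂ q : Fin d × G, {v : (Fin 1 ⊕ Fin 2) ⊕ Fin 2 → Q |
      b.repr (v (Sum.inr 1)) q.1 * b.repr (v (Sum.inl (Sum.inr 1))) m₀ * (q.2 : k)⁻¹ ∈ U}) := by
    refine LDef.iInter (fun q => ?_)
    exact def_mem hU (dfun_mul (dfun_mul (LFun.var (e := b) (Sum.inr 1) q.1)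
      (LFun.var (e := b) (Sum.inl (Sum.inr 1)) m₀)) (dfun_const (mem_univ _)))
  have h := (e1.inter e2).inter e3
  have h2 : RelS b p U G m₀ = {v : (Fin 1 ⊕ Fin 2) ⊕ Fin 2 → Q |
      v (Sum.inl (Sum.inl 0)) * (v (Sum.inr 0) ^ p - v (Sum.inr 0)) =
      v (Sum.inl (Sum.inr 0))} ∩ {v : (Fin 1 ⊕ Fin 2) ⊕ Fin 2 → Q |
      v (Sum.inr 1) * (1 - v (Sum.inr 0) ^ (p - 1)) = 1} ∩
      (⋂ q : Fin d × G, {v : (Fin 1 ⊕ Fin 2) ⊕ Fin 2 → Q |
      b.repr (v (Sum.inr 1)) q.1 * b.repr (v (Sum.inl (Sum.inr 1))) m₀ * (q.2 : k)⁻¹ ∈ U}) := by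
    ext v
    simp only [RelS, mem_ofPred_eq, mem_inter_iff, mem_iInter, Prod.forall, Subtype.forall,
      and_assoc]
  rw [h2]
  exact h

end

theorem as_surj {p : ℕ} [hp : Fact p.Prime] {K : Type v} {k : Type u} [Field K] [CharP K p]
    [Infinite K] [Field k] [Algebra K k] [CompatibleRing k] (hk : NIP k) {ℓ : ℕ} (D : LD K k ℓ)
    {G : Finset k} (h1 : (1 : k) ∈ G) (h0 : ∀ g ∈ G, g ≠ 0) {Q : Type w} [CommRing Q] [Nontrivial Q]
    [Algebra k Q] {d : ℕ} (b : Module.Basis (Fin d) k Q) (M : Ideal (D.E G))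
    (B : Subring Q) (hB : ∀ x, x ∈ B ↔ ∀ m, b.repr x m ∈ D.E G)
    (J : AddSubgroup Q)
    (hJ : ∀ x, x ∈ J ↔ ∀ m, ∃ h : b.repr x m ∈ D.E G, (⟨_, h⟩ : D.E G) ∈ M)
    (hJB : ∀ x ∈ J, ∀ y ∈ B, y * x ∈ J) (hunit : ∀ x ∈ J, ∃ v ∈ B, v * (1 + x) = 1)
    (x : Q) (hx : x ∈ J) : ∃ u ∈ J, u ^ p - u = x := by
  classical
  -- `Q` as a `K`-algebra
  let _ : Algebra K Q := ((algebraMap k Q).comp (algebraMap K k)).toAlgebra
  have halg : ∀ a : K, algebraMap K Q a = algebraMap k Q (algebraMap K k a) := fun _ => rfl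
  have hchar : CharP Q p := charP_of_injective_algebraMap (algebraMap K Q).injective p
  have hp2 : p = (p - 2) + 2 := (Nat.sub_add_cancel hp.out.two_le).symm
  have hJsubB : ∀ x ∈ J, x ∈ B := fun x hx => (hB x).2 fun m => ((hJ x).1 hx m).choose
  have halgB : ∀ a : K, algebraMap K Q a ∈ B := by
    intro a
    rw [hB]
    intro m
    rw [halg, Algebra.algebraMap_eq_smul_one, map_smul, Finsupp.smul_apply, smul_eq_mul]
    exact (D.E G).mul_mem (D.algebraMap_mem G a) ((hB 1).1 B.one_mem m)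
  have hsmul : ∀ a : K, ∀ x ∈ J, algebraMap K Q a * x ∈ J := fun a x hx => hJB x hx _ (halgB a)
  have hpow1 : ∀ x ∈ J, x ^ (p - 1) ∈ J := by
    intro x hx
    have e : p - 1 = (p - 2) + 1 := by omega
    rw [e, pow_succ]
    exact hJB x hx _ (B.pow_mem (hJsubB x hx) _)
  have hpow : ∀ x ∈ J, x ^ p ∈ J := by
    intro x hx
    rw [hp2, pow_succ]
    exact hJB x hx _ (B.pow_mem (hJsubB x hx) _)
  -- a coordinate
  have hd : Nonempty (Fin d) := by
    by_contra hcon
    rw [not_nonempty_iff] at hcon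
    have h2 : (1 : Q) = 0 := by
      rw [← b.sum_repr 1]
      exact Finset.sum_of_isEmpty _
    exact one_ne_zero h2
  obtain ⟨m₀⟩ := hd
  obtain ⟨F, hF⟩ := D.exists_UGood
  have hR : LDef b {v : Fin 1 ⊕ Fin 2 → Q | ∃ u : Fin 2 → Q,
      Sum.elim v u ∈ RelS b p (US K ℓ k F) G m₀} := (ldef_RelS b p (def_US ℓ F) G m₀).exists
  obtain ⟨N, hN⟩ := nip_ldef hk hR
  refine as_surj_alg J hsmul hpow N (fun a ha => ?_) x hx
  by_contra hcon
  push Not at hcon
  choose y hyJ hy1 hy2 using hcon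
  -- the groups
  let ℘ : Q →+ Q := AddMonoidHom.mk' (fun u => u ^ p - u) (fun u v => by
    rw [add_pow_char]; ring)
  let H : Fin N → AddSubgroup Q := fun i =>
    J.map ((AddMonoidHom.mulLeft (algebraMap K Q (a i))).comp ℘)
  have hH : ∀ i z, z ∈ H i ↔ ∃ x ∈ J, z = algebraMap K Q (a i) * (x ^ p - x) := by
    intro i z
    simp only [H, ℘, AddSubgroup.mem_map, AddMonoidHom.comp_apply, AddMonoidHom.coe_mulLeft,
      AddMonoidHom.mk'_apply]
    exact ⟨fun ⟨x, hx, h⟩ => ⟨x, hx, h.symm⟩, fun ⟨x, hx, h⟩ => ⟨x, hx, h.symm⟩⟩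
  let yS : Finset (Fin N) → Q := fun S => ∑ i ∈ Sᶜ, y i
  have hySJ : ∀ S, yS S ∈ J := fun S => AddSubgroup.sum_mem _ fun i _ => hyJ i
  have hyS : ∀ i S, yS S ∈ H i ↔ i ∈ S := by
    intro i S
    constructor
    · intro h
      by_contra hi
      have hi' : i ∈ Sᶜ := Finset.mem_compl.2 hi
      have h' : ∑ j ∈ Sᶜ, y j ∈ H i := h
      rw [← Finset.add_sum_erase _ _ hi'] at h'
      have h1 : ∑ j ∈ Sᶜ.erase i, y j ∈ H i := by
        refine AddSubgroup.sum_mem _ (fun j hj => (hH i _).2 (hy1 j i ?_))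
        exact (Finset.ne_of_mem_erase hj).symm
      obtain ⟨x, hxJ, hx⟩ := (hH i _).1 ((AddSubgroup.add_mem_cancel_right _ h1).1 h')
      exact hy2 i x hxJ hx
    · intro hi
      refine AddSubgroup.sum_mem _ (fun j hj => (hH i _).2 (hy1 j i ?_))
      rintro rfl
      exact (Finset.mem_compl.1 hj) hi
  -- the solutions
  have hcancel : ∀ i, ∀ {x y : Q}, algebraMap K Q (a i) * x = algebraMap K Q (a i) * y → x = y := by
    intro i x y hxy
    have h1 := congrArg (fun z => algebraMap K Q (a i)⁻¹ * z) hxy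
    simp only [← mul_assoc, ← map_mul, inv_mul_cancel₀ (ha i), map_one, one_mul] at h1
    exact h1
  have hfd : FiniteDimensional k Q := Module.Finite.of_basis b
  have hfin : ∀ i S, {x : Q | algebraMap K Q (a i) * (x ^ p - x) = yS S}.Finite := by
    intro i S
    by_cases hne : {x : Q | algebraMap K Q (a i) * (x ^ p - x) = yS S}.Nonempty
    · obtain ⟨x₀, hx₀⟩ := hne
      refine ((finite_frob (p := p) (k := k) (Q := Q)).image (fun ν => x₀ + ν)).subset
        fun z hz => ⟨z - x₀, ?_, add_sub_cancel _ _⟩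
      have h1 := hcancel i ((show _ = yS S from hz).trans (show _ = yS S from hx₀).symm)
      change (z - x₀) ^ p = z - x₀
      rw [sub_pow_char]
      linear_combination h1
    · rw [not_nonempty_iff_eq_empty] at hne
      rw [hne]
      exact Set.finite_empty
  let W : Finset k := Finset.univ.biUnion fun q : Fin N × Finset (Fin N) × Fin d =>
    (hfin q.1 q.2.1).toFinset.image fun x => b.repr (Ring.inverse (1 - x ^ (p - 1))) q.2.2
  have hW : ∀ i S x v, algebraMap K Q (a i) * (x ^ p - x) = yS S → v * (1 - x ^ (p - 1)) = 1 →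
      ∀ m, b.repr v m ∈ W := by
    intro i S x v h h' m
    have hu : IsUnit (1 - x ^ (p - 1)) := IsUnit.of_mul_eq_one_right _ h'
    have hv : v = Ring.inverse (1 - x ^ (p - 1)) := by
      have e1 : v * (1 - x ^ (p - 1)) * Ring.inverse (1 - x ^ (p - 1)) = v := by
        rw [mul_assoc, Ring.mul_inverse_cancel _ hu, mul_one]
      rw [h', one_mul] at e1
      exact e1.symm
    rw [hv]
    refine Finset.mem_biUnion.2 ⟨(i, S, m), Finset.mem_univ _, ?_⟩
    exact Finset.mem_image.2 ⟨x, (hfin i S).mem_toFinset.2 h, rfl⟩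
  obtain ⟨j, hj, hjW⟩ := D.exists_witness G W
  obtain ⟨c, hc, hcZ⟩ := UGood.exists_scale D hF ((W ×ˢ G).image fun q => q.1 * j / q.2)
  have key : ∀ w ∈ W, w ∈ D.E G ↔ ∀ g ∈ G, w * (j / algebraMap K k c) * g⁻¹ ∈ US K ℓ k F := by
    intro w hw
    rw [hjW w hw, D.mem_I]
    refine forall₂_congr fun g hg => ?_
    rw [hcZ _ (Finset.mem_image.2 ⟨(w, g), Finset.mem_product.2 ⟨hw, hg⟩, rfl⟩)]
    have e : w * j / g / algebraMap K k c = w * (j / algebraMap K k c) * g⁻¹ := by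
      rw [div_eq_mul_inv, div_eq_mul_inv, div_eq_mul_inv]
      ring
    rw [e]
  obtain ⟨i, S, hiS⟩ := hN (fun i _ => algebraMap K Q (a i))
    (fun S => ![yS S, (j / algebraMap K k c) • b m₀])
  apply hiS
  have hrep : b.repr ((j / algebraMap K k c) • b m₀) m₀ = j / algebraMap K k c := by
    rw [map_smul, Finsupp.smul_apply, b.repr_self, Finsupp.single_eq_same, smul_eq_mul, mul_one]
  rw [mem_ofPred_eq, ← hyS i S, hH]
  constructor
  · rintro ⟨u, hu1, hu2, hu3⟩
    simp only [Sum.elim_inl, Sum.elim_inr, Matrix.cons_val_zero, Matrix.cons_val_one] at hu1 hu2 hu3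
    have hvB : u 1 ∈ B := by
      rw [hB]
      intro m
      rw [key _ (hW i S _ _ hu1 hu2 m)]
      intro g hg
      have := hu3 m g hg
      rwa [hrep] at this
    have hz : (u 0) ^ p - u 0 ∈ J := by
      have h2 := hsmul (a i)⁻¹ _ (hySJ S)
      rw [← hu1, ← mul_assoc, ← map_mul, inv_mul_cancel₀ (ha i), map_one, one_mul] at h2
      exact h2
    have hx0 : u 0 ∈ J := by
      have h2 := hJB _ hz _ hvB
      have e : p = (p - 1) + 1 := by omega
      have h3 : u 1 * (u 0 ^ p - u 0) = - u 0 := by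
        have h4 : u 0 ^ p = u 0 ^ (p - 1) * u 0 := by rw [← pow_succ, ← e]
        rw [h4]
        linear_combination (- u 0) * hu2
      rw [h3] at h2
      exact neg_mem_iff.1 h2
    exact ⟨u 0, hx0, hu1.symm⟩
  · rintro ⟨x, hxJ, hx⟩
    obtain ⟨v, hvB, hv⟩ := hunit _ (J.neg_mem (hpow1 x hxJ))
    rw [← sub_eq_add_neg] at hv
    refine ⟨![x, v], ?_, ?_, ?_⟩
    · simp only [Sum.elim_inl, Sum.elim_inr, Matrix.cons_val_zero]
      exact hx.symm
    · simp only [Sum.elim_inr, Matrix.cons_val_zero, Matrix.cons_val_one]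
      exact hv
    · intro m g hg
      change b.repr v m * b.repr ((j / algebraMap K k c) • b m₀) m₀ * g⁻¹ ∈ US K ℓ k F
      rw [hrep]
      exact (key _ (hW i S x v hx.symm hv m)).1 ((hB v).1 hvB m) g hg

end Pool.Agent.NIPFields.LG.CA
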