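import Mathlib
import Pool.Agent.NIPFields.LG.Local
import Pool.Agent.NIPFields.LG.FTHens
import Pool.Agent.NIPFields.LG.FTSurj

set_option autoImplicit false

/-!
# The rings `E G` are henselian
-/

namespace Pool.Agent.NIPFields.LG

open FirstOrder FirstOrder.Language FirstOrder.Ring Set IsLocalRing
open Pool.Agent.NIPFields.FI
open scoped Polynomial TensorProduct

universe u v w

theorem mem_map_iff_repr {O A ι : Type*} [CommRing O] [CommRing A] [Algebra O A] [Fintype ι]
    (b : Module.Basis ι O A) (M : Ideal O) (x : A) :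
    x ∈ M.map (algebraMap O A) ↔ ∀ i, b.repr x i ∈ M := by
  constructor
  · intro hx i
    have h : x ∈ M • (⊤ : Submodule O A) := by
      rw [Ideal.smul_top_eq_map]
      exact hx
    refine Submodule.smul_induction_on (p := fun x => b.repr x i ∈ M) h ?_ ?_
    · intro r hr m _
      rw [map_smul, Finsupp.smul_apply, smul_eq_mul]
      exact M.mul_mem_right _ hr
    · intro y z hy hz
      rw [map_add, Finsupp.add_apply]
      exact M.add_mem hy hz
  · intro h
    rw [← b.sum_repr x]
    refine Ideal.sum_mem _ fun i _ => ?_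
    rw [Algebra.smul_def]
    exact Ideal.mul_mem_right _ _ (Ideal.mem_map_of_mem _ (h i))

theorem isUnit_one_add_of_mem {O A : Type*} [CommRing O] [IsLocalRing O] [CommRing A]
    [Algebra O A] [Module.Finite O A] {x : A}
    (hx : x ∈ (maximalIdeal O).map (algebraMap O A)) : IsUnit (1 + x) := by
  by_contra hnu
  obtain ⟨M, hM, hxM⟩ := exists_max_ideal_of_mem_nonunits hnu
  have h1 : (M.comap (algebraMap O A)).IsMaximal :=
    Ideal.isMaximal_comap_of_isIntegral_of_isMaximal M
  have h2 : (maximalIdeal O).map (algebraMap O A) ≤ M := by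
    rw [Ideal.map_le_iff_le_comap, ← eq_maximalIdeal h1]
  exact hM.ne_top ((Ideal.eq_top_iff_one _).2 (by
    have := M.sub_mem hxM (h2 hx)
    rwa [add_sub_cancel_right] at this))

theorem LD.henselian {p : ℕ} [hp : Fact p.Prime] {K : Type v} {k : Type u} [Field K] [CharP K p]
    [Infinite K] [Field k] [Algebra K k] [CompatibleRing k] (hk : NIP k) {ℓ : ℕ} (D : LD K k ℓ)
    {G : Finset k} (h1 : (1 : k) ∈ G) (h0 : ∀ g ∈ G, g ≠ 0) : HenselianLocalRing (D.E G) := by
  classical
  have hloc : IsLocalRing (D.E G) := D.isLocalRing hk h1 h0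
  have hchk : CharP k p := charP_of_injective_algebraMap (algebraMap K k).injective p
  have hchE : CharP (D.E G) p := RingHom.charP (D.E G).subtype Subtype.val_injective p
  refine henselian_of_as (p := p) fun f hf hdeg x hx => ?_
  let A := AdjoinRoot f
  let bo := (AdjoinRoot.powerBasis' hf).basis
  have hfin : Module.Finite (D.E G) A := Module.Finite.of_basis bo
  let Q := k ⊗[D.E G] A
  let b := Algebra.TensorProduct.basis k bo
  let ι : A →+* Q := (Algebra.TensorProduct.includeRight : A →ₐ[D.E G] Q).toRingHom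
  have hrep : ∀ a m, b.repr (ι a) m = (bo.repr a m : k) := by
    intro a m
    have h2 : ι a = (1 : k) ⊗ₜ[D.E G] a := rfl
    rw [h2, Algebra.TensorProduct.basis_repr_tmul, one_smul, Finsupp.mapRange_apply]
    rfl
  have hιinj : Function.Injective ι := by
    intro a a' haa'
    apply bo.repr.injective
    ext m
    rw [← hrep, ← hrep, haa']
  have hntA : Nontrivial A := by
    have h2 : Function.Injective (algebraMap (D.E G) A) :=
      AdjoinRoot.of.injective_of_degree_ne_zero (f := f) (by
        rw [Polynomial.degree_eq_natDegree hf.ne_zero]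
        exact_mod_cast hdeg.ne')
    exact h2.nontrivial
  have hnt : Nontrivial Q := hιinj.nontrivial
  have hlift : ∀ (z : Q) (c : _ → D.E G), (∀ m, b.repr z m = (c m : k)) →
      z = ι (∑ m, c m • bo m) := by
    intro z c hc
    apply b.repr.injective
    ext m
    rw [hc, hrep]
    congr 1
    rw [bo.repr_sum_self]
  let M : Ideal (D.E G) := maximalIdeal (D.E G)
  let B : Subring Q := ι.range
  have hB : ∀ x, x ∈ B ↔ ∀ m, b.repr x m ∈ D.E G := by
    intro x
    constructor
    · rintro ⟨a, rfl⟩ m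
      rw [hrep]
      exact Subtype.mem _
    · intro h
      exact ⟨_, (hlift x (fun m => ⟨_, h m⟩) (fun m => rfl)).symm⟩
  let J : AddSubgroup Q := (M.map (algebraMap (D.E G) A)).toAddSubgroup.map ι.toAddMonoidHom
  have hJ' : ∀ x, x ∈ J ↔ ∃ a ∈ M.map (algebraMap (D.E G) A), ι a = x := fun x => Iff.rfl
  have hJ : ∀ x, x ∈ J ↔ ∀ m, ∃ h : b.repr x m ∈ D.E G, (⟨_, h⟩ : D.E G) ∈ M := by
    intro x
    rw [hJ']
    constructor
    · rintro ⟨a, ha, rfl⟩ m
      refine ⟨by rw [hrep]; exact Subtype.mem _, ?_⟩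
      have h2 := (mem_map_iff_repr bo M a).1 ha m
      have h3 : (⟨b.repr (ι a) m, by rw [hrep]; exact Subtype.mem _⟩ : D.E G) = bo.repr a m :=
        Subtype.ext (hrep a m)
      rw [h3]
      exact h2
    · intro h
      choose h2 h3 using h
      refine ⟨_, ?_, (hlift x (fun m => ⟨_, h2 m⟩) (fun m => rfl)).symm⟩
      rw [mem_map_iff_repr bo]
      intro m
      rw [bo.repr_sum_self]
      exact h3 m
  obtain ⟨z, hz, hzx⟩ := CA.as_surj hk D h1 h0 b M B hB J hJ (by
      rintro _ ⟨a, ha, rfl⟩ _ ⟨c, rfl⟩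
      refine ⟨c * a, Ideal.mul_mem_left _ _ ha, ?_⟩
      exact map_mul ι c a) (by
      rintro _ ⟨a, ha, rfl⟩
      obtain ⟨c, hc⟩ := (isUnit_one_add_of_mem ha).exists_left_inv
      refine ⟨ι c, ⟨c, rfl⟩, ?_⟩
      have h2 := congrArg ι hc
      rw [map_mul, map_add, map_one] at h2
      exact h2) (ι x) ((hJ' _).2 ⟨x, hx, rfl⟩)
  obtain ⟨a, ha, rfl⟩ := (hJ' z).1 hz
  refine ⟨a, ha, hιinj ?_⟩
  rw [map_sub, map_pow]
  exact hzx

end Pool.Agent.NIPFields.LG
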