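import Mathlib
import Pool.Agent.NIPFields.LG.FTAS
import Pool.Agent.NIPFields.LG.FTSurj

set_option autoImplicit false

/-!
# The Kaplan-Scanlon-Wagner argument with scalars in a subring with many units
-/

namespace Pool.Agent.NIPFields.LG

open Polynomial Finset

universe u v w

/-- The subring `A` has tuples of any length all of whose non-zero combinations over the prime
field are units. -/
def MU (p : ℕ) {K : Type*} [Field K] [CharP K p] (A : Subring K) : Prop :=
  ∀ N : ℕ, ∃ l : Fin N → K, (∀ i, l i ∈ A) ∧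
    ∀ c : Fin N → ZMod p, c ≠ 0 → comb p l c ≠ 0 ∧ (comb p l c)⁻¹ ∈ A

theorem MU.mono {p : ℕ} {K : Type*} [Field K] [CharP K p] {A B : Subring K} (h : MU p A)
    (hAB : A ≤ B) : MU p B := by
  intro N
  obtain ⟨l, hl, hl'⟩ := h N
  exact ⟨l, fun i => hAB (hl i), fun c hc => ⟨(hl' c hc).1, hAB (hl' c hc).2⟩⟩

section

variable {p : ℕ} [hp : Fact p.Prime] {K : Type*} [Field K] [CharP K p]
  {ι : Type*} [Fintype ι] [DecidableEq ι]

theorem σF_mem (A : Subring K) (t : ZMod p) : σF p K t ∈ A := by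
  have h1 : σF p K t = ((t.val : ℕ) : K) := by
    conv_lhs => rw [← ZMod.natCast_zmod_val t]
    rw [map_natCast]
  rw [h1]
  exact natCast_mem A _

omit [DecidableEq ι] in
theorem comb_mem (A : Subring K) {l : ι → K} (hl : ∀ i, l i ∈ A) (c : ι → ZMod p) :
    comb p l c ∈ A := A.sum_mem fun i _ => A.mul_mem (σF_mem A _) (hl i)

theorem q_mem_sub (A : Subring K) {l : ι → K} (hl : ∀ i, l i ∈ A) (S : Finset ι) {u : K}
    (hu : u ∈ A) : q p l S u ∈ A :=
  A.prod_mem fun c _ => A.sub_mem hu (comb_mem A hl c)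

theorem hh_mem_sub (A : Subring K) {a u : K} (ha : a ∈ A) (hu : u ∈ A) : hh p a u ∈ A := by
  rw [hh_apply]
  exact A.sub_mem (A.pow_mem hu _) (A.mul_mem (A.pow_mem ha _) hu)

theorem comb_single (l : ι → K) (i : ι) : comb p l (Pi.single i (1 : ZMod p)) = l i := by
  unfold comb
  rw [Finset.sum_eq_single i]
  · rw [Pi.single_eq_same, map_one, one_mul]
  · intro j _ hj
    rw [Pi.single_eq_of_ne hj, map_zero, zero_mul]
  · intro h; exact absurd (Finset.mem_univ i) h

theorem aQ_memA [Infinite K] {R : Type*} [CommRing R] [Algebra K R] (A : Subring K)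
    (J : AddSubgroup R)
    (hsmul : ∀ a ∈ A, ∀ x ∈ J, algebraMap K R a * x ∈ J)
    (hpow : ∀ x ∈ J, x ^ p ∈ J) {l : ι → K} (hl : ∀ i, l i ∈ A) (S : Finset ι) (h : Ind p l S)
    {u : R} (hu : u ∈ J) : aeval u (Q p l S) ∈ J := by
  classical
  revert h
  refine Finset.induction_on S ?_ ?_
  · intro _
    rwa [Q_empty, aeval_X]
  · intro i S hi ih h
    have hS : Ind p l S := h.mono (Finset.subset_insert _ _)
    rw [Q_insert hi h, map_sub, map_mul, map_pow, aeval_C]
    exact J.sub_mem (hpow _ (ih hS)) (hsmul _ (A.pow_mem (q_mem_sub A hl S (hl i)) _) _ (ih hS))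

end

theorem MU.infinite {p : ℕ} [hp : Fact p.Prime] {K : Type*} [Field K] [CharP K p] {A : Subring K}
    (h : MU p A) : Infinite K := by
  classical
  by_contra hfin
  rw [not_infinite_iff_finite] at hfin
  have := Fintype.ofFinite K
  obtain ⟨l, _, hl⟩ := h (Fintype.card K)
  have hinj : Function.Injective (comb p l) := by
    intro c c' hcc
    by_contra hne
    exact (hl (c - c') (sub_ne_zero.2 hne)).1 (by rw [comb_sub, hcc, sub_self])
  have h1 := Fintype.card_le_of_injective _ hinj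
  rw [Fintype.card_fun, ZMod.card, Fintype.card_fin] at h1
  exact absurd h1 (not_le.2 (Nat.lt_pow_self hp.out.one_lt))

/-- **The Kaplan-Scanlon-Wagner argument** with scalars in `A`. -/
theorem as_surj_algA {p : ℕ} [hp : Fact p.Prime] {K : Type*} [Field K] [CharP K p]
    (A : Subring K) (hA : MU p A)
    {R : Type*} [CommRing R] [Algebra K R] [CharP R p] (J : AddSubgroup R)
    (hsmul : ∀ a ∈ A, ∀ x ∈ J, algebraMap K R a * x ∈ J) (hpow : ∀ x ∈ J, x ^ p ∈ J) (N : ℕ)
    (hN : ∀ a : Fin N → K, (∀ i, a i ∈ A) → (∀ i, a i ≠ 0) → ∃ i, ∀ y ∈ J,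
      (∀ j, j ≠ i → ∃ x ∈ J, y = algebraMap K R (a j) * (x ^ p - x)) →
      ∃ x ∈ J, y = algebraMap K R (a i) * (x ^ p - x))
    (w : R) (hw : w ∈ J) : ∃ u ∈ J, u ^ p - u = w := by
  classical
  have hinf : Infinite K := hA.infinite
  set φ : K →+* R := algebraMap K R with hφ
  obtain ⟨l, hlA, hlu⟩ := hA N
  have hl : Ind p l Finset.univ := by
    intro c _ hc
    by_contra hc0
    exact (hlu c hc0).1 hc
  let μ : Fin N → K := fun i => q p l (Finset.univ.erase i) (l i)
  have hμ : ∀ i, μ i ≠ 0 := fun i =>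
    q_ne_zero (Finset.notMem_erase i _) (by rwa [Finset.insert_erase (Finset.mem_univ i)])
  have hμA : ∀ i, μ i ∈ A := fun i => q_mem_sub A hlA _ (hlA i)
  have hμinv : ∀ i, (μ i)⁻¹ ∈ A := by
    intro i
    have h1 : (μ i)⁻¹ = ∏ c ∈ DS p (Finset.univ.erase i), (l i - comb p l c)⁻¹ := by
      simp only [μ, q]
      rw [Finset.prod_inv_distrib]
    rw [h1]
    refine A.prod_mem fun c hc => ?_
    have h2 : l i - comb p l c = comb p l (Pi.single i (1 : ZMod p) - c) := by
      rw [comb_sub, comb_single]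
    rw [h2]
    refine (hlu _ fun h0 => ?_).2
    have h3 := congrFun h0 i
    rw [Pi.sub_apply, mem_DS.1 hc i (Finset.notMem_erase i _), Pi.single_eq_same, Pi.zero_apply,
      sub_zero] at h3
    exact one_ne_zero h3
  have hliinv : ∀ i, (l i)⁻¹ ∈ A := by
    intro i
    rw [← comb_single (p := p) l i]
    refine (hlu _ fun h0 => ?_).2
    have h3 := congrFun h0 i
    rw [Pi.single_eq_same, Pi.zero_apply] at h3
    exact one_ne_zero h3
  have hcancel : ∀ {a : K}, a ≠ 0 → ∀ {x y : R}, φ a * x = φ a * y → x = y := by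
    intro a ha x y hxy
    have h1 := congrArg (fun z => φ a⁻¹ * z) hxy
    simp only [← mul_assoc, ← map_mul, inv_mul_cancel₀ ha, map_one, one_mul] at h1
    exact h1
  obtain ⟨i, hi⟩ := hN (fun i => μ i ^ p) (fun i => A.pow_mem (hμA i) _)
    (fun i => pow_ne_zero _ (hμ i))
  have hne : Nonempty (Fin N) := ⟨i⟩
  have hli : l i ≠ 0 := hl.ne_zero (Finset.mem_univ i)
  let S' : Finset (Fin N) := Finset.univ.erase i
  have hiS : i ∉ S' := Finset.notMem_erase i _
  have hinsS : insert i S' = Finset.univ := Finset.insert_erase (Finset.mem_univ i)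
  let ν : Fin N → K := fun j => hh p (l i) (l j)
  have hνA : ∀ j, ν j ∈ A := fun j => hh_mem_sub A (hlA i) (hlA j)
  have hν : Ind p ν S' := ind_hh hiS (by rwa [hinsS])
  let W : R := φ (l i) ^ p * w
  have hWJ : W ∈ J := by
    have h1 := hsmul (l i ^ p) (A.pow_mem (hlA i) _) w hw
    rwa [map_pow] at h1
  by_cases hS' : S'.Nonempty
  swap
  · -- the trivial case
    rw [Finset.not_nonempty_iff_eq_empty] at hS'
    obtain ⟨x, hxJ, hx⟩ := hi (φ (μ i ^ p) * w) (hsmul _ (A.pow_mem (hμA i) _) _ hw)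
      (fun j hj => by
        have : j ∈ S' := Finset.mem_erase.2 ⟨hj, Finset.mem_univ _⟩
        rw [hS'] at this
        exact absurd this (Finset.notMem_empty _))
    exact ⟨x, hxJ, (hcancel (pow_ne_zero _ (hμ i)) hx).symm⟩
  -- the coordinates
  have hins : ∀ j ∈ S', insert i (S'.erase j) = Finset.univ.erase j := by
    intro j hj
    have hji : j ≠ i := Finset.ne_of_mem_erase hj
    ext k
    simp only [S', Finset.mem_insert, Finset.mem_erase, Finset.mem_univ, and_true]
    constructor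
    · rintro (rfl | ⟨h, _⟩)
      exacts [hji.symm, h]
    · intro h
      by_cases hki : k = i
      · exact Or.inl hki
      · exact Or.inr ⟨h, hki⟩
  have hμν : ∀ j ∈ S', q p ν (S'.erase j) (ν j) = μ j := by
    intro j hj
    have h2 := q_hh (l := l) (S := S'.erase j) (i := i)
      (fun h => hiS (Finset.mem_of_mem_erase h)) (hl.mono (Finset.subset_univ _)) (l j)
    rw [hins j hj] at h2
    exact h2.symm
  -- `Q` in terms of `ν`
  have hQν : ∀ j ∈ S', Q p l (Finset.univ.erase j) =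
      (Q p ν (S'.erase j)).comp (X ^ p - C (l i ^ (p - 1)) * X) := by
    intro j hj
    have h2 := Q_hh (l := l) (S := S'.erase j) (i := i)
      (fun h => hiS (Finset.mem_of_mem_erase h)) (hl.mono (Finset.subset_univ _))
    rwa [hins j hj] at h2
  let xx : Fin N → R := fun j => φ ((μ j)⁻¹) * aeval W (Q p ν (S'.erase j))
  let t : R := aeval W (Q p ν S')
  have htJ : t ∈ J := aQ_memA A J hsmul hpow hνA S' hν hWJ
  have hxxJ : ∀ j, xx j ∈ J := fun j =>
    hsmul _ (hμinv j) _ (aQ_memA A J hsmul hpow hνA (S'.erase j)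
      (hν.mono (Finset.erase_subset _ _)) hWJ)
  have hxxμ : ∀ j, φ (μ j) * xx j = aeval W (Q p ν (S'.erase j)) := by
    intro j
    simp only [xx]
    rw [← mul_assoc, ← map_mul, mul_inv_cancel₀ (hμ j), map_one, one_mul]
  have hxx : ∀ j ∈ S', t = φ (μ j) ^ p * (xx j ^ p - xx j) := by
    intro j hj
    have h1 := Q_insert (l := ν) (S := S'.erase j) (i := j) (Finset.notMem_erase _ _)
      (by rwa [Finset.insert_erase hj])
    rw [Finset.insert_erase hj, hμν j hj] at h1
    have h2 : φ (μ j) ^ p = φ (μ j) ^ (p - 1) * φ (μ j) := by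
      rw [← pow_succ, Nat.sub_add_cancel hp.out.one_lt.le]
    change aeval W (Q p ν S') = _
    rw [h1, map_sub, map_mul, map_pow, aeval_C, ← hxxμ j, mul_pow, h2, map_pow]
    ring
  obtain ⟨x₀, hx₀J, hx₀⟩ := hi t htJ (fun j hj => ⟨xx j, hxxJ j, by
    rw [map_pow]
    exact hxx j (Finset.mem_erase.2 ⟨hj, Finset.mem_univ _⟩)⟩)
  rw [map_pow] at hx₀
  let x : Fin N → R := Function.update xx i x₀
  have hxJ : ∀ j, x j ∈ J := by
    intro j
    by_cases hj : j = i
    · subst hj
      simp only [x, Function.update_self]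
      exact hx₀J
    · simp only [x, Function.update_of_ne hj]
      exact hxxJ j
  have hx : ∀ j, φ (q p l (Finset.univ.erase j) (l j)) ^ p * (x j ^ p - x j) = t := by
    intro j
    change φ (μ j) ^ p * _ = t
    by_cases hj : j = i
    · subst hj
      simp only [x, Function.update_self]
      exact hx₀.symm
    · simp only [x, Function.update_of_ne hj]
      exact (hxx j (Finset.mem_erase.2 ⟨hj, Finset.mem_univ _⟩)).symm
  have h1 := exists_common_alg hl x t hx
  set u : R := ∑ j, φ (l j) * x j with hu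
  have huJ : u ∈ J := J.sum_mem fun j _ => hsmul (l j) (hlA j) (x j) (hxJ j)
  set H : R := u ^ p - φ (l i) ^ (p - 1) * u with hH
  have h2 : ∀ j ∈ S', aeval H (Q p ν (S'.erase j)) = aeval W (Q p ν (S'.erase j)) := by
    intro j hj
    have hji : j ≠ i := Finset.ne_of_mem_erase hj
    have h4 := h1 j
    rw [hQν j hj, aeval_comp, map_sub, map_pow, map_mul, aeval_X, aeval_C, map_pow] at h4
    rw [hH]
    refine h4.trans ?_
    simp only [x, Function.update_of_ne hji]
    exact hxxμ j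
  have h3 : H = W := by
    have h4 := congrArg (aeval H) (sum_Q hν hS')
    have h5 := congrArg (aeval W) (sum_Q hν hS')
    rw [map_sum, aeval_X] at h4 h5
    rw [← h4, ← h5]
    refine Finset.sum_congr rfl fun j hj => ?_
    rw [map_mul (aeval H), map_mul (aeval W), aeval_C, aeval_C, h2 j hj]
  refine ⟨φ ((l i)⁻¹) * u, hsmul _ (hliinv i) _ huJ, ?_⟩
  apply hcancel (pow_ne_zero p hli)
  have h4 : φ (l i) * φ ((l i)⁻¹) = 1 := by
    rw [← map_mul, mul_inv_cancel₀ hli, map_one]
  have h5 : φ (l i) ^ p = φ (l i) ^ (p - 1) * φ (l i) := by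
    rw [← pow_succ, Nat.sub_add_cancel hp.out.one_lt.le]
  have h6 : φ (l i ^ p) * ((φ ((l i)⁻¹) * u) ^ p - φ ((l i)⁻¹) * u) = H := by
    rw [map_pow, mul_sub, ← mul_pow, ← mul_assoc, h4, one_mul, h5, hH]
    congr 1
    linear_combination (φ (l i) ^ (p - 1) * u) * h4
  rw [h6, h3, map_pow]

end Pool.Agent.NIPFields.LG

namespace Pool.Agent.NIPFields.LG.CA

open FirstOrder FirstOrder.Language FirstOrder.Ring Set
open Pool.Agent.NIPFields.FI

universe u v w

/-- Artin-Schreier surjectivity for definable groups in finite commutative algebras. -/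
theorem as_surj_def {p : ℕ} [hp : Fact p.Prime] {k : Type u} [Field k] [CharP k p]
    [CompatibleRing k] (hk : NIP k) (A : Subring k) (hA : MU p A) {Q : Type w} [CommRing Q]
    [Nontrivial Q] [Algebra k Q] {d : ℕ} (b : Module.Basis (Fin d) k Q) (J : AddSubgroup Q)
    (hJ : LDef₁ b {x | x ∈ J}) (hsmul : ∀ a ∈ A, ∀ x ∈ J, algebraMap k Q a * x ∈ J)
    (hpow : ∀ x ∈ J, x ^ p ∈ J) (x : Q) (hx : x ∈ J) : ∃ u ∈ J, u ^ p - u = x := by
  classical
  have hchar : CharP Q p := charP_of_injective_algebraMap (algebraMap k Q).injective p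
  have hR : LDef b {v : Fin 1 ⊕ Fin 1 → Q | ∃ u : Unit → Q,
      Sum.elim v u ∈ {v : (Fin 1 ⊕ Fin 1) ⊕ Unit → Q | v (Sum.inr ()) ∈ {x | x ∈ J}} ∩
        {v : (Fin 1 ⊕ Fin 1) ⊕ Unit → Q | v (Sum.inl (Sum.inr 0)) =
          v (Sum.inl (Sum.inl 0)) * (v (Sum.inr ()) ^ p - v (Sum.inr ()))}} :=
    LDef.exists ((hJ.mem (LFun.var _)).inter (LFun.eq (LFun.var _) (LFun.mul (LFun.var _)
      (LFun.sub (LFun.pow (LFun.var _) p) (LFun.var _)))))
  obtain ⟨N, hN⟩ := nip_ldef hk hR
  refine as_surj_algA A hA J hsmul hpow N (fun a haA ha => ?_) x hx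
  by_contra hcon
  push Not at hcon
  choose y hyJ hy1 hy2 using hcon
  let ℘ : Q →+ Q := AddMonoidHom.mk' (fun u => u ^ p - u) (fun u v => by
    rw [add_pow_char]; ring)
  let H : Fin N → AddSubgroup Q := fun i =>
    J.map ((AddMonoidHom.mulLeft (algebraMap k Q (a i))).comp ℘)
  have hH : ∀ i z, z ∈ H i ↔ ∃ x ∈ J, z = algebraMap k Q (a i) * (x ^ p - x) := by
    intro i z
    simp only [H, ℘, AddSubgroup.mem_map, AddMonoidHom.comp_apply, AddMonoidHom.coe_mulLeft,
      AddMonoidHom.mk'_apply]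
    exact ⟨fun ⟨x, hx, h⟩ => ⟨x, hx, h.symm⟩, fun ⟨x, hx, h⟩ => ⟨x, hx, h.symm⟩⟩
  let yS : Finset (Fin N) → Q := fun S => ∑ i ∈ Sᶜ, y i
  have hyS : ∀ i S, yS S ∈ H i ↔ i ∈ S := by
    intro i S
    constructor
    · intro h
      by_contra hi
      have hi' : i ∈ Sᶜ := Finset.mem_compl.2 hi
      have h' : ∑ j ∈ Sᶜ, y j ∈ H i := h
      rw [← Finset.add_sum_erase _ _ hi'] at h'
      have h1 : ∑ j ∈ Sᶜ.erase i, y j ∈ H i := by
        refine AddSubgroup.sum_mem _ (fun j hj => (hH i _).2 (hy1 j i ?_))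
        exact (Finset.ne_of_mem_erase hj).symm
      obtain ⟨x, hxJ, hx⟩ := (hH i _).1 ((AddSubgroup.add_mem_cancel_right _ h1).1 h')
      exact hy2 i x hxJ hx
    · intro hi
      refine AddSubgroup.sum_mem _ (fun j hj => (hH i _).2 (hy1 j i ?_))
      rintro rfl
      exact (Finset.mem_compl.1 hj) hi
  obtain ⟨i, S, hiS⟩ := hN (fun i _ => algebraMap k Q (a i)) (fun S _ => yS S)
  apply hiS
  rw [mem_ofPred_eq, ← hyS i S, hH]
  constructor
  · rintro ⟨u, hu1, hu2⟩
    exact ⟨u (), hu1, hu2⟩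
  · rintro ⟨x, hxJ, hx⟩
    exact ⟨fun _ => x, hxJ, hx⟩

end Pool.Agent.NIPFields.LG.CA
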