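import Mathlib
import Pool.Agent.NIPFields.LG.Tower

set_option autoImplicit false

/-!
# The rings `E G` of the tower are integrally closed
-/

namespace Pool.Agent.NIPFields.LG

open FirstOrder FirstOrder.Language FirstOrder.Ring Set Filter IsLocalRing
open Pool.Agent.NIPFields.FI
open scoped Polynomial

universe u v w

/-- Artin-Schreier surjectivity for definable groups. -/
theorem as_surj_of_ldef {p : ℕ} [hp : Fact p.Prime] {K : Type v} {k : Type u} [Field K]
    [CharP K p] [Infinite K] [Field k] [Algebra K k] [CompatibleRing k] (hk : NIP k)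
    {Q : Type w} [Field Q] [Algebra k Q] {d : ℕ} (b : Module.Basis (Fin d) k Q)
    (J : AddSubgroup Q) (hJ : LDef₁ b {x | x ∈ J})
    (hsmul : ∀ a : K, ∀ x ∈ J, algebraMap k Q (algebraMap K k a) * x ∈ J)
    (hpow : ∀ x ∈ J, x ^ p ∈ J) (w : Q) (hw : w ∈ J) : ∃ u ∈ J, u ^ p - u = w := by
  let _ : Algebra K Q := ((algebraMap k Q).comp (algebraMap K k)).toAlgebra
  have hchar : CharP Q p := charP_of_injective_algebraMap (algebraMap K Q).injective p
  let H : (Fin 1 → Q) → AddSubgroup Q := fun a =>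
    J.map ((AddMonoidHom.mulLeft (a 0)).comp (hh p (1 : Q)))
  have hH : ∀ a z, z ∈ H a ↔ ∃ x ∈ J, z = a 0 * (x ^ p - x) := by
    intro a z
    simp only [H, AddSubgroup.mem_map, AddMonoidHom.comp_apply, AddMonoidHom.coe_mulLeft,
      hh_apply, one_pow, one_mul]
    exact ⟨fun ⟨x, hx, h⟩ => ⟨x, hx, h.symm⟩, fun ⟨x, hx, h⟩ => ⟨x, hx, h.symm⟩⟩
  have hdef : LDef b {v : Fin 1 ⊕ Fin 1 → Q | v (Sum.inr 0) ∈ H (v ∘ Sum.inl)} := by
    have h1 : LDef b {v : (Fin 1 ⊕ Fin 1) ⊕ Unit → Q | v (Sum.inl (Sum.inr 0)) =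
        v (Sum.inl (Sum.inl 0)) * (v (Sum.inr ()) ^ p - v (Sum.inr ()))} :=
      LFun.eq (LFun.var _) (LFun.mul (LFun.var _) (LFun.sub (LFun.pow (LFun.var _) p)
        (LFun.var _)))
    have h1' : LDef b {v : (Fin 1 ⊕ Fin 1) ⊕ Unit → Q | v (Sum.inr ()) ∈ {x | x ∈ J}} :=
      hJ.mem (LFun.var _)
    have h2 := LDef.exists (h1'.inter h1)
    have h3 : {v : Fin 1 ⊕ Fin 1 → Q | v (Sum.inr 0) ∈ H (v ∘ Sum.inl)} =
        {v | ∃ u : Unit → Q, Sum.elim v u ∈ {v : (Fin 1 ⊕ Fin 1) ⊕ Unit → Q |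
          v (Sum.inr ()) ∈ {x | x ∈ J}} ∩ {v : (Fin 1 ⊕ Fin 1) ⊕ Unit → Q |
          v (Sum.inl (Sum.inr 0)) =
          v (Sum.inl (Sum.inl 0)) * (v (Sum.inr ()) ^ p - v (Sum.inr ()))}} := by
      ext v
      rw [mem_ofPred_eq, hH]
      constructor
      · rintro ⟨x, hxJ, hx⟩
        exact ⟨fun _ => x, hxJ, hx⟩
      · rintro ⟨x, hxJ, hx⟩
        exact ⟨x (), hxJ, hx⟩
    rw [h3]
    exact h2
  obtain ⟨N, hN⟩ := baldwin_saxl hk H hdef
  refine as_surj_rel (K := K) J hsmul hpow N (fun a _ => ?_) w hw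
  obtain ⟨i, hi⟩ := hN (fun j _ => algebraMap K Q (a j))
  refine ⟨i, fun y _ hy => ?_⟩
  rw [← hH (fun _ => algebraMap K Q (a i)) y]
  refine hi y (fun j hj => ?_)
  rw [hH (fun _ => algebraMap K Q (a j)) y]
  exact hy j hj

/-- The Kummer extension and the free algebra over a subring `E` generated by the root. -/
theorem exists_kummer_ideal {k : Type u} [Field k] (E : Subring k) (I : Ideal E) {ℓ : ℕ}
    (hℓ : ℓ.Prime) (z : E) (hno : ∀ b : k, b ^ ℓ ≠ 1 + (z : k)) :
    ∃ (Q : Type u) (_ : Field Q) (_ : Algebra k Q) (b : Module.Basis (Fin ℓ) k Q) (α : Q)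
      (B : Subring Q) (J : AddSubgroup Q),
      (∀ m : Fin ℓ, b m = α ^ (m : ℕ)) ∧ α ^ ℓ = algebraMap k Q (1 + (z : k)) ∧
      (∀ x, x ∈ B ↔ ∀ m, b.repr x m ∈ E) ∧
      (∀ x, x ∈ J ↔ ∀ m, ∃ h : b.repr x m ∈ E, (⟨_, h⟩ : E) ∈ I) ∧
      (∀ x ∈ J, ∀ y ∈ B, y * x ∈ J) := by
  classical
  set f : k[X] := Polynomial.X ^ ℓ - Polynomial.C (1 + (z : k)) with hf
  set g : E[X] := Polynomial.X ^ ℓ - Polynomial.C (1 + z) with hg
  have hirr : Irreducible f := X_pow_sub_C_irreducible_of_prime hℓ hno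
  have : Fact (Irreducible f) := ⟨hirr⟩
  have hgm : g.Monic := Polynomial.monic_X_pow_sub_C _ hℓ.pos.ne'
  have hfdeg : f.natDegree = ℓ := Polynomial.natDegree_X_pow_sub_C
  have hgdeg : g.natDegree = ℓ := Polynomial.natDegree_X_pow_sub_C
  let Q := AdjoinRoot f
  let S := AdjoinRoot g
  set α : Q := AdjoinRoot.root f with hα
  have hαℓ : α ^ ℓ = algebraMap k Q (1 + (z : k)) := by
    have h1 := AdjoinRoot.eval₂_root f
    rw [hf, Polynomial.eval₂_sub, Polynomial.eval₂_X_pow, Polynomial.eval₂_C] at h1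
    exact sub_eq_zero.1 h1
  -- the basis
  let pb := AdjoinRoot.powerBasis hirr.ne_zero
  have hdim : pb.dim = ℓ := hfdeg
  let b : Module.Basis (Fin ℓ) k Q := pb.basis.reindex (finCongr hdim)
  have hb : ∀ m : Fin ℓ, b m = α ^ (m : ℕ) := by
    intro m
    show (pb.basis.reindex (finCongr hdim)) m = _
    rw [Module.Basis.reindex_apply, PowerBasis.coe_basis]
    rfl
  -- the algebra over `E`
  let pb' := AdjoinRoot.powerBasis' hgm
  have hdim' : pb'.dim = ℓ := hgdeg
  let c : Module.Basis (Fin ℓ) E S := pb'.basis.reindex (finCongr hdim')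
  have hc : ∀ m : Fin ℓ, c m = (AdjoinRoot.root g) ^ (m : ℕ) := by
    intro m
    show (pb'.basis.reindex (finCongr hdim')) m = _
    rw [Module.Basis.reindex_apply, PowerBasis.coe_basis]
    rfl
  have hroot : g.eval₂ ((algebraMap k Q).comp E.subtype) α = 0 := by
    rw [hg, Polynomial.eval₂_sub, Polynomial.eval₂_X_pow, Polynomial.eval₂_C, hαℓ]
    simp
  let φ : S →+* Q := AdjoinRoot.lift ((algebraMap k Q).comp E.subtype) α hroot
  have hφof : ∀ e : E, φ (algebraMap E S e) = algebraMap k Q (e : k) := by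
    intro e
    exact AdjoinRoot.lift_of _
  have hφroot : φ (AdjoinRoot.root g) = α := AdjoinRoot.lift_root _
  -- coordinates
  have hrepr : ∀ (s : S) (m : Fin ℓ), b.repr (φ s) m = ((c.repr s m : E) : k) := by
    intro s m
    have h1 : φ s = ∑ i, ((c.repr s i : E) : k) • b i := by
      conv_lhs => rw [← c.sum_repr s]
      rw [map_sum]
      refine Finset.sum_congr rfl fun i _ => ?_
      rw [hc i, Algebra.smul_def, map_mul, hφof, map_pow, hφroot, hb i, Algebra.smul_def]
    rw [h1, Module.Basis.repr_sum_self]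
  have hsurj : ∀ x : Q, (∀ m, b.repr x m ∈ E) → ∃ s : S, φ s = x ∧
      ∀ m, ((c.repr s m : E) : k) = b.repr x m := by
    intro x hx
    refine ⟨∑ i, (⟨b.repr x i, hx i⟩ : E) • c i, ?_, fun m => by
      rw [Module.Basis.repr_sum_self]⟩
    rw [map_sum]
    conv_rhs => rw [← b.sum_repr x]
    refine Finset.sum_congr rfl fun i _ => ?_
    rw [hc i, Algebra.smul_def, map_mul, hφof, map_pow, hφroot, hb i, Algebra.smul_def]
  -- the ideal
  have hideal : ∀ s : S, s ∈ Ideal.map (algebraMap E S) (I) ↔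
      ∀ m, c.repr s m ∈ I := by
    intro s
    constructor
    · intro hs m
      have h1 : s ∈ (I • (⊤ : Submodule E S)) := by
        rw [Ideal.smul_top_eq_map]
        exact hs
      have h2 : ∀ m, c.repr s m ∈ I := by
        refine Submodule.smul_induction_on (p := fun s => ∀ m, c.repr s m ∈ I) h1
          ?_ ?_
        · intro r hr n _ m
          rw [map_smul, Finsupp.smul_apply, smul_eq_mul]
          exact Ideal.mul_mem_right _ _ hr
        · intro x y hx hy m
          rw [map_add, Finsupp.add_apply]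
          exact Ideal.add_mem _ (hx m) (hy m)
      exact h2 m
    · intro h
      rw [← c.sum_repr s]
      refine Ideal.sum_mem _ fun i _ => ?_
      rw [Algebra.smul_def]
      exact Ideal.mul_mem_right _ _ (Ideal.mem_map_of_mem _ (h i))
  let B : Subring Q := φ.range
  let J : AddSubgroup Q :=
    (Ideal.map (algebraMap E S) (I)).toAddSubgroup.map φ.toAddMonoidHom
  have hB : ∀ x, x ∈ B ↔ ∀ m, b.repr x m ∈ E := by
    intro x
    constructor
    · rintro ⟨s, rfl⟩ m
      rw [hrepr]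
      exact (c.repr s m).2
    · intro hx
      obtain ⟨s, hs, _⟩ := hsurj x hx
      exact ⟨s, hs⟩
  have hJ : ∀ x, x ∈ J ↔ ∀ m, ∃ h : b.repr x m ∈ E, (⟨_, h⟩ : E) ∈ I := by
    intro x
    constructor
    · rintro ⟨s, hs, rfl⟩ m
      have h1 := (hideal s).1 hs m
      have h2 := hrepr s m
      refine ⟨by
        show b.repr (φ s) m ∈ E
        rw [h2]; exact (c.repr s m).2, ?_⟩
      convert h1
      exact h2
    · intro hx
      obtain ⟨s, hs, hs2⟩ := hsurj x fun m => (hx m).1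
      refine ⟨s, (hideal s).2 fun m => ?_, hs⟩
      obtain ⟨h, hm⟩ := hx m
      convert hm
      exact hs2 m
  refine ⟨Q, inferInstance, inferInstance, b, α, B, J, hb, hαℓ, hB, hJ, ?_⟩
  rintro _ ⟨s, hs, rfl⟩ _ ⟨t, rfl⟩
  refine ⟨t * s, Ideal.mul_mem_left _ _ hs, ?_⟩
  exact map_mul φ t s

/-- Elements `1 + z`, `z` in a definable proper ideal of a subring that contains `K`, are `ℓ`-th
powers. -/
theorem one_add_mem_of_ideal {p : ℕ} [hp : Fact p.Prime] {K : Type v} {k : Type u} [Field K]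
    [CharP K p] [Infinite K] [Field k] [Algebra K k] [CompatibleRing k] (hk : NIP k) {ℓ : ℕ}
    (hℓ : ℓ.Prime) (hℓp : ℓ ≠ p) (N : Subring k) (hKN : ∀ a : K, algebraMap K k a ∈ N)
    (I : Ideal N) (hI : I ≠ ⊤)
    (hdef : (univ : Set k).Definable₁ Language.ring {x | ∃ h : x ∈ N, (⟨x, h⟩ : N) ∈ I})
    {z : N} (hz : z ∈ I) : 1 + (z : k) ∈ Pw k ℓ := by
  classical
  by_contra hcon
  -- `1 + z` is not an `ℓ`-th power
  have hunit : ∀ w : N, w ∈ I → (w : k) ≠ 1 ∧ 1 + (w : k) ≠ 0 := by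
    intro w hw
    constructor
    · intro h
      have h2 : w = 1 := Subtype.ext h
      rw [h2] at hw
      exact hI ((Ideal.eq_top_iff_one _).2 hw)
    · intro h
      have h2 : w = -1 := Subtype.ext (by push_cast; linear_combination h)
      rw [h2] at hw
      have h3 := I.neg_mem hw
      rw [neg_neg] at h3
      exact hI ((Ideal.eq_top_iff_one _).2 h3)
  have hno : ∀ b : k, b ^ ℓ ≠ 1 + (z : k) := by
    intro b hb
    apply hcon
    refine ⟨b, ?_, hb.symm⟩
    rintro rfl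
    rw [zero_pow hℓ.pos.ne'] at hb
    exact (hunit z hz).2 hb.symm
  obtain ⟨Q, _, _, b, α, B, J, hb, hα, hB, hJ, hJB⟩ := exists_kummer_ideal N I hℓ z hno
  have hℓ2 : 2 ≤ ℓ := hℓ.two_le
  -- the inverse of `ℓ`
  have : CharP k p := charP_of_injective_algebraMap (algebraMap K k).injective p
  have : CharP Q p := charP_of_injective_algebraMap (algebraMap k Q).injective p
  have hℓk : (ℓ : k) ≠ 0 := by
    intro h
    rw [CharP.cast_eq_zero_iff k p] at h
    exact hℓp ((Nat.prime_dvd_prime_iff_eq hp.out hℓ).1 h).symm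
  have hinvE : (ℓ : k)⁻¹ ∈ N := by
    have := hKN (ℓ : K)⁻¹
    rwa [map_inv₀, map_natCast] at this
  -- coordinates of constants
  have hconst : ∀ w : k, ∀ m : Fin ℓ, b.repr (algebraMap k Q w) m = if (m : ℕ) = 0 then w else 0 := by
    intro w m
    have h2 : algebraMap k Q w = w • b ⟨0, hℓ.pos⟩ := by
      rw [hb, pow_zero, Algebra.smul_def, mul_one]
    rw [h2, map_smul, Module.Basis.repr_self, Finsupp.smul_apply, Finsupp.single_apply, smul_eq_mul]
    by_cases hm : (m : ℕ) = 0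
    · rw [if_pos hm, if_pos (Fin.ext hm.symm), mul_one]
    · rw [if_neg hm, if_neg (fun h => hm (by rw [← h])), mul_zero]
  have hconstB : ∀ w ∈ N, algebraMap k Q w ∈ B := by
    intro w hw
    rw [hB]
    intro m
    rw [hconst]
    split_ifs
    · exact hw
    · exact zero_mem _
  have hconstJ : ∀ w : N, w ∈ I → algebraMap k Q (w : k) ∈ J := by
    intro w hw
    rw [hJ]
    intro m
    have h2 := hconst (w : k) m
    by_cases hm : (m : ℕ) = 0
    · rw [if_pos hm] at h2
      refine ⟨by rw [h2]; exact w.2, ?_⟩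
      convert hw
    · rw [if_neg hm] at h2
      refine ⟨by rw [h2]; exact zero_mem _, ?_⟩
      convert I.zero_mem
      rw [h2]
      rfl
  have hJsubB : ∀ x ∈ J, x ∈ B := fun x hx => (hB x).2 fun m => ((hJ x).1 hx m).choose
  -- Artin-Schreier
  have hAS : ∀ x ∈ J, ∃ u ∈ J, u ^ p - u = x := by
    refine as_surj_of_ldef (K := K) hk b J ?_ ?_ ?_
    · have h2 : {v : Unit → Q | v () ∈ {x | x ∈ J}} = ⋂ m : Fin ℓ, {v : Unit → Q |
          b.repr (v ()) m ∈ {x | ∃ h : x ∈ N, (⟨x, h⟩ : N) ∈ I}} := by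
        ext v
        simp only [mem_ofPred_eq, mem_iInter]
        exact hJ _
      unfold LDef₁
      rw [h2]
      refine LDef.iInter fun m => ?_
      exact def_mem hdef (LFun.var (e := b) () m)
    · exact fun a x hx => hJB x hx _ (hconstB _ (hKN a))
    · intro x hx
      have hp2 : p = (p - 1) + 1 := (Nat.sub_add_cancel hp.out.one_le).symm
      rw [hp2, pow_succ]
      exact hJB x hx _ (B.pow_mem (hJsubB x hx) _)
  have hαB : α ∈ B := by
    rw [hB]
    intro m
    have h2 : α = b ⟨1, hℓ2⟩ := by rw [hb, pow_one]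
    rw [h2, Module.Basis.repr_self, Finsupp.single_apply]
    split_ifs
    · exact one_mem _
    · exact zero_mem _
  -- the element `e`
  set c : Q := algebraMap k Q (ℓ : k)⁻¹ with hc
  have hcB : c ∈ B := hconstB _ hinvE
  have hcℓ : (ℓ : Q) * c = 1 := by
    rw [hc, ← map_natCast (algebraMap k Q), ← map_mul, mul_inv_cancel₀ hℓk, map_one]
  set e : Q := c * ∑ i ∈ Finset.range ℓ, α ^ i with he
  have heB : e ∈ B := B.mul_mem hcB (B.sum_mem fun i _ => B.pow_mem hαB i)
  have hrepr_e : ∀ m, b.repr e m = (ℓ : k)⁻¹ := by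
    intro m
    have h2 : e = ∑ i, (ℓ : k)⁻¹ • b i := by
      rw [he, Finset.mul_sum, ← Fin.sum_univ_eq_sum_range (fun i => c * α ^ i) ℓ]
      refine Finset.sum_congr rfl fun i _ => ?_
      rw [hb, Algebra.smul_def]
    rw [h2, Module.Basis.repr_sum_self]
  have hαe : α * e - e ∈ J := by
    have h2 : α * e - e = algebraMap k Q (((⟨_, hinvE⟩ : N) * z : N) : k) := by
      have h3 : (α - 1) * ∑ i ∈ Finset.range ℓ, α ^ i = α ^ ℓ - 1 := mul_geom_sum α ℓ
      have h4 : α * e - e = c * ((α - 1) * ∑ i ∈ Finset.range ℓ, α ^ i) := by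
        rw [he]; ring
      have h5 : (((⟨_, hinvE⟩ : N) * z : N) : k) = (ℓ : k)⁻¹ * (z : k) := rfl
      rw [h4, h3, hα, h5, map_add, map_one, map_mul, ← hc]
      ring
    rw [h2]
    exact hconstJ _ (Ideal.mul_mem_left _ _ hz)
  have hαme : ∀ m : ℕ, α ^ m * e - e ∈ J := by
    intro m
    induction m with
    | zero =>
      rw [pow_zero, one_mul, sub_self]
      exact J.zero_mem
    | succ m ih =>
      have h2 : α ^ (m + 1) * e - e = α * (α ^ m * e - e) + (α * e - e) := by ring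
      rw [h2]
      exact J.add_mem (hJB _ ih _ hαB) hαe
  have hee : e * e - e ∈ J := by
    have h2 : e * e - e = ∑ i ∈ Finset.range ℓ, c * (α ^ i * e - e) := by
      have h3 : ∑ i ∈ Finset.range ℓ, c * (α ^ i * e - e) =
          (c * ∑ i ∈ Finset.range ℓ, α ^ i) * e - ((ℓ : Q) * c) * e := by
        rw [← Finset.mul_sum, Finset.sum_sub_distrib, ← Finset.sum_mul, Finset.sum_const,
          Finset.card_range, nsmul_eq_mul]
        ring
      rw [h3, hcℓ, one_mul, ← he]
    rw [h2]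
    exact J.sum_mem fun i _ => hJB _ (hαme i) _ hcB
  have hepow : ∀ n : ℕ, e ^ (n + 1) - e ∈ J := by
    intro n
    induction n with
    | zero =>
      rw [zero_add, pow_one, sub_self]
      exact J.zero_mem
    | succ n ih =>
      have h2 : e ^ (n + 1 + 1) - e = e * (e ^ (n + 1) - e) + (e * e - e) := by ring
      rw [h2]
      exact J.add_mem (hJB _ ih _ heB) hee
  have hep : e ^ p - e ∈ J := by
    have := hepow (p - 1)
    rwa [Nat.sub_add_cancel hp.out.one_le] at this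
  obtain ⟨u, huJ, hu⟩ := hAS _ hep
  -- `e - u` is in the prime field
  have hfix : (e - u) ^ p = e - u := by
    rw [sub_pow_char]
    linear_combination -hu
  have hbot : e - u ∈ (⊥ : Subfield Q) := (Subfield.mem_bot_iff_pow_eq_self Q p).2 hfix
  have hrange : e - u ∈ (algebraMap k Q).fieldRange :=
    (bot_le : (⊥ : Subfield Q) ≤ (algebraMap k Q).fieldRange) hbot
  obtain ⟨w, hw⟩ := hrange
  have hu1 : b.repr u ⟨1, hℓ2⟩ = (ℓ : k)⁻¹ := by
    have h2 : u = e - algebraMap k Q w := by rw [hw]; ring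
    rw [h2, map_sub, Finsupp.sub_apply, hrepr_e, hconst, if_neg (by simp), sub_zero]
  obtain ⟨h2, h3⟩ := (hJ u).1 huJ ⟨1, hℓ2⟩
  have hnat : (ℓ : k) ∈ N := natCast_mem _ ℓ
  have h4 := Ideal.mul_mem_left I (⟨_, hnat⟩ : N) h3
  refine (hunit _ h4).1 ?_
  show (ℓ : k) * b.repr u ⟨1, hℓ2⟩ = 1
  rw [hu1, mul_inv_cancel₀ hℓk]

/-- For the rings of the tower, `I` is the maximal ideal. -/
theorem LD.mem_I_iff {p : ℕ} [hp : Fact p.Prime] {K : Type v} {k : Type u} [Field K]
    [CharP K p] [Infinite K] [Field k] [Algebra K k] [CompatibleRing k] (hk : NIP k) {ℓ : ℕ}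
    (hℓ : ℓ.Prime) (hℓp : ℓ ≠ p) (D : LD K k ℓ) {G : Finset k} (h1 : (1 : k) ∈ G)
    (h0 : ∀ g ∈ G, g ≠ 0) [IsLocalRing (D.E G)]
    (hG : ∀ g ∈ G, ∃ h : g ∈ D.E G, IsUnit (⟨g, h⟩ : D.E G)) {d : k} :
    d ∈ D.I G ↔ ∃ h : d ∈ D.E G, (⟨d, h⟩ : D.E G) ∈ maximalIdeal (D.E G) := by
  constructor
  · intro hd
    refine ⟨D.I_le_E h1 hd, ?_⟩
    rw [mem_maximalIdeal]
    intro hu
    obtain ⟨v, hv⟩ := hu.exists_left_inv
    have h2 : (v : k) * d = 1 := congrArg Subtype.val hv
    have h3 : (1 : k) ∈ D.I G := by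
      rw [← h2]
      exact v.2 d hd
    exact one_notMem (D.I_le_J h1 h3)
  · rintro ⟨h, hz⟩ g hg
    obtain ⟨hgE, hgu⟩ := hG g hg
    obtain ⟨v, hv⟩ := hgu.exists_right_inv
    have h2 : g * (v : k) = 1 := congrArg Subtype.val hv
    have h3 : d / g = ((v * ⟨d, h⟩ : D.E G) : k) := by
      have := h0 g hg
      rw [Subring.coe_mul, div_eq_iff this, mul_comm (v : k), mul_assoc, mul_comm (v : k), h2,
        mul_one]
    rw [h3]
    exact D.maximal_le hk hℓ hℓp h1 h0 (Ideal.mul_mem_left _ _ hz)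

/-- The rings of the tower are integrally closed. -/
theorem LD.integrally_closed {p : ℕ} [hp : Fact p.Prime] {K : Type v} {k : Type u} [Field K]
    [CharP K p] [Infinite K] [Field k] [Algebra K k] [CompatibleRing k] (hk : NIP k) {ℓ : ℕ}
    (hℓ : ℓ.Prime) (hℓp : ℓ ≠ p) (D : LD K k ℓ) {G : Finset k} (h1 : (1 : k) ∈ G)
    (h0 : ∀ g ∈ G, g ≠ 0) [IsLocalRing (D.E G)]
    (hG : ∀ g ∈ G, ∃ h : g ∈ D.E G, IsUnit (⟨g, h⟩ : D.E G))
    (hdef : (univ : Set k).Definable₁ Language.ring {x | x ∈ D.I G}) {α : k}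
    (hα : IsIntegral (D.E G) α) : α ∈ D.E G := by
  classical
  let M := maximalIdeal (D.E G)
  let S : Subalgebra (D.E G) k := Algebra.adjoin (D.E G) {α}
  let N : Subring k := S.toSubring
  have hNS : ∀ x, x ∈ N ↔ x ∈ S := fun _ => Iff.rfl
  have hαS : α ∈ S := Algebra.subset_adjoin (mem_singleton α)
  have hES : ∀ e : D.E G, (e : k) ∈ S := fun e => S.algebraMap_mem e
  have hKN : ∀ a : K, algebraMap K k a ∈ N := fun a => hES ⟨_, D.algebraMap_mem G a⟩
  have hint : Algebra.IsIntegral (D.E G) S := by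
    refine Algebra.IsIntegral.adjoin ?_
    intro x hx
    rw [mem_singleton_iff.1 hx]
    exact hα
  -- the module `M S`
  let MS : Submodule (D.E G) k := M • Subalgebra.toSubmodule S
  have hMS : ∀ x ∈ MS, x ∈ S := by
    intro x hx
    exact Submodule.smul_le_right hx
  have hmul : ∀ x ∈ MS, ∀ y ∈ S, y * x ∈ MS := by
    intro x hx y hy
    refine Submodule.smul_induction_on (p := fun x => y * x ∈ MS) hx ?_ ?_
    · intro r hr n hn
      rw [mul_smul_comm]
      exact Submodule.smul_mem_smul hr (S.mul_mem hy hn)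
    · intro a b ha hb
      rw [mul_add]
      exact MS.add_mem ha hb
  let I : Ideal N :=
    { carrier := {x | (x : k) ∈ MS}
      add_mem' := fun {a b} ha hb => MS.add_mem ha hb
      zero_mem' := MS.zero_mem
      smul_mem' := fun c x hx => hmul _ hx _ c.2 }
  have hI : ∀ x : N, x ∈ I ↔ (x : k) ∈ MS := fun _ => Iff.rfl
  have hItop : I ≠ ⊤ := by
    obtain ⟨P, hP, hPM⟩ := Ideal.exists_ideal_over_maximal_of_isIntegral (S := S) M (by
      rw [(RingHom.injective_iff_ker_eq_bot _).1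
        (FaithfulSMul.algebraMap_injective (D.E G) S)]
      exact bot_le)
    intro htop
    have h2 : (1 : k) ∈ MS := (hI 1).1 (by rw [htop]; trivial)
    have h3 : ∀ x ∈ MS, ∃ h : x ∈ S, (⟨x, h⟩ : S) ∈ P := by
      intro x hx
      refine Submodule.smul_induction_on (p := fun x => ∃ h : x ∈ S, (⟨x, h⟩ : S) ∈ P) hx ?_ ?_
      · intro r hr n hn
        refine ⟨S.smul_mem hn r, ?_⟩
        have h4 : algebraMap (D.E G) S r ∈ P := by
          have : r ∈ P.comap (algebraMap (D.E G) S) := by rw [hPM]; exact hr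
          exact this
        have h5 : (⟨r • n, S.smul_mem hn r⟩ : S) = algebraMap (D.E G) S r * ⟨n, hn⟩ := by
          apply Subtype.ext
          exact Algebra.smul_def r n
        rw [h5]
        exact P.mul_mem_right _ h4
      · rintro a b ⟨ha, ha'⟩ ⟨hb, hb'⟩
        exact ⟨S.add_mem ha hb, P.add_mem ha' hb'⟩
    obtain ⟨h4, h5⟩ := h3 1 h2
    exact hP.ne_top ((Ideal.eq_top_iff_one _).2 h5)
  -- definability
  have hMdef : ∀ x, x ∈ D.I G ↔ ∃ h : x ∈ D.E G, (⟨x, h⟩ : D.E G) ∈ M := fun x =>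
    D.mem_I_iff hk hℓ hℓp h1 h0 hG
  have hIdef : (univ : Set k).Definable₁ Language.ring
      {x | ∃ h : x ∈ N, (⟨x, h⟩ : N) ∈ I} := by
    have hfg : (Subalgebra.toSubmodule S).FG := hα.fg_adjoin_singleton
    obtain ⟨m, s, hs⟩ := Submodule.fg_iff_exists_fin_generating_family.1 hfg
    have h2 : ∀ x : k, (∃ h : x ∈ N, (⟨x, h⟩ : N) ∈ I) ↔
        ∃ c : Fin m → k, (∀ i, c i ∈ D.I G) ∧ x = ∑ i, c i * s i := by
      intro x
      constructor
      · rintro ⟨h, hx⟩
        have h3 : x ∈ M • Submodule.span (D.E G) (Set.range s) := by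
          rw [hs]
          exact hx
        rw [Submodule.mem_ideal_smul_span_iff_exists_sum] at h3
        obtain ⟨a, ha, hax⟩ := h3
        refine ⟨fun i => (a i : k), fun i => (hMdef _).2 ⟨(a i).2, ha i⟩, ?_⟩
        rw [← hax]
        refine (Finsupp.sum_fintype _ _ (fun i => zero_smul (D.E G) (s i))).trans ?_
        exact Finset.sum_congr rfl fun i _ => Algebra.smul_def _ _
      · rintro ⟨c, hc, rfl⟩
        have h3 : ∑ i, c i * s i ∈ MS := by
          refine MS.sum_mem fun i _ => ?_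
          obtain ⟨h, hcM⟩ := (hMdef _).1 (hc i)
          have h4 : s i ∈ Subalgebra.toSubmodule S := by
            rw [← hs]
            exact Submodule.subset_span (mem_range_self i)
          exact Submodule.smul_mem_smul hcM h4
        exact ⟨hMS _ h3, h3⟩
    have e1 : (univ : Set k).Definable Language.ring {v : Fin 1 ⊕ Fin m → k |
        ∀ i, v (Sum.inr i) ∈ {x | x ∈ D.I G}} := by
      have := definable_iInter_of_finite (fun i : Fin m =>
        def_mem hdef (f := fun v : Fin 1 ⊕ Fin m → k => v (Sum.inr i)) (dfun_var _))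
      convert this using 1
      ext v
      simp only [mem_ofPred_eq, mem_iInter]
    have e2 : (univ : Set k).Definable Language.ring {v : Fin 1 ⊕ Fin m → k |
        v (Sum.inl 0) = ∑ i, v (Sum.inr i) * s i} :=
      DefinableFun.ofPred_eq (dfun_var _) (dfun_sum _ _ fun i _ =>
        dfun_mul (dfun_var _) (dfun_const (mem_univ _)))
    have h3 := (e1.inter e2).exists_of_finite
    unfold Definable₁
    convert h3 using 1
    ext v
    simp only [mem_ofPred_eq]
    rw [h2]
    rfl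
  -- `M S` consists of infinitesimals
  have hinf : ∀ x ∈ MS, x ∈ Inf K (Pw k ℓ) := by
    intro x hx a
    have h2 : algebraMap K k a * x ∈ MS := hmul x hx _ (hKN a)
    exact one_add_mem_of_ideal (K := K) hk hℓ hℓp N hKN I hItop hIdef
      (z := ⟨algebraMap K k a * x, hMS _ h2⟩) h2
  have hle : ∀ x ∈ MS, x ∈ D.I G := by
    intro x hx g hg
    obtain ⟨hgE, hgu⟩ := hG g hg
    obtain ⟨v, hv⟩ := hgu.exists_right_inv
    have h2 : g * (v : k) = 1 := congrArg Subtype.val hv
    have h3 : x / g = (v : k) * x := by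
      have := h0 g hg
      rw [div_eq_iff this, mul_comm (v : k) x, mul_assoc, mul_comm (v : k) g, h2, mul_one]
    rw [h3]
    exact hinf _ (hmul x hx _ (hES v))
  intro d hd
  apply hle
  obtain ⟨h, hdM⟩ := (hMdef d).1 hd
  have h2 : (⟨d, h⟩ : D.E G) • α ∈ MS := Submodule.smul_mem_smul hdM hαS
  rwa [Algebra.smul_def, mul_comm] at h2

end Pool.Agent.NIPFields.LG
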