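import Mathlib
import Pool.Agent.NIPFields.LG.FTScal
import Pool.Agent.NIPFields.LG.FTLoc
import Pool.Agent.NIPFields.LG.IntClosed

set_option autoImplicit false

/-!
# Definable subrings of NIP fields of characteristic `p`
-/

namespace Pool.Agent.NIPFields.LG

open FirstOrder FirstOrder.Language FirstOrder.Ring Set IsLocalRing
open Pool.Agent.NIPFields.FI
open scoped Polynomial TensorProduct

universe u v w

/-- Definable subrings have finitely many maximal ideals. -/
theorem finite_maximal_of_def {k : Type u} [Field k] [CompatibleRing k] (hk : NIP k)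
    (R : Subring k) (hR : (univ : Set k).Definable₁ Language.ring {x | x ∈ R}) :
    Finite (MaximalSpectrum R) := by
  classical
  have hRel : (univ : Set k).Definable Language.ring {w : Fin 1 ⊕ Fin 1 → k |
      w (Sum.inl 0) * w (Sum.inr 0) ∈ {x | x ∈ R}} :=
    def_mem hR (dfun_mul (dfun_var _) (dfun_var _))
  obtain ⟨A, hA, hAR⟩ := definable_iff_finitely_definable.1 hRel
  obtain ⟨n, hn⟩ := hk.definable (A : Set k) A.finite_toSet _ hAR
  by_contra hinf
  rw [not_finite_iff_infinite] at hinf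
  obtain ⟨S, hS⟩ := Infinite.exists_subset_card_eq (MaximalSpectrum R) (n + 2)
  let e : Fin (n + 2) ≃ S := (Fintype.equivFinOfCardEq (by rw [Fintype.card_coe, hS])).symm
  let M : Fin (n + 2) → Ideal R := fun x => (e x : MaximalSpectrum R).asIdeal
  have hM : ∀ x, (M x).IsMaximal := fun x => (e x : MaximalSpectrum R).isMaximal
  have hco : Pairwise fun x x' => IsCoprime (M x) (M x') := by
    intro x x' hxx'
    have h1 : M x ≠ M x' := by
      intro h
      apply hxx'
      apply e.injective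
      apply Subtype.ext
      exact MaximalSpectrum.ext h
    exact Ideal.isCoprime_iff_sup_eq.2 ((hM x).coprime_of_ne (hM x') h1)
  have hex : ∀ i, ∃ r : R, r ∈ M i ∧ ∀ j, j ≠ i → r - 1 ∈ M j := by
    intro i
    obtain ⟨r, hr⟩ := Ideal.exists_forall_sub_mem_ideal (I := M) hco
      (fun j => if j = i then 0 else 1)
    refine ⟨r, ?_, fun j hj => ?_⟩
    · have := hr i
      rwa [if_pos rfl, sub_zero] at this
    · have := hr j
      rwa [if_neg hj] at this
  choose r hr1 hr2 using hex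
  have hr0 : ∀ i, (r i : k) ≠ 0 := by
    intro i h
    have h2 : r i = 0 := Subtype.ext h
    obtain ⟨j, hj⟩ : ∃ j : Fin (n + 2), j ≠ i := exists_ne i
    have h3 := hr2 i j hj
    rw [h2, zero_sub] at h3
    exact (hM j).ne_top ((Ideal.eq_top_iff_one _).2 (by simpa using (M j).neg_mem h3))
  let P : Fin (n + 2) → R := fun i => ∏ j ∈ Finset.univ.erase i, r j
  have hP : ∀ i, P i ∉ M i := by
    intro i h
    obtain ⟨j, hj, hjM⟩ := (hM i).isPrime.prod_mem_iff.1 h
    have h1 := hr2 j i (Finset.ne_of_mem_erase hj).symm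
    have h2 := (M i).sub_mem hjM h1
    rw [sub_sub_cancel] at h2
    exact (hM i).ne_top ((Ideal.eq_top_iff_one _).2 h2)
  have hPE : ∀ i, (r i : k)⁻¹ * (P i : k) ∉ R := by
    intro i h
    apply hP i
    have h1 : P i = ⟨_, h⟩ * r i := by
      apply Subtype.ext
      push_cast
      have := hr0 i
      field_simp
    rw [h1]
    exact (M i).mul_mem_left _ (hr1 i)
  have hPE' : ∀ i j, j ≠ i → (r j : k)⁻¹ * (P i : k) ∈ R := by
    intro i j hj
    have h3 : P i = r j * ∏ x ∈ (Finset.univ.erase i).erase j, r x :=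
      (Finset.mul_prod_erase _ _ (Finset.mem_erase.2 ⟨hj, Finset.mem_univ j⟩)).symm
    have h4 : (r j : k)⁻¹ * (P i : k) = ((∏ x ∈ (Finset.univ.erase i).erase j, r x : R) : k) := by
      rw [h3, Subring.coe_mul, inv_mul_cancel_left₀ (hr0 j)]
    rw [h4]
    exact Subtype.mem _
  let ε : Fin n → Fin (n + 2) := Fin.castAdd 2
  have hε : Function.Injective ε := Fin.castAdd_injective _ _
  let s : Finset (Fin n) → k := fun T => ∑ i ∈ T, (P (ε i) : k)
  have hs : ∀ j T, (r (ε j) : k)⁻¹ * s T ∈ R ↔ j ∉ T := by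
    intro j T
    have h0 : (r (ε j) : k)⁻¹ * s T = ∑ i ∈ T, (r (ε j) : k)⁻¹ * (P (ε i) : k) :=
      Finset.mul_sum _ _ _
    constructor
    · intro h hj
      rw [h0, ← Finset.add_sum_erase _ _ hj] at h
      have h1 : ∑ i ∈ T.erase j, (r (ε j) : k)⁻¹ * (P (ε i) : k) ∈ R :=
        R.sum_mem fun i hi => hPE' _ _ fun h => (Finset.ne_of_mem_erase hi) (hε h).symm
      have h2 := R.sub_mem h h1
      rw [add_sub_cancel_right] at h2
      exact hPE _ h2
    · intro hj
      rw [h0]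
      refine R.sum_mem fun i hi => hPE' _ _ fun h => ?_
      rw [hε h] at hj
      exact hj hi
  obtain ⟨i, J, hiJ⟩ := hn (fun i _ => (r (ε i) : k)⁻¹) (fun J _ => s Jᶜ)
  apply hiJ
  have h1 := hs i Jᶜ
  rw [Finset.mem_compl, not_not] at h1
  exact h1

/-- A definable set in the one-dimensional algebra. -/
theorem ldef_single {k : Type u} [Field k] [CompatibleRing k] {S : Set k}
    (hS : (univ : Set k).Definable₁ Language.ring S) :
    CA.LDef₁ (Module.Basis.singleton (Fin 1) k) S := by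
  have h1 := def_mem hS (CA.LFun.var (e := Module.Basis.singleton (Fin 1) k) () 0)
  unfold CA.LDef₁ CA.LDef
  convert h1 using 1
  ext v
  simp only [mem_ofPred_eq, Module.Basis.singleton_repr]

/-- Definable subrings with many units are local. -/
theorem isLocalRing_of_def {p : ℕ} [hp : Fact p.Prime] {k : Type u} [Field k] [CharP k p]
    [CompatibleRing k] (hk : NIP k) (R : Subring k)
    (hR : (univ : Set k).Definable₁ Language.ring {x | x ∈ R}) (hMU : MU p R) :
    IsLocalRing R := by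
  classical
  have hchE : CharP R p := RingHom.charP R.subtype Subtype.val_injective p
  have hfin := finite_maximal_of_def hk R hR
  have _ := Fintype.ofFinite (MaximalSpectrum R)
  let Jc : Ideal R := Ideal.jacobson ⊥
  have hJc : ∀ x, x ∈ Jc ↔ ∀ M : MaximalSpectrum R, x ∈ M.asIdeal := by
    intro x
    constructor
    · intro h M
      exact (Ideal.mem_sInf.1 h) ⟨bot_le, M.isMaximal⟩
    · intro h
      refine Ideal.mem_sInf.2 fun {I} hI => ?_
      exact h ⟨I, hI.2⟩
  let J : AddSubgroup k := Jc.toAddSubgroup.map R.subtype.toAddMonoidHom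
  have hJ : ∀ x, x ∈ J ↔ ∃ h : x ∈ R, (⟨x, h⟩ : R) ∈ Jc := by
    intro x
    constructor
    · rintro ⟨y, hy, rfl⟩
      exact ⟨y.2, hy⟩
    · rintro ⟨h, hy⟩
      exact ⟨⟨x, h⟩, hy, rfl⟩
  have hJdef : (univ : Set k).Definable₁ Language.ring {x | x ∈ J} := by
    have h1 : ∀ x : k, x ∈ J ↔ x ∈ R ∧ ∀ y : Fin 1 → k, ¬ (y 0 ∈ R) ∨
        ∃ z : Fin 1 → k, z 0 ∈ R ∧ (x * y 0 + 1) * z 0 = 1 := by
      intro x
      rw [hJ]
      constructor
      · rintro ⟨h, hx⟩
        refine ⟨h, fun y => ?_⟩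
        by_cases hy : y 0 ∈ R
        · right
          have h2 := (Ideal.mem_jacobson_bot.1 hx) ⟨y 0, hy⟩
          obtain ⟨z, hz⟩ := h2.exists_right_inv
          exact ⟨fun _ => z, z.2, congrArg Subtype.val hz⟩
        · exact Or.inl hy
      · rintro ⟨h, hx⟩
        refine ⟨h, Ideal.mem_jacobson_bot.2 fun y => ?_⟩
        rcases hx (fun _ => y) with h2 | ⟨z, hz, hz'⟩
        · exact absurd y.2 h2
        · exact IsUnit.of_mul_eq_one ⟨z 0, hz⟩ (Subtype.ext hz')
    have e1 : (univ : Set k).Definable Language.ring {v : Fin 1 → k | v 0 ∈ {x | x ∈ R}} :=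
      def_mem hR (dfun_var _)
    have e2 : (univ : Set k).Definable Language.ring
        {v : (Fin 1 ⊕ Fin 1) → k | v (Sum.inr 0) ∈ {x | x ∈ R}} := def_mem hR (dfun_var _)
    have e3 : (univ : Set k).Definable Language.ring
        {v : (Fin 1 ⊕ Fin 1) ⊕ Fin 1 → k | v (Sum.inr 0) ∈ {x | x ∈ R}} :=
      def_mem hR (dfun_var _)
    have e4 : (univ : Set k).Definable Language.ring
        {v : (Fin 1 ⊕ Fin 1) ⊕ Fin 1 → k |
          (v (Sum.inl (Sum.inl 0)) * v (Sum.inl (Sum.inr 0)) + 1) * v (Sum.inr 0) = 1} :=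
      DefinableFun.ofPred_eq (dfun_mul (dfun_add (dfun_mul (dfun_var _) (dfun_var _))
        (dfun_const (mem_univ _))) (dfun_var _)) (dfun_const (mem_univ _))
    have e5 := (e3.inter e4).exists_of_finite
    have e6 := (e2.compl.union e5).forall_of_finite
    unfold Definable₁
    convert e1.inter e6 using 1
    ext v
    exact h1 (v 0)
  let b : Module.Basis (Fin 1) k k := Module.Basis.singleton (Fin 1) k
  have hsurj : ∀ x ∈ J, ∃ u ∈ J, u ^ p - u = x := by
    refine CA.as_surj_def hk R hMU b J (ldef_single hJdef) ?_ ?_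
    · intro a ha x hx
      obtain ⟨hxE, hxJ⟩ := (hJ x).1 hx
      exact (hJ _).2 ⟨R.mul_mem ha hxE, Jc.mul_mem_left ⟨a, ha⟩ hxJ⟩
    · intro x hx
      obtain ⟨hxE, hxJ⟩ := (hJ x).1 hx
      exact (hJ _).2 ⟨R.pow_mem hxE _, Jc.pow_mem_of_mem hxJ _ hp.out.pos⟩
  obtain ⟨M₁, hM₁⟩ := Ideal.exists_maximal R
  refine IsLocalRing.of_unique_max_ideal ⟨M₁, hM₁, fun M₂ hM₂ => ?_⟩
  by_contra hne
  have hco : Pairwise fun x x' : MaximalSpectrum R => IsCoprime x.asIdeal x'.asIdeal := by
    intro x x' hxx'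
    have h2 : x.asIdeal ≠ x'.asIdeal := fun h => hxx' (MaximalSpectrum.ext h)
    exact Ideal.isCoprime_iff_sup_eq.2 (x.isMaximal.coprime_of_ne x'.isMaximal h2)
  obtain ⟨e, he⟩ := Ideal.exists_forall_sub_mem_ideal (I := fun M : MaximalSpectrum R =>
    M.asIdeal) hco (fun M => if M = ⟨M₁, hM₁⟩ then 0 else 1)
  have he1 : e ∈ M₁ := by
    have := he ⟨M₁, hM₁⟩
    rwa [if_pos rfl, sub_zero] at this
  have he2 : ∀ M : MaximalSpectrum R, M.asIdeal ≠ M₁ → e - 1 ∈ M.asIdeal := by
    intro M hM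
    have := he M
    rwa [if_neg (fun h => hM (congrArg MaximalSpectrum.asIdeal h))] at this
  have hePJ : e ^ p - e ∈ Jc := by
    rw [hJc]
    intro M
    by_cases hM : M.asIdeal = M₁
    · rw [hM]
      exact M₁.sub_mem (M₁.pow_mem_of_mem he1 p hp.out.pos) he1
    · have h2 := he2 M hM
      have h3 : e ^ p - e = ((e - 1) ^ p - (e - 1)) := by
        rw [sub_pow_char, one_pow]
        ring
      rw [h3]
      exact M.asIdeal.sub_mem (M.asIdeal.pow_mem_of_mem h2 p hp.out.pos) h2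
  obtain ⟨u, hu, hue⟩ := hsurj ((e ^ p - e : R) : k) ((hJ _).2 ⟨_, hePJ⟩)
  obtain ⟨huE, huJ⟩ := (hJ u).1 hu
  have h2 : ((e : k) - u) ^ p = (e : k) - u := by
    rw [sub_pow_char]
    push_cast at hue
    linear_combination -hue
  obtain ⟨ν, hν⟩ := exists_nat_of_pow h2
  have h3 : e - ⟨u, huE⟩ = (ν : R) := by
    apply Subtype.ext
    push_cast
    exact hν
  have h4 : (ν : R) ∈ M₁ := by
    rw [← h3]
    exact M₁.sub_mem he1 ((hJc _).1 huJ ⟨M₁, hM₁⟩)
  have h5 : (ν : R) = 0 := by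
    by_contra h0'
    apply hM₁.ne_top
    apply Ideal.eq_top_of_isUnit_mem _ h4
    have hpν : ¬ p ∣ ν := fun h => h0' ((CharP.cast_eq_zero_iff R p ν).2 h)
    exact (CharP.isUnit_natCast_iff hp.out).2 hpν
  have h6 : e = ⟨u, huE⟩ := by
    rw [h5] at h3
    exact sub_eq_zero.1 h3
  have h7 : e ∈ M₂ := by
    rw [h6]
    exact (hJc _).1 huJ ⟨M₂, hM₂⟩
  have h8 := he2 ⟨M₂, hM₂⟩ hne
  exact hM₂.ne_top ((Ideal.eq_top_iff_one _).2 (by
    have := M₂.sub_mem h7 h8
    rwa [sub_sub_cancel] at this))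

end Pool.Agent.NIPFields.LG
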