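import Mathlib
import Pool.Agent.NIPFields.LG.FTDef

set_option autoImplicit false

/-!
# Definable subrings of NIP fields of characteristic `p`: henselianity and powers
-/

namespace Pool.Agent.NIPFields.LG

open FirstOrder FirstOrder.Language FirstOrder.Ring Set IsLocalRing
open Pool.Agent.NIPFields.FI
open scoped Polynomial TensorProduct

universe u v w

/-- Definable local subrings with many units are henselian. -/
theorem henselian_of_def {p : ℕ} [hp : Fact p.Prime] {k : Type u} [Field k] [CharP k p]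
    [CompatibleRing k] (hk : NIP k) (R : Subring k)
    (hR : (univ : Set k).Definable₁ Language.ring {x | x ∈ R}) (hMU : MU p R) :
    HenselianLocalRing R := by
  classical
  have hloc : IsLocalRing R := isLocalRing_of_def hk R hR hMU
  have hchE : CharP R p := RingHom.charP R.subtype Subtype.val_injective p
  refine henselian_of_as (p := p) fun f hf hdeg x hx => ?_
  let A := AdjoinRoot f
  let bo := (AdjoinRoot.powerBasis' hf).basis
  have hfin : Module.Finite R A := Module.Finite.of_basis bo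
  let Q := k ⊗[R] A
  let b := Algebra.TensorProduct.basis k bo
  let ι : A →+* Q := (Algebra.TensorProduct.includeRight : A →ₐ[R] Q).toRingHom
  have hrep : ∀ a m, b.repr (ι a) m = (bo.repr a m : k) := by
    intro a m
    have h2 : ι a = (1 : k) ⊗ₜ[R] a := rfl
    rw [h2, Algebra.TensorProduct.basis_repr_tmul, one_smul, Finsupp.mapRange_apply]
    rfl
  have hιinj : Function.Injective ι := by
    intro a a' haa'
    apply bo.repr.injective
    ext m
    rw [← hrep, ← hrep, haa']
  have hntA : Nontrivial A := by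
    have h2 : Function.Injective (algebraMap R A) :=
      AdjoinRoot.of.injective_of_degree_ne_zero (f := f) (by
        rw [Polynomial.degree_eq_natDegree hf.ne_zero]
        exact_mod_cast hdeg.ne')
    exact h2.nontrivial
  have hnt : Nontrivial Q := hιinj.nontrivial
  have hlift : ∀ (z : Q) (c : _ → R), (∀ m, b.repr z m = (c m : k)) →
      z = ι (∑ m, c m • bo m) := by
    intro z c hc
    apply b.repr.injective
    ext m
    rw [hc, hrep]
    congr 1
    rw [bo.repr_sum_self]
  let M : Ideal R := maximalIdeal R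
  let S : Set k := {x | ∃ h : x ∈ R, (⟨x, h⟩ : R) ∈ M}
  have hS : (univ : Set k).Definable₁ Language.ring S := by
    have h1 : ∀ x : k, x ∈ S ↔ x ∈ R ∧ ∀ y : Fin 1 → k, ¬ (y 0 ∈ R ∧ x * y 0 = 1) := by
      intro x
      constructor
      · rintro ⟨h, hx⟩
        refine ⟨h, fun y hy => ?_⟩
        rw [mem_maximalIdeal] at hx
        exact hx (IsUnit.of_mul_eq_one ⟨y 0, hy.1⟩ (Subtype.ext hy.2))
      · rintro ⟨h, hx⟩
        refine ⟨h, ?_⟩
        rw [mem_maximalIdeal]
        intro hu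
        obtain ⟨v, hv⟩ := hu.exists_right_inv
        exact hx (fun _ => v) ⟨v.2, congrArg Subtype.val hv⟩
    have e1 : (univ : Set k).Definable Language.ring {v : Fin 1 → k | v 0 ∈ {x | x ∈ R}} :=
      def_mem hR (dfun_var _)
    have e2 : (univ : Set k).Definable Language.ring
        {v : (Fin 1 ⊕ Fin 1) → k | v (Sum.inr 0) ∈ {x | x ∈ R}} := def_mem hR (dfun_var _)
    have e3 : (univ : Set k).Definable Language.ring
        {v : (Fin 1 ⊕ Fin 1) → k | v (Sum.inl 0) * v (Sum.inr 0) = 1} :=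
      DefinableFun.ofPred_eq (dfun_mul (dfun_var _) (dfun_var _)) (dfun_const (mem_univ _))
    have e4 := (e2.inter e3).compl.forall_of_finite
    unfold Definable₁
    convert e1.inter e4 using 1
    ext v
    exact h1 (v 0)
  let B : Subring Q := ι.range
  have hB : ∀ x, x ∈ B ↔ ∀ m, b.repr x m ∈ R := by
    intro x
    constructor
    · rintro ⟨a, rfl⟩ m
      rw [hrep]
      exact Subtype.mem _
    · intro h
      exact ⟨_, (hlift x (fun m => ⟨_, h m⟩) (fun m => rfl)).symm⟩
  let J : AddSubgroup Q := (M.map (algebraMap R A)).toAddSubgroup.map ι.toAddMonoidHom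
  have hJ' : ∀ x, x ∈ J ↔ ∃ a ∈ M.map (algebraMap R A), ι a = x := fun x => Iff.rfl
  have hJ : ∀ x, x ∈ J ↔ ∀ m, b.repr x m ∈ S := by
    intro x
    rw [hJ']
    constructor
    · rintro ⟨a, ha, rfl⟩ m
      refine ⟨by rw [hrep]; exact Subtype.mem _, ?_⟩
      have h2 := (mem_map_iff_repr bo M a).1 ha m
      have h3 : (⟨b.repr (ι a) m, by rw [hrep]; exact Subtype.mem _⟩ : R) = bo.repr a m :=
        Subtype.ext (hrep a m)
      rw [h3]
      exact h2
    · intro h
      choose h2 h3 using h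
      refine ⟨_, ?_, (hlift x (fun m => ⟨_, h2 m⟩) (fun m => rfl)).symm⟩
      rw [mem_map_iff_repr bo]
      intro m
      rw [bo.repr_sum_self]
      exact h3 m
  have hJB : ∀ x ∈ J, ∀ y ∈ B, y * x ∈ J := by
    rintro _ ⟨a, ha, rfl⟩ _ ⟨c, rfl⟩
    refine ⟨c * a, Ideal.mul_mem_left _ _ ha, ?_⟩
    exact map_mul ι c a
  obtain ⟨z, hz, hzx⟩ := CA.as_surj_def hk R hMU b J (by
      have h2 : {v : Unit → Q | v () ∈ {x | x ∈ J}} = ⋂ m, {v : Unit → Q |
          b.repr (v ()) m ∈ S} := by
        ext v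
        simp only [mem_ofPred_eq, mem_iInter]
        exact hJ _
      unfold CA.LDef₁
      rw [h2]
      refine CA.LDef.iInter fun m => ?_
      exact def_mem hS (CA.LFun.var (e := b) () m)) (by
      rintro a ha x hx
      refine hJB x hx _ ⟨algebraMap R A ⟨a, ha⟩, ?_⟩
      have h2 : ι (algebraMap R A ⟨a, ha⟩) = algebraMap R Q ⟨a, ha⟩ :=
        (Algebra.TensorProduct.includeRight : A →ₐ[R] Q).commutes _
      rw [h2, IsScalarTower.algebraMap_apply R k Q]
      rfl) (by
      rintro _ ⟨a, ha, rfl⟩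
      refine ⟨a ^ p, Ideal.pow_mem_of_mem _ ha _ hp.out.pos, ?_⟩
      exact map_pow ι a p) (ι x) ((hJ' _).2 ⟨x, hx, rfl⟩)
  obtain ⟨a, ha, rfl⟩ := (hJ' z).1 hz
  refine ⟨a, ha, hιinj ?_⟩
  rw [map_sub, map_pow]
  exact hzx

/-- Elements `1 + z`, `z` in a definable proper ideal of a subring with many units, are `ℓ`-th
powers. -/
theorem one_add_mem_of_idealA {p : ℕ} [hp : Fact p.Prime] {k : Type u} [Field k]
    [CharP k p] [CompatibleRing k] (hk : NIP k) {ℓ : ℕ}
    (hℓ : ℓ.Prime) (hℓp : ℓ ≠ p) (N : Subring k) (hN : MU p N)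
    (I : Ideal N) (hI : I ≠ ⊤)
    (hdef : (univ : Set k).Definable₁ Language.ring {x | ∃ h : x ∈ N, (⟨x, h⟩ : N) ∈ I})
    {z : N} (hz : z ∈ I) : 1 + (z : k) ∈ Pw k ℓ := by
  classical
  by_contra hcon
  -- `1 + z` is not an `ℓ`-th power
  have hunit : ∀ w : N, w ∈ I → (w : k) ≠ 1 ∧ 1 + (w : k) ≠ 0 := by
    intro w hw
    constructor
    · intro h
      have h2 : w = 1 := Subtype.ext h
      rw [h2] at hw
      exact hI ((Ideal.eq_top_iff_one _).2 hw)
    · intro h
      have h2 : w = -1 := Subtype.ext (by push_cast; linear_combination h)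
      rw [h2] at hw
      have h3 := I.neg_mem hw
      rw [neg_neg] at h3
      exact hI ((Ideal.eq_top_iff_one _).2 h3)
  have hno : ∀ b : k, b ^ ℓ ≠ 1 + (z : k) := by
    intro b hb
    apply hcon
    refine ⟨b, ?_, hb.symm⟩
    rintro rfl
    rw [zero_pow hℓ.pos.ne'] at hb
    exact (hunit z hz).2 hb.symm
  obtain ⟨Q, _, _, b, α, B, J, hb, hα, hB, hJ, hJB⟩ := exists_kummer_ideal N I hℓ z hno
  have hℓ2 : 2 ≤ ℓ := hℓ.two_le
  -- the inverse of `ℓ`
  have : CharP Q p := charP_of_injective_algebraMap (algebraMap k Q).injective p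
  have hℓk : (ℓ : k) ≠ 0 := by
    intro h
    rw [CharP.cast_eq_zero_iff k p] at h
    exact hℓp ((Nat.prime_dvd_prime_iff_eq hp.out hℓ).1 h).symm
  have hinvE : (ℓ : k)⁻¹ ∈ N := by
    have := σF_mem N ((ℓ : ZMod p)⁻¹)
    rwa [map_inv₀, map_natCast] at this
  -- coordinates of constants
  have hconst : ∀ w : k, ∀ m : Fin ℓ, b.repr (algebraMap k Q w) m = if (m : ℕ) = 0 then w else 0 := by
    intro w m
    have h2 : algebraMap k Q w = w • b ⟨0, hℓ.pos⟩ := by
      rw [hb, pow_zero, Algebra.smul_def, mul_one]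
    rw [h2, map_smul, Module.Basis.repr_self, Finsupp.smul_apply, Finsupp.single_apply, smul_eq_mul]
    by_cases hm : (m : ℕ) = 0
    · rw [if_pos hm, if_pos (Fin.ext hm.symm), mul_one]
    · rw [if_neg hm, if_neg (fun h => hm (by rw [← h])), mul_zero]
  have hconstB : ∀ w ∈ N, algebraMap k Q w ∈ B := by
    intro w hw
    rw [hB]
    intro m
    rw [hconst]
    split_ifs
    · exact hw
    · exact zero_mem _
  have hconstJ : ∀ w : N, w ∈ I → algebraMap k Q (w : k) ∈ J := by
    intro w hw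
    rw [hJ]
    intro m
    have h2 := hconst (w : k) m
    by_cases hm : (m : ℕ) = 0
    · rw [if_pos hm] at h2
      refine ⟨by rw [h2]; exact w.2, ?_⟩
      convert hw
    · rw [if_neg hm] at h2
      refine ⟨by rw [h2]; exact zero_mem _, ?_⟩
      convert I.zero_mem
      rw [h2]
      rfl
  have hJsubB : ∀ x ∈ J, x ∈ B := fun x hx => (hB x).2 fun m => ((hJ x).1 hx m).choose
  -- Artin-Schreier
  have hAS : ∀ x ∈ J, ∃ u ∈ J, u ^ p - u = x := by
    refine CA.as_surj_def hk N hN b J ?_ ?_ ?_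
    · have h2 : {v : Unit → Q | v () ∈ {x | x ∈ J}} = ⋂ m : Fin ℓ, {v : Unit → Q |
          b.repr (v ()) m ∈ {x | ∃ h : x ∈ N, (⟨x, h⟩ : N) ∈ I}} := by
        ext v
        simp only [mem_ofPred_eq, mem_iInter]
        exact hJ _
      unfold CA.LDef₁
      rw [h2]
      refine CA.LDef.iInter fun m => ?_
      exact def_mem hdef (CA.LFun.var (e := b) () m)
    · exact fun a ha x hx => hJB x hx _ (hconstB _ ha)
    · intro x hx
      have hp2 : p = (p - 1) + 1 := (Nat.sub_add_cancel hp.out.one_le).symm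
      rw [hp2, pow_succ]
      exact hJB x hx _ (B.pow_mem (hJsubB x hx) _)
  have hαB : α ∈ B := by
    rw [hB]
    intro m
    have h2 : α = b ⟨1, hℓ2⟩ := by rw [hb, pow_one]
    rw [h2, Module.Basis.repr_self, Finsupp.single_apply]
    split_ifs
    · exact one_mem _
    · exact zero_mem _
  -- the element `e`
  set c : Q := algebraMap k Q (ℓ : k)⁻¹ with hc
  have hcB : c ∈ B := hconstB _ hinvE
  have hcℓ : (ℓ : Q) * c = 1 := by
    rw [hc, ← map_natCast (algebraMap k Q), ← map_mul, mul_inv_cancel₀ hℓk, map_one]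
  set e : Q := c * ∑ i ∈ Finset.range ℓ, α ^ i with he
  have heB : e ∈ B := B.mul_mem hcB (B.sum_mem fun i _ => B.pow_mem hαB i)
  have hrepr_e : ∀ m, b.repr e m = (ℓ : k)⁻¹ := by
    intro m
    have h2 : e = ∑ i, (ℓ : k)⁻¹ • b i := by
      rw [he, Finset.mul_sum, ← Fin.sum_univ_eq_sum_range (fun i => c * α ^ i) ℓ]
      refine Finset.sum_congr rfl fun i _ => ?_
      rw [hb, Algebra.smul_def]
    rw [h2, Module.Basis.repr_sum_self]
  have hαe : α * e - e ∈ J := by
    have h2 : α * e - e = algebraMap k Q (((⟨_, hinvE⟩ : N) * z : N) : k) := by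
      have h3 : (α - 1) * ∑ i ∈ Finset.range ℓ, α ^ i = α ^ ℓ - 1 := mul_geom_sum α ℓ
      have h4 : α * e - e = c * ((α - 1) * ∑ i ∈ Finset.range ℓ, α ^ i) := by
        rw [he]; ring
      have h5 : (((⟨_, hinvE⟩ : N) * z : N) : k) = (ℓ : k)⁻¹ * (z : k) := rfl
      rw [h4, h3, hα, h5, map_add, map_one, map_mul, ← hc]
      ring
    rw [h2]
    exact hconstJ _ (Ideal.mul_mem_left _ _ hz)
  have hαme : ∀ m : ℕ, α ^ m * e - e ∈ J := by
    intro m
    induction m with
    | zero =>
      rw [pow_zero, one_mul, sub_self]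
      exact J.zero_mem
    | succ m ih =>
      have h2 : α ^ (m + 1) * e - e = α * (α ^ m * e - e) + (α * e - e) := by ring
      rw [h2]
      exact J.add_mem (hJB _ ih _ hαB) hαe
  have hee : e * e - e ∈ J := by
    have h2 : e * e - e = ∑ i ∈ Finset.range ℓ, c * (α ^ i * e - e) := by
      have h3 : ∑ i ∈ Finset.range ℓ, c * (α ^ i * e - e) =
          (c * ∑ i ∈ Finset.range ℓ, α ^ i) * e - ((ℓ : Q) * c) * e := by
        rw [← Finset.mul_sum, Finset.sum_sub_distrib, ← Finset.sum_mul, Finset.sum_const,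
          Finset.card_range, nsmul_eq_mul]
        ring
      rw [h3, hcℓ, one_mul, ← he]
    rw [h2]
    exact J.sum_mem fun i _ => hJB _ (hαme i) _ hcB
  have hepow : ∀ n : ℕ, e ^ (n + 1) - e ∈ J := by
    intro n
    induction n with
    | zero =>
      rw [zero_add, pow_one, sub_self]
      exact J.zero_mem
    | succ n ih =>
      have h2 : e ^ (n + 1 + 1) - e = e * (e ^ (n + 1) - e) + (e * e - e) := by ring
      rw [h2]
      exact J.add_mem (hJB _ ih _ heB) hee
  have hep : e ^ p - e ∈ J := by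
    have := hepow (p - 1)
    rwa [Nat.sub_add_cancel hp.out.one_le] at this
  obtain ⟨u, huJ, hu⟩ := hAS _ hep
  -- `e - u` is in the prime field
  have hfix : (e - u) ^ p = e - u := by
    rw [sub_pow_char]
    linear_combination -hu
  have hbot : e - u ∈ (⊥ : Subfield Q) := (Subfield.mem_bot_iff_pow_eq_self Q p).2 hfix
  have hrange : e - u ∈ (algebraMap k Q).fieldRange :=
    (bot_le : (⊥ : Subfield Q) ≤ (algebraMap k Q).fieldRange) hbot
  obtain ⟨w, hw⟩ := hrange
  have hu1 : b.repr u ⟨1, hℓ2⟩ = (ℓ : k)⁻¹ := by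
    have h2 : u = e - algebraMap k Q w := by rw [hw]; ring
    rw [h2, map_sub, Finsupp.sub_apply, hrepr_e, hconst, if_neg (by simp), sub_zero]
  obtain ⟨h2, h3⟩ := (hJ u).1 huJ ⟨1, hℓ2⟩
  have hnat : (ℓ : k) ∈ N := natCast_mem _ ℓ
  have h4 := Ideal.mul_mem_left I (⟨_, hnat⟩ : N) h3
  refine (hunit _ h4).1 ?_
  show (ℓ : k) * b.repr u ⟨1, hℓ2⟩ = 1
  rw [hu1, mul_inv_cancel₀ hℓk]


end Pool.Agent.NIPFields.LG
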