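import Mathlib
import Pool.Agent.NIPFields.LG.FTNb
import Pool.Agent.NIPFields.LG.FTDef2

set_option autoImplicit false

/-!
# Good finite sets and their rings
-/

namespace Pool.Agent.NIPFields.LG

open FirstOrder FirstOrder.Language FirstOrder.Ring Set IsLocalRing
open Pool.Agent.NIPFields.FI
open scoped Polynomial

universe u v w

/-- The stabiliser of `Wn k ℓ A`. -/
def St (k : Type*) [Field k] (ℓ : ℕ) (A : Finset k) : Set k :=
  {x | ∀ u ∈ Wn k ℓ A, x * u ∈ Wn k ℓ A}

/-- `Wn k ℓ A` is the maximal ideal of the local ring `St k ℓ A`, which contains `A` and is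
Artin-Schreier closed. -/
structure GR (k : Type*) [Field k] (ℓ p : ℕ) (A : Finset k) : Prop where
  add : ∀ u ∈ Wn k ℓ A, ∀ v ∈ Wn k ℓ A, u + v ∈ Wn k ℓ A
  neg : ∀ u ∈ Wn k ℓ A, -u ∈ Wn k ℓ A
  mul : ∀ u ∈ Wn k ℓ A, ∀ v ∈ Wn k ℓ A, u * v ∈ Wn k ℓ A
  one : (1 : k) ∉ Wn k ℓ A
  inv : ∀ x ∈ St k ℓ A, x ∉ Wn k ℓ A → x⁻¹ ∈ St k ℓ A
  coef : ∀ a ∈ A, a ∈ St k ℓ A
  as : ∀ y ∈ St k ℓ A, ∃ x ∈ St k ℓ A, x ^ p - x = y

section

variable {k : Type*} [Field k] {ℓ p : ℕ} {A : Finset k}

theorem GR.sub (h : GR k ℓ p A) {u v : k} (hu : u ∈ Wn k ℓ A) (hv : v ∈ Wn k ℓ A) :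
    u - v ∈ Wn k ℓ A := by
  rw [sub_eq_add_neg]
  exact h.add _ hu _ (h.neg _ hv)

/-- The ring. -/
def GR.E (h : GR k ℓ p A) : Subring k where
  carrier := St k ℓ A
  mul_mem' := by
    intro x y hx hy u hu
    rw [mul_assoc]
    exact hx _ (hy _ hu)
  one_mem' := by
    intro u hu
    rwa [one_mul]
  add_mem' := by
    intro x y hx hy u hu
    rw [add_mul]
    exact h.add _ (hx _ hu) _ (hy _ hu)
  zero_mem' := by
    intro u _
    rw [zero_mul]
    exact zero_mem_Wn A
  neg_mem' := by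
    intro x hx u hu
    rw [neg_mul]
    exact h.neg _ (hx _ hu)

theorem GR.mem_E (h : GR k ℓ p A) {x : k} : x ∈ h.E ↔ x ∈ St k ℓ A := Iff.rfl

theorem GR.Wn_sub (h : GR k ℓ p A) {x : k} (hx : x ∈ Wn k ℓ A) : x ∈ St k ℓ A :=
  fun u hu => h.mul x hx u hu

/-- The maximal ideal. -/
def GR.M (h : GR k ℓ p A) : Ideal h.E where
  carrier := {x | (x : k) ∈ Wn k ℓ A}
  add_mem' := fun ha hb => h.add _ ha _ hb
  zero_mem' := zero_mem_Wn A
  smul_mem' := fun c _ hx => c.2 _ hx

theorem GR.mem_M (h : GR k ℓ p A) {x : h.E} : x ∈ h.M ↔ (x : k) ∈ Wn k ℓ A := Iff.rfl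

theorem GR.isUnit_iff (h : GR k ℓ p A) {x : h.E} : IsUnit x ↔ (x : k) ∉ Wn k ℓ A := by
  constructor
  · intro hu hx
    obtain ⟨v, hv⟩ := hu.exists_left_inv
    apply h.one
    have h1 : (v : k) * (x : k) = 1 := congrArg Subtype.val hv
    rw [← h1]
    exact v.2 _ hx
  · intro hx
    have h1 := h.inv _ x.2 hx
    refine IsUnit.of_mul_eq_one ⟨_, h1⟩ (Subtype.ext ?_)
    refine mul_inv_cancel₀ ?_
    intro h0
    apply hx
    rw [h0]
    exact zero_mem_Wn A

theorem GR.isLocalRing (h : GR k ℓ p A) : IsLocalRing h.E := by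
  refine IsLocalRing.of_nonunits_add fun a b ha hb => ?_
  rw [mem_nonunits_iff, h.isUnit_iff, not_not] at *
  exact h.add _ ha _ hb

theorem GR.maximalIdeal_eq (h : GR k ℓ p A) [IsLocalRing h.E] : maximalIdeal h.E = h.M := by
  ext x
  rw [mem_maximalIdeal, mem_nonunits_iff, h.isUnit_iff, not_not, h.mem_M]

theorem GR.notMem_imp (h : GR k ℓ p A) {x : k} (hx : x ∉ St k ℓ A) : x ≠ 0 := by
  rintro rfl
  exact hx h.E.zero_mem

end

/-- Local subrings that are Artin-Schreier closed have many units. -/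
theorem MU_of_as {p : ℕ} [hp : Fact p.Prime] {k : Type*} [Field k] [CharP k p] (R : Subring k)
    [IsLocalRing R] (h : ∀ y ∈ R, ∃ x ∈ R, x ^ p - x = y) : MU p R := by
  classical
  have hchR : CharP R p := RingHom.charP R.subtype Subtype.val_injective p
  let F := ResidueField R
  have hchF : CharP F p := by
    refine (CharP.charP_iff_prime_eq_zero hp.out).2 ?_
    rw [← map_natCast (residue R), CharP.cast_eq_zero, map_zero]
  have hinf : Infinite F := by
    by_contra hfin
    rw [not_infinite_iff_finite] at hfin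
    let g : F → F := fun x => x ^ p - x
    have hg : Function.Surjective g := by
      intro y
      obtain ⟨y, rfl⟩ := residue_surjective y
      obtain ⟨x, hx, hxy⟩ := h y y.2
      refine ⟨residue R ⟨x, hx⟩, ?_⟩
      simp only [g]
      rw [← map_pow, ← map_sub]
      congr 1
      exact Subtype.ext hxy
    have h1 := (Finite.injective_iff_surjective.2 hg) (a₁ := 0) (a₂ := 1) (by
      simp only [g]
      rw [zero_pow hp.out.ne_zero, one_pow, sub_zero, sub_self])
    exact zero_ne_one h1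
  intro N
  obtain ⟨l, hl⟩ := exists_ind (p := p) (K := F) N
  choose l' hl' using fun i => residue_surjective (l i)
  refine ⟨fun i => l' i, fun i => (l' i).2, fun c hc => ?_⟩
  have hval : ∀ {K : Type _} [Field K] [CharP K p] (m : Fin N → K),
      comb p m c = ∑ i, ((c i).val : K) * m i := by
    intro K _ _ m
    unfold comb
    refine Finset.sum_congr rfl fun i _ => ?_
    have h1 : σF p K (c i) = (((c i).val : ℕ) : K) := by
      conv_lhs => rw [← ZMod.natCast_zmod_val (c i)]
      rw [map_natCast]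
    rw [h1]
  have h2 : ((∑ i, ((c i).val : R) * l' i : R) : k) = comb p (fun i => (l' i : k)) c := by
    rw [hval]
    push_cast
    rfl
  have h3 : residue R (∑ i, ((c i).val : R) * l' i) = comb p l c := by
    unfold comb
    rw [map_sum]
    refine Finset.sum_congr rfl fun i _ => ?_
    rw [map_mul, hl', map_natCast]
    congr 1
    conv_rhs => rw [← ZMod.natCast_zmod_val (c i)]
    rw [map_natCast]
  have h4 : residue R (∑ i, ((c i).val : R) * l' i) ≠ 0 := by
    rw [h3]
    intro h0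
    exact hc (hl c (by rw [mem_DS]; intro j hj; exact absurd (Finset.mem_univ j) hj) h0)
  have h5 : IsUnit (∑ i, ((c i).val : R) * l' i) := by
    by_contra hnu
    exact h4 ((residue_eq_zero_iff _).2 ((mem_maximalIdeal _).2 hnu))
  obtain ⟨v, hv⟩ := h5.exists_right_inv
  have h6 : comb p (fun i => (l' i : k)) c * (v : k) = 1 := by
    rw [← h2]
    exact congrArg Subtype.val hv
  refine ⟨left_ne_zero_of_mul_eq_one h6, ?_⟩
  rw [← eq_inv_of_mul_eq_one_right h6]
  exact v.2

section

variable {p : ℕ} [hp : Fact p.Prime] {k : Type u} [Field k] [CharP k p] {ℓ : ℕ} {A : Finset k}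

theorem GR.mu (h : GR k ℓ p A) : MU p h.E :=
  have := h.isLocalRing
  MU_of_as h.E h.as

variable [CompatibleRing k]

omit hp [CharP k p] in
theorem def_Wn (ℓ : ℕ) (A : Finset k) : (univ : Set k).Definable₁ Language.ring (Wn k ℓ A) :=
  def_US (K := k) ℓ A

omit hp [CharP k p] in
theorem def_St (ℓ : ℕ) (A : Finset k) : (univ : Set k).Definable₁ Language.ring (St k ℓ A) :=
  def_stab (def_Wn ℓ A)

theorem GR.henselian (hk : NIP k) (h : GR k ℓ p A) : HenselianLocalRing h.E :=
  henselian_of_def hk h.E (def_St ℓ A) h.mu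

/-- `Wn` contains all definable proper ideals of larger rings. -/
theorem GR.le_of_ideal (hk : NIP k) (hℓ : ℓ.Prime) (hℓp : ℓ ≠ p) (h : GR k ℓ p A)
    (S : Subring k) (hES : h.E ≤ S) (I : Ideal S) (hI : I ≠ ⊤)
    (hdef : (univ : Set k).Definable₁ Language.ring {x | ∃ h : x ∈ S, (⟨x, h⟩ : S) ∈ I})
    {x : S} (hx : x ∈ I) : (x : k) ∈ Wn k ℓ A := by
  intro a ha
  have haS : a ∈ S := hES (h.coef a ha)
  exact one_add_mem_of_idealA hk hℓ hℓp S (h.mu.mono hES) I hI hdef
    (I.mul_mem_left ⟨a, haS⟩ hx)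

/-- The rings are integrally closed. -/
theorem GR.integrally_closed (hk : NIP k) (hℓ : ℓ.Prime) (hℓp : ℓ ≠ p) (h : GR k ℓ p A) {α : k}
    (hα : IsIntegral h.E α) : α ∈ h.E := by
  classical
  have hloc := h.isLocalRing
  let M := maximalIdeal h.E
  let S : Subalgebra h.E k := Algebra.adjoin h.E {α}
  let N : Subring k := S.toSubring
  have hαS : α ∈ S := Algebra.subset_adjoin (mem_singleton α)
  have hES : ∀ e : h.E, (e : k) ∈ S := fun e => S.algebraMap_mem e
  have hEN : h.E ≤ N := fun e he => hES ⟨e, he⟩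
  have hint : Algebra.IsIntegral h.E S := by
    refine Algebra.IsIntegral.adjoin ?_
    intro x hx
    rw [mem_singleton_iff.1 hx]
    exact hα
  -- the module `M S`
  let MS : Submodule h.E k := M • Subalgebra.toSubmodule S
  have hMS : ∀ x ∈ MS, x ∈ S := by
    intro x hx
    exact Submodule.smul_le_right hx
  have hmul : ∀ x ∈ MS, ∀ y ∈ S, y * x ∈ MS := by
    intro x hx y hy
    refine Submodule.smul_induction_on (p := fun x => y * x ∈ MS) hx ?_ ?_
    · intro r hr n hn
      rw [mul_smul_comm]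
      exact Submodule.smul_mem_smul hr (S.mul_mem hy hn)
    · intro a b ha hb
      rw [mul_add]
      exact MS.add_mem ha hb
  let I : Ideal N :=
    { carrier := {x | (x : k) ∈ MS}
      add_mem' := fun {a b} ha hb => MS.add_mem ha hb
      zero_mem' := MS.zero_mem
      smul_mem' := fun c x hx => hmul _ hx _ c.2 }
  have hI : ∀ x : N, x ∈ I ↔ (x : k) ∈ MS := fun _ => Iff.rfl
  have hItop : I ≠ ⊤ := by
    obtain ⟨P, hP, hPM⟩ := Ideal.exists_ideal_over_maximal_of_isIntegral (S := S) M (by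
      rw [(RingHom.injective_iff_ker_eq_bot _).1
        (FaithfulSMul.algebraMap_injective h.E S)]
      exact bot_le)
    intro htop
    have h2 : (1 : k) ∈ MS := (hI 1).1 (by rw [htop]; trivial)
    have h3 : ∀ x ∈ MS, ∃ h : x ∈ S, (⟨x, h⟩ : S) ∈ P := by
      intro x hx
      refine Submodule.smul_induction_on (p := fun x => ∃ h : x ∈ S, (⟨x, h⟩ : S) ∈ P) hx ?_ ?_
      · intro r hr n hn
        refine ⟨S.smul_mem hn r, ?_⟩
        have h4 : algebraMap h.E S r ∈ P := by
          have : r ∈ P.comap (algebraMap h.E S) := by rw [hPM]; exact hr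
          exact this
        have h5 : (⟨r • n, S.smul_mem hn r⟩ : S) = algebraMap h.E S r * ⟨n, hn⟩ := by
          apply Subtype.ext
          exact Algebra.smul_def r n
        rw [h5]
        exact P.mul_mem_right _ h4
      · rintro a b ⟨ha, ha'⟩ ⟨hb, hb'⟩
        exact ⟨S.add_mem ha hb, P.add_mem ha' hb'⟩
    obtain ⟨h4, h5⟩ := h3 1 h2
    exact hP.ne_top ((Ideal.eq_top_iff_one _).2 h5)
  -- definability
  have hMdef : ∀ x, x ∈ Wn k ℓ A ↔ ∃ h' : x ∈ h.E, (⟨x, h'⟩ : h.E) ∈ M := by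
    intro x
    have h1 : M = h.M := h.maximalIdeal_eq
    rw [h1]
    exact ⟨fun hx => ⟨h.Wn_sub hx, hx⟩, fun ⟨_, hx⟩ => hx⟩
  have hIdef : (univ : Set k).Definable₁ Language.ring
      {x | ∃ h : x ∈ N, (⟨x, h⟩ : N) ∈ I} := by
    have hfg : (Subalgebra.toSubmodule S).FG := hα.fg_adjoin_singleton
    obtain ⟨m, s, hs⟩ := Submodule.fg_iff_exists_fin_generating_family.1 hfg
    have h2 : ∀ x : k, (∃ h : x ∈ N, (⟨x, h⟩ : N) ∈ I) ↔
        ∃ c : Fin m → k, (∀ i, c i ∈ Wn k ℓ A) ∧ x = ∑ i, c i * s i := by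
      intro x
      constructor
      · rintro ⟨h', hx⟩
        have h3 : x ∈ M • Submodule.span h.E (Set.range s) := by
          rw [hs]
          exact hx
        rw [Submodule.mem_ideal_smul_span_iff_exists_sum] at h3
        obtain ⟨a, ha, hax⟩ := h3
        refine ⟨fun i => (a i : k), fun i => (hMdef _).2 ⟨(a i).2, ha i⟩, ?_⟩
        rw [← hax]
        refine (Finsupp.sum_fintype _ _ (fun i => zero_smul h.E (s i))).trans ?_
        exact Finset.sum_congr rfl fun i _ => Algebra.smul_def _ _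
      · rintro ⟨c, hc, rfl⟩
        have h3 : ∑ i, c i * s i ∈ MS := by
          refine MS.sum_mem fun i _ => ?_
          obtain ⟨h', hcM⟩ := (hMdef _).1 (hc i)
          have h4 : s i ∈ Subalgebra.toSubmodule S := by
            rw [← hs]
            exact Submodule.subset_span (mem_range_self i)
          exact Submodule.smul_mem_smul hcM h4
        exact ⟨hMS _ h3, h3⟩
    have e1 : (univ : Set k).Definable Language.ring {v : Fin 1 ⊕ Fin m → k |
        ∀ i, v (Sum.inr i) ∈ Wn k ℓ A} := by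
      have := definable_iInter_of_finite (fun i : Fin m =>
        def_mem (def_Wn ℓ A) (f := fun v : Fin 1 ⊕ Fin m → k => v (Sum.inr i)) (dfun_var _))
      convert this using 1
      ext v
      simp only [mem_ofPred_eq, mem_iInter]
    have e2 : (univ : Set k).Definable Language.ring {v : Fin 1 ⊕ Fin m → k |
        v (Sum.inl 0) = ∑ i, v (Sum.inr i) * s i} :=
      DefinableFun.ofPred_eq (dfun_var _) (dfun_sum _ _ fun i _ =>
        dfun_mul (dfun_var _) (dfun_const (mem_univ _)))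
    have h3 := (e1.inter e2).exists_of_finite
    unfold Definable₁
    convert h3 using 1
    ext v
    simp only [mem_ofPred_eq]
    rw [h2]
    rfl
  intro d hd
  obtain ⟨h', hdM⟩ := (hMdef d).1 hd
  have h2 : (⟨d, h'⟩ : h.E) • α ∈ MS := Submodule.smul_mem_smul hdM hαS
  have h3 : α * d ∈ MS := by
    rwa [Algebra.smul_def, mul_comm] at h2
  exact h.le_of_ideal hk hℓ hℓp N hEN I hItop hIdef (x := ⟨α * d, hMS _ h3⟩) h3

end

end Pool.Agent.NIPFields.LG
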