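import Mathlib
import Pool.Agent.NIPFields.LG.FTGood

set_option autoImplicit false

/-!
# Enlarging a good ring that is not a valuation ring
-/

namespace Pool.Agent.NIPFields.LG

open FirstOrder FirstOrder.Language FirstOrder.Ring Set IsLocalRing
open Pool.Agent.NIPFields.FI
open scoped Polynomial

universe u v w

/-- Finite width for the multiples of `W`. -/
def InW {k : Type*} [Field k] (W : Set k) (n : ℕ) : Prop :=
  ∀ g : Fin n → k, (∀ i, g i ≠ 0) → ∃ i, ∀ d : k, (∀ j, j ≠ i → d / g j ∈ W) → d / g i ∈ W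

theorem InW.succ {k : Type*} [Field k] {W : Set k} {n : ℕ} (h : InW W n) : InW W (n + 1) := by
  intro g hg
  obtain ⟨i, hi⟩ := h (fun i => g i.castSucc) (fun i => hg _)
  refine ⟨i.castSucc, fun d hd => hi d fun j hj => hd _ fun h => hj ?_⟩
  exact Fin.castSucc_injective _ h

theorem exists_InW {k : Type u} [Field k] [CompatibleRing k] (hk : NIP k) (W : AddSubgroup k)
    (hW : (univ : Set k).Definable₁ Language.ring {x | x ∈ W}) :
    ∃ m : ℕ, InW {x | x ∈ W} (m + 2) := by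
  classical
  have hR : (univ : Set k).Definable Language.ring {w : Fin 1 ⊕ Fin 1 → k |
      w (Sum.inl 0) * w (Sum.inr 0) ∈ {x | x ∈ W}} :=
    def_mem hW (dfun_mul (dfun_var _) (dfun_var _))
  obtain ⟨A, hA, hAR⟩ := definable_iff_finitely_definable.1 hR
  obtain ⟨n, hn⟩ := hk.definable (A : Set k) A.finite_toSet _ hAR
  refine ⟨n, InW.succ (InW.succ ?_)⟩
  intro g hg
  by_contra hcon
  push Not at hcon
  choose d hd1 hd2 using hcon
  let s : Finset (Fin n) → k := fun S => ∑ i ∈ S, d i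
  have hs : ∀ j S, s S / g j ∈ W ↔ j ∉ S := by
    intro j S
    have h0 : s S / g j = ∑ i ∈ S, d i / g j := Finset.sum_div _ _ _
    constructor
    · intro h hj
      rw [h0, ← Finset.add_sum_erase _ _ hj] at h
      have h1 : ∑ i ∈ S.erase j, d i / g j ∈ W :=
        W.sum_mem fun i hi => hd1 i j (Finset.ne_of_mem_erase hi).symm
      have h2 := W.sub_mem h h1
      rw [add_sub_cancel_right] at h2
      exact hd2 j h2
    · intro hj
      rw [h0]
      refine W.sum_mem fun i hi => hd1 i j ?_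
      rintro rfl
      exact hj hi
  obtain ⟨i, J, hiJ⟩ := hn (fun i _ => (g i)⁻¹) (fun J _ => s Jᶜ)
  apply hiJ
  have h1 := hs i Jᶜ
  rw [Finset.mem_compl, not_not, div_eq_mul_inv, mul_comm] at h1
  exact h1

section

variable {p : ℕ} [hp : Fact p.Prime] {k : Type u} [Field k] [CharP k p] {ℓ : ℕ} {A : Finset k}
  [CompatibleRing k]

/-- The enlargement, with its maximal ideal. -/
theorem GR.step₂ (hk : NIP k) (hℓ : ℓ.Prime) (hℓp : ℓ ≠ p) (h : GR k ℓ p A) {y : k}
    (hy : y ∉ St k ℓ A) (hy' : y⁻¹ ∉ St k ℓ A) :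
    ∃ (m : ℕ) (g : Fin (m + 2) → k) (i₀ : Fin (m + 2)) (B : Finset k), g 0 = 1 ∧
      (∀ j, j ≠ 0 → ∃ x ∈ St k ℓ A, g j = y + x) ∧ (∀ j, g j ≠ 0) ∧
      (∀ j, g j ∈ St k ℓ B ∧ (g j)⁻¹ ∈ St k ℓ B) ∧
      Wn k ℓ B = {d | ∀ j, j ≠ i₀ → d / g j ∈ Wn k ℓ A} ∧
      GR k ℓ p B ∧ St k ℓ A ⊆ St k ℓ B ∧ Wn k ℓ B ⊆ Wn k ℓ A ∧ y ∈ St k ℓ B := by
  classical
  have hloc0 := h.isLocalRing
  let W : AddSubgroup k :=
    { carrier := Wn k ℓ A
      add_mem' := fun ha hb => h.add _ ha _ hb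
      zero_mem' := zero_mem_Wn A
      neg_mem' := fun ha => h.neg _ ha }
  obtain ⟨m, hIn⟩ := exists_InW hk W (def_Wn ℓ A)
  obtain ⟨xs, hxsE, hxs⟩ := h.mu (m + 2)
  have hdiff : ∀ i j : Fin (m + 2), i ≠ j → xs i - xs j ≠ 0 ∧ (xs i - xs j)⁻¹ ∈ h.E := by
    intro i j hij
    have h1 : xs i - xs j = comb p xs (Pi.single i (1 : ZMod p) - Pi.single j 1) := by
      rw [comb_sub, comb_single, comb_single]
    rw [h1]
    refine hxs _ fun h0 => ?_
    have h2 := congrFun h0 i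
    rw [Pi.sub_apply, Pi.single_eq_same, Pi.single_eq_of_ne hij, sub_zero, Pi.zero_apply] at h2
    exact one_ne_zero h2
  have hyx : ∀ x ∈ h.E, y + x ∉ h.E := fun x hx h1 => hy (by
    have := h.E.sub_mem h1 hx
    rwa [add_sub_cancel_right] at this)
  have hyx0 : ∀ x ∈ h.E, y + x ≠ 0 := fun x hx h1 => hyx x hx (by rw [h1]; exact h.E.zero_mem)
  let g : Fin (m + 2) → k := fun i => if i = 0 then 1 else y + xs i
  have hg0 : g 0 = 1 := if_pos rfl
  have hg1 : ∀ i, i ≠ 0 → g i = y + xs i := fun i hi => if_neg hi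
  have hgne : ∀ i, g i ≠ 0 := by
    intro i
    by_cases hi : i = 0
    · rw [hi, hg0]; exact one_ne_zero
    · rw [hg1 i hi]; exact hyx0 _ (hxsE i)
  -- the index
  obtain ⟨i₀, hi₀, hcase⟩ : ∃ i₀ : Fin (m + 2), i₀ ≠ 0 ∧
      ((∀ d : k, (∀ j, j ≠ i₀ → d / g j ∈ Wn k ℓ A) → d / g i₀ ∈ Wn k ℓ A) ∨
      (∀ d : k, (∀ j, j ≠ 0 → d / g j ∈ Wn k ℓ A) → d / g 0 ∈ Wn k ℓ A)) := by
    obtain ⟨i, hi⟩ := hIn g hgne
    by_cases h0 : i = 0
    · subst h0
      exact ⟨1, by simp, Or.inr hi⟩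
    · exact ⟨i, h0, Or.inl hi⟩
  -- the group
  let I : Set k := {d | ∀ j, j ≠ i₀ → d / g j ∈ Wn k ℓ A}
  have hIadd : ∀ u ∈ I, ∀ v ∈ I, u + v ∈ I := fun u hu v hv j hj => by
    rw [add_div]
    exact h.add _ (hu j hj) _ (hv j hj)
  have hI0 : (0 : k) ∈ I := fun j _ => by
    rw [zero_div]
    exact zero_mem_Wn A
  have hIneg : ∀ u ∈ I, -u ∈ I := fun u hu j hj => by
    rw [neg_div]
    exact h.neg _ (hu j hj)
  have hIE : ∀ x ∈ h.E, ∀ u ∈ I, x * u ∈ I := fun x hx u hu j hj => by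
    rw [mul_div_assoc]
    exact hx _ (hu j hj)
  have hIW : ∀ u ∈ I, u ∈ Wn k ℓ A := fun u hu => by
    have := hu 0 hi₀.symm
    rwa [hg0, div_one] at this
  -- the ring
  let R : Subring k :=
    { carrier := {x | ∀ u ∈ I, x * u ∈ I}
      mul_mem' := by
        intro x y hx hy u hu
        rw [mul_assoc]
        exact hx _ (hy _ hu)
      one_mem' := by
        intro u hu
        rwa [one_mul]
      add_mem' := by
        intro x y hx hy u hu
        rw [add_mul]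
        exact hIadd _ (hx _ hu) _ (hy _ hu)
      zero_mem' := by
        intro u _
        rw [zero_mul]
        exact hI0
      neg_mem' := by
        intro x hx u hu
        rw [neg_mul]
        exact hIneg _ (hx _ hu) }
  have hR : ∀ x, x ∈ R ↔ ∀ u ∈ I, x * u ∈ I := fun _ => Iff.rfl
  have hER : h.E ≤ R := fun x hx => (hR x).2 (hIE x hx)
  -- definability
  let B : Finset k := A.biUnion fun a => (Finset.univ.erase i₀).image fun j => a / g j
  have hB : ∀ b, b ∈ B ↔ ∃ a ∈ A, ∃ j, j ≠ i₀ ∧ a / g j = b := by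
    intro b
    simp only [B, Finset.mem_biUnion, Finset.mem_image, Finset.mem_erase, Finset.mem_univ,
      and_true]
  have hWB : Wn k ℓ B = I := by
    ext d
    constructor
    · intro hd j hj a ha
      have h1 := hd (a / g j) ((hB _).2 ⟨a, ha, j, hj, rfl⟩)
      rwa [div_mul_eq_mul_div, ← mul_div_assoc] at *
    · intro hd b hb
      obtain ⟨a, ha, j, hj, rfl⟩ := (hB b).1 hb
      have h1 := hd j hj a ha
      rwa [div_mul_eq_mul_div, ← mul_div_assoc] at *
  have hStB : ∀ x, x ∈ St k ℓ B ↔ x ∈ R := by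
    intro x
    rw [hR]
    unfold St
    rw [hWB]
    rfl
  have hRdef : (univ : Set k).Definable₁ Language.ring {x | x ∈ R} := by
    have h1 : {x | x ∈ R} = St k ℓ B := by
      ext x
      exact (hStB x).symm
    rw [h1]
    exact def_St ℓ B
  have hMUR : MU p R := h.mu.mono hER
  have hlocR : IsLocalRing R := isLocalRing_of_def hk R hRdef hMUR
  -- the maximal ideal
  have hMdef : (univ : Set k).Definable₁ Language.ring
      {x | ∃ h : x ∈ R, (⟨x, h⟩ : R) ∈ maximalIdeal R} := by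
    have h1 : ∀ x : k, (∃ h : x ∈ R, (⟨x, h⟩ : R) ∈ maximalIdeal R) ↔
        x ∈ R ∧ ∀ y : Fin 1 → k, ¬ (y 0 ∈ R ∧ x * y 0 = 1) := by
      intro x
      constructor
      · rintro ⟨h, hx⟩
        refine ⟨h, fun y hy => ?_⟩
        rw [mem_maximalIdeal] at hx
        exact hx (IsUnit.of_mul_eq_one ⟨y 0, hy.1⟩ (Subtype.ext hy.2))
      · rintro ⟨h, hx⟩
        refine ⟨h, ?_⟩
        rw [mem_maximalIdeal]
        intro hu
        obtain ⟨v, hv⟩ := hu.exists_right_inv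
        exact hx (fun _ => v) ⟨v.2, congrArg Subtype.val hv⟩
    have e1 : (univ : Set k).Definable Language.ring {v : Fin 1 → k | v 0 ∈ {x | x ∈ R}} :=
      def_mem hRdef (dfun_var _)
    have e2 : (univ : Set k).Definable Language.ring
        {v : (Fin 1 ⊕ Fin 1) → k | v (Sum.inr 0) ∈ {x | x ∈ R}} := def_mem hRdef (dfun_var _)
    have e3 : (univ : Set k).Definable Language.ring
        {v : (Fin 1 ⊕ Fin 1) → k | v (Sum.inl 0) * v (Sum.inr 0) = 1} :=
      DefinableFun.ofPred_eq (dfun_mul (dfun_var _) (dfun_var _)) (dfun_const (mem_univ _))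
    have e4 := (e2.inter e3).compl.forall_of_finite
    unfold Definable₁
    convert e1.inter e4 using 1
    ext v
    exact h1 (v 0)
  have hMW : ∀ x : R, x ∈ maximalIdeal R → (x : k) ∈ Wn k ℓ A := fun x hx =>
    h.le_of_ideal hk hℓ hℓp R hER (maximalIdeal R) (maximalIdeal.isMaximal R).ne_top hMdef hx
  have hunit : ∀ x : R, (x : k) ∉ Wn k ℓ A → (x : k) ≠ 0 ∧ (x : k)⁻¹ ∈ R := by
    intro x hx
    have h1 : IsUnit x := by
      by_contra hnu
      exact hx (hMW x ((mem_maximalIdeal _).2 hnu))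
    obtain ⟨v, hv⟩ := h1.exists_right_inv
    have h2 : (x : k) * v = 1 := congrArg Subtype.val hv
    refine ⟨left_ne_zero_of_mul_eq_one h2, ?_⟩
    rw [← eq_inv_of_mul_eq_one_right h2]
    exact v.2
  -- `g i₀ ∈ R`
  have hgR : g i₀ ∈ R := by
    rcases hcase with ha | hb
    · have hu : (g i₀)⁻¹ ∈ R := by
        rw [hR]
        intro d hd j hj
        by_cases hj0 : j = 0
        · rw [hj0, hg0, div_one, inv_mul_eq_div]
          exact ha d hd
        · obtain ⟨h1, h2⟩ := hdiff j i₀ hj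
          have h3 := h2 _ (h.sub (ha d hd) (hd j hj))
          have h4 : (g i₀)⁻¹ * d / g j = (xs j - xs i₀)⁻¹ * (d / g i₀ - d / g j) := by
            have h5 : xs j - xs i₀ = g j - g i₀ := by
              rw [hg1 j hj0, hg1 i₀ hi₀]
              ring
            rw [h5] at h1 ⊢
            have := hgne j
            have := hgne i₀
            field_simp
          rw [h4]
          exact h3
      have h1 : (g i₀)⁻¹ ∉ Wn k ℓ A := by
        intro h2
        apply hy'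
        have h3 := h.Wn_sub h2
        have h4 : 1 - xs i₀ * (g i₀)⁻¹ ∉ Wn k ℓ A := by
          intro h5
          apply h.one
          have h6 := h.add _ h5 _ (hxsE i₀ _ h2)
          rwa [sub_add_cancel] at h6
        have h5 : 1 - xs i₀ * (g i₀)⁻¹ ∈ h.E :=
          h.E.sub_mem h.E.one_mem (h.E.mul_mem (hxsE i₀) h3)
        have h6 : y⁻¹ = (g i₀)⁻¹ * (1 - xs i₀ * (g i₀)⁻¹)⁻¹ := by
          have h7 : y = g i₀ - xs i₀ := by
            rw [hg1 i₀ hi₀]; ring
          have h8 : 1 - xs i₀ * (g i₀)⁻¹ = y * (g i₀)⁻¹ := by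
            rw [h7, sub_mul, mul_inv_cancel₀ (hgne i₀)]
          rw [h8, mul_inv, inv_inv, mul_comm y⁻¹, ← mul_assoc, inv_mul_cancel₀ (hgne i₀), one_mul]
        rw [h6]
        exact h.E.mul_mem h3 (h.inv _ h5 h4)
      have h2 := (hunit ⟨_, hu⟩ h1).2
      rwa [inv_inv] at h2
    · rw [hR]
      intro d hd
      have hd0 : d ∈ Wn k ℓ A := hIW d hd
      have h2 : ∀ j, j ≠ 0 → g i₀ * d / g j ∈ Wn k ℓ A := by
        intro j hj
        by_cases hji : j = i₀
        · rw [hji, mul_div_cancel_left₀ _ (hgne i₀)]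
          exact hd0
        · have h3 : g i₀ * d / g j = d + (xs i₀ - xs j) * (d / g j) := by
            have h4 : g i₀ = g j + (xs i₀ - xs j) := by
              rw [hg1 j hj, hg1 i₀ hi₀]
              ring
            have := hgne j
            rw [h4]
            field_simp
          rw [h3]
          exact h.add _ hd0 _ ((h.E.sub_mem (hxsE i₀) (hxsE j)) _ (hd j hji))
      intro j _
      by_cases hj : j = 0
      · rw [hj]
        exact hb _ h2
      · exact h2 j hj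
  have hyR : y ∈ R := by
    have h2 := R.sub_mem hgR (hER (hxsE i₀))
    rwa [hg1 i₀ hi₀, add_sub_cancel_right] at h2
  have hgjR : ∀ j, g j ∈ R ∧ (g j)⁻¹ ∈ R := by
    intro j
    by_cases hj : j = 0
    · rw [hj, hg0, inv_one]
      exact ⟨R.one_mem, R.one_mem⟩
    · have h2 : g j ∈ R := by
        rw [hg1 j hj]
        exact R.add_mem hyR (hER (hxsE j))
      refine ⟨h2, (hunit ⟨_, h2⟩ ?_).2⟩
      intro h3
      apply hyx _ (hxsE j)
      rw [← hg1 j hj]
      exact h.Wn_sub h3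
  -- `I` is the maximal ideal
  have h1I : (1 : k) ∉ I := fun h1 => h.one (hIW 1 h1)
  have hMI : ∀ x : R, x ∈ maximalIdeal R → (x : k) ∈ I := by
    intro x hx j hj
    have h2 := hMW (⟨_, (hgjR j).2⟩ * x) (Ideal.mul_mem_left _ _ hx)
    rw [div_eq_inv_mul]
    exact h2
  have hIR : ∀ u ∈ I, u ∈ R := by
    intro u hu
    exact hER (h.Wn_sub (hIW u hu))
  have hIM : ∀ (u : k) (hu : u ∈ I), (⟨u, hIR u hu⟩ : R) ∈ maximalIdeal R := by
    intro u hu
    rw [mem_maximalIdeal]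
    intro hun
    obtain ⟨v, hv⟩ := hun.exists_left_inv
    apply h1I
    have h2 : (v : k) * u = 1 := congrArg Subtype.val hv
    rw [← h2]
    exact v.2 u hu
  refine ⟨m, g, i₀, B, hg0, fun j hj => ⟨xs j, hxsE j, hg1 j hj⟩, hgne,
    fun j => ⟨(hStB _).2 (hgjR j).1, (hStB _).2 (hgjR j).2⟩, hWB, ?_, ?_, ?_, (hStB y).2 hyR⟩
  · refine ⟨?_, ?_, ?_, ?_, ?_, ?_, ?_⟩
    · rw [hWB]; exact hIadd
    · rw [hWB]; exact hIneg
    · rw [hWB]
      exact fun u hu v hv => hIR u hu v hv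
    · rw [hWB]; exact h1I
    · intro x hx hxW
      rw [hWB] at hxW
      rw [hStB] at hx ⊢
      have h1 : IsUnit (⟨x, hx⟩ : R) := by
        by_contra hnu
        exact hxW (hMI _ ((mem_maximalIdeal _).2 hnu))
      obtain ⟨v, hv⟩ := h1.exists_right_inv
      have h2 : x * (v : k) = 1 := congrArg Subtype.val hv
      rw [← eq_inv_of_mul_eq_one_right h2]
      exact v.2
    · intro b hb
      obtain ⟨a, ha, j, hj, rfl⟩ := (hB b).1 hb
      rw [hStB, div_eq_mul_inv]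
      exact R.mul_mem (hER (h.coef a ha)) (hgjR j).2
    · intro z hz
      rw [hStB] at hz
      let JR : AddSubgroup k := R.toAddSubgroup
      obtain ⟨x, hx, hxz⟩ := CA.as_surj_def hk R hMUR (Module.Basis.singleton (Fin 1) k) JR
        (ldef_single hRdef) (fun a ha x hx => R.mul_mem ha hx) (fun x hx => R.pow_mem hx p) z hz
      exact ⟨x, (hStB x).2 hx, hxz⟩
  · intro x hx
    exact (hStB x).2 (hER hx)
  · rw [hWB]
    exact hIW

theorem GR.step (hk : NIP k) (hℓ : ℓ.Prime) (hℓp : ℓ ≠ p) (h : GR k ℓ p A) {y : k}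
    (hy : y ∉ St k ℓ A) (hy' : y⁻¹ ∉ St k ℓ A) :
    ∃ B : Finset k, GR k ℓ p B ∧ St k ℓ A ⊆ St k ℓ B ∧ Wn k ℓ B ⊆ Wn k ℓ A ∧ y ∈ St k ℓ B := by
  obtain ⟨m, g, i₀, B, -, -, -, -, -, h1, h2, h3, h4⟩ := h.step₂ hk hℓ hℓp hy hy'
  exact ⟨B, h1, h2, h3, h4⟩

/-- The new maximal ideal is smaller. -/
theorem GR.step' (hk : NIP k) (hℓ : ℓ.Prime) (hℓp : ℓ ≠ p) (h : GR k ℓ p A) {y : k}
    (hy : y ∉ St k ℓ A) (hy' : y⁻¹ ∉ St k ℓ A) :
    ∃ B : Finset k, GR k ℓ p B ∧ St k ℓ A ⊆ St k ℓ B ∧ Wn k ℓ B ⊆ Wn k ℓ A ∧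
      ∃ m ∈ Wn k ℓ A, m ∉ Wn k ℓ B := by
  obtain ⟨B, hB, h1, h2, h3⟩ := h.step hk hℓ hℓp hy hy'
  refine ⟨B, hB, h1, h2, ?_⟩
  by_contra hcon
  push Not at hcon
  have h4 : Wn k ℓ B = Wn k ℓ A := Subset.antisymm h2 hcon
  apply hy
  unfold St at *
  rw [h4] at h3
  exact h3

end

end Pool.Agent.NIPFields.LG
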