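import Mathlib
import Pool.Agent.NIPFields.LG.FTStep
import Pool.Agent.NIPFields.LG.Final

set_option autoImplicit false

/-!
# Good rings in the ultrapower and in the field
-/

namespace Pool.Agent.NIPFields.LG

open FirstOrder FirstOrder.Language FirstOrder.Ring Set Filter IsLocalRing
open Pool.Agent.NIPFields.FI

universe u v w

theorem eventually_forall_choice {ι X : Type*} [Nonempty X] {F : Filter ι} {Φ : ι → X → Prop}
    (h : ∀ f : ι → X, ∀ᶠ t in F, Φ t (f t)) : ∀ᶠ t in F, ∀ x, Φ t x := by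
  classical
  let f : ι → X := fun t => if ht : ∃ x, ¬ Φ t x then ht.choose else Classical.arbitrary X
  filter_upwards [h f] with t ht x
  by_contra hx
  have h1 : ∃ x, ¬ Φ t x := ⟨x, hx⟩
  have h2 : f t = h1.choose := dif_pos h1
  rw [h2] at ht
  exact h1.choose_spec ht

section

variable {K : Type u} [Field K] {ℓ p : ℕ}

/-- A representative. -/
noncomputable def rp (g : Germ (UF K : Filter (Finset K)) K) : Finset K → K :=
  (Quotient.exists_rep g : ∃ f : Finset K → K, (↑f : Germ (UF K : Filter (Finset K)) K) = g).choose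

omit [Field K] in
theorem rp_spec (g : Germ (UF K : Filter (Finset K)) K) :
    (↑(rp g) : Germ (UF K : Filter (Finset K)) K) = g :=
  (Quotient.exists_rep g : ∃ f : Finset K → K,
    (↑f : Germ (UF K : Filter (Finset K)) K) = g).choose_spec

open Classical in
/-- The fibres of a finite set of the ultrapower. -/
noncomputable def fib (A : Finset (Germ (UF K : Filter (Finset K)) K)) (t : Finset K) : Finset K :=
  A.image fun a => rp a t

theorem mem_Wn_germ (A : Finset (Germ (UF K : Filter (Finset K)) K)) (f : Finset K → K) :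
    (↑f : Germ (UF K : Filter (Finset K)) K) ∈ Wn (Germ (UF K : Filter (Finset K)) K) ℓ A ↔
      ∀ᶠ t in (UF K : Filter (Finset K)), f t ∈ Wn K ℓ (fib A t) := by
  classical
  have h1 : ∀ t, f t ∈ Wn K ℓ (fib A t) ↔ ∀ a ∈ A, 1 + rp a t * f t ∈ Pw K ℓ := by
    intro t
    unfold fib Wn
    simp only [mem_ofPred_eq, Finset.mem_image]
    constructor
    · intro h a ha
      exact h _ ⟨a, ha, rfl⟩
    · rintro h _ ⟨a, ha, rfl⟩
      exact h a ha
  simp only [h1]
  rw [Filter.eventually_all_finset]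
  refine forall₂_congr fun a _ => ?_
  have h2 : 1 + a * (↑f : Germ (UF K : Filter (Finset K)) K) =
      ((↑(fun t => 1 + rp a t * f t)) : Germ (UF K : Filter (Finset K)) K) := by
    conv_lhs => rw [← rp_spec a]
    rfl
  rw [h2, mem_Pw_germ]

theorem mem_St_germ (A : Finset (Germ (UF K : Filter (Finset K)) K)) (f : Finset K → K) :
    (↑f : Germ (UF K : Filter (Finset K)) K) ∈ St (Germ (UF K : Filter (Finset K)) K) ℓ A ↔
      ∀ᶠ t in (UF K : Filter (Finset K)), f t ∈ St K ℓ (fib A t) := by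
  classical
  constructor
  · intro h
    refine eventually_forall_choice (fun g => ?_)
    rw [Ultrafilter.eventually_imp]
    intro hg
    have h1 := h _ ((mem_Wn_germ A g).2 hg)
    rw [← Germ.coe_mul, mem_Wn_germ] at h1
    exact h1
  · intro h u hu
    induction u using Germ.inductionOn with | _ g
    rw [mem_Wn_germ] at hu
    rw [← Germ.coe_mul, mem_Wn_germ]
    filter_upwards [h, hu] with t h1 h2
    exact h1 _ h2

/-- Good rings transfer from the ultrapower. -/
theorem GR.of_germ {A : Finset (Germ (UF K : Filter (Finset K)) K)}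
    (h : GR (Germ (UF K : Filter (Finset K)) K) ℓ p A) : ∃ B : Finset K, GR K ℓ p B := by
  classical
  have e1 : ∀ᶠ t in (UF K : Filter (Finset K)), ∀ u, u ∈ Wn K ℓ (fib A t) →
      ∀ v, v ∈ Wn K ℓ (fib A t) → u + v ∈ Wn K ℓ (fib A t) := by
    refine eventually_forall_choice (fun f => ?_)
    rw [Ultrafilter.eventually_imp]
    intro hf
    refine eventually_forall_choice (fun g => ?_)
    rw [Ultrafilter.eventually_imp]
    intro hg
    have h1 := h.add _ ((mem_Wn_germ A f).2 hf) _ ((mem_Wn_germ A g).2 hg)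
    rw [← Germ.coe_add, mem_Wn_germ] at h1
    exact h1
  have e2 : ∀ᶠ t in (UF K : Filter (Finset K)), ∀ u, u ∈ Wn K ℓ (fib A t) →
      -u ∈ Wn K ℓ (fib A t) := by
    refine eventually_forall_choice (fun f => ?_)
    rw [Ultrafilter.eventually_imp]
    intro hf
    have h1 := h.neg _ ((mem_Wn_germ A f).2 hf)
    rw [← Germ.coe_neg, mem_Wn_germ] at h1
    exact h1
  have e3 : ∀ᶠ t in (UF K : Filter (Finset K)), ∀ u, u ∈ Wn K ℓ (fib A t) →
      ∀ v, v ∈ Wn K ℓ (fib A t) → u * v ∈ Wn K ℓ (fib A t) := by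
    refine eventually_forall_choice (fun f => ?_)
    rw [Ultrafilter.eventually_imp]
    intro hf
    refine eventually_forall_choice (fun g => ?_)
    rw [Ultrafilter.eventually_imp]
    intro hg
    have h1 := h.mul _ ((mem_Wn_germ A f).2 hf) _ ((mem_Wn_germ A g).2 hg)
    rw [← Germ.coe_mul, mem_Wn_germ] at h1
    exact h1
  have e4 : ∀ᶠ t in (UF K : Filter (Finset K)), (1 : K) ∉ Wn K ℓ (fib A t) := by
    rw [Ultrafilter.eventually_not]
    intro h1
    apply h.one
    rw [← Germ.coe_one, mem_Wn_germ]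
    exact h1
  have e5 : ∀ᶠ t in (UF K : Filter (Finset K)), ∀ x, x ∈ St K ℓ (fib A t) →
      x ∉ Wn K ℓ (fib A t) → x⁻¹ ∈ St K ℓ (fib A t) := by
    refine eventually_forall_choice (fun f => ?_)
    rw [Ultrafilter.eventually_imp]
    intro hf
    rw [Ultrafilter.eventually_imp, Ultrafilter.eventually_not]
    intro hf'
    have h1 := h.inv _ ((mem_St_germ A f).2 hf) (fun h2 => hf' ((mem_Wn_germ A f).1 h2))
    rw [← Germ.coe_inv, mem_St_germ] at h1
    exact h1
  have e6 : ∀ᶠ t in (UF K : Filter (Finset K)), ∀ a ∈ A, rp a t ∈ St K ℓ (fib A t) := by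
    rw [Filter.eventually_all_finset]
    intro a ha
    have h1 := h.coef a ha
    rw [← rp_spec a, mem_St_germ] at h1
    exact h1
  have e7 : ∀ᶠ t in (UF K : Filter (Finset K)), ∀ y, y ∈ St K ℓ (fib A t) →
      ∃ x, x ∈ St K ℓ (fib A t) ∧ x ^ p - x = y := by
    refine eventually_forall_choice (fun f => ?_)
    rw [Ultrafilter.eventually_imp]
    intro hf
    obtain ⟨x, hx, hxy⟩ := h.as _ ((mem_St_germ A f).2 hf)
    induction x using Germ.inductionOn with | _ g
    rw [mem_St_germ] at hx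
    rw [← Germ.coe_pow, ← Germ.coe_sub, Germ.coe_eq] at hxy
    filter_upwards [hx, hxy] with t h1 h2
    exact ⟨g t, h1, h2⟩
  obtain ⟨t, h1, h2, h3, h4, h5, h6, h7⟩ :=
    (e1.and (e2.and (e3.and (e4.and (e5.and (e6.and e7)))))).exists
  refine ⟨fib A t, h1, h2, h3, h4, h5, ?_, h7⟩
  intro a ha
  obtain ⟨a', ha', rfl⟩ := Finset.mem_image.1 ha
  exact h6 a' ha'

end

/-- Subrings that contain an infinite field have many units. -/
theorem MU_of_field {p : ℕ} [hp : Fact p.Prime] {K k : Type*} [Field K] [CharP K p] [Infinite K]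
    [Field k] [CharP k p] (φ : K →+* k) (R : Subring k) (h : ∀ a, φ a ∈ R) : MU p R := by
  intro N
  obtain ⟨l, hl⟩ := exists_ind (p := p) (K := K) N
  refine ⟨fun i => φ (l i), fun i => h _, fun c hc => ?_⟩
  rw [← map_comb]
  have h1 : comb p l c ≠ 0 := fun h0 => hc (hl c (by
    rw [mem_DS]; intro j hj; exact absurd (Finset.mem_univ j) hj) h0)
  refine ⟨(_root_.map_ne_zero _).2 h1, ?_⟩
  rw [← map_inv₀]
  exact h _

section

variable {p : ℕ} [hp : Fact p.Prime] {K : Type v} {k : Type u} [Field K]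
  [CharP K p] [Infinite K] [Field k] [Algebra K k] [CompatibleRing k]

/-- If the ring `O` is not a valuation ring, then there is a good finite set. -/
theorem LD.exists_GR (hk : NIP k) {ℓ : ℕ} (hℓ : ℓ.Prime) (hℓp : ℓ ≠ p) (D : LD K k ℓ)
    {y : k} (hy : y ∉ D.E {1}) (hy' : y⁻¹ ∉ D.E {1}) : ∃ A : Finset k, GR k ℓ p A := by
  classical
  have hchk : CharP k p := charP_of_injective_algebraMap (algebraMap K k).injective p
  obtain ⟨G, h1G, h0G, hloc, hyE, hGu⟩ := D.exists_tower hk hℓ hℓp hy hy'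
  obtain ⟨F', hF'⟩ := D.exists_UGood
  have h1I : (1 : k) ∉ D.I G := fun h => one_notMem (D.I_le_J h1G h)
  have hinv : ∀ g ∈ G, g⁻¹ ∈ D.E G := by
    intro g hg
    obtain ⟨hgE, hgu⟩ := hGu g hg
    obtain ⟨v, hv⟩ := hgu.exists_right_inv
    have h2 : g * (v : k) = 1 := congrArg Subtype.val hv
    rw [← eq_inv_of_mul_eq_one_right h2]
    exact v.2
  have hMI : ∀ z : D.E G, z ∈ maximalIdeal (D.E G) → (z : k) ∈ D.I G := by
    intro z hz g hg
    have h3 : (z : k) / g = ((⟨_, hinv g hg⟩ * z : D.E G) : k) := by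
      rw [Subring.coe_mul, div_eq_inv_mul]
    rw [h3]
    exact D.maximal_le hk hℓ hℓp h1G h0G (Ideal.mul_mem_left _ _ hz)
  have hIU : ∀ d, d ∈ D.I G ↔ ∀ g ∈ G, d / g ∈ US K ℓ k F' := by
    intro d
    refine ⟨fun hd g hg => Inf_subset_US F' (hd g hg), fun hd => ?_⟩
    have hdJ : ∀ j ∈ Inf K (Pw k ℓ), d * j ∈ D.I G := by
      intro j hj g hg
      have h2 := D.mem_O.1 (hF'.mem_O D (hd g hg)) j hj
      have h3 : d * j / g = d / g * j := by ring
      rw [h3]
      exact h2
    have hdE : d ∈ D.E G := fun x hx => hdJ x (D.I_le_J h1G hx)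
    apply hMI ⟨d, hdE⟩
    rw [mem_maximalIdeal]
    intro hu
    obtain ⟨v, hv⟩ := hu.exists_left_inv
    have h2 : (v : k) * d = 1 := congrArg Subtype.val hv
    apply hy
    rw [D.mem_O]
    intro j hj
    have h3 := v.2 _ (hdJ j hj)
    rw [← mul_assoc, h2, one_mul] at h3
    exact D.I_le_J h1G (hyE j h3)
  let A : Finset k := (F' ×ˢ G).image fun x => algebraMap K k x.1 / x.2
  have hWA : Wn k ℓ A = {d | d ∈ D.I G} := by
    ext d
    rw [mem_ofPred_eq, hIU]
    constructor
    · intro hd g hg f hf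
      have h1 := hd (algebraMap K k f / g) (Finset.mem_image.2
        ⟨(f, g), Finset.mem_product.2 ⟨hf, hg⟩, rfl⟩)
      rwa [div_mul_eq_mul_div, mul_div_assoc] at h1
    · intro hd a ha
      obtain ⟨⟨f, g⟩, hfg, rfl⟩ := Finset.mem_image.1 ha
      obtain ⟨hf, hg⟩ := Finset.mem_product.1 hfg
      have h1 := hd g hg f hf
      rwa [← mul_div_assoc, ← div_mul_eq_mul_div] at h1
  have hStA : ∀ x, x ∈ St k ℓ A ↔ x ∈ D.E G := by
    intro x
    unfold St
    rw [hWA]
    rfl
  have hRdef : (univ : Set k).Definable₁ Language.ring {x | x ∈ D.E G} := by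
    have h1 : {x | x ∈ D.E G} = St k ℓ A := by
      ext x
      exact (hStA x).symm
    rw [h1]
    exact def_St ℓ A
  have hMU : MU p (D.E G) := MU_of_field (algebraMap K k) _ (fun a => D.algebraMap_mem G a)
  refine ⟨A, ?_, ?_, ?_, ?_, ?_, ?_, ?_⟩
  · rw [hWA]
    exact fun u hu v hv => (D.I G).add_mem hu hv
  · rw [hWA]
    exact fun u hu => (D.I G).neg_mem hu
  · rw [hWA]
    exact fun u hu v hv => D.I_le_E h1G hu v hv
  · rw [hWA]
    exact h1I
  · intro x hx hxW
    rw [hWA] at hxW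
    rw [hStA] at hx ⊢
    have h1 : IsUnit (⟨x, hx⟩ : D.E G) := by
      by_contra hnu
      exact hxW (hMI _ ((mem_maximalIdeal _).2 hnu))
    obtain ⟨v, hv⟩ := h1.exists_right_inv
    have h2 : x * (v : k) = 1 := congrArg Subtype.val hv
    rw [← eq_inv_of_mul_eq_one_right h2]
    exact v.2
  · intro a ha
    obtain ⟨⟨f, g⟩, hfg, rfl⟩ := Finset.mem_image.1 ha
    obtain ⟨hf, hg⟩ := Finset.mem_product.1 hfg
    rw [hStA, div_eq_mul_inv]
    exact (D.E G).mul_mem (D.algebraMap_mem G f) (hinv g hg)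
  · intro z hz
    rw [hStA] at hz
    obtain ⟨x, hx, hxz⟩ := CA.as_surj_def hk (D.E G) hMU (Module.Basis.singleton (Fin 1) k)
      (D.E G).toAddSubgroup (ldef_single hRdef) (fun a ha x hx => (D.E G).mul_mem ha hx)
      (fun x hx => (D.E G).pow_mem hx p) z hz
    exact ⟨x, (hStA x).2 hx, hxz⟩

end

/-- The two cases for a field with `TL`. -/
theorem exists_definable_or_GR {p : ℕ} [hp : Fact p.Prime] {L : Type u} [Field L]
    [CompatibleRing L] (hL : NIP L) [CharP L p] [Infinite L] {ℓ : ℕ} (hℓ : ℓ.Prime) (hℓp : ℓ ≠ p)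
    (hTL : TL L ℓ) (hnp : ∃ a : L, ∀ y, a ≠ y ^ ℓ) :
    (∃ O : ValuationSubring L, O ≠ ⊤ ∧ (univ : Set L).Definable₁ Language.ring {x | x ∈ O}) ∨
      ∃ A : Finset L, GR L ℓ p A := by
  let E := Germ (UF L : Filter (Finset L)) L
  let _ : Algebra L E := germAlg L
  let _ : CompatibleRing E := germCompat (UF L) L
  have hE : NIP E := NIP.germ hL
  have D : LD L E ℓ := ld_germ hL hℓ.ne_zero hTL (by
    obtain ⟨a, ha⟩ := hnp
    refine ⟨a, ?_, ?_⟩
    · rintro rfl
      exact ha 0 (zero_pow hℓ.ne_zero).symm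
    · rintro ⟨b, _, hb⟩
      exact ha b hb)
  by_cases hval : ∀ y, y ∈ D.E {1} ∨ y⁻¹ ∈ D.E {1}
  · obtain ⟨O, hO, hOdef⟩ := D.exists_definable_of_val hE hℓ hℓp hval
    exact Or.inl (exists_definable_of_germ O hO hOdef)
  · push Not at hval
    obtain ⟨y, hy, hy'⟩ := hval
    obtain ⟨A, hA⟩ := D.exists_GR hE hℓ hℓp hy hy'
    exact Or.inr hA.of_germ

end Pool.Agent.NIPFields.LG
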