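import Mathlib
import Pool.Agent.NIPFields.LG.FTLos

set_option autoImplicit false

/-!
# Finite transcendence degree
-/

namespace Pool.Agent.NIPFields.LG

open FirstOrder FirstOrder.Language FirstOrder.Ring Set Filter IsLocalRing
open Pool.Agent.NIPFields.FI
open scoped Polynomial

universe u v w

section

variable {p : ℕ} [hp : Fact p.Prime] {k : Type u} [Field k] [CharP k p] {ℓ : ℕ} {A B : Finset k}

omit hp [CharP k p] in
theorem GR.poly_mem (h : GR k ℓ p A) (F : Subfield k) (hF : ∀ z ∈ F, z ∈ St k ℓ A) {m : k}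
    (hm : m ∈ St k ℓ A) (s : F[X]) : Polynomial.aeval m s ∈ St k ℓ A := by
  have hm' : m ∈ h.E := hm
  have h1 : ∀ s : F[X], Polynomial.aeval m s ∈ h.E := by
    intro s
    induction s using Polynomial.induction_on' with
    | add a b ha hb =>
      rw [map_add]
      exact h.E.add_mem ha hb
    | monomial n a =>
      rw [Polynomial.aeval_monomial]
      exact h.E.mul_mem (hF _ a.2) (h.E.pow_mem hm' n)
  exact h1 s

omit hp [CharP k p] in
theorem GR.poly (h : GR k ℓ p A) (h' : GR k ℓ p B) (hAB : St k ℓ A ⊆ St k ℓ B)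
    (F : Subfield k) (hF : ∀ z ∈ F, z ∈ St k ℓ A) {m : k} (hm : m ∈ Wn k ℓ A)
    (hm' : m ∉ Wn k ℓ B) : ∀ (n : ℕ) (s : F[X]), s.natDegree ≤ n → s ≠ 0 →
      Polynomial.aeval m s ≠ 0 ∧ (Polynomial.aeval m s)⁻¹ ∈ St k ℓ B := by
  have hmA : m ∈ St k ℓ A := h.Wn_sub hm
  have hmB : m ∈ St k ℓ B := hAB hmA
  have hm0 : m ≠ 0 := by
    rintro rfl
    exact hm' (zero_mem_Wn B)
  have hminv : m⁻¹ ∈ St k ℓ B := h'.inv m hmB hm'
  have key : ∀ s : F[X], Polynomial.aeval m s =
      m * Polynomial.aeval m s.divX + (s.coeff 0 : k) := by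
    intro s
    conv_lhs => rw [← Polynomial.divX_mul_X_add s]
    rw [map_add, map_mul, Polynomial.aeval_X, Polynomial.aeval_C, mul_comm]
    rfl
  have hcoef : ∀ s : F[X], s.coeff 0 ≠ 0 → Polynomial.aeval m s ≠ 0 ∧
      (Polynomial.aeval m s)⁻¹ ∈ St k ℓ B := by
    intro s hs
    have hs0 : (s.coeff 0 : k) ≠ 0 := fun h0 => hs (Subtype.ext h0)
    have h1 : Polynomial.aeval m s ∉ Wn k ℓ A := by
      intro h2
      apply h.one
      have h3 : m * Polynomial.aeval m s.divX ∈ Wn k ℓ A := by
        rw [mul_comm]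
        exact h.poly_mem F hF hmA s.divX m hm
      have h4 := h.sub h2 h3
      rw [key s, add_sub_cancel_left] at h4
      have h5 : ((s.coeff 0 : k))⁻¹ ∈ St k ℓ A := hF _ (F.inv_mem (s.coeff 0).2)
      have h6 := h5 _ h4
      rwa [inv_mul_cancel₀ hs0] at h6
    have h2 := h.inv _ (h.poly_mem F hF hmA s) h1
    refine ⟨?_, hAB h2⟩
    intro h0
    apply h1
    rw [h0]
    exact zero_mem_Wn A
  intro n
  induction n with
  | zero =>
    intro s hs hs0
    apply hcoef
    intro h0
    apply hs0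
    rw [Polynomial.eq_C_of_natDegree_le_zero hs, h0, Polynomial.C_0]
  | succ n ih =>
    intro s hs hs0
    by_cases h0 : s.coeff 0 = 0
    · have h1 : s = s.divX * Polynomial.X := by
        conv_lhs => rw [← Polynomial.divX_mul_X_add s]
        rw [h0, Polynomial.C_0, add_zero]
      have h2 : s.divX ≠ 0 := by
        intro h3
        rw [h3, zero_mul] at h1
        exact hs0 h1
      have h3 : s.divX.natDegree ≤ n := by
        rw [Polynomial.natDegree_divX_eq_natDegree_tsub_one]
        omega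
      obtain ⟨h4, h5⟩ := ih _ h3 h2
      have h6 : Polynomial.aeval m s = m * Polynomial.aeval m s.divX := by
        rw [key s, h0]
        simp
      rw [h6]
      refine ⟨mul_ne_zero hm0 h4, ?_⟩
      rw [mul_inv]
      exact h'.E.mul_mem hminv h5
    · exact hcoef s h0

omit [CharP k p] in
theorem zmod_mem_St [Algebra (ZMod p) k] (h : GR k ℓ p A) (t : ZMod p) :
    algebraMap (ZMod p) k t ∈ St k ℓ A := by
  have h1 : algebraMap (ZMod p) k t = ((t.val : ℕ) : k) := by
    conv_lhs => rw [← ZMod.natCast_zmod_val t]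
    rw [map_natCast]
  rw [h1]
  exact natCast_mem h.E _

variable [CompatibleRing k]

/-- A chain of good rings gives algebraically independent elements. -/
theorem GR.exists_indep (hk : NIP k) (hℓ : ℓ.Prime) (hℓp : ℓ ≠ p)
    (hno : ∀ A : Finset k, GR k ℓ p A → ∃ y, y ∉ St k ℓ A ∧ y⁻¹ ∉ St k ℓ A) (h : GR k ℓ p A)
    (k₀ : Type v) [Field k₀] [Algebra k₀ k] (hk₀ : ∀ a : k₀, algebraMap k₀ k a ∈ St k ℓ A)
    (n : ℕ) : ∃ B : Finset k, GR k ℓ p B ∧ ∃ F : Subfield k, (∀ z ∈ F, z ∈ St k ℓ B) ∧
      (∀ a : k₀, algebraMap k₀ k a ∈ F) ∧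
      ∃ x : Fin n → k, (∀ i, x i ∈ F) ∧ AlgebraicIndependent k₀ x := by
  induction n with
  | zero =>
    refine ⟨A, h, (algebraMap k₀ k).fieldRange, ?_, fun a => ⟨a, rfl⟩, Fin.elim0,
      fun i => i.elim0, ?_⟩
    · rintro _ ⟨a, rfl⟩
      exact hk₀ a
    · rw [algebraicIndependent_empty_type_iff]
      exact (algebraMap k₀ k).injective
  | succ n ih =>
    obtain ⟨B, hB, F, hF, hF₀, x, hxF, hx⟩ := ih
    obtain ⟨y, hy, hy'⟩ := hno B hB
    obtain ⟨C, hC, h1, h2, m, hm, hm'⟩ := hB.step' hk hℓ hℓp hy hy'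
    have hpoly := hB.poly hC h1 F hF hm hm'
    have htr : Transcendental F m := by
      rw [transcendental_iff]
      intro s hs
      by_contra hs0
      exact (hpoly s.natDegree s le_rfl hs0).1 hs
    refine ⟨C, hC, (IntermediateField.adjoin F {m}).toSubfield, ?_, ?_,
      (fun o : Option (Fin n) => o.elim m x) ∘ finSuccEquiv n, ?_, ?_⟩
    · intro z hz
      obtain ⟨r, s, rfl⟩ := IntermediateField.mem_adjoin_simple_iff F z |>.1 hz
      by_cases hs : s = 0
      · rw [hs, map_zero, div_zero]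
        exact hC.E.zero_mem
      · rw [div_eq_mul_inv]
        exact hC.E.mul_mem (h1 (hB.poly_mem F hF (hB.Wn_sub hm) r))
          (hpoly s.natDegree s le_rfl hs).2
    · intro a
      exact (IntermediateField.adjoin F {m}).algebraMap_mem ⟨_, hF₀ a⟩
    · intro i
      have h3 : ∀ o : Option (Fin n), o.elim m x ∈ (IntermediateField.adjoin F {m}).toSubfield := by
        intro o
        rcases o with _ | j
        · exact IntermediateField.mem_adjoin_simple_self F m
        · exact (IntermediateField.adjoin F {m}).algebraMap_mem ⟨x j, hxF j⟩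
      exact h3 _
    · refine AlgebraicIndependent.comp ?_ _ (finSuccEquiv n).injective
      rw [hx.option_iff_transcendental]
      rw [transcendental_iff]
      intro s hs
      by_contra hs0
      have hle : ∀ z : Algebra.adjoin k₀ (range x), (z : k) ∈ F := by
        intro z
        have h5 : Algebra.adjoin k₀ (range x) ≤
            { F.toSubring with
              algebraMap_mem' := fun r => hF₀ r } := by
          refine Algebra.adjoin_le ?_
          rintro _ ⟨i, rfl⟩
          exact hxF i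
        exact h5 z.2
      let φ : Algebra.adjoin k₀ (range x) →+* F :=
        (algebraMap (Algebra.adjoin k₀ (range x)) k).codRestrict F hle
      have hφ : Function.Injective φ := by
        intro a b hab
        apply Subtype.ext
        have h7 := congrArg (fun z : F => (z : k)) hab
        exact h7
      rw [transcendental_iff] at htr
      have h6 := htr (s.map φ) (by
        rw [Polynomial.aeval_def, Polynomial.eval₂_map]
        rw [Polynomial.aeval_def] at hs
        exact hs)
      exact hs0 ((Polynomial.map_eq_zero_iff hφ).1 h6)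

/-- In finite transcendence degree some good ring is a valuation ring. -/
theorem GR.exists_valuation (hk : NIP k) (hℓ : ℓ.Prime) (hℓp : ℓ ≠ p) (h : GR k ℓ p A)
    (k₀ : Type v) [Field k₀] [Algebra k₀ k] (hk₀ : ∀ a : k₀, algebraMap k₀ k a ∈ St k ℓ A)
    (hfin : FinTrdeg k₀ k) : ∃ B : Finset k, GR k ℓ p B ∧
      ∀ y, y ∈ St k ℓ B ∨ y⁻¹ ∈ St k ℓ B := by
  by_contra hcon
  push Not at hcon
  have hlt := trdeg_lt_aleph0 k₀ k
  obtain ⟨r, hr⟩ := Cardinal.lt_aleph0.1 hlt
  obtain ⟨B, _, F, _, _, x, _, hx⟩ := h.exists_indep hk hℓ hℓp hcon k₀ hk₀ (r + 1)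
  have h1 := hx.lift_cardinalMk_le_trdeg
  rw [hr, Cardinal.mk_fin] at h1
  simp only [Cardinal.lift_natCast] at h1
  have h2 : r + 1 ≤ r := by exact_mod_cast h1
  omega

end

end Pool.Agent.NIPFields.LG
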