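import Mathlib
import Pool.Agent.NIPFields.LG.FTFin
import Pool.Agent.NIPFields.LG.FTA

set_option autoImplicit false

/-!
# Large NIP fields of characteristic `p`
-/

namespace Pool.Agent.NIPFields.LG

open FirstOrder FirstOrder.Language FirstOrder.Ring Set Filter IsLocalRing
open Pool.Agent.NIPFields.FI
open scoped Polynomial

universe u v w

/-- The valuation ring of a good finite set. -/
theorem GR.valuation {p : ℕ} [hp : Fact p.Prime] {k : Type u} [Field k] [CharP k p]
    [CompatibleRing k] {ℓ : ℕ} {A : Finset k} (h : GR k ℓ p A) (hTL : TL k ℓ)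
    (hval : ∀ y, y ∈ St k ℓ A ∨ y⁻¹ ∈ St k ℓ A) :
    ∃ O : ValuationSubring k, O ≠ ⊤ ∧ (univ : Set k).Definable₁ Language.ring {x | x ∈ O} := by
  let O : ValuationSubring k := { h.E with mem_or_inv_mem' := hval }
  refine ⟨O, ?_, def_St ℓ A⟩
  intro htop
  obtain ⟨δ, hδ, hδA⟩ := hTL A
  have h1 : δ ∈ Wn k ℓ A := hδA
  have h2 : δ⁻¹ ∈ O := by rw [htop]; trivial
  have h3 : δ⁻¹ ∈ St k ℓ A := h2
  apply h.one
  have h4 := h3 _ h1
  rwa [inv_mul_cancel₀ hδ] at h4

/-- Shelah's conclusion for large fields of finite transcendence degree. -/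
theorem shelah_of_large_finTrdeg {p : ℕ} [hp : Fact p.Prime] {K : Type u} [Field K]
    [CompatibleRing K] (hK : NIP K) [CharP K p] (hl : Large K) [Algebra (ZMod p) K]
    (hfin : FinTrdeg (ZMod p) K) :
    IsSepClosed K ∨ ∃ O : ValuationSubring K, O ≠ ⊤ ∧ HenselianLocalRing O ∧
      (univ : Set K).Definable₁ Language.ring {x | x ∈ O} := by
  have _ : Infinite K := hl.infinite
  by_cases hns : IsSepClosed K
  · exact Or.inl hns
  right
  obtain ⟨N, _, _, q, hfd, hgal, hq, hqK, a, ha⟩ := exists_galois hK hns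
  have hqp : q ≠ p := by
    rintro rfl
    exact hqK (CharP.cast_eq_zero K q)
  let _ : CompatibleRing N := compatibleRingOfRing N
  have hchN : CharP N p := charP_of_injective_algebraMap (algebraMap K N).injective p
  have hinf : Infinite N := Infinite.of_injective _ (algebraMap K N).injective
  have hN : NIP N := hK.finite (Module.finBasis K N)
  have hR : TLR K N q := TLR_of_large hl hqK
  obtain ⟨O', hO'1, hO'2⟩ : ∃ O : ValuationSubring N, O ≠ ⊤ ∧
      (univ : Set N).Definable₁ Language.ring {x | x ∈ O} := by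
    rcases exists_definable_or_GR (p := p) hN hq hqp hR.tl ⟨a, ha⟩ with h | ⟨A, hA⟩
    · exact h
    · let _ : Algebra (ZMod p) N := ((algebraMap K N).comp (algebraMap (ZMod p) K)).toAlgebra
      have _ : IsScalarTower (ZMod p) K N := IsScalarTower.of_algebraMap_eq fun _ => rfl
      have hfinN : FinTrdeg (ZMod p) N := FinTrdeg.trans (ZMod p) K N
      obtain ⟨B, hB, hval⟩ := hA.exists_valuation hN hq hqp (ZMod p)
        (fun t => zmod_mem_St hA t) hfinN
      exact hB.valuation hR.tl hval
  obtain ⟨O, hO1, hO2⟩ := LC.exists_definable_restrict (K := K) hO'1 hO'2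
  exact ⟨O, hO1, hK.henselian_of_definable p hO1 hO2, hO2⟩

/-- The definable henselian local domain. -/
theorem exists_domain_of_large {p : ℕ} [hp : Fact p.Prime] {K : Type u} [Field K]
    [CompatibleRing K] (hK : NIP K) [CharP K p] (hl : Large K) (hns : ¬ IsSepClosed K) :
    ∃ E : Subring K, E ≠ ⊤ ∧ (univ : Set K).Definable₁ Language.ring {x | x ∈ E} ∧
      HenselianLocalRing E ∧ (∀ x : K, ∃ a ∈ E, ∃ b ∈ E, b ≠ 0 ∧ x = a / b) ∧
      ∀ x : K, IsIntegral E x → x ∈ E := by
  classical
  have _ : Infinite K := hl.infinite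
  obtain ⟨N, _, _, q, hfd, hgal, hq, hqK, a, ha⟩ := exists_galois hK hns
  have hqp : q ≠ p := by
    rintro rfl
    exact hqK (CharP.cast_eq_zero K q)
  let _ : CompatibleRing N := compatibleRingOfRing N
  have hchN : CharP N p := charP_of_injective_algebraMap (algebraMap K N).injective p
  have hinf : Infinite N := Infinite.of_injective _ (algebraMap K N).injective
  have hN : NIP N := hK.finite (Module.finBasis K N)
  have hR : TLR K N q := TLR_of_large hl hqK
  rcases exists_definable_or_GR (p := p) hN hq hqp hR.tl ⟨a, ha⟩ with ⟨O', hO'1, hO'2⟩ | ⟨A, hA⟩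
  · -- a valuation ring
    obtain ⟨O, hO1, hO2⟩ := LC.exists_definable_restrict (K := K) hO'1 hO'2
    refine ⟨O.toSubring, ?_, hO2, hK.henselian_of_definable p hO1 hO2, ?_, ?_⟩
    · intro h
      apply hO1
      rw [eq_top_iff]
      intro x _
      have : x ∈ O.toSubring := by rw [h]; trivial
      exact this
    · intro x
      rcases O.mem_or_inv_mem x with h | h
      · exact ⟨x, h, 1, O.one_mem, one_ne_zero, by rw [div_one]⟩
      · by_cases hx : x = 0
        · exact ⟨0, O.zero_mem, 1, O.one_mem, one_ne_zero, by rw [hx, div_one]⟩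
        · exact ⟨1, O.one_mem, x⁻¹, h, inv_ne_zero hx, by rw [one_div, inv_inv]⟩
    · intro x hx
      have h1 : IsIntegral O x := hx
      have h2 : x ∈ O.valuation.integer :=
        Valuation.Integers.mem_of_integral (O := O) (v := O.valuation) (R := K)
          ⟨Subtype.val_injective, fun r => (O.valuation_le_one_iff _).2 r.2,
            fun {r} hr => ⟨⟨r, (O.valuation_le_one_iff r).1 hr⟩, rfl⟩⟩ h1
      exact (O.valuation_le_one_iff x).1 h2
  · -- a good ring
    let φ : K →+* N := algebraMap K N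
    let E : Subring K := hA.E.comap φ
    have hE : ∀ x, x ∈ E ↔ φ x ∈ St N q A := fun _ => Iff.rfl
    have hEdef : (univ : Set K).Definable₁ Language.ring {x | x ∈ E} :=
      (LDef₁.of_definable (e := Module.finBasis K N) (def_St q A)).restrict
    have hunit : ∀ x : E, φ x ∉ Wn N q A → IsUnit x := by
      intro x hx
      have h1 := hA.inv _ x.2 hx
      have hx0 : (x : K) ≠ 0 := by
        intro h0
        apply hx
        rw [h0, map_zero]
        exact zero_mem_Wn A
      refine IsUnit.of_mul_eq_one ⟨(x : K)⁻¹, ?_⟩ (Subtype.ext (mul_inv_cancel₀ hx0))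
      rw [hE, map_inv₀]
      exact h1
    have hnu : ∀ x : E, φ x ∈ Wn N q A → ¬ IsUnit x := by
      intro x hx hu
      obtain ⟨v, hv⟩ := hu.exists_left_inv
      apply hA.one
      have h1 : (v : K) * (x : K) = 1 := congrArg Subtype.val hv
      have h2 : φ v * φ x = 1 := by rw [← map_mul, h1, map_one]
      rw [← h2]
      exact v.2 _ hx
    have hloc : IsLocalRing E := by
      refine IsLocalRing.of_nonunits_add fun a b ha hb => ?_
      have h1 : ∀ {x : E}, x ∈ nonunits E → φ x ∈ Wn N q A := fun {x} hx => by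
        by_contra h
        exact hx (hunit x h)
      refine hnu _ ?_
      have h2 := hA.add _ (h1 ha) _ (h1 hb)
      rw [← map_add] at h2
      exact h2
    have has : ∀ y ∈ E, ∃ x ∈ E, x ^ p - x = y := by
      intro y hy
      obtain ⟨x, hx⟩ := hK.artinSchreier (Module.finBasis K K) y
      obtain ⟨z, hz, hzy⟩ := hA.as _ hy
      refine ⟨x, ?_, hx⟩
      have h1 : (φ x - z) ^ p = φ x - z := by
        rw [sub_pow_char]
        have h2 : φ x ^ p - φ x = φ y := by rw [← hx, map_sub, map_pow]
        linear_combination h2 - hzy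
      obtain ⟨ν, hν⟩ := exists_nat_of_pow h1
      rw [hE]
      have h3 : φ x = z + ν := by
        rw [← hν]
        ring
      rw [h3]
      exact hA.E.add_mem hz (natCast_mem _ ν)
    have hMU : MU p E := MU_of_as E has
    refine ⟨E, ?_, hEdef, henselian_of_def hK E hEdef hMU, ?_, ?_⟩
    · intro htop
      obtain ⟨δ, hδ, hδA⟩ := hR A
      have h1 : φ δ ∈ Wn N q A := hδA
      have h2 : δ⁻¹ ∈ E := by rw [htop]; trivial
      rw [hE, map_inv₀] at h2
      apply hA.one
      have h3 := h2 _ h1
      rwa [inv_mul_cancel₀ ((_root_.map_ne_zero φ).2 hδ)] at h3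
    · intro x
      obtain ⟨δ, hδ, hδA⟩ := hR (A ∪ A.image fun a => a * φ x)
      have h1 : φ δ ∈ Wn N q A := fun a ha => hδA a (Finset.mem_union_left _ ha)
      have h2 : φ (x * δ) ∈ Wn N q A := by
        intro a ha
        have := hδA (a * φ x) (Finset.mem_union_right _ (Finset.mem_image_of_mem _ ha))
        rwa [mul_assoc, ← map_mul] at this
      exact ⟨x * δ, hA.Wn_sub h2, δ, hA.Wn_sub h1, hδ, by rw [mul_div_cancel_right₀ _ hδ]⟩
    · intro x hx
      have h1 : IsIntegral hA.E (φ x) := by
        obtain ⟨f, hf, hfx⟩ := hx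
        let ψ : E →+* hA.E := (φ.comp E.subtype).codRestrict hA.E (fun y => y.2)
        refine ⟨f.map ψ, hf.map ψ, ?_⟩
        rw [Polynomial.eval₂_map]
        have h2 : (algebraMap hA.E N).comp ψ = φ.comp (algebraMap E K) := rfl
        rw [h2, ← Polynomial.hom_eval₂, hfx, map_zero]
      exact hA.integrally_closed hN hq hqp h1

end Pool.Agent.NIPFields.LG
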