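import Mathlib
import Pool.Agent.NIPFields.LDef

set_option autoImplicit false

/-!
# Fields without `ict`-patterns of infinite depth
-/

namespace Pool.Agent.NIPFields.LG

open FirstOrder FirstOrder.Language FirstOrder.Ring Set

universe u v w

/-- `K` is strongly dependent: for no sequence `φ₀(x; y), φ₁(x; y), …` of formulas of the language
of rings are there, for all `N`, parameters `b i j` with `i, j < N` such that every function `η`
from `{0, …, N-1}` to itself has the form `η i = j ↔ φ i (x; b i j)` for some tuple `x`. -/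
def Strong (K : Type u) [Field K] [CompatibleRing K] : Prop :=
  ∀ (m : ℕ) (φ : ℕ → Language.ring.Formula (Fin m ⊕ ℕ)), ∃ N : ℕ,
    ∀ b : Fin N → Fin N → ℕ → K, ∃ η : Fin N → Fin N, ∀ x : Fin m → K,
      ∃ i j : Fin N, ¬ ((φ i).Realize (Sum.elim x (b i j)) ↔ η i = j)

theorem Strong.nip {K : Type u} [Field K] [CompatibleRing K] (hK : Strong K) : NIP K := by
  classical
  intro m k φ
  obtain ⟨N, hN⟩ := hK k (fun _ => φ.relabel
    (Sum.elim (fun a : Fin m => Sum.inr (a : ℕ)) (fun b : Fin k => Sum.inl b)))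
  refine ⟨N * N, fun a b => ?_⟩
  by_contra hcon
  push Not at hcon
  obtain ⟨η, hη⟩ := hN (fun i j q =>
    if h : q < m then a (finProdFinEquiv (i, j)) ⟨q, h⟩ else 0)
  let J : Finset (Fin (N * N)) := Finset.univ.image fun i => finProdFinEquiv (i, η i)
  obtain ⟨i, j, hij⟩ := hη (b J)
  apply hij
  rw [Formula.realize_relabel]
  have h1 := hcon (finProdFinEquiv (i, j)) J
  have h2 : (Sum.elim (b J) (fun q : ℕ =>
      if h : q < m then a (finProdFinEquiv (i, j)) ⟨q, h⟩ else 0) ∘
      (Sum.elim (fun a : Fin m => Sum.inr (a : ℕ)) (fun b : Fin k => Sum.inl b))) =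
      Sum.elim (a (finProdFinEquiv (i, j))) (b J) := by
    funext x
    rcases x with x | x
    · simp
    · simp
  rw [h2, h1]
  constructor
  · intro h
    obtain ⟨i', _, h'⟩ := Finset.mem_image.1 h
    have h3 := finProdFinEquiv.injective h'
    rw [Prod.mk.injEq] at h3
    rw [← h3.1]
    exact h3.2
  · intro h
    exact Finset.mem_image.2 ⟨i, Finset.mem_univ _, by rw [h]⟩

/-- The same for relations which are definable with parameters. -/
theorem Strong.definable {K : Type u} [Field K] [CompatibleRing K] (hK : Strong K) {m : ℕ}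
    {ι : Type} [Encodable ι] (R : ℕ → Set (Fin m ⊕ ι → K))
    (hR : ∀ i, (univ : Set K).Definable Language.ring (R i)) :
    ∃ N : ℕ, ∀ b : Fin N → Fin N → ι → K, ∃ η : Fin N → Fin N, ∀ x : Fin m → K,
      ∃ i j : Fin N, ¬ (Sum.elim x (b i j) ∈ R i ↔ η i = j) := by
  classical
  choose A hA hAR using fun i => definable_iff_finitely_definable.1 (hR i)
  choose φ hφ using fun i => Set.definable_iff_exists_formula_sum.1 (hAR i)
  let e : ∀ i, {x // x ∈ (A i : Set K)} ≃ Fin (A i).card := fun i =>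
    (Equiv.subtypeEquivRight fun x => Finset.mem_coe).trans (A i).equivFin
  let g : ∀ i, {x // x ∈ (A i : Set K)} ⊕ (Fin m ⊕ ι) → Fin m ⊕ ℕ := fun i =>
    Sum.elim (fun a => Sum.inr (2 * (e i a : ℕ)))
      (Sum.elim Sum.inl (fun t => Sum.inr (2 * Encodable.encode t + 1)))
  obtain ⟨N, hN⟩ := hK m (fun i => (φ i).relabel (g i))
  refine ⟨N, fun b => ?_⟩
  obtain ⟨η, hη⟩ := hN (fun i j q =>
    if q % 2 = 0 then (if h : q / 2 < (A i).card then (((e i).symm ⟨q / 2, h⟩ : _) : K) else 0)
    else ((Encodable.decode (α := ι) (q / 2)).elim 0 (b i j)))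
  refine ⟨η, fun x => ?_⟩
  obtain ⟨i, j, hij⟩ := hη x
  refine ⟨i, j, fun h => hij ?_⟩
  rw [← h, Formula.realize_relabel, hφ i]
  have h2 : (Sum.elim x (fun q : ℕ =>
      if q % 2 = 0 then (if h : q / 2 < (A i).card then (((e i).symm ⟨q / 2, h⟩ : _) : K) else 0)
      else ((Encodable.decode (α := ι) (q / 2)).elim 0 (b i j))) ∘ g i) =
      Sum.elim (fun a : {x // x ∈ (A i : Set K)} => (a : K)) (Sum.elim x (b i j)) := by
    funext z
    rcases z with z | z | z
    · have h3 : 2 * (e i z : ℕ) % 2 = 0 := by omega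
      have h4 : 2 * (e i z : ℕ) / 2 = e i z := by omega
      simp only [g, Function.comp_apply, Sum.elim_inl, Sum.elim_inr, h3, if_true]
      rw [dif_pos (by rw [h4]; exact (e i z).2)]
      have h5 : (⟨2 * (e i z : ℕ) / 2, by rw [h4]; exact (e i z).2⟩ : Fin (A i).card) = e i z :=
        Fin.ext h4
      rw [h5, Equiv.symm_apply_apply]
    · simp [g]
    · have h3 : (2 * Encodable.encode z + 1) % 2 ≠ 0 := by omega
      have h4 : (2 * Encodable.encode z + 1) / 2 = Encodable.encode z := by omega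
      simp only [g, Function.comp_apply, Sum.elim_inr, h3, if_false, h4, Encodable.encodek]
      rfl
  rw [h2]
  exact Iff.rfl

section

variable {K : Type u} [Field K] [CompatibleRing K] {L : Type*} [Field L] [Algebra K L] {d : ℕ}
  {e : Module.Basis (Fin d) K L}

/-- The same for relations on a finite extension. -/
theorem Strong.ldef (hK : Strong K) {ι : Type} [Encodable ι] (R : ℕ → Set (Unit ⊕ ι → L))
    (hR : ∀ i, LDef e (R i)) :
    ∃ N : ℕ, ∀ b : Fin N → Fin N → ι → L, ∃ η : Fin N → Fin N, ∀ x : L,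
      ∃ i j : Fin N, ¬ (Sum.elim (fun _ : Unit => x) (b i j) ∈ R i ↔ η i = j) := by
  classical
  let f : (Unit ⊕ ι) × Fin d → Fin d ⊕ (ι × Fin d) := fun p =>
    match p with
    | (Sum.inl _, j) => Sum.inl j
    | (Sum.inr i, j) => Sum.inr (i, j)
  obtain ⟨N, hN⟩ := hK.definable (m := d) (ι := ι × Fin d)
    (fun i => {v | toLs e (v ∘ f) ∈ R i})
    (fun i => Set.Definable.preimage_comp f (hR i))
  refine ⟨N, fun b => ?_⟩
  obtain ⟨η, hη⟩ := hN (fun i j t => e.repr (b i j t.1) t.2)
  refine ⟨η, fun x => ?_⟩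
  obtain ⟨i, j, hij⟩ := hη (fun q => e.repr x q)
  refine ⟨i, j, fun h => hij ?_⟩
  rw [← h, mem_ofPred_eq]
  have h2 : toLs e ((Sum.elim (fun q => e.repr x q)
      (fun t : ι × Fin d => e.repr (b i j t.1) t.2)) ∘ f) =
      Sum.elim (fun _ : Unit => x) (b i j) := by
    funext z
    rcases z with z | z
    · simp only [toLs, Function.comp_apply, f, Sum.elim_inl]
      exact toL_repr e _
    · simp only [toLs, Function.comp_apply, f, Sum.elim_inr]
      exact toL_repr e _
  rw [h2]

end

end Pool.Agent.NIPFields.LG
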