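import Mathlib
import Pool.Agent.NIPFields.LG.Chain
import Pool.Agent.NIPFields.LG.Strong

set_option autoImplicit false

/-!
# Long chains give `ict`-patterns of infinite depth
-/

namespace Pool.Agent.NIPFields.LG

open FirstOrder FirstOrder.Language FirstOrder.Ring Set

universe u v w

section

variable {L : Type*} [Field L]

/-- The `i`-th digit of `x`, with respect to the levels `lv j` and the elements `ys j`, is `r`. -/
def Row (ℓ : ℕ) (F : Finset L) {n : ℕ} : ℕ → (ℕ → Fin n → L) → (ℕ → L) → L → L → Prop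
  | 0, lv, ys, r, x => ∃ c x' : L, c ∈ AA (BS L ℓ F (lv 1)) ∧ x' ∈ AA (BS L ℓ F (lv 1)) ∧
      x - c - ys 0 * x' ∈ BS L ℓ F (lv 0) ∧ c - r ∈ BS L ℓ F (lv 1)
  | i + 1, lv, ys, r, x => ∃ c x' : L, c ∈ AA (BS L ℓ F (lv 1)) ∧
      x' ∈ AA (BS L ℓ F (lv 1)) ∧ x - c - ys 0 * x' ∈ BS L ℓ F (lv 0) ∧
      Row ℓ F i (fun j => lv (j + 1)) (fun j => ys (j + 1)) r x'

theorem zero_mem_BS {ℓ : ℕ} {F : Finset L} {n : ℕ} (g : Fin n → L) : (0 : L) ∈ BS L ℓ F g := by
  intro i f _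
  rw [zero_div, mul_zero, add_zero]
  exact Pw_one

theorem add_mem_of_sub {B : Set L} (h0 : (0 : L) ∈ B) (hB : ∀ d ∈ B, ∀ d' ∈ B, d - d' ∈ B)
    {x y : L} (hx : x ∈ B) (hy : y ∈ B) : x + y ∈ B := by
  have h1 := hB _ hx _ (hB _ h0 _ hy)
  rwa [zero_sub, sub_neg_eq_add] at h1

theorem AA.mul {B : Set L} {x y : L} (hx : x ∈ AA B) (hy : y ∈ AA B) : x * y ∈ AA B := by
  intro d hd
  rw [mul_assoc]
  exact hx _ (hy _ hd)

theorem AA.add {B : Set L} (h0 : (0 : L) ∈ B) (hB : ∀ d ∈ B, ∀ d' ∈ B, d - d' ∈ B) {x y : L}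
    (hx : x ∈ AA B) (hy : y ∈ AA B) : x + y ∈ AA B := by
  intro d hd
  rw [add_mul]
  exact add_mem_of_sub h0 hB (hx _ hd) (hy _ hd)

theorem AA.sub {B : Set L} (hB : ∀ d ∈ B, ∀ d' ∈ B, d - d' ∈ B) {x y : L}
    (hx : x ∈ AA B) (hy : y ∈ AA B) : x - y ∈ AA B := by
  intro d hd
  rw [sub_mul]
  exact hB _ (hx _ hd) _ (hy _ hd)

/-- The `i`-th digit. -/
theorem row_iff {ℓ : ℕ} {F : Finset L} {n : ℕ} (i : ℕ) :
    ∀ (lv : ℕ → Fin n → L) (ys : ℕ → L) (X ρ : ℕ → L)
      (_ : ∀ j ≤ i, X j = ρ j + ys j * X (j + 1))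
      (_ : ∀ j ≤ i, ρ j ∈ AA (BS L ℓ F (lv (j + 1))))
      (_ : ∀ j ≤ i, X (j + 1) ∈ AA (BS L ℓ F (lv (j + 1))))
      (_ : ∀ j ≤ i, Link ℓ F (lv (j + 1)) (lv j) (ys j))
      (_ : ∀ j ≤ i + 1, ∀ d ∈ BS L ℓ F (lv j), ∀ d' ∈ BS L ℓ F (lv j), d - d' ∈ BS L ℓ F (lv j))
      (r x : L), x - X 0 ∈ BS L ℓ F (lv 0) →
      (Row ℓ F i lv ys r x ↔ ρ i - r ∈ BS L ℓ F (lv (i + 1))) := by
  induction i with
  | zero =>
    intro lv ys X ρ hX hρ hX' hl hB r x hx
    have hl0 := hl 0 le_rfl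
    have hB0 := hB 0 (Nat.zero_le _)
    have hB1 := hB 1 le_rfl
    constructor
    · rintro ⟨c, x', hc, hx', h1, h2⟩
      have h3 : (ρ 0 - c) + ys 0 * (X 1 - x') ∈ BS L ℓ F (lv 0) := by
        have h4 := hB0 _ h1 _ hx
        have h5 : (ρ 0 - c) + ys 0 * (X 1 - x') = x - c - ys 0 * x' - (x - X 0) := by
          rw [hX 0 le_rfl]; ring
        rw [h5]
        exact h4
      have h6 := hl0.inj _ (AA.sub hB1 (hρ 0 le_rfl) hc) _ (AA.sub hB1 (hX' 0 le_rfl) hx') h3
      have h7 := add_mem_of_sub (zero_mem_BS _) hB1 (hl0.BB h6.1) h2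
      have h8 : ρ 0 - c + (c - r) = ρ 0 - r := by ring
      rw [h8] at h7
      exact h7
    · intro h
      refine ⟨ρ 0, X 1, hρ 0 le_rfl, hX' 0 le_rfl, ?_, h⟩
      have h5 : x - ρ 0 - ys 0 * X 1 = x - X 0 := by rw [hX 0 le_rfl]; ring
      rw [h5]
      exact hx
  | succ i ih =>
    intro lv ys X ρ hX hρ hX' hl hB r x hx
    have hl0 := hl 0 (Nat.zero_le _)
    have hB0 := hB 0 (Nat.zero_le _)
    have hB1 := hB 1 (by omega)
    have IH := ih (fun j => lv (j + 1)) (fun j => ys (j + 1)) (fun j => X (j + 1))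
      (fun j => ρ (j + 1)) (fun j hj => hX (j + 1) (by omega)) (fun j hj => hρ (j + 1) (by omega))
      (fun j hj => hX' (j + 1) (by omega)) (fun j hj => hl (j + 1) (by omega))
      (fun j hj => hB (j + 1) (by omega)) r
    constructor
    · rintro ⟨c, x', hc, hx', h1, h2⟩
      have h3 : (ρ 0 - c) + ys 0 * (X 1 - x') ∈ BS L ℓ F (lv 0) := by
        have h4 := hB0 _ h1 _ hx
        have h5 : (ρ 0 - c) + ys 0 * (X 1 - x') = x - c - ys 0 * x' - (x - X 0) := by
          rw [hX 0 (Nat.zero_le _)]; ring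
        rw [h5]
        exact h4
      have h6 := hl0.inj _ (AA.sub hB1 (hρ 0 (Nat.zero_le _)) hc) _
        (AA.sub hB1 (hX' 0 (Nat.zero_le _)) hx') h3
      have h7 : x' - X 1 ∈ BS L ℓ F (lv 1) := by
        have h8 := hB1 _ (zero_mem_BS _) _ (hl0.BB h6.2)
        rwa [zero_sub, neg_sub] at h8
      exact (IH x' h7).1 h2
    · intro h
      refine ⟨ρ 0, X 1, hρ 0 (Nat.zero_le _), hX' 0 (Nat.zero_le _), ?_, ?_⟩
      · have h5 : x - ρ 0 - ys 0 * X 1 = x - X 0 := by rw [hX 0 (Nat.zero_le _)]; ring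
        rw [h5]
        exact hx
      · refine (IH (X 1) ?_).2 h
        show X 1 - X (0 + 1) ∈ _
        rw [zero_add, sub_self]
        exact zero_mem_BS _

end

section

variable {K : Type u} [Field K] [CompatibleRing K] {L : Type*} [Field L] [Algebra K L] {d : ℕ}
  {e : Module.Basis (Fin d) K L}

theorem ldef_US (ℓ : ℕ) (F : Finset L) : LDef₁ e (US L ℓ L F) := by
  have h1 : LDef e {v : Unit ⊕ Unit → L | v (Sum.inr ()) = 0} := LFun.eq (LFun.var _) (LFun.const 0)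
  have h2 : ∀ f : L, LDef e {v : Unit ⊕ Unit → L | 1 + f * v (Sum.inl ()) = v (Sum.inr ()) ^ ℓ} :=
    fun f => LFun.eq ((LFun.const 1).add ((LFun.const f).mul (LFun.var _))) ((LFun.var _).pow ℓ)
  have h3 : ∀ f : F, LDef e {v : Unit → L | 1 + (f : L) * v () ∈ Pw L ℓ} := by
    intro f
    have h4 := (h1.compl.inter (h2 f)).exists
    convert h4 using 1
    ext v
    constructor
    · rintro ⟨b, hb, h⟩
      exact ⟨fun _ => b, hb, h⟩
    · rintro ⟨u, hu, h⟩
      exact ⟨u (), hu, h⟩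
  have h5 := LDef.iInter h3
  unfold LDef₁
  convert h5 using 1
  ext v
  simp only [US, mem_ofPred_eq, mem_iInter, Subtype.forall]
  exact Iff.rfl

theorem ldef_BS (ℓ : ℕ) (F : Finset L) (n : ℕ) :
    LDef e {v : Unit ⊕ Fin n → L | v (Sum.inl ()) ∈ BS L ℓ F (fun i => v (Sum.inr i))} := by
  have h1 : ∀ i : Fin n, LDef e {v : Unit ⊕ Fin n → L |
      v (Sum.inl ()) / v (Sum.inr i) ∈ US L ℓ L F} := by
    intro i
    have h2 : LDef e {v : Unit ⊕ Fin n → L | v (Sum.inr i) = 0} :=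
      LFun.eq (LFun.var _) (LFun.const 0)
    have h3 : LDef e {v : (Unit ⊕ Fin n) ⊕ Unit → L |
        v (Sum.inr ()) * v (Sum.inl (Sum.inr i)) = v (Sum.inl (Sum.inl ()))} :=
      LFun.eq ((LFun.var _).mul (LFun.var _)) (LFun.var _)
    have h4 : LDef e {v : (Unit ⊕ Fin n) ⊕ Unit → L | v (Sum.inr ()) ∈ US L ℓ L F} :=
      (ldef_US ℓ F).mem (LFun.var _)
    have h5 := h2.union (h3.inter h4).exists
    convert h5 using 1
    ext v
    simp only [mem_ofPred_eq, mem_union, mem_inter_iff, Sum.elim_inr, Sum.elim_inl]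
    constructor
    · intro h
      by_cases h0 : v (Sum.inr i) = 0
      · exact Or.inl h0
      · exact Or.inr ⟨fun _ => v (Sum.inl ()) / v (Sum.inr i), div_mul_cancel₀ _ h0, h⟩
    · rintro (h | ⟨u, hu1, hu2⟩)
      · rw [h, div_zero]
        intro f _
        rw [mul_zero, add_zero]
        exact Pw_one
      · by_cases h0 : v (Sum.inr i) = 0
        · rw [h0, div_zero]
          intro f _
          rw [mul_zero, add_zero]
          exact Pw_one
        · rw [← hu1, mul_div_cancel_right₀ _ h0]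
          exact hu2
  have h6 := LDef.iInter h1
  convert h6 using 1
  ext v
  simp only [BS, mem_ofPred_eq, mem_iInter]

theorem ldef_AA (ℓ : ℕ) (F : Finset L) (n : ℕ) :
    LDef e {v : Unit ⊕ Fin n → L | v (Sum.inl ()) ∈ AA (BS L ℓ F (fun i => v (Sum.inr i)))} := by
  have h1 : LDef e {v : (Unit ⊕ Fin n) ⊕ Unit → L |
      v (Sum.inr ()) ∈ BS L ℓ F (fun i => v (Sum.inl (Sum.inr i)))} :=
    (ldef_BS ℓ F n).preimage_comp
      (Sum.elim (fun _ => Sum.inr ()) (fun i => Sum.inl (Sum.inr i)))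
  have h2 : LDef e {v : (Unit ⊕ Fin n) ⊕ Unit → L |
      v (Sum.inl (Sum.inl ())) * v (Sum.inr ()) ∈
        BS L ℓ F (fun i => v (Sum.inl (Sum.inr i)))} := by
    have := LFun.preimage (e := e) (ldef_BS ℓ F n)
      (f := fun (z : Unit ⊕ Fin n) (v : (Unit ⊕ Fin n) ⊕ Unit → L) =>
        Sum.elim (fun _ => v (Sum.inl (Sum.inl ())) * v (Sum.inr ()))
          (fun i => v (Sum.inl (Sum.inr i))) z) (by
        rintro (z | z)
        · exact (LFun.var _).mul (LFun.var _)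
        · exact LFun.var _)
    exact this
  have h3 := (h1.imp h2).forall
  convert h3 using 1
  ext v
  constructor
  · intro h u
    exact h _
  · intro h x hx
    exact h (fun _ => x) hx

/-- The type of the parameters. -/
abbrev Par (n : ℕ) : Type := ((ℕ × Fin n) ⊕ ℕ) ⊕ Unit

/-- The relation `Row i` is definable. -/
theorem ldef_Row (ℓ : ℕ) (F : Finset L) (n i : ℕ) :
    LDef e {v : Unit ⊕ Par n → L | Row ℓ F i
      (fun j a => v (Sum.inr (Sum.inl (Sum.inl (j, a)))))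
      (fun j => v (Sum.inr (Sum.inl (Sum.inr j)))) (v (Sum.inr (Sum.inr ())))
      (v (Sum.inl ()))} := by
  have hA : ∀ t : Fin 2, LDef e {v : (Unit ⊕ Par n) ⊕ Fin 2 → L |
      v (Sum.inr t) ∈ AA (BS L ℓ F (fun a => v (Sum.inl (Sum.inr (Sum.inl (Sum.inl (1, a)))))))} :=
    fun t => (ldef_AA ℓ F n).preimage_comp
      (Sum.elim (fun _ => Sum.inr t) (fun a => Sum.inl (Sum.inr (Sum.inl (Sum.inl (1, a))))))
  have hB : LDef e {v : (Unit ⊕ Par n) ⊕ Fin 2 → L |
      v (Sum.inl (Sum.inl ())) - v (Sum.inr 0) -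
        v (Sum.inl (Sum.inr (Sum.inl (Sum.inr 0)))) * v (Sum.inr 1) ∈
        BS L ℓ F (fun a => v (Sum.inl (Sum.inr (Sum.inl (Sum.inl (0, a))))))} := by
    have := LFun.preimage (e := e) (ldef_BS ℓ F n)
      (f := fun (z : Unit ⊕ Fin n) (v : (Unit ⊕ Par n) ⊕ Fin 2 → L) =>
        Sum.elim (fun _ => v (Sum.inl (Sum.inl ())) - v (Sum.inr 0) -
            v (Sum.inl (Sum.inr (Sum.inl (Sum.inr 0)))) * v (Sum.inr 1))
          (fun a => v (Sum.inl (Sum.inr (Sum.inl (Sum.inl (0, a)))))) z) (by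
        rintro (z | z)
        · exact ((LFun.var _).sub (LFun.var _)).sub ((LFun.var _).mul (LFun.var _))
        · exact LFun.var _)
    exact this
  induction i with
  | zero =>
    have hC : LDef e {v : (Unit ⊕ Par n) ⊕ Fin 2 → L |
        v (Sum.inr 0) - v (Sum.inl (Sum.inr (Sum.inr ()))) ∈
          BS L ℓ F (fun a => v (Sum.inl (Sum.inr (Sum.inl (Sum.inl (1, a))))))} := by
      have := LFun.preimage (e := e) (ldef_BS ℓ F n)
        (f := fun (z : Unit ⊕ Fin n) (v : (Unit ⊕ Par n) ⊕ Fin 2 → L) =>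
          Sum.elim (fun _ => v (Sum.inr 0) - v (Sum.inl (Sum.inr (Sum.inr ()))))
            (fun a => v (Sum.inl (Sum.inr (Sum.inl (Sum.inl (1, a)))))) z) (by
          rintro (z | z)
          · exact (LFun.var _).sub (LFun.var _)
          · exact LFun.var _)
      exact this
    have h := ((hA 0).inter ((hA 1).inter (hB.inter hC))).exists
    convert h using 1
    ext v
    constructor
    · rintro ⟨c, x', h1, h2, h3, h4⟩
      exact ⟨![c, x'], h1, h2, h3, h4⟩
    · rintro ⟨u, h1, h2, h3, h4⟩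
      exact ⟨u 0, u 1, h1, h2, h3, h4⟩
  | succ i ih =>
    have hC := ih.preimage_comp (β := (Unit ⊕ Par n) ⊕ Fin 2)
      (Sum.elim (fun _ => Sum.inr 1) (Sum.elim (Sum.elim
        (fun z => Sum.inl (Sum.inr (Sum.inl (Sum.inl (z.1 + 1, z.2)))))
        (fun j => Sum.inl (Sum.inr (Sum.inl (Sum.inr (j + 1))))))
        (fun _ => Sum.inl (Sum.inr (Sum.inr ())))))
    have h := ((hA 0).inter ((hA 1).inter (hB.inter hC))).exists
    convert h using 1
    ext v
    constructor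
    · rintro ⟨c, x', h1, h2, h3, h4⟩
      exact ⟨![c, x'], h1, h2, h3, h4⟩
    · rintro ⟨u, h1, h2, h3, h4⟩
      exact ⟨u 0, u 1, h1, h2, h3, h4⟩

/-- There are no long chains in a finite extension of a strongly dependent field. -/
theorem Strong.no_chain (hK : Strong K) (e : Module.Basis (Fin d) K L) {ℓ : ℕ} {n : ℕ}
    {F : Finset L}
    (H : ∀ (N : ℕ) (g : Fin n → L), (∀ i, g i ≠ 0) →
      ∃ (g' : Fin n → L) (y : L), Good ℓ F N g' ∧ Link ℓ F g g' y) : False := by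
  classical
  obtain ⟨N, hN⟩ := hK.ldef (e := e) (ι := Par n)
    (fun i => {v : Unit ⊕ Par n → L | Row ℓ F i
      (fun j a => v (Sum.inr (Sum.inl (Sum.inl (j, a)))))
      (fun j => v (Sum.inr (Sum.inl (Sum.inr j)))) (v (Sum.inr (Sum.inr ())))
      (v (Sum.inl ()))}) (fun i => ldef_Row ℓ F n i)
  choose nx hnx using fun g : {g : Fin n → L // ∀ i, g i ≠ 0} => H N g.1 g.2
  choose yy hgood hlink using hnx
  let G : ℕ → {g : Fin n → L // ∀ i, g i ≠ 0} := fun s =>
    Nat.rec ⟨fun _ => 1, fun _ => one_ne_zero⟩ (fun _ g => ⟨nx g, (hgood g).ne⟩) s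
  have hG : ∀ s, (G (s + 1)).1 = nx (G s) := fun s => rfl
  let lv : ℕ → Fin n → L := fun j => (G (N + 1 - j)).1
  let ys : ℕ → L := fun j => yy (G (N - j))
  have hgd : ∀ j ≤ N, Good ℓ F N (lv j) := by
    intro j hj
    have h1 : N + 1 - j = (N - j) + 1 := by omega
    show Good ℓ F N (G (N + 1 - j)).1
    rw [h1, hG]
    exact hgood _
  have hlk : ∀ j ≤ N, Link ℓ F (lv (j + 1)) (lv j) (ys j) := by
    intro j hj
    have h1 : N + 1 - j = (N - j) + 1 := by omega
    have h2 : N + 1 - (j + 1) = N - j := by omega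
    show Link ℓ F (G (N + 1 - (j + 1))).1 (G (N + 1 - j)).1 (yy (G (N - j)))
    rw [h1, h2, hG]
    exact hlink _
  have hres : ∀ j : ℕ, ∃ r : Fin N → L, j ≤ N → (∀ i, r i ∈ AA (BS L ℓ F (lv j))) ∧
      ∀ i i', i ≠ i' → r i - r i' ∉ BS L ℓ F (lv j) := by
    intro j
    by_cases hj : j ≤ N
    · obtain ⟨r, hr⟩ := (hgd j hj).res
      exact ⟨r, fun _ => hr⟩
    · exact ⟨fun _ => 0, fun h => absurd h hj⟩
  choose rs hrs using hres
  obtain ⟨η, hη⟩ := hN (fun i j => Sum.elim (Sum.elim (fun z => lv z.1 z.2) ys)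
    (fun _ => rs (i + 1) j))
  -- the digits
  let ρ : ℕ → L := fun j => if h : j < N then rs (j + 1) (η ⟨j, h⟩) else 0
  have hρ : ∀ j, ∀ h : j < N, ρ j = rs (j + 1) (η ⟨j, h⟩) := fun j h => dif_pos h
  -- the element, from the bottom
  let Z : ℕ → L := fun s => Nat.rec 0 (fun s z => ρ (N - (s + 1)) + ys (N - (s + 1)) * z) s
  have hZ : ∀ s, Z (s + 1) = ρ (N - (s + 1)) + ys (N - (s + 1)) * Z s := fun s => rfl
  let X : ℕ → L := fun j => Z (N - j)
  have hX : ∀ j, j < N → X j = ρ j + ys j * X (j + 1) := by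
    intro j hj
    have h1 : N - j = (N - (j + 1)) + 1 := by omega
    have h2 : N - ((N - (j + 1)) + 1) = j := by omega
    show Z (N - j) = ρ j + ys j * Z (N - (j + 1))
    rw [h1, hZ, h2]
  have hρA : ∀ j, j < N → ρ j ∈ AA (BS L ℓ F (lv (j + 1))) := by
    intro j hj
    rw [hρ j hj]
    exact (hrs (j + 1) (by omega)).1 _
  have hXA : ∀ s, s ≤ N → X (N - s) ∈ AA (BS L ℓ F (lv (N - s))) := by
    intro s
    induction s with
    | zero =>
      intro _
      have h1 : X (N - 0) = 0 := by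
        show Z (N - (N - 0)) = 0
        have h2 : N - (N - 0) = 0 := by omega
        rw [h2]
        rfl
      rw [h1]
      intro d hd
      rw [zero_mul]
      exact zero_mem_BS _
    | succ s ih =>
      intro hs
      have h1 : N - s = N - (s + 1) + 1 := by omega
      have h2 := ih (by omega)
      rw [h1] at h2
      have h3 : N - (s + 1) < N := by omega
      rw [hX _ h3]
      have h4 := hlk (N - (s + 1)) (by omega)
      have h5 := hgd (N - (s + 1)) (by omega)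
      exact AA.add (zero_mem_BS _) h5.sub (h4.AA (hρA _ h3)) (AA.mul h4.mem (h4.AA h2))
  have hXA' : ∀ j, j ≤ N → X j ∈ AA (BS L ℓ F (lv j)) := by
    intro j hj
    have h1 := hXA (N - j) (by omega)
    have h2 : N - (N - j) = j := by omega
    rwa [h2] at h1
  obtain ⟨i, j, hij⟩ := hη (X 0)
  apply hij
  have key := row_iff (ℓ := ℓ) (F := F) (i : ℕ) lv ys X ρ
    (fun j hj => hX j (by omega)) (fun j hj => hρA j (by omega))
    (fun j hj => hXA' (j + 1) (by omega)) (fun j hj => hlk j (by omega))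
    (fun j hj => (hgd j (by omega)).sub) (rs (i + 1) j) (X 0)
    (by rw [sub_self]; exact zero_mem_BS _)
  refine Iff.trans (Iff.trans Iff.rfl key) ?_
  rw [hρ i i.2]
  constructor
  · intro h
    by_contra hne
    exact (hrs (i + 1) (by omega)).2 _ _ hne h
  · intro h
    rw [h, sub_self]
    exact zero_mem_BS _

end

end Pool.Agent.NIPFields.LG
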