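import Mathlib
import Pool.Agent.NIPFields.LG.ChainPattern

set_option autoImplicit false

/-!
# Shelah's conjecture for strongly dependent fields of characteristic `p` with `TL`
-/

namespace Pool.Agent.NIPFields.LG

open FirstOrder FirstOrder.Language FirstOrder.Ring Set
open Pool.Agent.NIPFields.FI

universe u

theorem shelah_of_strong {p : ℕ} [hp : Fact p.Prime] {K : Type u} [Field K] [CompatibleRing K]
    (hK : Strong K) [CharP K p] [Infinite K]
    (hTL : ∀ (L : Type u) [Field L] [Algebra K L] [FiniteDimensional K L]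
      [Algebra.IsSeparable K L], ∀ ℓ : ℕ, ℓ.Prime → ℓ ≠ p → TL L ℓ) :
    IsSepClosed K ∨ ∃ O : ValuationSubring K, O ≠ ⊤ ∧ HenselianLocalRing O ∧
      (univ : Set K).Definable₁ Language.ring {x | x ∈ O} := by
  have hN : NIP K := hK.nip
  rcases NIP.isSepClosed_or hN p with h | ⟨L, fL, aL, q, hfd, hsep, hq, hqp, ha⟩
  · exact Or.inl h
  right
  let _ : CompatibleRing L := compatibleRingOfRing L
  have hchL : CharP L p := charP_of_injective_algebraMap (algebraMap K L).injective p
  have hinf : Infinite L := Infinite.of_injective _ (algebraMap K L).injective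
  have hL : NIP L := hN.finite (Module.finBasis K L)
  have hex : ∃ O : ValuationSubring L, O ≠ ⊤ ∧
      (univ : Set L).Definable₁ Language.ring {x | x ∈ O} := by
    by_contra hno
    obtain ⟨n, F, H⟩ := exists_level hL hq hqp (hTL L q hq hqp) ha hno
    exact hK.no_chain (Module.finBasis K L) H
  obtain ⟨O', hO'1, hO'2⟩ := hex
  obtain ⟨O, hO1, hO2⟩ := LC.exists_definable_restrict (K := K) hO'1 hO'2
  exact ⟨O, hO1, hN.henselian_of_definable p hO1 hO2, hO2⟩

end Pool.Agent.NIPFields.LG
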