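import Mathlib
import Pool.Agent.NIPFields.LG.StrongFinal
import Pool.Agent.NIPFields.LG.FTMain

set_option autoImplicit false

/-!
# Large strongly dependent fields, and large NIP fields of finite transcendence degree
-/

namespace Pool.Agent.NIPFields.LG

open FirstOrder FirstOrder.Language FirstOrder.Ring Set
open Pool.Agent.NIPFields.FI

universe u

theorem shelah_of_large_strong {p : ℕ} [hp : Fact p.Prime] {K : Type u} [Field K]
    [CompatibleRing K] (hK : Strong K) [CharP K p] (hl : Large K) :
    IsSepClosed K ∨ ∃ O : ValuationSubring K, O ≠ ⊤ ∧ HenselianLocalRing O ∧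
      (univ : Set K).Definable₁ Language.ring {x | x ∈ O} := by
  have _ : Infinite K := hl.infinite
  refine shelah_of_strong (p := p) hK fun L _ _ _ _ ℓ hℓ hℓp => ?_
  have h : (ℓ : K) ≠ 0 := by
    intro h0
    rw [CharP.cast_eq_zero_iff K p] at h0
    exact hℓp ((Nat.prime_dvd_prime_iff_eq hp.out hℓ).1 h0).symm
  exact (TLR_of_large hl h (L := L)).tl

theorem shelah_of_large_algebraic {p : ℕ} [hp : Fact p.Prime] {K : Type u} [Field K]
    [CompatibleRing K] (hK : NIP K) [CharP K p] (hl : Large K) (S : Finset K)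
    (hS : Algebra.IsAlgebraic (Subfield.closure (S : Set K)) K) :
    IsSepClosed K ∨ ∃ O : ValuationSubring K, O ≠ ⊤ ∧ HenselianLocalRing O ∧
      (univ : Set K).Definable₁ Language.ring {x | x ∈ O} := by
  let _ : Algebra (ZMod p) K := ZMod.algebra K p
  refine shelah_of_large_finTrdeg (p := p) hK hl ⟨IntermediateField.adjoin (ZMod p) (S : Set K),
    IntermediateField.fg_adjoin_of_finite S.finite_toSet, ?_⟩
  have hle : Subfield.closure (S : Set K) ≤
      (IntermediateField.adjoin (ZMod p) (S : Set K)).toSubfield :=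
    Subfield.closure_le.2 (IntermediateField.subset_adjoin (ZMod p) (S : Set K))
  refine ⟨fun x => ?_⟩
  obtain ⟨f, hf0, hf⟩ := hS.isAlgebraic x
  let φ : Subfield.closure (S : Set K) →+* IntermediateField.adjoin (ZMod p) (S : Set K) :=
    Subfield.inclusion hle
  refine ⟨f.map φ, (Polynomial.map_ne_zero_iff φ.injective).2 hf0, ?_⟩
  rw [Polynomial.aeval_def, Polynomial.eval₂_map]
  exact hf

end Pool.Agent.NIPFields.LG
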