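import Mathlib
import Pool.Agent.NIPFields.LG.FTStep

set_option autoImplicit false

/-!
# The chain of good rings above a good ring
-/

namespace Pool.Agent.NIPFields.LG

open FirstOrder FirstOrder.Language FirstOrder.Ring Set IsLocalRing
open Pool.Agent.NIPFields.FI
open scoped Polynomial

universe u v w

section

variable {k : Type*} [Field k] {ℓ p : ℕ} {A : Finset k}

theorem GR.St_mul (h : GR k ℓ p A) {x y : k} (hx : x ∈ St k ℓ A) (hy : y ∈ St k ℓ A) :
    x * y ∈ St k ℓ A := h.E.mul_mem hx hy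

/-- The maximal ideal is prime. -/
theorem GR.prime (h : GR k ℓ p A) {a b : k} (ha : a ∈ St k ℓ A) (hab : a * b ∈ Wn k ℓ A)
    (haW : a ∉ Wn k ℓ A) : b ∈ Wn k ℓ A := by
  have ha0 : a ≠ 0 := by
    rintro rfl
    exact haW (zero_mem_Wn A)
  have h1 := h.inv a ha haW _ hab
  rwa [inv_mul_cancel_left₀ ha0] at h1

/-- Units are not in the maximal ideal. -/
theorem GR.unit_notMem (h : GR k ℓ p A) {a : k} (ha : a ≠ 0) (ha' : a⁻¹ ∈ St k ℓ A) :
    a ∉ Wn k ℓ A := by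
  intro haW
  apply h.one
  have h1 := ha' _ haW
  rwa [inv_mul_cancel₀ ha] at h1

theorem GR.prod_notMem (h : GR k ℓ p A) {ι : Type*} (s : Finset ι) (f : ι → k)
    (hf : ∀ i ∈ s, f i ∈ St k ℓ A ∧ f i ∉ Wn k ℓ A) :
    ∏ i ∈ s, f i ∈ St k ℓ A ∧ ∏ i ∈ s, f i ∉ Wn k ℓ A := by
  classical
  induction s using Finset.induction_on with
  | empty =>
    rw [Finset.prod_empty]
    exact ⟨h.E.one_mem, h.one⟩
  | insert a s ha ih =>
    rw [Finset.prod_insert ha]
    obtain ⟨h1, h2⟩ := ih fun i hi => hf i (Finset.mem_insert_of_mem hi)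
    obtain ⟨h3, h4⟩ := hf a (Finset.mem_insert_self _ _)
    exact ⟨h.St_mul h3 h1, fun h5 => h2 (h.prime h3 h5 h4)⟩

/-- Comparing rings by their maximal ideals. -/
theorem GR.St_sub_of_Wn_sub {B C : Finset k} (hB : GR k ℓ p B) (hC : GR k ℓ p C)
    (h1 : Wn k ℓ B ⊆ Wn k ℓ C) (h2 : Wn k ℓ C ⊆ St k ℓ B) : St k ℓ C ⊆ St k ℓ B := by
  intro z hz m hm
  have h3 : z * m ∈ Wn k ℓ C := hz m (h1 hm)
  have h4 : z * (z * m) ∈ Wn k ℓ C := hz _ h3
  have h5 : z * m * (z * m) ∈ Wn k ℓ B := by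
    have h6 : z * m * (z * m) = z * (z * m) * m := by ring
    rw [h6]
    exact h2 h4 m hm
  by_contra h6
  exact h6 (hB.prime (h2 h3) h5 h6)

end

section

variable {p : ℕ} [hp : Fact p.Prime] {k : Type u} [Field k] [CharP k p] {ℓ : ℕ} {A : Finset k}
  [CompatibleRing k]

open Classical in
/-- The enlarged finite set. -/
noncomputable def adj (A : Finset k) (y : k) : Finset k := A ∪ A.image fun a => a / y

omit hp [CharP k p] [CompatibleRing k] in
theorem mem_Wn_adj {y d : k} :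
    d ∈ Wn k ℓ (adj A y) ↔ d ∈ Wn k ℓ A ∧ d / y ∈ Wn k ℓ A := by
  classical
  unfold adj Wn
  simp only [mem_ofPred_eq, Finset.mem_union, Finset.mem_image]
  constructor
  · intro h
    refine ⟨fun a ha => h a (Or.inl ha), fun a ha => ?_⟩
    have := h _ (Or.inr ⟨a, ha, rfl⟩)
    rwa [div_mul_eq_mul_div, ← mul_div_assoc] at *
  · rintro ⟨h1, h2⟩ a (ha | ⟨b, hb, rfl⟩)
    · exact h1 a ha
    · have := h2 b hb
      rwa [div_mul_eq_mul_div, ← mul_div_assoc] at *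

/-- The good ring generated by a bad element. -/
theorem GR.adjoin (hk : NIP k) (hℓ : ℓ.Prime) (hℓp : ℓ ≠ p) (h : GR k ℓ p A) {y : k}
    (hy : y ∉ St k ℓ A) (hy' : y⁻¹ ∉ St k ℓ A) :
    GR k ℓ p (adj A y) ∧ St k ℓ A ⊆ St k ℓ (adj A y) ∧ Wn k ℓ (adj A y) ⊆ Wn k ℓ A ∧
      y ∈ St k ℓ (adj A y) ∧ y⁻¹ ∈ St k ℓ (adj A y) := by
  classical
  obtain ⟨m, g, i₀, B, hg0, hg1, hgne, hgB, hWB, hB, hAB, hBA, hyB⟩ := h.step₂ hk hℓ hℓp hy hy'
  have hy0 : y ≠ 0 := h.notMem_imp hy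
  have hyW : y ∉ Wn k ℓ B := fun h1 => hy (h.Wn_sub (hBA h1))
  have hyB' : y⁻¹ ∈ St k ℓ B := hB.inv y hyB hyW
  have hW : Wn k ℓ (adj A y) = Wn k ℓ B := by
    ext d
    rw [mem_Wn_adj]
    constructor
    · rintro ⟨h1, h2⟩
      by_contra hd
      set d' := d / y with hd'
      have hdd' : d = y * d' := by rw [hd', mul_div_cancel₀ _ hy0]
      have hd'W : d' ∉ Wn k ℓ B := by
        intro h3
        apply hd
        rw [hdd']
        exact hyB _ h3
      have hd'St : d' ∈ St k ℓ B := hAB (h.Wn_sub h2)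
      -- `d' * g j`
      have hdg : ∀ j, d' * g j ∈ Wn k ℓ A := by
        intro j
        by_cases hj : j = 0
        · rw [hj, hg0, mul_one]
          exact h2
        · obtain ⟨x, hx, hgx⟩ := hg1 j hj
          rw [hgx, mul_add, mul_comm d' y, ← hdd', mul_comm d' x]
          exact h.add _ h1 _ (hx _ h2)
      have hprod : ∀ s : Finset (Fin (m + 2)), ∏ j ∈ s, (d' * g j) ∈ St k ℓ A := by
        intro s
        have : ∏ j ∈ s, (d' * g j) ∈ h.E := h.E.prod_mem fun j _ => h.Wn_sub (hdg j)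
        exact this
      have he : d' * ∏ j ∈ Finset.univ.erase i₀, (d' * g j) ∈ Wn k ℓ B := by
        rw [hWB]
        intro j hj
        have h3 : (d' * ∏ j ∈ Finset.univ.erase i₀, (d' * g j)) / g j =
            (d' * ∏ i ∈ (Finset.univ.erase i₀).erase j, (d' * g i)) * d' := by
          rw [← Finset.mul_prod_erase (Finset.univ.erase i₀) (fun j => d' * g j)
            (Finset.mem_erase.2 ⟨hj, Finset.mem_univ j⟩)]
          have := hgne j
          field_simp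
        rw [h3]
        exact h.St_mul (h.Wn_sub h2) (hprod _) _ h2
      have h4 := hB.prod_notMem (Finset.univ.erase i₀) (fun j => d' * g j) (by
        intro j _
        refine ⟨hB.St_mul hd'St (hgB j).1, ?_⟩
        intro h5
        rw [mul_comm] at h5
        exact hd'W (hB.prime (hgB j).1 h5 (hB.unit_notMem (hgne j) (hgB j).2)))
      exact h4.2 (hB.prime hd'St he hd'W)
    · intro hd
      refine ⟨hBA hd, hBA ?_⟩
      rw [div_eq_inv_mul]
      exact hyB' _ hd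
  have hSt : St k ℓ (adj A y) = St k ℓ B := by
    unfold St
    rw [hW]
  refine ⟨?_, ?_, ?_, ?_, ?_⟩
  · refine ⟨?_, ?_, ?_, ?_, ?_, ?_, ?_⟩
    · rw [hW]; exact hB.add
    · rw [hW]; exact hB.neg
    · rw [hW]; exact hB.mul
    · rw [hW]; exact hB.one
    · rw [hW, hSt]; exact hB.inv
    · rw [hSt]
      intro a ha
      unfold adj at ha
      rcases Finset.mem_union.1 ha with ha | ha
      · exact hAB (h.coef a ha)
      · obtain ⟨b, hb, rfl⟩ := Finset.mem_image.1 ha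
        rw [div_eq_mul_inv]
        exact hB.St_mul (hAB (h.coef b hb)) hyB'
    · rw [hSt]; exact hB.as
  · rw [hSt]; exact hAB
  · rw [hW]; exact hBA
  · rw [hSt]; exact hyB
  · rw [hSt]; exact hyB'

/-- Good rings above a good ring are comparable. -/
theorem GR.comparable (hk : NIP k) (h : GR k ℓ p A) {B C : Finset k}
    (hB : GR k ℓ p B) (hC : GR k ℓ p C) (hAB : St k ℓ A ⊆ St k ℓ B) (hAC : St k ℓ A ⊆ St k ℓ C)
    (hBA : Wn k ℓ B ⊆ Wn k ℓ A) (hCA : Wn k ℓ C ⊆ Wn k ℓ A) :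
    St k ℓ B ⊆ St k ℓ C ∨ St k ℓ C ⊆ St k ℓ B := by
  classical
  by_cases h1 : Wn k ℓ B ⊆ Wn k ℓ C
  · exact Or.inr (hB.St_sub_of_Wn_sub hC h1 fun x hx => hAB (h.Wn_sub (hCA hx)))
  by_cases h2 : Wn k ℓ C ⊆ Wn k ℓ B
  · exact Or.inl (hC.St_sub_of_Wn_sub hB h2 fun x hx => hAC (h.Wn_sub (hBA hx)))
  exfalso
  rw [not_subset] at h1 h2
  obtain ⟨b, hbB, hbC⟩ := h1
  obtain ⟨c, hcC, hcB⟩ := h2
  -- the semilocal ring
  let T : Set k := {s | s ∈ St k ℓ A ∧ s ∉ Wn k ℓ B ∧ s ∉ Wn k ℓ C}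
  have hT1 : (1 : k) ∈ T := ⟨h.E.one_mem, hB.one, hC.one⟩
  have hTmul : ∀ s ∈ T, ∀ t ∈ T, s * t ∈ T := by
    rintro s ⟨hs1, hs2, hs3⟩ t ⟨ht1, ht2, ht3⟩
    exact ⟨h.St_mul hs1 ht1, fun h4 => ht2 (hB.prime (hAB hs1) h4 hs2),
      fun h4 => ht3 (hC.prime (hAC hs1) h4 hs3)⟩
  let R : Subring k :=
    { carrier := {x | ∃ s ∈ T, s * x ∈ St k ℓ A}
      mul_mem' := by
        rintro x y ⟨s, hs, hsx⟩ ⟨t, ht, hty⟩
        refine ⟨s * t, hTmul s hs t ht, ?_⟩
        have h4 : s * t * (x * y) = s * x * (t * y) := by ring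
        rw [h4]
        exact h.St_mul hsx hty
      one_mem' := ⟨1, hT1, by rw [mul_one]; exact h.E.one_mem⟩
      add_mem' := by
        rintro x y ⟨s, hs, hsx⟩ ⟨t, ht, hty⟩
        refine ⟨s * t, hTmul s hs t ht, ?_⟩
        have h4 : s * t * (x + y) = t * (s * x) + s * (t * y) := by ring
        rw [h4]
        exact h.E.add_mem (h.St_mul ht.1 hsx) (h.St_mul hs.1 hty)
      zero_mem' := ⟨1, hT1, by rw [mul_zero]; exact h.E.zero_mem⟩
      neg_mem' := by
        rintro x ⟨s, hs, hsx⟩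
        refine ⟨s, hs, ?_⟩
        rw [mul_neg]
        exact h.E.neg_mem hsx }
  have hR : ∀ x, x ∈ R ↔ ∃ s ∈ T, s * x ∈ St k ℓ A := fun _ => Iff.rfl
  have hER : h.E ≤ R := fun x hx => (hR x).2 ⟨1, hT1, by rw [one_mul]; exact hx⟩
  have hRdef : (univ : Set k).Definable₁ Language.ring {x | x ∈ R} := by
    have e1 : (univ : Set k).Definable Language.ring
        {v : (Fin 1 ⊕ Fin 1) → k | v (Sum.inr 0) ∈ St k ℓ A} := def_mem (def_St ℓ A) (dfun_var _)
    have e2 : (univ : Set k).Definable Language.ring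
        {v : (Fin 1 ⊕ Fin 1) → k | v (Sum.inr 0) ∈ Wn k ℓ B} := def_mem (def_Wn ℓ B) (dfun_var _)
    have e3 : (univ : Set k).Definable Language.ring
        {v : (Fin 1 ⊕ Fin 1) → k | v (Sum.inr 0) ∈ Wn k ℓ C} := def_mem (def_Wn ℓ C) (dfun_var _)
    have e4 : (univ : Set k).Definable Language.ring
        {v : (Fin 1 ⊕ Fin 1) → k | v (Sum.inr 0) * v (Sum.inl 0) ∈ St k ℓ A} :=
      def_mem (def_St ℓ A) (dfun_mul (dfun_var _) (dfun_var _))
    have e5 := ((e1.inter (e2.compl.inter e3.compl)).inter e4).exists_of_finite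
    unfold Definable₁
    convert e5 using 1
    ext v
    simp only [mem_ofPred_eq]
    rw [hR]
    constructor
    · rintro ⟨s, hs, hsx⟩
      exact ⟨fun _ => s, hs, hsx⟩
    · rintro ⟨s, hs, hsx⟩
      exact ⟨s 0, hs, hsx⟩
  have hloc : IsLocalRing R := isLocalRing_of_def hk R hRdef (h.mu.mono hER)
  have hbR : b ∈ R := hER (h.Wn_sub (hBA hbB))
  have hcR : c ∈ R := hER (h.Wn_sub (hCA hcC))
  have hnb : ¬ IsUnit (⟨b, hbR⟩ : R) := by
    intro hu
    obtain ⟨v, hv⟩ := hu.exists_right_inv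
    obtain ⟨s, hs, hsv⟩ := v.2
    have h4 : b * (v : k) = 1 := congrArg Subtype.val hv
    apply hs.2.1
    have h5 : s = s * (v : k) * b := by
      rw [mul_assoc, mul_comm (v : k) b, h4, mul_one]
    rw [h5]
    exact hAB hsv _ hbB
  have hnc : ¬ IsUnit (⟨c, hcR⟩ : R) := by
    intro hu
    obtain ⟨v, hv⟩ := hu.exists_right_inv
    obtain ⟨s, hs, hsv⟩ := v.2
    have h4 : c * (v : k) = 1 := congrArg Subtype.val hv
    apply hs.2.2
    have h5 : s = s * (v : k) * c := by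
      rw [mul_assoc, mul_comm (v : k) c, h4, mul_one]
    rw [h5]
    exact hAC hsv _ hcC
  have hsum : IsUnit ((⟨b, hbR⟩ : R) + ⟨c, hcR⟩) := by
    have h4 : b + c ∈ T := by
      refine ⟨h.E.add_mem (h.Wn_sub (hBA hbB)) (h.Wn_sub (hCA hcC)), fun h5 => hcB ?_,
        fun h5 => hbC ?_⟩
      · have := hB.sub h5 hbB
        rwa [add_sub_cancel_left] at this
      · have := hC.sub h5 hcC
        rwa [add_sub_cancel_right] at this
    have h0 : b + c ≠ 0 := by
      intro h0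
      apply h4.2.1
      rw [h0]
      exact zero_mem_Wn B
    have h5 : (b + c)⁻¹ ∈ R := (hR _).2 ⟨b + c, h4, by
      rw [mul_inv_cancel₀ h0]
      exact h.E.one_mem⟩
    exact IsUnit.of_mul_eq_one ⟨_, h5⟩ (Subtype.ext (mul_inv_cancel₀ h0))
  have := IsLocalRing.nonunits_add (mem_nonunits_iff.2 hnb) (mem_nonunits_iff.2 hnc)
  exact this hsum

end

end Pool.Agent.NIPFields.LG
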