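import Mathlib
import Pool.Agent.NIPFields.LG.FTChain
import Pool.Agent.NIPFields.LG.FTMain

set_option autoImplicit false

/-!
# The definable chain of henselian local domains
-/

namespace Pool.Agent.NIPFields

open FirstOrder FirstOrder.Language FirstOrder.Ring Set

/-- Finitely many parameters suffice. -/
theorem exists_formula_of_definable' {K : Type*} [Field K] [CompatibleRing K] {n : ℕ}
    {S : Set (Fin n → K)} (hS : (univ : Set K).Definable Language.ring S) :
    ∃ (p : ℕ) (ψ : Language.ring.Formula (Fin n ⊕ Fin p)) (c : Fin p → K),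
      ∀ x : Fin n → K, x ∈ S ↔ ψ.Realize (Sum.elim x c) := by
  obtain ⟨A, hA, hdef⟩ := Set.definable_iff_finitely_definable.1 hS
  obtain ⟨φ, hφ⟩ := Set.definable_iff_exists_formula_sum.1 hdef
  let e := Fintype.equivFin (A : Set K)
  refine ⟨Fintype.card (A : Set K), φ.relabel (Sum.elim (fun a => Sum.inr (e a)) Sum.inl),
    fun i => ((e.symm i : (A : Set K)) : K), fun x => ?_⟩
  rw [Formula.realize_relabel]
  have h1 := Set.ext_iff.1 hφ x
  simp only [mem_ofPred_eq] at h1
  refine h1.trans ?_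
  have h2 : (Sum.elim (Subtype.val : ↥(A : Set K) → K) x) =
      (Sum.elim x fun i => ((e.symm i : (A : Set K)) : K)) ∘
        (Sum.elim (fun a => Sum.inr (e a)) Sum.inl : ↥(A : Set K) ⊕ Fin n → Fin n ⊕ Fin _) := by
    funext y
    rcases y with y | y
    · simp
    · simp
  rw [h2]

/-- Relations definable in a finite extension restrict to definable relations of the base
field. -/
theorem definable_restrict {K : Type*} [Field K] [CompatibleRing K] {L : Type*} [Field L]
    [CompatibleRing L] [Algebra K L] {d : ℕ} (e : Module.Basis (Fin d) K L) {n : ℕ}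
    {S : Set (Fin n → L)} (hS : (univ : Set L).Definable Language.ring S) :
    (univ : Set K).Definable Language.ring {v : Fin n → K | (fun i => algebraMap K L (v i)) ∈ S} := by
  obtain ⟨A, hA, hdef⟩ := Set.definable_iff_finitely_definable.1 hS
  obtain ⟨φ, hφ⟩ := Set.definable_iff_exists_formula_sum.1 hdef
  have h1 := ldef_formula (e := e) φ
  have h2 := LFun.preimage (α := Fin n) h1
    (f := Sum.elim (fun a _ => (a : L)) (fun i v => v i)) (by
      rintro (i | i)
      · exact LFun.const _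
      · exact LFun.var _)
  have h := Set.Definable.preimage_map
    (F := fun (v : Fin n → K) (p : Fin n × Fin d) => v p.1 * e.repr 1 p.2)
    (fun p => dfun_mul (dfun_var _) (dfun_const (mem_univ _))) h2
  convert h using 1
  ext v
  simp only [mem_ofPred_eq, mem_preimage]
  have h3 : ∀ i, toLs e (fun p : Fin n × Fin d => v p.1 * e.repr 1 p.2) i =
      algebraMap K L (v i) := by
    intro i
    simp only [toLs, toL]
    rw [Algebra.algebraMap_eq_smul_one]
    conv_rhs => rw [← e.sum_repr 1]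
    rw [Finset.smul_sum]
    exact Finset.sum_congr rfl (fun i _ => by rw [mul_smul])
  have h4 := Set.ext_iff.1 hφ (fun i => algebraMap K L (v i))
  simp only [mem_ofPred_eq] at h4
  refine h4.trans ?_
  have h5 : (Sum.elim (Subtype.val : ↥(A : Set L) → L) (fun i => algebraMap K L (v i))) =
      fun i => (Sum.elim (fun a _ => (a : L)) (fun i v => v i) :
        ↥(A : Set L) ⊕ Fin n → (Fin n → L) → L) i
          (toLs e (fun p : Fin n × Fin d => v p.1 * e.repr 1 p.2)) := by
    funext y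
    rcases y with y | y
    · rfl
    · exact (h3 y).symm
  rw [h5]

end Pool.Agent.NIPFields

namespace Pool.Agent.NIPFields.LG

open FirstOrder FirstOrder.Language FirstOrder.Ring Set Filter IsLocalRing
open Pool.Agent.NIPFields.FI
open scoped Polynomial

universe u v w

/-- The properties of the rings. -/
structure NiceRing {K : Type*} [Field K] (E : Subring K) : Prop where
  ne_top : E ≠ ⊤
  hens : HenselianLocalRing E
  closed : ∀ x : K, IsIntegral E x → x ∈ E
  frac : ∀ x : K, ∃ a ∈ E, ∃ b ∈ E, b ≠ 0 ∧ x = a / b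

theorem niceRing_of_valuation {K : Type*} [Field K] (O : ValuationSubring K) (hO1 : O ≠ ⊤)
    (hO2 : HenselianLocalRing O) : NiceRing O.toSubring := by
  refine ⟨?_, hO2, ?_, ?_⟩
  · intro h
    apply hO1
    rw [eq_top_iff]
    intro x _
    have : x ∈ O.toSubring := by rw [h]; trivial
    exact this
  · intro x hx
    have h1 : IsIntegral O x := hx
    have h2 : x ∈ O.valuation.integer :=
      Valuation.Integers.mem_of_integral (O := O) (v := O.valuation) (R := K)
        ⟨Subtype.val_injective, fun r => (O.valuation_le_one_iff _).2 r.2,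
          fun {r} hr => ⟨⟨r, (O.valuation_le_one_iff r).1 hr⟩, rfl⟩⟩ h1
    exact (O.valuation_le_one_iff x).1 h2
  · intro x
    rcases O.mem_or_inv_mem x with h | h
    · exact ⟨x, h, 1, O.one_mem, one_ne_zero, by rw [div_one]⟩
    · by_cases hx : x = 0
      · exact ⟨0, O.zero_mem, 1, O.one_mem, one_ne_zero, by rw [hx, div_one]⟩
      · exact ⟨1, O.one_mem, x⁻¹, h, inv_ne_zero hx, by rw [one_div, inv_inv]⟩

/-- The rings induced on the base field by the good rings. -/
theorem GR.niceRing {p : ℕ} [hp : Fact p.Prime] {K : Type u} [Field K]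
    [CompatibleRing K] (hK : NIP K) [CharP K p] {N : Type u} [Field N] [Algebra K N]
    [FiniteDimensional K N] [CompatibleRing N] [CharP N p] (hN : NIP N) {q : ℕ} (hq : q.Prime)
    (hqp : q ≠ p) (hR : TLR K N q) {A : Finset N} (hA : GR N q p A) :
    NiceRing (hA.E.comap (algebraMap K N)) := by
  classical
  let φ : K →+* N := algebraMap K N
  let E : Subring K := hA.E.comap φ
  have hE : ∀ x, x ∈ E ↔ φ x ∈ St N q A := fun _ => Iff.rfl
  have hEdef : (univ : Set K).Definable₁ Language.ring {x | x ∈ E} :=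
    (LDef₁.of_definable (e := Module.finBasis K N) (def_St q A)).restrict
  have hunit : ∀ x : E, φ x ∉ Wn N q A → IsUnit x := by
    intro x hx
    have h1 := hA.inv _ x.2 hx
    have hx0 : (x : K) ≠ 0 := by
      intro h0
      apply hx
      rw [h0, map_zero]
      exact zero_mem_Wn A
    refine IsUnit.of_mul_eq_one ⟨(x : K)⁻¹, ?_⟩ (Subtype.ext (mul_inv_cancel₀ hx0))
    rw [hE, map_inv₀]
    exact h1
  have hnu : ∀ x : E, φ x ∈ Wn N q A → ¬ IsUnit x := by
    intro x hx hu
    obtain ⟨v, hv⟩ := hu.exists_left_inv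
    apply hA.one
    have h1 : (v : K) * (x : K) = 1 := congrArg Subtype.val hv
    have h2 : φ v * φ x = 1 := by rw [← map_mul, h1, map_one]
    rw [← h2]
    exact v.2 _ hx
  have hloc : IsLocalRing E := by
    refine IsLocalRing.of_nonunits_add fun a b ha hb => ?_
    have h1 : ∀ {x : E}, x ∈ nonunits E → φ x ∈ Wn N q A := fun {x} hx => by
      by_contra h
      exact hx (hunit x h)
    refine hnu _ ?_
    have h2 := hA.add _ (h1 ha) _ (h1 hb)
    rw [← map_add] at h2
    exact h2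
  have has : ∀ y ∈ E, ∃ x ∈ E, x ^ p - x = y := by
    intro y hy
    have hyN := hA.as _ hy
    have hinf : Infinite K := by
      by_contra hfin
      rw [not_infinite_iff_finite] at hfin
      have := Module.finite_of_finite K (M := N)
      exact (hA.mu.infinite).not_finite this
    obtain ⟨x, hx⟩ := hK.artinSchreier (Module.finBasis K K) y
    obtain ⟨z, hz, hzy⟩ := hyN
    refine ⟨x, ?_, hx⟩
    have h1 : (φ x - z) ^ p = φ x - z := by
      rw [sub_pow_char]
      have h2 : φ x ^ p - φ x = φ y := by rw [← hx, map_sub, map_pow]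
      linear_combination h2 - hzy
    obtain ⟨ν, hν⟩ := exists_nat_of_pow h1
    rw [hE]
    have h3 : φ x = z + ν := by
      rw [← hν]
      ring
    rw [h3]
    exact hA.E.add_mem hz (natCast_mem _ ν)
  have hMU : MU p E := MU_of_as E has
  refine ⟨?_, henselian_of_def hK E hEdef hMU, ?_, ?_⟩
  · intro htop
    obtain ⟨δ, hδ, hδA⟩ := hR A
    have h1 : φ δ ∈ Wn N q A := hδA
    have h2 : δ⁻¹ ∈ E := by
      have : δ⁻¹ ∈ hA.E.comap (algebraMap K N) := by rw [htop]; trivial
      exact this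
    rw [hE, map_inv₀] at h2
    apply hA.one
    have h3 := h2 _ h1
    rwa [inv_mul_cancel₀ ((_root_.map_ne_zero φ).2 hδ)] at h3
  · intro x hx
    have h1 : IsIntegral hA.E (φ x) := by
      obtain ⟨f, hf, hfx⟩ := hx
      let ψ : E →+* hA.E := (φ.comp E.subtype).codRestrict hA.E (fun y => y.2)
      refine ⟨f.map ψ, hf.map ψ, ?_⟩
      rw [Polynomial.eval₂_map]
      have h2 : (algebraMap hA.E N).comp ψ = φ.comp (algebraMap E K) := rfl
      rw [h2, ← Polynomial.hom_eval₂]
      have h3 : Polynomial.eval₂ (algebraMap E K) x f = 0 := hfx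
      rw [h3, map_zero]
    exact hA.integrally_closed hN hq hqp h1
  · intro x
    obtain ⟨δ, hδ, hδA⟩ := hR (A ∪ A.image fun a => a * φ x)
    have h1 : φ δ ∈ Wn N q A := fun a ha => hδA a (Finset.mem_union_left _ ha)
    have h2 : φ (x * δ) ∈ Wn N q A := by
      intro a ha
      have := hδA (a * φ x) (Finset.mem_union_right _ (Finset.mem_image_of_mem _ ha))
      rwa [mul_assoc, ← map_mul] at this
    exact ⟨x * δ, hA.Wn_sub h2, δ, hA.Wn_sub h1, hδ, by rw [mul_div_cancel_right₀ _ hδ]⟩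

section

variable {p : ℕ} [hp : Fact p.Prime] {k : Type u} [Field k] [CharP k p] {ℓ : ℕ} {A : Finset k}
  [CompatibleRing k]

/-- Bad elements. -/
def Bad (k : Type*) [Field k] (ℓ : ℕ) (A : Finset k) (y : k) : Prop :=
  y ∉ St k ℓ A ∧ y⁻¹ ∉ St k ℓ A

open Classical in
/-- The finite set of an element. -/
noncomputable def ev (A : Finset k) (ℓ : ℕ) (y : k) : Finset k :=
  if Bad k ℓ A y then adj A y else A

theorem GR.ev (hk : NIP k) (hℓ : ℓ.Prime) (hℓp : ℓ ≠ p) (h : GR k ℓ p A) (y : k) :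
    GR k ℓ p (ev A ℓ y) ∧ St k ℓ A ⊆ St k ℓ (ev A ℓ y) ∧ Wn k ℓ (ev A ℓ y) ⊆ Wn k ℓ A ∧
      (y ∈ St k ℓ (ev A ℓ y) ∨ y⁻¹ ∈ St k ℓ (ev A ℓ y)) := by
  classical
  unfold LG.ev
  split_ifs with hb
  · obtain ⟨h1, h2, h3, h4, -⟩ := h.adjoin hk hℓ hℓp hb.1 hb.2
    exact ⟨h1, h2, h3, Or.inl h4⟩
  · refine ⟨h, Subset.rfl, Subset.rfl, ?_⟩
    unfold Bad at hb
    tauto

omit hp [CharP k p] in
/-- The rings are uniformly definable. -/
theorem def_ev (h : GR k ℓ p A) : (univ : Set k).Definable Language.ring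
    {v : Fin 2 → k | v 0 ∈ St k ℓ (ev A ℓ (v 1))} := by
  classical
  -- bad elements
  have b1 : ∀ y : k, Bad k ℓ A y ↔ y ∉ St k ℓ A ∧ ¬ ∃ z : Fin 1 → k, z 0 ∈ St k ℓ A ∧
      y * z 0 = 1 := by
    intro y
    unfold Bad
    refine and_congr_right fun hy => not_congr ?_
    have hy0 : y ≠ 0 := h.notMem_imp hy
    constructor
    · intro h1
      exact ⟨fun _ => y⁻¹, h1, mul_inv_cancel₀ hy0⟩
    · rintro ⟨z, hz, hyz⟩
      rwa [← eq_inv_of_mul_eq_one_right hyz]
  have b2 : (univ : Set k).Definable Language.ring {v : Fin 2 → k | Bad k ℓ A (v 1)} := by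
    have e1 : (univ : Set k).Definable Language.ring {v : Fin 2 → k | v 1 ∈ St k ℓ A} :=
      def_mem (def_St ℓ A) (dfun_var _)
    have e2 : (univ : Set k).Definable Language.ring
        {v : Fin 2 ⊕ Fin 1 → k | v (Sum.inr 0) ∈ St k ℓ A} := def_mem (def_St ℓ A) (dfun_var _)
    have e3 : (univ : Set k).Definable Language.ring
        {v : Fin 2 ⊕ Fin 1 → k | v (Sum.inl 1) * v (Sum.inr 0) = 1} :=
      DefinableFun.ofPred_eq (dfun_mul (dfun_var _) (dfun_var _)) (dfun_const (mem_univ _))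
    have e4 := (e2.inter e3).exists_of_finite
    convert e1.compl.inter e4.compl using 1
    ext v
    exact b1 (v 1)
  -- the rings of the bad elements
  have b3 : ∀ x y : k, Bad k ℓ A y → (x ∈ St k ℓ (adj A y) ↔
      ∀ u : Fin 1 → k, (u 0 * y ∈ Wn k ℓ A ∧ u 0 ∈ Wn k ℓ A) →
        (x * (u 0 * y) ∈ Wn k ℓ A ∧ x * u 0 ∈ Wn k ℓ A)) := by
    intro x y hb
    have hy0 : y ≠ 0 := h.notMem_imp hb.1
    constructor
    · rintro hx u ⟨h1, h2⟩
      have h3 := hx (u 0 * y) (mem_Wn_adj.2 ⟨h1, by rwa [mul_div_cancel_right₀ _ hy0]⟩)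
      rw [mem_Wn_adj] at h3
      refine ⟨h3.1, ?_⟩
      have h4 := h3.2
      rwa [mul_div_assoc, mul_div_cancel_right₀ _ hy0] at h4
    · intro hx u hu
      rw [mem_Wn_adj] at hu ⊢
      have h1 := hx (fun _ => u / y) ⟨by rw [div_mul_cancel₀ _ hy0]; exact hu.1, hu.2⟩
      rw [div_mul_cancel₀ _ hy0, ← mul_div_assoc] at h1
      exact h1
  have b4 : (univ : Set k).Definable Language.ring {v : Fin 2 → k |
      ∀ u : Fin 1 → k, (u 0 * v 1 ∈ Wn k ℓ A ∧ u 0 ∈ Wn k ℓ A) →
        (v 0 * (u 0 * v 1) ∈ Wn k ℓ A ∧ v 0 * u 0 ∈ Wn k ℓ A)} := by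
    have e1 : (univ : Set k).Definable Language.ring
        {v : Fin 2 ⊕ Fin 1 → k | v (Sum.inr 0) * v (Sum.inl 1) ∈ Wn k ℓ A} :=
      def_mem (def_Wn ℓ A) (dfun_mul (dfun_var _) (dfun_var _))
    have e2 : (univ : Set k).Definable Language.ring
        {v : Fin 2 ⊕ Fin 1 → k | v (Sum.inr 0) ∈ Wn k ℓ A} := def_mem (def_Wn ℓ A) (dfun_var _)
    have e3 : (univ : Set k).Definable Language.ring {v : Fin 2 ⊕ Fin 1 → k |
        v (Sum.inl 0) * (v (Sum.inr 0) * v (Sum.inl 1)) ∈ Wn k ℓ A} :=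
      def_mem (def_Wn ℓ A) (dfun_mul (dfun_var _) (dfun_mul (dfun_var _) (dfun_var _)))
    have e4 : (univ : Set k).Definable Language.ring
        {v : Fin 2 ⊕ Fin 1 → k | v (Sum.inl 0) * v (Sum.inr 0) ∈ Wn k ℓ A} :=
      def_mem (def_Wn ℓ A) (dfun_mul (dfun_var _) (dfun_var _))
    have e5 := ((e1.inter e2).compl.union (e3.inter e4)).forall_of_finite
    convert e5 using 1
    ext v
    simp only [mem_ofPred_eq]
    refine forall_congr' fun u => ?_
    rw [mem_union, mem_compl_iff, imp_iff_not_or]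
    rfl
  have e1 : (univ : Set k).Definable Language.ring {v : Fin 2 → k | v 0 ∈ St k ℓ A} :=
    def_mem (def_St ℓ A) (dfun_var _)
  have e2 := (b2.inter b4).union (b2.compl.inter e1)
  convert e2 using 1
  ext v
  simp only [mem_ofPred_eq, mem_union, mem_inter_iff, mem_compl_iff]
  unfold LG.ev
  split_ifs with hb
  · rw [b3 _ _ hb]
    exact ⟨fun h1 => Or.inl ⟨hb, h1⟩, fun h1 => h1.elim And.right fun h2 => absurd hb h2.1⟩
  · exact ⟨fun h1 => Or.inr ⟨hb, h1⟩, fun h1 => h1.elim (fun h2 => absurd h2.1 hb) And.right⟩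

end

/-- The definable chain. -/
theorem exists_chain_of_large {p : ℕ} [hp : Fact p.Prime] {K : Type u} [Field K]
    [CompatibleRing K] (hK : NIP K) [CharP K p] (hl : Large K) (hns : ¬ IsSepClosed K) :
    ∃ F : K → Subring K, (∀ y, NiceRing (F y)) ∧
      (univ : Set K).Definable Language.ring {v : Fin 2 → K | v 0 ∈ F (v 1)} ∧
      (∀ y, y ∈ F y ∨ y⁻¹ ∈ F y) ∧ (∀ y z, F y ≤ F z ∨ F z ≤ F y) ∧
      ∀ y z, ∃ d : K, d ≠ 0 ∧ ∀ x ∈ F z, d * x ∈ F y := by
  classical
  have _ : Infinite K := hl.infinite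
  obtain ⟨N, _, _, q, hfd, hgal, hq, hqK, a, ha⟩ := exists_galois hK hns
  have hqp : q ≠ p := by
    rintro rfl
    exact hqK (CharP.cast_eq_zero K q)
  let _ : CompatibleRing N := compatibleRingOfRing N
  have hchN : CharP N p := charP_of_injective_algebraMap (algebraMap K N).injective p
  have hinf : Infinite N := Infinite.of_injective _ (algebraMap K N).injective
  have hN : NIP N := hK.finite (Module.finBasis K N)
  have hR : TLR K N q := TLR_of_large hl hqK
  rcases exists_definable_or_GR (p := p) hN hq hqp hR.tl ⟨a, ha⟩ with ⟨O', hO'1, hO'2⟩ | ⟨A, hA⟩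
  · -- a valuation ring
    obtain ⟨O, hO1, hO2⟩ := LC.exists_definable_restrict (K := K) hO'1 hO'2
    have hO3 := niceRing_of_valuation O hO1 (hK.henselian_of_definable p hO1 hO2)
    refine ⟨fun _ => O.toSubring, fun _ => hO3, ?_, fun y => O.mem_or_inv_mem y,
      fun _ _ => Or.inl le_rfl, fun _ _ => ⟨1, one_ne_zero, fun x hx => by rwa [one_mul]⟩⟩
    exact def_mem hO2 (dfun_var _)
  · have hev := fun y : N => hA.ev hN hq hqp y
    let F : K → Subring K := fun y => ((hev (algebraMap K N y)).1.E).comap (algebraMap K N)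
    have hF : ∀ x y, x ∈ F y ↔
        algebraMap K N x ∈ St N q (ev A q (algebraMap K N y)) := fun _ _ => Iff.rfl
    refine ⟨F, fun y => (hev (algebraMap K N y)).1.niceRing hK hN hq hqp hR, ?_, ?_, ?_, ?_⟩
    · exact definable_restrict (Module.finBasis K N) (def_ev hA)
    · intro y
      rw [hF, hF, map_inv₀]
      exact (hev _).2.2.2
    · intro y z
      obtain ⟨h1, h2, h3, -⟩ := hev (algebraMap K N y)
      obtain ⟨h4, h5, h6, -⟩ := hev (algebraMap K N z)
      rcases hA.comparable hN h1 h4 h2 h5 h3 h6 with h | h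
      · exact Or.inl fun x hx => h hx
      · exact Or.inr fun x hx => h hx
    · intro y z
      obtain ⟨h1, h2, h3, -⟩ := hev (algebraMap K N y)
      obtain ⟨h4, h5, h6, -⟩ := hev (algebraMap K N z)
      obtain ⟨d, hd, hdz⟩ := hR (ev A q (algebraMap K N z))
      refine ⟨d, hd, fun x hx => ?_⟩
      rw [hF, map_mul, mul_comm]
      have h7 : algebraMap K N x * algebraMap K N d ∈ Wn N q (ev A q (algebraMap K N z)) :=
        hx _ hdz
      exact h2 (hA.Wn_sub (h6 h7))

/-- The union of the chain. -/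
theorem exists_chain_of_large' {p : ℕ} [hp : Fact p.Prime] {K : Type u} [Field K]
    [CompatibleRing K] (hK : NIP K) [CharP K p] (hl : Large K) (hns : ¬ IsSepClosed K) :
    ∃ F : K → Subring K, (∀ y, NiceRing (F y)) ∧
      (univ : Set K).Definable Language.ring {v : Fin 2 → K | v 0 ∈ F (v 1)} ∧
      (∀ y, y ∈ F y ∨ y⁻¹ ∈ F y) ∧ (∀ y z, F y ≤ F z ∨ F z ≤ F y) ∧
      (∀ y z, ∃ d : K, d ≠ 0 ∧ ∀ x ∈ F z, d * x ∈ F y) ∧
      ((∀ x, ∃ y, x ∈ F y) ∨ ∃ O : ValuationSubring K, O ≠ ⊤ ∧ HenselianLocalRing O ∧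
        ∀ x, x ∈ O ↔ ∃ y, x ∈ F y) := by
  obtain ⟨F, h1, h2, h3, h4, h5⟩ := exists_chain_of_large hK hl hns
  refine ⟨F, h1, h2, h3, h4, h5, ?_⟩
  by_cases htop : ∀ x, ∃ y, x ∈ F y
  · exact Or.inl htop
  right
  have hdir : ∀ y z, ∃ w, F y ≤ F w ∧ F z ≤ F w := by
    intro y z
    rcases h4 y z with h | h
    · exact ⟨z, h, le_rfl⟩
    · exact ⟨y, le_rfl, h⟩
  let O : ValuationSubring K :=
    { carrier := {x | ∃ y, x ∈ F y}
      mul_mem' := by
        rintro a b ⟨y, hy⟩ ⟨z, hz⟩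
        obtain ⟨w, hw1, hw2⟩ := hdir y z
        exact ⟨w, (F w).mul_mem (hw1 hy) (hw2 hz)⟩
      one_mem' := ⟨0, (F 0).one_mem⟩
      add_mem' := by
        rintro a b ⟨y, hy⟩ ⟨z, hz⟩
        obtain ⟨w, hw1, hw2⟩ := hdir y z
        exact ⟨w, (F w).add_mem (hw1 hy) (hw2 hz)⟩
      zero_mem' := ⟨0, (F 0).zero_mem⟩
      neg_mem' := by
        rintro a ⟨y, hy⟩
        exact ⟨y, (F y).neg_mem hy⟩
      mem_or_inv_mem' := by
        intro x
        rcases h3 x with h | h
        · exact Or.inl ⟨x, h⟩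
        · exact Or.inr ⟨x, h⟩ }
  have hO : ∀ x, x ∈ O ↔ ∃ y, x ∈ F y := fun _ => Iff.rfl
  have hO1 : O ≠ ⊤ := by
    intro h
    apply htop
    intro x
    rw [← hO, h]
    trivial
  have hO2 : (univ : Set K).Definable₁ Language.ring {x | x ∈ O} := by
    have e1 : (univ : Set K).Definable Language.ring
        {v : Fin 1 ⊕ Fin 1 → K | v (Sum.inl 0) ∈ F (v (Sum.inr 0))} := by
      have := Set.Definable.preimage_comp
        (![Sum.inl 0, Sum.inr 0] : Fin 2 → Fin 1 ⊕ Fin 1) h2
      exact this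
    have e2 := e1.exists_of_finite
    unfold Definable₁
    convert e2 using 1
    ext v
    simp only [mem_ofPred_eq]
    rw [hO]
    constructor
    · rintro ⟨y, hy⟩
      exact ⟨fun _ => y, hy⟩
    · rintro ⟨y, hy⟩
      exact ⟨y 0, hy⟩
  exact ⟨O, hO1, hK.henselian_of_definable p hO1 hO2, hO⟩

/-- Nice rings define field topologies. -/
theorem NiceRing.fb {K : Type*} [Field K] {E : Subring K} (h : NiceRing E) :
    FB {x : K | x ∈ E} := by
  classical
  have hloc : IsLocalRing E := h.hens.toIsLocalRing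
  have hden : ∀ x : K, ∃ b ∈ E, b ≠ 0 ∧ x * b ∈ E := by
    intro x
    obtain ⟨a, ha, b, hb, hb0, rfl⟩ := h.frac x
    exact ⟨b, hb, hb0, by rwa [div_mul_cancel₀ _ hb0]⟩
  have hden' : ∀ A : Finset K, ∃ b ∈ E, b ≠ 0 ∧ ∀ a ∈ A, a * b ∈ E := by
    intro A
    induction A using Finset.induction_on with
    | empty => exact ⟨1, E.one_mem, one_ne_zero, fun a ha => absurd ha (Finset.notMem_empty a)⟩
    | insert a s _ ih =>
      obtain ⟨b, hb, hb0, hbs⟩ := ih
      obtain ⟨c, hc, hc0, hca⟩ := hden a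
      refine ⟨b * c, E.mul_mem hb hc, mul_ne_zero hb0 hc0, fun x hx => ?_⟩
      rcases Finset.mem_insert.1 hx with rfl | hx
      · have h1 : x * (b * c) = b * (x * c) := by ring
        rw [h1]
        exact E.mul_mem hb hca
      · have h1 : x * (b * c) = x * b * c := by ring
        rw [h1]
        exact E.mul_mem (hbs x hx) hc
  obtain ⟨z, hz⟩ : ∃ z : K, z ∉ E := by
    by_contra hcon
    push Not at hcon
    exact h.ne_top (eq_top_iff.2 fun x _ => hcon x)
  refine ⟨E.zero_mem, ?_, ⟨1, one_ne_zero, ?_⟩, ⟨1, one_ne_zero, ?_⟩, ?_, ⟨z, hz⟩, ?_⟩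
  · intro A
    obtain ⟨b, hb, hb0, hbA⟩ := hden' A
    refine ⟨b, hb0, fun u hu a ha => ?_⟩
    have h1 : a * (b * u) = a * b * u := by ring
    rw [mem_ofPred_eq, h1]
    exact E.mul_mem (hbA a ha) hu
  · intro u hu v hv
    rw [one_mul, one_mul]
    exact E.add_mem hu hv
  · intro u hu v hv
    rw [one_mul, one_mul]
    exact E.mul_mem hu hv
  · -- a nonzero nonunit
    obtain ⟨c, hc, hc0, hcz⟩ := hden z
    have hcu : ¬ IsUnit (⟨c, hc⟩ : E) := by
      intro hu
      obtain ⟨v, hv⟩ := hu.exists_right_inv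
      have h1 : c * (v : K) = 1 := congrArg Subtype.val hv
      apply hz
      have h2 : z = z * c * v := by rw [mul_assoc, h1, mul_one]
      rw [h2]
      exact E.mul_mem hcz v.2
    refine ⟨c, hc0, fun u hu => ?_⟩
    have h1 : IsUnit (1 + (⟨c, hc⟩ : E) * ⟨u, hu⟩) := by
      by_contra h2
      have h3 : (⟨c, hc⟩ : E) * ⟨u, hu⟩ ∈ maximalIdeal E :=
        Ideal.mul_mem_right _ _ ((mem_maximalIdeal _).2 hcu)
      have h4 := (maximalIdeal E).sub_mem ((mem_maximalIdeal _).2 h2) h3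
      rw [add_sub_cancel_right] at h4
      exact (mem_maximalIdeal _).1 h4 isUnit_one
    obtain ⟨v, hv⟩ := h1.exists_right_inv
    have h2 : (1 + c * u) * (v : K) = 1 := congrArg Subtype.val hv
    refine ⟨left_ne_zero_of_mul_eq_one h2, ?_⟩
    rw [← eq_inv_of_mul_eq_one_right h2]
    exact E.sub_mem v.2 E.one_mem
  · intro c _
    obtain ⟨b, hb, hb0, hcb⟩ := hden c
    exact ⟨b, hb0, hcb⟩

open Topology in
/-- The topology and the chain. -/
theorem exists_topology_chain {K : Type u} [Field K] [CompatibleRing K] (hK : NIP K)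
    (hl : Large K) (hns : ¬ IsSepClosed K) :
    ∃ B : Set K, (univ : Set K).Definable₁ Language.ring B ∧ ∃ τ : TopologicalSpace K,
      IsTopologicalDivisionRing K ∧ T2Space K ∧ ¬ DiscreteTopology K ∧
      (𝓝 (0 : K)).HasBasis (fun a : K => a ≠ 0) (fun a => sB B a) ∧
      ∀ p : ℕ, p.Prime → CharP K p → ∃ F : K → Subring K, (∀ y, NiceRing (F y)) ∧
        (univ : Set K).Definable Language.ring {v : Fin 2 → K | v 0 ∈ F (v 1)} ∧
        (∀ y, y ∈ F y ∨ y⁻¹ ∈ F y) ∧ (∀ y z, F y ≤ F z ∨ F z ≤ F y) ∧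
        (∀ y, (𝓝 (0 : K)).HasBasis (fun a : K => a ≠ 0) (fun a => sB {x | x ∈ F y} a)) ∧
        ((∀ x, ∃ y, x ∈ F y) ∨ ∃ O : ValuationSubring K, O ≠ ⊤ ∧ HenselianLocalRing O ∧
          ∀ x, x ∈ O ↔ ∃ y, x ∈ F y) := by
  rcases CharP.exists' K with h0 | ⟨p, hp, hch⟩
  · obtain ⟨B, hB, τ, h1, h2, h3, h4⟩ := exists_topology_of_large hK hl hns
    refine ⟨B, hB, τ, h1, h2, h3, h4, fun p hp hch => ?_⟩
    exfalso
    have h5 : (p : K) = 0 := CharP.cast_eq_zero K p
    exact hp.ne_zero (Nat.cast_eq_zero.1 h5)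
  · obtain ⟨F, h1, h2, h3, h4, h5, h6⟩ := exists_chain_of_large' (p := p) hK hl hns
    obtain ⟨τ, t1, t2, t3, t4⟩ := (h1 0).fb.exists_topology
    have hdef : (univ : Set K).Definable₁ Language.ring {x | x ∈ F 0} := by
      have := Set.Definable.preimage_map (β := Fin 2) (α := Fin 1)
        (F := fun (v : Fin 1 → K) (i : Fin 2) => if i = 0 then v 0 else 0)
        (fun i => by
          by_cases hi : i = 0
          · simp only [hi, if_true]
            exact dfun_var _
          · simp only [hi, if_false]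
            exact dfun_const (mem_univ _)) h2
      exact this
    refine ⟨_, hdef, τ, t1, t2, t3, t4, fun p' hp' hch' => ?_⟩
    refine ⟨F, h1, h2, h3, h4, fun y => ?_, h6⟩
    refine t4.to_hasBasis ?_ ?_
    · intro a ha
      obtain ⟨d, hd, hdy⟩ := h5 0 y
      refine ⟨a * d, mul_ne_zero ha hd, ?_⟩
      rintro _ ⟨u, hu, rfl⟩
      exact ⟨d * u, hdy u hu, by ring⟩
    · intro a ha
      obtain ⟨d, hd, hdy⟩ := h5 y 0
      refine ⟨a * d, mul_ne_zero ha hd, ?_⟩
      rintro _ ⟨u, hu, rfl⟩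
      exact ⟨d * u, hdy u hu, by ring⟩

end Pool.Agent.NIPFields.LG
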