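import Mathlib

set_option autoImplicit false

/-!
# Fields in which polynomials of degree prime to `ℓ` have roots
-/

namespace Pool.Agent.NIPFields.LG

open scoped Polynomial

/-- Every monic separable polynomial of degree prime to `ℓ` has a root. -/
def RootP (F : Type*) [Field F] (ℓ : ℕ) : Prop :=
  ∀ f : F[X], f.Monic → f.Separable → ¬ ℓ ∣ f.natDegree → ∃ x, f.IsRoot x

end Pool.Agent.NIPFields.LG
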