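import Mathlib
import Pool.Agent.NIPFields.LG.RootP

set_option autoImplicit false

/-!
# The root property from the degrees of the separable extensions
-/

namespace Pool.Agent.NIPFields.LG

open scoped Polynomial
open Polynomial

universe u

/-- Fields all of whose finite separable extensions have degree a power of `ℓ`. -/
def DegP (L : Type u) [Field L] (ℓ : ℕ) : Prop :=
  ∀ (M : Type u) [Field M] [Algebra L M] [FiniteDimensional L M] [Algebra.IsSeparable L M],
    ∃ n : ℕ, Module.finrank L M = ℓ ^ n

theorem exists_factor_not_dvd {F : Type*} [Field F] {ℓ : ℕ} (f : F[X]) (hf : f.Monic)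
    (hn : ¬ ℓ ∣ f.natDegree) : ∃ g : F[X], g.Monic ∧ Irreducible g ∧ g ∣ f ∧
      ¬ ℓ ∣ g.natDegree := by
  classical
  by_contra hcon
  push Not at hcon
  apply hn
  have key : ∀ n : ℕ, ∀ f : F[X], f.Monic → f.natDegree ≤ n →
      (∀ g : F[X], g.Monic → Irreducible g → g ∣ f → ℓ ∣ g.natDegree) → ℓ ∣ f.natDegree := by
    intro n
    induction n with
    | zero =>
      intro f _ hn _
      rw [Nat.le_zero.1 hn]
      exact dvd_zero ℓ
    | succ n ih =>
      intro f hf hfn hg
      by_cases hu : f.natDegree = 0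
      · rw [hu]
        exact dvd_zero ℓ
      · have hnu : ¬ IsUnit f := by
          intro h
          exact hu (natDegree_eq_zero_of_isUnit h)
        obtain ⟨g, hgm, hgi, hgf⟩ := exists_monic_irreducible_factor f hnu
        obtain ⟨h, rfl⟩ := hgf
        have hhm : h.Monic := hgm.of_mul_monic_left hf
        rw [hgm.natDegree_mul hhm]
        have hgpos : 0 < g.natDegree := hgi.natDegree_pos
        refine dvd_add (hg g hgm hgi (dvd_mul_right g h)) (ih h hhm ?_ ?_)
        · rw [hgm.natDegree_mul hhm] at hfn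
          omega
        · intro g' h1 h2 h3
          exact hg g' h1 h2 (h3.mul_left g)
  exact key _ f hf le_rfl fun g h1 h2 h3 => hcon g h1 h2 h3

theorem rootP_of_degrees {L : Type u} [Field L] {ℓ : ℕ} (hℓ : ℓ.Prime)
    (h : ∀ (M : Type u) [Field M] [Algebra L M] [FiniteDimensional L M]
      [Algebra.IsSeparable L M], ∃ n : ℕ, Module.finrank L M = ℓ ^ n) : RootP L ℓ := by
  intro f hf hsep hn
  obtain ⟨g, hgm, hgi, hgf, hgn⟩ := exists_factor_not_dvd f hf hn
  have hgs : g.Separable := hsep.of_dvd hgf
  obtain ⟨x, hx⟩ := IsAlgClosed.exists_aeval_eq_zero (AlgebraicClosure L) g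
    (degree_pos_of_irreducible hgi).ne'
  have hmin : g = minpoly L x := minpoly.eq_of_irreducible_of_monic hgi hx hgm
  have hint : IsIntegral L x := Algebra.IsIntegral.isIntegral x
  have hxs : IsSeparable L x := by
    rw [IsSeparable, ← hmin]
    exact hgs
  have _ : Algebra.IsSeparable L (IntermediateField.adjoin L {x}) :=
    (IntermediateField.isSeparable_adjoin_simple_iff_isSeparable _ _).2 hxs
  have _ : FiniteDimensional L (IntermediateField.adjoin L {x}) :=
    IntermediateField.adjoin.finiteDimensional hint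
  obtain ⟨n, hnn⟩ := h (IntermediateField.adjoin L {x})
  rw [IntermediateField.adjoin.finrank hint, ← hmin] at hnn
  have h1 : g.natDegree = 1 := by
    rcases Nat.eq_zero_or_pos n with h0 | h0
    · rw [hnn, h0, pow_zero]
    · exact absurd (hnn ▸ dvd_pow_self ℓ h0.ne') hgn
  obtain ⟨y, hy⟩ := exists_root_of_degree_eq_one
    ((degree_eq_iff_natDegree_eq hgi.ne_zero).2 h1)
  exact ⟨y, hy.dvd hgf⟩

theorem DegP.finite {L : Type u} [Field L] {ℓ : ℕ} (hℓ : ℓ.Prime) (h : DegP L ℓ) (L' : Type u)
    [Field L'] [Algebra L L'] [FiniteDimensional L L'] [Algebra.IsSeparable L L'] :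
    DegP L' ℓ := by
  intro M _ _ _ _
  let _ : Algebra L M := ((algebraMap L' M).comp (algebraMap L L')).toAlgebra
  have _ : IsScalarTower L L' M := IsScalarTower.of_algebraMap_eq fun _ => rfl
  have _ : FiniteDimensional L M := FiniteDimensional.trans L L' M
  have _ : Algebra.IsSeparable L M := Algebra.IsSeparable.trans L L' M
  obtain ⟨n, hn⟩ := h M
  have h1 := Module.finrank_mul_finrank L L' M
  have h2 : Module.finrank L' M ∣ ℓ ^ n := by
    rw [← hn, ← h1]
    exact dvd_mul_left _ _
  obtain ⟨m, _, hm⟩ := (Nat.dvd_prime_pow hℓ).1 h2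
  exact ⟨m, hm⟩

end Pool.Agent.NIPFields.LG
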