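import Mathlib
import Pool.Agent.NIPFields.LG.RootP
import Pool.Agent.NIPFields.FI.Ultra

set_option autoImplicit false

/-!
# The root property passes to the ultrapower
-/

namespace Pool.Agent.NIPFields.LG

open Filter Pool.Agent.NIPFields.FI
open scoped Polynomial

universe u

/-- The ring homomorphism from functions to germs. -/
noncomputable abbrev gphi (K : Type u) [Field K] :
    (Finset K → K) →+* Germ (UF K : Filter (Finset K)) K :=
  Germ.coeRingHom (UF K : Filter (Finset K))

theorem gphi_surj (K : Type u) [Field K] : Function.Surjective (gphi K) := by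
  intro x
  induction x using Germ.inductionOn with | _ f
  exact ⟨f, rfl⟩

theorem gphi_eq_iff {K : Type u} [Field K] (f g : Finset K → K) :
    gphi K f = gphi K g ↔ ∀ᶠ t in (UF K : Filter (Finset K)), f t = g t :=
  Germ.coe_eq

/-- Two polynomials over the function ring with the same image agree almost everywhere. -/
theorem eventually_map_eq {K : Type u} [Field K] {G H : (Finset K → K)[X]}
    (h : G.map (gphi K) = H.map (gphi K)) :
    ∀ᶠ t in (UF K : Filter (Finset K)),
      G.map (Pi.evalRingHom (fun _ : Finset K => K) t) =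
        H.map (Pi.evalRingHom (fun _ : Finset K => K) t) := by
  have h1 : ∀ i ∈ Finset.range (max G.natDegree H.natDegree + 1),
      ∀ᶠ t in (UF K : Filter (Finset K)), G.coeff i t = H.coeff i t := by
    intro i _
    rw [← gphi_eq_iff]
    have := congrArg (fun P => Polynomial.coeff P i) h
    simpa only [Polynomial.coeff_map] using this
  rw [← Filter.eventually_all_finset] at h1
  filter_upwards [h1] with t ht
  ext i
  rw [Polynomial.coeff_map, Polynomial.coeff_map]
  by_cases hi : i ∈ Finset.range (max G.natDegree H.natDegree + 1)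
  · exact ht i hi
  · rw [Finset.mem_range, not_lt, Nat.succ_le_iff] at hi
    rw [Polynomial.coeff_eq_zero_of_natDegree_lt ((le_max_left _ _).trans_lt hi),
      Polynomial.coeff_eq_zero_of_natDegree_lt ((le_max_right _ _).trans_lt hi)]

theorem RootP.germ {K : Type u} [Field K] {ℓ : ℕ} (h : RootP K ℓ) :
    RootP (Germ (UF K : Filter (Finset K)) K) ℓ := by
  intro f hf hs hl
  obtain ⟨F, hF, hdeg, hmon⟩ := Polynomial.lifts_and_natDegree_eq_and_monic
    (f := gphi K) (p := f)
    (by
      rw [Polynomial.mem_lifts]
      exact Polynomial.map_surjective _ (gphi_surj K) f) hf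
  obtain ⟨a, b, hab⟩ := hs
  obtain ⟨A, hA⟩ := Polynomial.map_surjective _ (gphi_surj K) a
  obtain ⟨B, hB⟩ := Polynomial.map_surjective _ (gphi_surj K) b
  have h1 : (A * F + B * Polynomial.derivative F).map (gphi K) =
      (1 : (Finset K → K)[X]).map (gphi K) := by
    rw [Polynomial.map_add, Polynomial.map_mul, Polynomial.map_mul, ← Polynomial.derivative_map,
      hA, hB, hF, hab, Polynomial.map_one]
  have h2 := eventually_map_eq h1
  have h3 : ∀ᶠ t in (UF K : Filter (Finset K)), ∃ x : K,
      (F.map (Pi.evalRingHom (fun _ : Finset K => K) t)).IsRoot x := by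
    filter_upwards [h2] with t ht
    refine h _ (hmon.map _) ?_ ?_
    · refine ⟨A.map (Pi.evalRingHom (fun _ : Finset K => K) t),
        B.map (Pi.evalRingHom (fun _ : Finset K => K) t), ?_⟩
      rw [Polynomial.derivative_map, ← Polynomial.map_mul, ← Polynomial.map_mul,
        ← Polynomial.map_add, ht, Polynomial.map_one]
    · rw [hmon.natDegree_map, hdeg]
      exact hl
  classical
  let x : Finset K → K := fun t =>
    if ht : ∃ x : K, (F.map (Pi.evalRingHom (fun _ : Finset K => K) t)).IsRoot x then
      ht.choose else 0
  refine ⟨gphi K x, ?_⟩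
  have h4 : Polynomial.eval (gphi K x) f = gphi K (Polynomial.eval x F) := by
    rw [← hF, Polynomial.eval_map, Polynomial.eval₂_at_apply]
  rw [Polynomial.IsRoot.def, h4, ← map_zero (gphi K), gphi_eq_iff]
  filter_upwards [h3] with t ht
  have h5 : (Polynomial.eval x F) t =
      Polynomial.eval (x t) (F.map (Pi.evalRingHom (fun _ : Finset K => K) t)) := by
    rw [Polynomial.eval_map]
    have := Polynomial.eval₂_at_apply (p := F) (Pi.evalRingHom (fun _ : Finset K => K) t) x
    exact this.symm
  rw [h5, Pi.zero_apply]
  have h6 : x t = ht.choose := by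
    simp only [x]
    rw [dif_pos ht]
  rw [h6]
  exact ht.choose_spec

end Pool.Agent.NIPFields.LG
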