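import Mathlib
import Pool.Agent.NIPFields.LG.RootP
import Pool.Agent.NIPFields.LG.Large

/-!
# Fields of characteristic `p` in which polynomials of degree prime to `ℓ` have roots are large
-/

set_option autoImplicit false

namespace Pool.Agent.NIPFields.LG

open scoped Polynomial
open Polynomial

namespace RootLarge

variable {F : Type*} [Field F]

/-! ### derivative with respect to the inner variable -/

/-- derivative of the coefficients -/
noncomputable def dx (f : F[X][X]) : F[X][X] :=
  ∑ i ∈ Finset.range (f.natDegree + 1), monomial i (derivative (f.coeff i))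

lemma dx_coeff (f : F[X][X]) (i : ℕ) : (dx f).coeff i = derivative (f.coeff i) := by
  unfold dx
  rw [finsetSum_coeff]
  simp only [coeff_monomial]
  rw [Finset.sum_ite_eq' (Finset.range (f.natDegree + 1)) i]
  split_ifs with h
  · rfl
  · rw [Finset.mem_range, not_lt] at h
    rw [coeff_eq_zero_of_natDegree_lt (by omega), derivative_zero]

lemma dx_add (f g : F[X][X]) : dx (f + g) = dx f + dx g := by
  ext1 i
  rw [dx_coeff, coeff_add, coeff_add, dx_coeff, dx_coeff, derivative_add]

lemma dx_monomial (i : ℕ) (c : F[X]) : dx (monomial i c) = monomial i (derivative c) := by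
  ext1 j
  rw [dx_coeff, coeff_monomial, coeff_monomial]
  split_ifs
  · rfl
  · rw [derivative_zero]

/-- chain rule -/
lemma derivative_eval (f : F[X][X]) (g : F[X]) :
    derivative (f.eval g) = (dx f).eval g + derivative g * (derivative f).eval g := by
  induction f using Polynomial.induction_on' with
  | add f h hf hh =>
    rw [eval_add, derivative_add, hf, hh, dx_add, eval_add, derivative_add, eval_add]
    ring
  | monomial n a =>
    rw [dx_monomial, derivative_monomial, eval_monomial, eval_monomial, eval_monomial,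
      derivative_mul, derivative_pow]
    simp only [map_natCast]
    ring

/-! ### evaluation -/

variable {K : Type*} [Field K] [Algebra F K]

/-- value of `f` at a point with coordinates in an extension field -/
lemma aeval_eval (f : F[X][X]) (g : F[X]) (a : K) :
    aeval a (f.eval g) = (f.map (aeval a).toRingHom).eval (aeval a g) := by
  have : aeval a (f.eval g) = (aeval a).toRingHom (f.eval g) := rfl
  rw [this, ← Polynomial.eval_map_apply]
  rfl

/-! ### degrees -/

lemma natDegree_eval (f : F[X][X]) (g : F[X]) (hD : 1 ≤ f.natDegree)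
    (hg : ∀ i, (f.coeff i).natDegree < g.natDegree) :
    (f.eval g).natDegree = f.leadingCoeff.natDegree + f.natDegree * g.natDegree := by
  have hf0 : f ≠ 0 := by
    rintro rfl
    simp at hD
  have hlc : f.leadingCoeff ≠ 0 := leadingCoeff_ne_zero.2 hf0
  have hg0 : g ≠ 0 := by
    rintro rfl
    have := hg 0
    simp at this
  rw [eval_eq_sum_range, Finset.sum_range_succ]
  have htop : (f.coeff f.natDegree * g ^ f.natDegree).natDegree =
      f.leadingCoeff.natDegree + f.natDegree * g.natDegree := by
    rw [coeff_natDegree, natDegree_mul hlc (pow_ne_zero _ hg0), natDegree_pow]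
  rw [← htop]
  apply natDegree_add_eq_right_of_natDegree_lt
  rw [htop]
  have hle : (∑ i ∈ Finset.range f.natDegree, f.coeff i * g ^ i).natDegree ≤
      f.natDegree * g.natDegree - 1 := by
    apply natDegree_sum_le_of_forall_le
    intro i hi
    rw [Finset.mem_range] at hi
    refine natDegree_mul_le.trans ?_
    rw [natDegree_pow]
    have h1 := hg i
    have h2 : (i + 1) * g.natDegree ≤ f.natDegree * g.natDegree :=
      Nat.mul_le_mul_right _ (by omega)
    have h3 : (i + 1) * g.natDegree = i * g.natDegree + g.natDegree := by ring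
    omega
  have h4 : 1 ≤ f.natDegree * g.natDegree :=
    Nat.one_le_iff_ne_zero.2 (Nat.mul_ne_zero (by omega) (by have := hg 0; omega))
  omega

/-! ### Bezout -/

lemma bezout {f h : F[X][X]} (hf : Irreducible f) (hD : 1 ≤ f.natDegree) (hh : ¬ f ∣ h) :
    ∃ (u v : F[X][X]) (ρ : F[X]), ρ ≠ 0 ∧ f * u + h * v = C ρ := by
  have hprim : f.IsPrimitive := hf.isPrimitive (by omega)
  let L := FractionRing F[X]
  have hirr : Irreducible (f.map (algebraMap F[X] L)) :=
    (hprim.irreducible_iff_irreducible_map_fraction_map).1 hf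
  have hnd : ¬ f.map (algebraMap F[X] L) ∣ h.map (algebraMap F[X] L) := by
    rwa [← hprim.dvd_iff_fraction_map_dvd_fraction_map L]
  have hco : IsCoprime (f.map (algebraMap F[X] L)) (h.map (algebraMap F[X] L)) :=
    (hirr.coprime_iff_not_dvd).2 hnd
  have hres : resultant (f.map (algebraMap F[X] L)) (h.map (algebraMap F[X] L)) ≠ 0 := by
    rw [Ne, resultant_eq_zero_iff]
    tauto
  have hinj : Function.Injective (algebraMap F[X] L) := IsFractionRing.injective _ _
  rw [natDegree_map_eq_of_injective hinj, natDegree_map_eq_of_injective hinj,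
    resultant_map_map] at hres
  obtain ⟨u, v, -, -, huv⟩ := exists_mul_add_mul_eq_C_resultant f h le_rfl le_rfl
    (Or.inl (by omega))
  refine ⟨u, v, _, ?_, huv⟩
  intro h0
  rw [h0, map_zero] at hres
  exact hres rfl

/-! ### choices -/

lemma exists_lambda [Infinite F] {f : F[X][X]} (hD : 1 ≤ f.natDegree) {x0 y0 : F}
    (h : (derivative f).evalEval x0 y0 ≠ 0) :
    ∃ lam : F, ¬ f ∣ dx f + C (C lam) * derivative f ∧
      (dx f + C (C lam) * derivative f).evalEval x0 y0 ≠ 0 := by
  have hf' : derivative f ≠ 0 := by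
    intro h0
    rw [h0] at h
    simp at h
  have h1 : {lam : F | f ∣ dx f + C (C lam) * derivative f}.Finite := by
    apply Set.Subsingleton.finite
    intro a ha b hb
    by_contra hab
    have h2 : f ∣ C (C (a - b)) * derivative f := by
      have := dvd_sub ha hb
      have h3 : dx f + C (C a) * derivative f - (dx f + C (C b) * derivative f) =
          C (C (a - b)) * derivative f := by
        rw [map_sub, map_sub]
        ring
      rwa [h3] at this
    have h4 : IsUnit (C (C (a - b)) : F[X][X]) := by
      apply IsUnit.map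
      apply IsUnit.map
      exact (sub_ne_zero.2 hab).isUnit
    rw [h4.dvd_mul_left] at h2
    have h5 := natDegree_le_of_dvd h2 hf'
    have h6 := natDegree_derivative_lt (p := f) (by omega)
    omega
  have h2 : {lam : F | (dx f + C (C lam) * derivative f).evalEval x0 y0 = 0}.Finite := by
    apply Set.Subsingleton.finite
    intro a ha b hb
    simp only [Set.mem_ofPred_eq, evalEval_add, evalEval_mul, evalEval_C, eval_C] at ha hb
    have h3 : (a - b) * (derivative f).evalEval x0 y0 = 0 := by
      linear_combination ha - hb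
    rcases mul_eq_zero.1 h3 with h4 | h4
    · exact sub_eq_zero.1 h4
    · exact absurd h4 h
  obtain ⟨lam, hlam⟩ := (h1.union h2).infinite_compl.nonempty
  simp only [Set.mem_compl_iff, Set.mem_union, Set.mem_ofPred_eq, not_or] at hlam
  exact ⟨lam, hlam.1, hlam.2⟩

lemma map_ne_zero' {f : F[X][X]} (hf : f.IsPrimitive) [Algebra.IsAlgebraic F K] (a : K) :
    f.map (aeval a).toRingHom ≠ 0 := by
  intro h0
  have h1 : C (minpoly F a) ∣ f := by
    rw [C_dvd_iff_dvd_coeff]
    intro i
    apply minpoly.dvd
    have := congrArg (fun q => coeff q i) h0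
    simpa [coeff_map] using this
  have h2 := hf _ h1
  exact minpoly.not_isUnit F a h2

lemma exists_c [Infinite F] {p : ℕ} [Fact p.Prime] [CharP F p] {f : F[X][X]}
    (hf : f.IsPrimitive) [Algebra.IsAlgebraic F K] (e g0 P : F[X]) (hP : P ≠ 0) :
    ∃ c : F, ∀ a : K, aeval a P = 0 → aeval a e ≠ 0 →
      (f.map (aeval a).toRingHom).eval
        (aeval a g0 + (aeval a e * algebraMap F K c) ^ p) ≠ 0 := by
  classical
  have hK : CharP K p := charP_of_injective_algebraMap (algebraMap F K).injective p
  have h1 : ∀ a : K, aeval a e ≠ 0 → {c : F | (f.map (aeval a).toRingHom).eval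
      (aeval a g0 + (aeval a e * algebraMap F K c) ^ p) = 0}.Finite := by
    intro a ha
    have h2 : {y : K | (f.map (aeval a).toRingHom).eval y = 0}.Finite := by
      have := (f.map (aeval a).toRingHom).roots.toFinset.finite_toSet
      refine this.subset ?_
      intro y hy
      simp only [Finset.mem_coe, Multiset.mem_toFinset]
      exact (mem_roots (map_ne_zero' hf a)).2 hy
    refine h2.preimage (f := fun c : F => aeval a g0 + (aeval a e * algebraMap F K c) ^ p) ?_
    intro c _ d _ hcd
    have h3 : (aeval a e * algebraMap F K c) ^ p = (aeval a e * algebraMap F K d) ^ p :=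
      add_left_cancel hcd
    have h4 := frobenius_inj K p h3
    exact (algebraMap F K).injective (mul_left_cancel₀ ha h4)
  have h2 : (⋃ a ∈ {a : K | aeval a P = 0 ∧ aeval a e ≠ 0},
      {c : F | (f.map (aeval a).toRingHom).eval
        (aeval a g0 + (aeval a e * algebraMap F K c) ^ p) = 0}).Finite := by
    apply Set.Finite.biUnion
    · have h3 := (P.map (algebraMap F K)).roots.toFinset.finite_toSet
      refine h3.subset ?_
      intro y hy
      simp only [Finset.mem_coe, Multiset.mem_toFinset]
      rw [mem_roots ((Polynomial.map_ne_zero_iff (algebraMap F K).injective).2 hP)]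
      rw [IsRoot, eval_map_algebraMap]
      exact hy.1
    · intro a ha
      exact h1 a ha.2
  obtain ⟨c, hc⟩ := h2.infinite_compl.nonempty
  refine ⟨c, ?_⟩
  intro a ha he h0
  apply hc
  simp only [Set.mem_iUnion, Set.mem_ofPred_eq]
  exact ⟨a, ⟨ha, he⟩, h0⟩

/-- root of a separable polynomial of degree prime to `ℓ` -/
lemma exists_root {ℓ : ℕ} (h : RootP F ℓ) {R : F[X]} (hR : R.Separable)
    (hd : ¬ ℓ ∣ R.natDegree) : ∃ x, R.eval x = 0 := by
  have hR0 : R ≠ 0 := hR.ne_zero
  have hlc : R.leadingCoeff ≠ 0 := leadingCoeff_ne_zero.2 hR0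
  have h1 : (R * C R.leadingCoeff⁻¹).Monic := monic_mul_leadingCoeff_inv hR0
  have h2 : (R * C R.leadingCoeff⁻¹).Separable := by
    apply hR.of_dvd
    refine ⟨C R.leadingCoeff, ?_⟩
    rw [mul_assoc, ← C_mul, inv_mul_cancel₀ hlc, C_1, mul_one]
  have h3 : (R * C R.leadingCoeff⁻¹).natDegree = R.natDegree :=
    natDegree_mul_leadingCoeff_inv R hR0
  obtain ⟨x, hx⟩ := h _ h1 h2 (by rwa [h3])
  refine ⟨x, ?_⟩
  rw [IsRoot, eval_mul, eval_C] at hx
  rcases mul_eq_zero.1 hx with h4 | h4
  · exact h4
  · exact absurd h4 (inv_ne_zero hlc)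

lemma eval_eval' (f : F[X][X]) (g : F[X]) (x : F) :
    (f.eval g).eval x = f.evalEval x (g.eval x) := by
  have : (f.eval g).eval x = (evalRingHom x) (f.eval g) := rfl
  rw [this, ← Polynomial.eval_map_apply]
  exact map_evalRingHom_eval _ _ _

/-- a number of consecutive steps avoids a multiple of `ℓ` -/
lemma exists_step {ℓ : ℕ} (hℓ : ℓ.Prime) {p D : ℕ} (hp : p.Prime) (hne : ℓ ≠ p) (hD : ¬ ℓ ∣ D)
    (A B N : ℕ) : ∃ j, N ≤ j ∧ ¬ ℓ ∣ A + D * (p * (B + j)) := by
  by_contra hc
  push Not at hc
  have h1 := hc N le_rfl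
  have h2 := hc (N + 1) (by omega)
  have h3 : A + D * (p * (B + (N + 1))) = (A + D * (p * (B + N))) + D * p := by ring
  rw [h3, Nat.dvd_add_right h1, hℓ.dvd_mul] at h2
  rcases h2 with h2 | h2
  · exact hD h2
  · exact hne ((Nat.prime_dvd_prime_iff_eq hℓ hp).1 h2)

/-- the construction -/
lemma key [Infinite F] {p : ℕ} [hp : Fact p.Prime] [CharP F p] {f : F[X][X]} (hf : Irreducible f)
    (hD : 1 ≤ f.natDegree) {x0 y0 lam : F} (hlam : ¬ f ∣ dx f + C (C lam) * derivative f)
    (Z : Finset F) {e : F[X]} (he : e ≠ 0) :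
    ∃ B N : ℕ, ∀ j, N ≤ j → ∃ g : F[X],
      derivative (f.eval g) = (dx f + C (C lam) * derivative f).eval g ∧
      (f.eval g).natDegree = f.leadingCoeff.natDegree + f.natDegree * (p * (B + j)) ∧
      (∀ a : AlgebraicClosure F, aeval a (f.eval g) = 0 → aeval a (derivative (f.eval g)) = 0 →
        aeval a e = 0) ∧
      (∀ z ∈ Z, e.eval z ≠ 0 → (f.eval g).eval z ≠ 0) ∧
      ∀ x, e.eval x = 0 → g.eval x = y0 + lam * (x - x0) := by
  have hprim : f.IsPrimitive := hf.isPrimitive (by omega)
  obtain ⟨u, v, ρ, hρ, huv⟩ := bezout hf hD hlam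
  set P : F[X] := ρ * ∏ z ∈ Z, (X - C z) with hP
  have hP0 : P ≠ 0 := mul_ne_zero hρ (Finset.prod_ne_zero_iff.2 (fun z _ => X_sub_C_ne_zero z))
  set g0 : F[X] := C y0 + C lam * (X - C x0) with hg0
  obtain ⟨c, hc⟩ := exists_c (K := AlgebraicClosure F) (p := p) hprim e g0 P hP0
  set Mx := (Finset.range (f.natDegree + 1)).sup (fun i => (f.coeff i).natDegree) with hMx
  have hMx2 : ∀ i, (f.coeff i).natDegree ≤ Mx := by
    intro i
    by_cases hi : i < f.natDegree + 1
    · exact Finset.le_sup (f := fun i => (f.coeff i).natDegree) (Finset.mem_range.2 hi)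
    · rw [coeff_eq_zero_of_natDegree_lt (by omega), natDegree_zero]
      exact Nat.zero_le _
  refine ⟨e.natDegree + P.natDegree, Mx + 2, ?_⟩
  intro j hj
  have hp2 : 2 ≤ p := hp.out.two_le
  -- the degree of `w`
  have hw1 : (C c + P * X ^ j).natDegree = P.natDegree + j := by
    have h1 : (P * X ^ j).natDegree = P.natDegree + j := by
      rw [natDegree_mul hP0 (pow_ne_zero _ X_ne_zero), natDegree_X_pow]
    rw [← h1]
    apply natDegree_add_eq_right_of_natDegree_lt
    rw [natDegree_C, h1]
    omega
  have hw0 : C c + P * X ^ j ≠ 0 := by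
    intro h0
    rw [h0, natDegree_zero] at hw1
    omega
  set w : F[X] := e * (C c + P * X ^ j) with hw
  have hwd : w.natDegree = e.natDegree + P.natDegree + j := by
    rw [hw, natDegree_mul he hw0, hw1]
    omega
  have hg0d : g0.natDegree ≤ 1 := by
    rw [hg0]
    refine (natDegree_add_le _ _).trans (max_le (by rw [natDegree_C]; omega) ?_)
    refine natDegree_mul_le.trans ?_
    rw [natDegree_C, natDegree_X_sub_C]
  have hbig : Mx + 2 ≤ p * (e.natDegree + P.natDegree + j) := by
    have : 1 * (e.natDegree + P.natDegree + j) ≤ p * (e.natDegree + P.natDegree + j) :=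
      Nat.mul_le_mul_right _ (by omega)
    omega
  have hgd : (g0 + w ^ p).natDegree = p * (e.natDegree + P.natDegree + j) := by
    have h1 : (w ^ p).natDegree = p * (e.natDegree + P.natDegree + j) := by
      rw [natDegree_pow, hwd]
    rw [← h1]
    apply natDegree_add_eq_right_of_natDegree_lt
    rw [h1]
    omega
  have hgder : derivative (g0 + w ^ p) = C lam := by
    rw [derivative_add, derivative_pow, hg0]
    simp
  refine ⟨g0 + w ^ p, ?_, ?_, ?_, ?_, ?_⟩
  · rw [derivative_eval, hgder, eval_add, eval_mul, eval_C]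
  · rw [natDegree_eval f _ hD, hgd]
    intro i
    rw [hgd]
    have := hMx2 i
    omega
  · -- common roots
    intro a h1 h2
    by_contra hea
    have h3 : derivative (f.eval (g0 + w ^ p)) =
        (dx f + C (C lam) * derivative f).eval (g0 + w ^ p) := by
      rw [derivative_eval, hgder, eval_add, eval_mul, eval_C]
    rw [h3] at h2
    have h4 := congrArg (fun q : F[X][X] => aeval a (q.eval (g0 + w ^ p))) huv
    simp only [eval_add, eval_mul, eval_C, map_add, map_mul] at h4
    simp only [eval_add, eval_mul, eval_C, map_add, map_mul] at h2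
    rw [h1, h2, zero_mul, zero_mul, add_zero] at h4
    have hPa : aeval a P = 0 := by
      rw [hP, map_mul, ← h4, zero_mul]
    apply hc a hPa hea
    rw [aeval_eval] at h1
    rw [← h1]
    congr 1
    simp only [map_add, map_pow, hw, map_mul, hPa, zero_mul, add_zero, aeval_C]
  · intro z hz hez h0
    have hPz : P.eval z = 0 := by
      rw [hP, eval_mul, eval_prod, Finset.prod_eq_zero hz (by simp), mul_zero]
    have hPa : aeval (algebraMap F (AlgebraicClosure F) z) P = 0 := by
      rw [aeval_algebraMap_apply, coe_aeval_eq_eval, hPz, map_zero]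
    have hea : aeval (algebraMap F (AlgebraicClosure F) z) e ≠ 0 := by
      rw [aeval_algebraMap_apply, coe_aeval_eq_eval]
      intro h
      exact hez ((algebraMap F (AlgebraicClosure F)).injective (by rw [h, map_zero]))
    apply hc _ hPa hea
    have h1 : aeval (algebraMap F (AlgebraicClosure F) z) (f.eval (g0 + w ^ p)) = 0 := by
      rw [aeval_algebraMap_apply, coe_aeval_eq_eval, h0, map_zero]
    rw [aeval_eval] at h1
    rw [← h1]
    congr 1
    simp only [map_add, map_pow, hw, map_mul, hPa, zero_mul, add_zero, aeval_C]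
  · intro x hx
    rw [eval_add, eval_pow, hw, eval_mul, hx, zero_mul, zero_pow (by omega), add_zero, hg0]
    simp

lemma separable_of {R : F[X]} (h : ∀ a : AlgebraicClosure F, aeval a R = 0 →
    aeval a (derivative R) = 0 → False) : R.Separable := by
  refine (isCoprime_iff_aeval_ne_zero_of_isAlgClosed (k := F) (AlgebraicClosure F) R
    (derivative R)).2 ?_
  intro a
  by_contra hc
  push Not at hc
  exact h a hc.1 hc.2

/-- irreducible case -/
lemma irred [Infinite F] {p : ℕ} [hp : Fact p.Prime] [CharP F p] {ℓ : ℕ} (hℓ : ℓ.Prime)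
    (hℓp : ℓ ≠ p) (h : RootP F ℓ) {f : F[X][X]} (hf : Irreducible f) {x0 y0 : F}
    (h0 : f.evalEval x0 y0 = 0) (h1 : (derivative f).evalEval x0 y0 ≠ 0) :
    {v : F × F | f.evalEval v.1 v.2 = 0}.Infinite := by
  classical
  intro hfin
  have hD : 1 ≤ f.natDegree := by
    by_contra hD
    have h2 : f.natDegree = 0 := by omega
    rw [natDegree_eq_zero_iff_degree_le_zero] at h2
    rw [eq_C_of_degree_le_zero h2] at h1
    simp at h1
  set Z : Finset F := hfin.toFinset.image Prod.fst with hZ
  have hZ2 : ∀ x y : F, f.evalEval x y = 0 → x ∈ Z := by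
    intro x y hxy
    rw [hZ, Finset.mem_image]
    exact ⟨(x, y), by simpa using hxy, rfl⟩
  obtain ⟨lam, hlam, hlam0⟩ := exists_lambda hD h1
  -- case A
  have caseA : ∀ (B N j : ℕ) (g : F[X]), N ≤ j →
      (f.eval g).natDegree = f.leadingCoeff.natDegree + f.natDegree * (p * (B + j)) →
      (∀ a : AlgebraicClosure F, aeval a (f.eval g) = 0 → aeval a (derivative (f.eval g)) = 0 →
        aeval a (1 : F[X]) = 0) →
      (∀ z ∈ Z, (1 : F[X]).eval z ≠ 0 → (f.eval g).eval z ≠ 0) →
      ¬ ℓ ∣ f.leadingCoeff.natDegree + f.natDegree * (p * (B + j)) → False := by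
    intro B N j g hj hd hs hz hl
    have hsep : (f.eval g).Separable := by
      apply separable_of
      intro a ha hb
      have := hs a ha hb
      rw [map_one] at this
      exact one_ne_zero this
    obtain ⟨x, hx⟩ := exists_root h hsep (by rwa [hd])
    have hxZ : x ∈ Z := by
      rw [eval_eval'] at hx
      exact hZ2 _ _ hx
    exact hz x hxZ (by simp) hx
  by_cases hlD : ℓ ∣ f.natDegree
  · by_cases hlc : ℓ ∣ f.leadingCoeff.natDegree
    · -- case B
      obtain ⟨B, N, hBN⟩ := key (p := p) (x0 := x0) (y0 := y0) hf hD hlam Z (X_sub_C_ne_zero x0)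
      obtain ⟨g, hg1, hg2, hg3, hg4, hg5⟩ := hBN N le_rfl
      have hgx0 : g.eval x0 = y0 := by
        rw [hg5 x0 (by simp)]
        ring
      have hRx0 : (f.eval g).eval x0 = 0 := by
        rw [eval_eval', hgx0, h0]
      have hRx0' : (derivative (f.eval g)).eval x0 ≠ 0 := by
        rw [hg1, eval_eval', hgx0]
        exact hlam0
      obtain ⟨R1, hR1⟩ := dvd_iff_isRoot.2 hRx0
      have hR0 : f.eval g ≠ 0 := by
        intro h2
        rw [h2] at hRx0'
        simp at hRx0'
      have hR10 : R1 ≠ 0 := by
        rintro rfl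
        rw [mul_zero] at hR1
        exact hR0 hR1
      have hder : derivative (f.eval g) = R1 + (X - C x0) * derivative R1 := by
        rw [hR1, derivative_mul]
        simp
      have hR1x0 : R1.eval x0 ≠ 0 := by
        rw [hder] at hRx0'
        simpa using hRx0'
      have hsep : R1.Separable := by
        apply separable_of
        intro a ha hb
        have h2 : aeval a (f.eval g) = 0 := by
          rw [hR1, map_mul, ha, mul_zero]
        have h3 : aeval a (derivative (f.eval g)) = 0 := by
          rw [hder, map_add, map_mul, ha, hb, mul_zero, add_zero]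
        have h4 := hg3 a h2 h3
        rw [map_sub, aeval_X, aeval_C, sub_eq_zero] at h4
        rw [h4, aeval_algebraMap_apply, coe_aeval_eq_eval] at ha
        exact hR1x0 ((algebraMap F (AlgebraicClosure F)).injective (by rw [ha, map_zero]))
      have hd : R1.natDegree + 1 = f.leadingCoeff.natDegree + f.natDegree * (p * (B + N)) := by
        rw [← hg2, hR1, natDegree_mul (X_sub_C_ne_zero x0) hR10, natDegree_X_sub_C]
        omega
      have hnd : ¬ ℓ ∣ R1.natDegree := by
        intro h2
        have h3 : ℓ ∣ R1.natDegree + 1 := by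
          rw [hd]
          exact dvd_add hlc (Dvd.dvd.mul_right hlD _)
        rw [Nat.dvd_add_right h2] at h3
        have := Nat.le_of_dvd (by omega) h3
        have := hℓ.two_le
        omega
      obtain ⟨x, hx⟩ := exists_root h hsep hnd
      have hRx : (f.eval g).eval x = 0 := by
        rw [hR1, eval_mul, hx, mul_zero]
      have hxZ : x ∈ Z := by
        have := hRx
        rw [eval_eval'] at this
        exact hZ2 _ _ this
      refine hg4 x hxZ ?_ hRx
      intro h2
      rw [eval_sub, eval_X, eval_C, sub_eq_zero] at h2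
      subst h2
      exact hR1x0 hx
    · obtain ⟨B, N, hBN⟩ := key (p := p) (x0 := x0) (y0 := y0) hf hD hlam Z
        (one_ne_zero (α := F[X]))
      obtain ⟨g, hg1, hg2, hg3, hg4, hg5⟩ := hBN N le_rfl
      refine caseA B N N g le_rfl hg2 hg3 hg4 ?_
      rwa [Nat.dvd_add_left (Dvd.dvd.mul_right hlD _)]
  · obtain ⟨B, N, hBN⟩ := key (p := p) (x0 := x0) (y0 := y0) hf hD hlam Z
      (one_ne_zero (α := F[X]))
    obtain ⟨j, hj, hj2⟩ := exists_step hℓ hp.out hℓp hlD f.leadingCoeff.natDegree B N
    obtain ⟨g, hg1, hg2, hg3, hg4, hg5⟩ := hBN j hj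
    exact caseA B N j g hj hg2 hg3 hg4 hj2

end RootLarge

theorem large_of_rootP {F : Type*} [Field F] [Infinite F] {p : ℕ} [Fact p.Prime] [CharP F p]
    {ℓ : ℕ} (hℓ : ℓ.Prime) (hℓp : ℓ ≠ p) (h : RootP F ℓ) : Large F := by
  rintro f ⟨x0, y0, h0, h1⟩
  have hf0 : f ≠ 0 := by
    rintro rfl
    simp at h1
  -- an irreducible factor through the point
  obtain ⟨g, hg, hgf, hg0⟩ : ∃ g : F[X][X], Irreducible g ∧ g ∣ f ∧ g.evalEval x0 y0 = 0 := by
    obtain ⟨S, hS, hS2⟩ := WfDvdMonoid.exists_factors f hf0
    obtain ⟨u, hu⟩ := hS2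
    by_contra hc
    push Not at hc
    have h2 : ∀ g ∈ S, g.evalEval x0 y0 ≠ 0 := by
      intro g hg
      apply hc g (hS g hg)
      exact (Multiset.dvd_prod hg).trans ⟨u, hu.symm⟩
    have h3 : (S.prod).evalEval x0 y0 ≠ 0 := by
      have : S.prod.evalEval x0 y0 = (S.map (fun g => g.evalEval x0 y0)).prod := by
        have := map_multiset_prod (evalEvalRingHom x0 y0) S
        exact this
      rw [this]
      rw [Ne, Multiset.prod_eq_zero_iff, Multiset.mem_map]
      rintro ⟨g, hg, hg0⟩
      exact h2 g hg hg0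
    rw [← hu, evalEval_mul] at h0
    rcases mul_eq_zero.1 h0 with h4 | h4
    · exact h3 h4
    · have h5 : IsUnit ((u : F[X][X]).evalEval x0 y0) :=
        u.isUnit.map (evalEvalRingHom x0 y0)
      exact h5.ne_zero h4
  obtain ⟨q, rfl⟩ := hgf
  have hg1 : (derivative g).evalEval x0 y0 ≠ 0 := by
    intro h2
    apply h1
    rw [derivative_mul, evalEval_add, evalEval_mul, evalEval_mul, h2, hg0]
    ring
  refine (RootLarge.irred hℓ hℓp h hg hg0 hg1).mono ?_
  rintro ⟨x, y⟩ hxy
  change g.evalEval x y = 0 at hxy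
  change (g * q).evalEval x y = 0
  rw [evalEval_mul, hxy, zero_mul]

end Pool.Agent.NIPFields.LG
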