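import Mathlib
import Pool.Agent.NIPFields.LG.RootP

set_option autoImplicit false

/-!
# The root property passes to the residue field of an integrally closed local subring
-/

namespace Pool.Agent.NIPFields.LG

open IsLocalRing
open scoped Polynomial

/-- A monic polynomial over a local ring that is separable over the residue field is separable. -/
lemma separable_of_residue {E : Type*} [CommRing E] [IsLocalRing E] {F : E[X]} (hF : F.Monic)
    (hs : (F.map (residue E)).Separable) : F.Separable := by
  obtain ⟨u, v, huv⟩ := hs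
  obtain ⟨U, rfl⟩ := Polynomial.map_surjective (residue E) residue_surjective u
  obtain ⟨V, rfl⟩ := Polynomial.map_surjective (residue E) residue_surjective v
  let P : E[X] := U * F + V * Polynomial.derivative F - 1
  have hP : P.map (residue E) = 0 := by
    simp only [P, Polynomial.map_sub, Polynomial.map_add, Polynomial.map_mul, Polynomial.map_one,
      ← Polynomial.derivative_map]
    rw [huv, sub_self]
  have : Module.Finite E (AdjoinRoot F) := hF.finite_adjoinRoot
  let N : Submodule E (AdjoinRoot F) :=
    (Ideal.span {AdjoinRoot.mk F (Polynomial.derivative F)}).restrictScalars E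
  have hPm : AdjoinRoot.mk F P ∈ maximalIdeal E • (⊤ : Submodule E (AdjoinRoot F)) := by
    rw [P.as_sum_range_C_mul_X_pow, map_sum]
    refine Submodule.sum_mem _ fun i _ => ?_
    have h1 : P.coeff i ∈ maximalIdeal E := by
      rw [← residue_eq_zero_iff, ← Polynomial.coeff_map, hP, Polynomial.coeff_zero]
    have h2 : AdjoinRoot.mk F (Polynomial.C (P.coeff i) * Polynomial.X ^ i) =
        P.coeff i • AdjoinRoot.mk F (Polynomial.X ^ i) := by
      rw [← Polynomial.smul_eq_C_mul, AdjoinRoot.smul_mk]
    rw [h2]
    exact Submodule.smul_mem_smul h1 Submodule.mem_top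
  have hmul : ∀ b x : AdjoinRoot F, x ∈ maximalIdeal E • (⊤ : Submodule E (AdjoinRoot F)) →
      b * x ∈ maximalIdeal E • (⊤ : Submodule E (AdjoinRoot F)) := by
    intro b x hx
    refine Submodule.smul_induction_on hx ?_ ?_
    · intro r hr n _
      rw [mul_smul_comm]
      exact Submodule.smul_mem_smul hr Submodule.mem_top
    · intro x y hx hy
      rw [mul_add]
      exact Submodule.add_mem _ hx hy
  have htop : (⊤ : Submodule E (AdjoinRoot F)) ≤ N := by
    refine Submodule.le_of_le_smul_of_le_jacobson_bot (I := maximalIdeal E)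
      Module.Finite.fg_top ?_ ?_
    · exact maximalIdeal_le_jacobson _
    · intro b _
      have h1 : b = b * AdjoinRoot.mk F V * AdjoinRoot.mk F (Polynomial.derivative F) +
          (-(b * AdjoinRoot.mk F P)) := by
        have : AdjoinRoot.mk F P =
            AdjoinRoot.mk F V * AdjoinRoot.mk F (Polynomial.derivative F) - 1 := by
          simp only [P, map_sub, map_add, map_mul, map_one, AdjoinRoot.mk_self, mul_zero, zero_add]
        rw [this]
        ring
      rw [h1]
      refine Submodule.add_mem_sup ?_ ?_
      · exact Ideal.mul_mem_left _ _ (Ideal.mem_span_singleton_self _)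
      · exact Submodule.neg_mem _ (hmul _ _ hPm)
  have h1 : (1 : AdjoinRoot F) ∈ Ideal.span {AdjoinRoot.mk F (Polynomial.derivative F)} :=
    htop Submodule.mem_top
  obtain ⟨g, hg⟩ := Ideal.mem_span_singleton'.mp h1
  obtain ⟨G, rfl⟩ := AdjoinRoot.mk_surjective g
  rw [← map_mul, ← map_one (AdjoinRoot.mk F), AdjoinRoot.mk_eq_mk] at hg
  obtain ⟨H, hH⟩ := hg
  refine ⟨-H, G, ?_⟩
  have : G * Polynomial.derivative F = 1 + F * H := by rw [← hH]; ring
  rw [this]
  ring

theorem RootP.residue {k : Type*} [Field k] {ℓ : ℕ} (h : RootP k ℓ) (E : Subring k)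
    [IsLocalRing E] (hint : ∀ α : k, IsIntegral E α → α ∈ E) : RootP (ResidueField E) ℓ := by
  intro f hf hs hdeg
  have hl : f ∈ Polynomial.lifts (IsLocalRing.residue E) := by
    rw [Polynomial.mem_lifts]
    exact Polynomial.map_surjective _ residue_surjective f
  obtain ⟨F, hFf, hFd, hFm⟩ := Polynomial.lifts_and_natDegree_eq_and_monic hl hf
  have hFs : F.Separable := separable_of_residue hFm (hFf ▸ hs)
  obtain ⟨a, ha⟩ := h (F.map (algebraMap E k)) (hFm.map _) (hFs.map) (by
    rw [hFm.natDegree_map, hFd]; exact hdeg)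
  have hai : IsIntegral E a := ⟨F, hFm, by
    rw [← Polynomial.eval_map]; exact ha⟩
  have haE : a ∈ E := hint a hai
  refine ⟨IsLocalRing.residue E ⟨a, haE⟩, ?_⟩
  rw [← hFf, Polynomial.IsRoot.def, Polynomial.eval_map, Polynomial.eval₂_at_apply]
  have : F.eval (⟨a, haE⟩ : E) = 0 := by
    have h1 : algebraMap E k (F.eval (⟨a, haE⟩ : E)) = 0 := by
      rw [← Polynomial.eval₂_at_apply, ← Polynomial.eval_map]
      exact ha
    exact Subtype.ext h1
  rw [this, map_zero]

end Pool.Agent.NIPFields.LG
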