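import Mathlib
import Pool.Agent.NIPFields.LG.IntClosed
import Pool.Agent.NIPFields.LG.RootExt
import Pool.Agent.NIPFields.LG.RootGerm
import Pool.Agent.NIPFields.LG.RootRes
import Pool.Agent.NIPFields.LG.RootLarge
import Pool.Agent.NIPFields.LG.Final

set_option autoImplicit false

/-!
# NIP fields of characteristic `p` with virtually pro-`ℓ` absolute Galois group
-/

namespace Pool.Agent.NIPFields.LG

open FirstOrder FirstOrder.Language FirstOrder.Ring Set Filter IsLocalRing
open Pool.Agent.NIPFields.FI

universe u v w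

/-- If the ring of bounded elements is not a valuation ring, there is a definable integrally
closed local ring with NIP residue field violating `TL`. -/
theorem LD.exists_bad_ring {p : ℕ} [hp : Fact p.Prime] {K : Type v} {k : Type u} [Field K]
    [CharP K p] [Infinite K] [Field k] [Algebra K k] [CompatibleRing k] (hk : NIP k) {ℓ : ℕ}
    (hℓ : ℓ.Prime) (hℓp : ℓ ≠ p) (D : LD K k ℓ) {y : k} (hy : y ∉ D.E {1})
    (hy' : y⁻¹ ∉ D.E {1}) :
    ∃ (E : Subring k) (_ : IsLocalRing E), (∀ a : K, algebraMap K k a ∈ E) ∧
      (∀ α : k, IsIntegral E α → α ∈ E) ∧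
      (∀ _ : CompatibleRing (ResidueField E), NIP (ResidueField E)) ∧
      ¬ TL (ResidueField E) ℓ := by
  obtain ⟨G, hloc, h1, h0, hG, hdef, hN, hT⟩ := D.exists_tower_ring hk hℓ hℓp hy hy'
  exact ⟨D.E G, hloc, D.algebraMap_mem G,
    fun α hα => D.integrally_closed hk hℓ hℓp h1 h0 hG hdef hα, hN, hT⟩

/-- A field with the root property in which not every element is an `ℓ`-th power. -/
theorem exists_definable_of_rootP {p : ℕ} [hp : Fact p.Prime] {L : Type u} [Field L]
    [CompatibleRing L] (hL : NIP L) [CharP L p] [Infinite L] {ℓ : ℕ} (hℓ : ℓ.Prime) (hℓp : ℓ ≠ p)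
    (hR : RootP L ℓ) (hnp : ∃ a : L, ∀ y, a ≠ y ^ ℓ) :
    ∃ O : ValuationSubring L, O ≠ ⊤ ∧ (univ : Set L).Definable₁ Language.ring {x | x ∈ O} := by
  have hℓL : ∀ (F : Type u) [Field F] [CharP F p], (ℓ : F) ≠ 0 := fun F _ _ h =>
    hℓp ((Nat.prime_dvd_prime_iff_eq hp.out hℓ).1 ((CharP.cast_eq_zero_iff F p ℓ).1 h)).symm
  let E := Germ (UF L : Filter (Finset L)) L
  let _ : Algebra L E := germAlg L
  let _ : CompatibleRing E := germCompat (UF L) L
  have hE : NIP E := NIP.germ hL
  have D : LD L E ℓ := ld_germ hL hℓ.ne_zero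
    (TL_of_large (large_of_rootP (p := p) hℓ hℓp hR) (hℓL L)) (by
    obtain ⟨a, ha⟩ := hnp
    refine ⟨a, ?_, ?_⟩
    · rintro rfl
      exact ha 0 (zero_pow hℓ.ne_zero).symm
    · rintro ⟨b, _, hb⟩
      exact ha b hb)
  obtain ⟨O, hO, hOdef⟩ := D.exists_definable_of_val hE hℓ hℓp fun y => by
    by_contra hcon
    rw [not_or] at hcon
    obtain ⟨S, hloc, hK, hint, _, hT⟩ := D.exists_bad_ring hE hℓ hℓp hcon.1 hcon.2
    apply hT
    let φ : L →+* ResidueField S := (residue S).comp ((algebraMap L E).codRestrict S hK)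
    have _ : CharP (ResidueField S) p := charP_of_injective_ringHom φ.injective p
    have _ : Infinite (ResidueField S) := Infinite.of_injective _ φ.injective
    have hR1 : RootP E ℓ := hR.germ
    have hR2 : RootP (ResidueField S) ℓ := hR1.residue S hint
    exact TL_of_large (large_of_rootP (p := p) hℓ hℓp hR2) (hℓL _)
  exact exists_definable_of_germ O hO hOdef

/-- Shelah's conjecture for NIP fields of characteristic `p` with virtually pro-`ℓ` absolute
Galois group. -/
theorem shelah_of_degP {p : ℕ} [hp : Fact p.Prime] {K : Type u} [Field K] [CompatibleRing K]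
    (hK : NIP K) [CharP K p] {L : Type u} [Field L] [Algebra K L] [FiniteDimensional K L] {ℓ : ℕ}
    (hℓ : ℓ.Prime) (hL : DegP L ℓ) :
    Finite K ∨ IsSepClosed K ∨ Module.finrank K (AlgebraicClosure K) = 2 ∨
      ∃ O : ValuationSubring K, O ≠ ⊤ ∧ HenselianLocalRing O ∧
        (univ : Set K).Definable₁ Language.ring {x | x ∈ O} := by
  by_cases hKf : Finite K
  · exact Or.inl hKf
  have _ : Infinite K := not_finite_iff_infinite.1 hKf
  let _ : CompatibleRing L := compatibleRingOfRing L
  have hchL : CharP L p := charP_of_injective_algebraMap (algebraMap K L).injective p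
  have hinf : Infinite L := Infinite.of_injective _ (algebraMap K L).injective
  have hLN : NIP L := hK.finite (Module.finBasis K L)
  rcases NIP.isSepClosed_or hLN p with h | ⟨L', _, _, q, hfd, hsep, hq, hqp, ha⟩
  · -- `K` has only finitely many separable extensions
    refine LC.shelah_bounded hK (Or.inl fun n _ => ?_)
    let φ : SeparableClosure K →ₐ[K] L := IsSepClosed.lift
    have _ : FiniteDimensional K (SeparableClosure K) :=
      FiniteDimensional.of_injective φ.toLinearMap φ.injective
    have hfin : Finite (IntermediateField K (SeparableClosure K)) :=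
      Field.finite_intermediateField_of_exists_primitive_element K (SeparableClosure K)
        (Field.exists_primitive_element K (SeparableClosure K))
    exact Set.toFinite _
  · have hL' : DegP L' ℓ := hL.finite hℓ L'
    have hR : RootP L' ℓ := rootP_of_degrees hℓ hL'
    let _ : CompatibleRing L' := compatibleRingOfRing L'
    have hchL' : CharP L' p := charP_of_injective_algebraMap (algebraMap L L').injective p
    have hinf' : Infinite L' := Infinite.of_injective _ (algebraMap L L').injective
    have hLN' : NIP L' := hLN.finite (Module.finBasis L L')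
    have hqℓ : q = ℓ := by
      by_contra hne
      obtain ⟨a, ha⟩ := ha
      have hq0 : (q : L') ≠ 0 := fun h => hqp
        ((Nat.prime_dvd_prime_iff_eq hp.out hq).1 ((CharP.cast_eq_zero_iff L' p q).1 h)).symm
      have ha0 : a ≠ 0 := by
        rintro rfl
        exact ha 0 (zero_pow hq.ne_zero).symm
      obtain ⟨x, hx⟩ := hR (Polynomial.X ^ q - Polynomial.C a)
        (Polynomial.monic_X_pow_sub_C _ hq.ne_zero)
        (Polynomial.separable_X_pow_sub_C a hq0 ha0) (by
          rw [Polynomial.natDegree_X_pow_sub_C]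
          exact fun h => hne ((Nat.prime_dvd_prime_iff_eq hℓ hq).1 h).symm)
      rw [Polynomial.IsRoot.def, Polynomial.eval_sub, Polynomial.eval_pow, Polynomial.eval_X,
        Polynomial.eval_C, sub_eq_zero] at hx
      exact ha x hx.symm
    subst hqℓ
    obtain ⟨O', hO'1, hO'2⟩ := exists_definable_of_rootP hLN' hq hqp hR ha
    obtain ⟨O₁, hO₁1, hO₁2⟩ := LC.exists_definable_restrict (K := L) hO'1 hO'2
    obtain ⟨O, hO1, hO2⟩ := LC.exists_definable_restrict (K := K) hO₁1 hO₁2
    exact Or.inr (Or.inr (Or.inr ⟨O, hO1, hK.henselian_of_definable p hO1 hO2, hO2⟩))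

end Pool.Agent.NIPFields.LG
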